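import Pool.Agent.helper12.RT.Defs

/-!
# RT-OpsA: multiplication operators

PROOFS.  Everything is a pointwise a.e. statement (`M_apply`, `Lp.ext`), norms: `Lp.norm_le_mul_norm_of_ae_le_mul` or
`Lp.norm_le_norm_of_ae_le`; inner products: `MeasureTheory.L2.inner_def` (`⟪u, v⟫ = ∫ ⟪u x, v x⟫`, and for complex numbers
`⟪z, w⟫ = w * conj z`; `RCLike.inner_apply` or `Complex.inner`, check the side of the conjugate).
-/

set_option autoImplicit false

open MeasureTheory FourierTransform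
open scoped ENNReal InnerProductSpace ComplexConjugate

namespace Pool.Agent.helper12.RT

variable {n : ℕ}

theorem BM.const (c : ℂ) : BM (fun _ : E n => c) := ⟨measurable_const, ‖c‖, fun _ => le_rfl⟩

theorem BM.add {p q : E n → ℂ} (hp : BM p) (hq : BM q) : BM fun x => p x + q x := by
  obtain ⟨h1, C, hC⟩ := hp
  obtain ⟨h2, D, hD⟩ := hq
  exact ⟨h1.add h2, C + D, fun x => (norm_add_le _ _).trans (add_le_add (hC x) (hD x))⟩

theorem BM.mul {p q : E n → ℂ} (hp : BM p) (hq : BM q) : BM fun x => p x * q x := by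
  obtain ⟨h1, C, hC⟩ := hp
  obtain ⟨h2, D, hD⟩ := hq
  refine ⟨h1.mul h2, C * D, fun x => ?_⟩
  rw [norm_mul]
  exact mul_le_mul (hC x) (hD x) (norm_nonneg _) ((norm_nonneg _).trans (hC x))

theorem BM.conj {p : E n → ℂ} (hp : BM p) : BM fun x => conj (p x) := by
  obtain ⟨h1, C, hC⟩ := hp
  refine ⟨Complex.continuous_conj.measurable.comp h1, C, fun x => ?_⟩
  rw [RCLike.norm_conj]
  exact hC x

theorem BMr.const (c : ℝ) : BMr (fun _ : E n => c) := ⟨measurable_const, |c|, fun _ => le_rfl⟩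

theorem BMr.add {p q : E n → ℝ} (hp : BMr p) (hq : BMr q) : BMr fun x => p x + q x := by
  obtain ⟨h1, C, hC⟩ := hp
  obtain ⟨h2, D, hD⟩ := hq
  exact ⟨h1.add h2, C + D, fun x => (abs_add_le _ _).trans (add_le_add (hC x) (hD x))⟩

theorem BMr.sub {p q : E n → ℝ} (hp : BMr p) (hq : BMr q) : BMr fun x => p x - q x := by
  obtain ⟨h1, C, hC⟩ := hp
  obtain ⟨h2, D, hD⟩ := hq
  exact ⟨h1.sub h2, C + D, fun x => (abs_sub _ _).trans (add_le_add (hC x) (hD x))⟩

theorem BMr.mul {p q : E n → ℝ} (hp : BMr p) (hq : BMr q) : BMr fun x => p x * q x := by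
  obtain ⟨h1, C, hC⟩ := hp
  obtain ⟨h2, D, hD⟩ := hq
  refine ⟨h1.mul h2, C * D, fun x => ?_⟩
  rw [abs_mul]
  exact mul_le_mul (hC x) (hD x) (abs_nonneg _) ((abs_nonneg _).trans (hC x))

theorem BMr.inv {p : E n → ℝ} (hp : BMr p) {c : ℝ} (hc : 0 < c) (h : ∀ x, c ≤ p x) :
    BMr fun x => (p x)⁻¹ := by
  refine ⟨hp.1.inv, c⁻¹, fun x => ?_⟩
  have hx : 0 < p x := hc.trans_le (h x)
  rw [abs_of_pos (inv_pos.mpr hx)]
  exact inv_anti₀ hc (h x)

theorem M_add {p q : E n → ℂ} (hp : BM p) (hq : BM q) (u : H n) :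
    M (fun x => p x + q x) u = M p u + M q u := by
  apply Lp.ext
  filter_upwards [M_apply (hp.add hq) u, M_apply hp u, M_apply hq u,
    Lp.coeFn_add (M p u) (M q u)] with x h1 h2 h3 h4
  rw [h1, h4, Pi.add_apply, h2, h3]
  ring

theorem M_mul {p q : E n → ℂ} (hp : BM p) (hq : BM q) (u : H n) :
    M (fun x => p x * q x) u = M p (M q u) := by
  apply Lp.ext
  filter_upwards [M_apply (hp.mul hq) u, M_apply hp (M q u), M_apply hq u] with x h1 h2 h3
  rw [h1, h2, h3]
  ring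

theorem M_const (c : ℂ) (u : H n) : M (fun _ => c) u = c • u := by
  apply Lp.ext
  filter_upwards [M_apply (BM.const (n := n) c) u, Lp.coeFn_smul c u] with x h1 h2
  rw [h1, h2, Pi.smul_apply, smul_eq_mul]

private theorem OpsA_bm_sum {ι : Type} (F : Finset ι) {p : ι → E n → ℂ}
    (hp : ∀ i ∈ F, BM (p i)) : BM fun x => ∑ i ∈ F, p i x := by
  classical
  induction F using Finset.induction_on with
  | empty => simpa using BM.const (n := n) 0
  | insert a F ha ih =>
    simp only [Finset.sum_insert ha]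
    exact (hp a (Finset.mem_insert_self a F)).add
      (ih fun i hi => hp i (Finset.mem_insert_of_mem hi))

theorem M_sum {ι : Type} (F : Finset ι) {p : ι → E n → ℂ} (hp : ∀ i ∈ F, BM (p i)) (u : H n) :
    M (fun x => ∑ i ∈ F, p i x) u = ∑ i ∈ F, M (p i) u := by
  classical
  induction F using Finset.induction_on with
  | empty =>
    simp only [Finset.sum_empty]
    rw [M_const, zero_smul]
  | insert a F ha ih =>
    simp only [Finset.sum_insert ha]
    rw [M_add (hp a (Finset.mem_insert_self a F))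
      (OpsA_bm_sum F fun i hi => hp i (Finset.mem_insert_of_mem hi)),
      ih fun i hi => hp i (Finset.mem_insert_of_mem hi)]

theorem M_norm_le {p : E n → ℂ} (hp : BM p) {C : ℝ} (h : ∀ x, ‖p x‖ ≤ C) (u : H n) :
    ‖M p u‖ ≤ C * ‖u‖ := by
  apply Lp.norm_le_mul_norm_of_ae_le_mul
  filter_upwards [M_apply hp u] with x h1
  rw [h1, norm_mul]
  exact mul_le_mul_of_nonneg_right (h x) (norm_nonneg _)

/-- If `|p| = 1`, then `M p` is an isometry. -/
theorem M_norm_eq {p : E n → ℂ} (hp : BM p) (h : ∀ x, ‖p x‖ = 1) (u : H n) :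
    ‖M p u‖ = ‖u‖ := by
  apply le_antisymm
  · have := M_norm_le hp (fun x => (h x).le) u
    rwa [one_mul] at this
  · apply Lp.norm_le_norm_of_ae_le
    filter_upwards [M_apply hp u] with x h1
    rw [h1, norm_mul, h x, one_mul]

theorem M_inner {p : E n → ℂ} (hp : BM p) (u v : H n) :
    ⟪M p u, v⟫_ℂ = ⟪u, M (fun x => conj (p x)) v⟫_ℂ := by
  rw [L2.inner_def, L2.inner_def]
  apply integral_congr_ae
  filter_upwards [M_apply hp u, M_apply hp.conj v] with x h1 h2
  rw [h1, h2]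
  simp only [RCLike.inner_apply, map_mul]
  ring

private theorem OpsA_Mr_def (p : E n → ℝ) : Mr p = M fun x => (p x : ℂ) := rfl

theorem Mr_add {p q : E n → ℝ} (hp : BMr p) (hq : BMr q) (u : H n) :
    Mr (fun x => p x + q x) u = Mr p u + Mr q u := by
  rw [OpsA_Mr_def, OpsA_Mr_def, OpsA_Mr_def, ← M_add hp.bm hq.bm]
  congr 2
  funext x
  push_cast
  rfl

theorem Mr_mul {p q : E n → ℝ} (hp : BMr p) (hq : BMr q) (u : H n) :
    Mr (fun x => p x * q x) u = Mr p (Mr q u) := by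
  rw [OpsA_Mr_def, OpsA_Mr_def, OpsA_Mr_def, ← M_mul hp.bm hq.bm]
  congr 2
  funext x
  push_cast
  rfl

theorem Mr_const (c : ℝ) (u : H n) : Mr (fun _ => c) u = (c : ℂ) • u := by
  rw [OpsA_Mr_def]
  exact M_const _ u

theorem Mr_norm_le {p : E n → ℝ} (hp : BMr p) {C : ℝ} (h : ∀ x, |p x| ≤ C) (u : H n) :
    ‖Mr p u‖ ≤ C * ‖u‖ := by
  rw [OpsA_Mr_def]
  refine M_norm_le hp.bm (fun x => ?_) u
  rw [Complex.norm_real]
  exact h x

theorem Mr_inner {p : E n → ℝ} (hp : BMr p) (u v : H n) :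
    ⟪Mr p u, v⟫_ℂ = ⟪u, Mr p v⟫_ℂ := by
  rw [OpsA_Mr_def, M_inner hp.bm]
  congr 3
  funext x
  exact Complex.conj_ofReal _

end Pool.Agent.helper12.RT
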