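import Pool.Agent.helper12.RT.OpsA

/-!
# RT-OpsQ: the quadratic forms `Q p u = ∫ p |u|²`

PROOFS.  `‖u x‖ ^ 2` is integrable (`Lp.memLp`, `MemLp.integrable_norm_pow` or `MeasureTheory.L2.integrable_inner`), so is
`p x * ‖u x‖ ^ 2` for `BMr p` (`Integrable.bdd_mul` or similar).  `Q_eq_inner`: `L2.inner_def`, real part of the integral
(`integral_re` / `reCLM`).  `Q_cs`: Cauchy-Schwarz for the two functions `√p u`, `√p v` (`√p` is `BMr`): `⟪Mr p u, v⟫ =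
⟪Mr √p u, Mr √p v⟫` and `‖Mr √p u‖ ^ 2 = Q p u`.  `Q_add_le`: Minkowski for `Mr √p`.
-/

set_option autoImplicit false

open MeasureTheory FourierTransform
open scoped ENNReal InnerProductSpace ComplexConjugate

namespace Pool.Agent.helper12.RT

variable {n : ℕ}

private theorem OpsQ_Mr_apply {p : E n → ℝ} (hp : BMr p) (u : H n) :
    (Mr p u : E n → ℂ) =ᵐ[volume] fun x => (p x : ℂ) * u x :=
  M_apply hp.bm u

private theorem OpsQ_sq_integrable (u : H n) :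
    Integrable (fun x => ‖u x‖ ^ 2) (volume : Measure (E n)) :=
  (memLp_two_iff_integrable_sq_norm (Lp.memLp u).1).mp (Lp.memLp u)

theorem Q_integrable {p : E n → ℝ} (hp : BMr p) (u : H n) :
    Integrable (fun x => p x * ‖u x‖ ^ 2) := by
  obtain ⟨h1, C, hC⟩ := hp
  exact (OpsQ_sq_integrable u).bdd_mul h1.aestronglyMeasurable
    (Filter.Eventually.of_forall hC)

theorem Q_eq_inner {p : E n → ℝ} (hp : BMr p) (u : H n) : Q p u = (⟪u, Mr p u⟫_ℂ).re := by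
  have h1 : ⟪u, Mr p u⟫_ℂ = ((Q p u : ℝ) : ℂ) := by
    rw [L2.inner_def, Q, ← integral_complex_ofReal]
    apply integral_congr_ae
    filter_upwards [OpsQ_Mr_apply hp u] with x hx
    rw [hx, RCLike.inner_apply, mul_assoc, Complex.mul_conj, Complex.normSq_eq_norm_sq]
    push_cast
    ring
  rw [h1, Complex.ofReal_re]

theorem Q_one (u : H n) : Q (fun _ => 1) u = ‖u‖ ^ 2 := by
  rw [Q_eq_inner (BMr.const 1) u, Mr_const, Complex.ofReal_one, one_smul]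
  exact (inner_self_eq_norm_sq (𝕜 := ℂ) u)

theorem Q_nonneg {p : E n → ℝ} (h : ∀ x, 0 ≤ p x) (u : H n) : 0 ≤ Q p u :=
  integral_nonneg fun x => mul_nonneg (h x) (by positivity)

theorem Q_mono {p q : E n → ℝ} (hp : BMr p) (hq : BMr q) (h : ∀ x, p x ≤ q x) (u : H n) :
    Q p u ≤ Q q u :=
  integral_mono (Q_integrable hp u) (Q_integrable hq u) fun x =>
    mul_le_mul_of_nonneg_right (h x) (by positivity)

theorem Q_add_fun {p q : E n → ℝ} (hp : BMr p) (hq : BMr q) (u : H n) :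
    Q (fun x => p x + q x) u = Q p u + Q q u := by
  rw [Q, Q, Q, ← integral_add (Q_integrable hp u) (Q_integrable hq u)]
  simp only [add_mul]

theorem Q_smul_fun (c : ℝ) (p : E n → ℝ) (u : H n) :
    Q (fun x => c * p x) u = c * Q p u := by
  rw [Q, Q, ← integral_const_mul]
  simp only [mul_assoc]

theorem Q_smul (c : ℂ) (p : E n → ℝ) (u : H n) : Q p (c • u) = ‖c‖ ^ 2 * Q p u := by
  rw [Q, Q, ← integral_const_mul]
  apply integral_congr_ae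
  filter_upwards [Lp.coeFn_smul c u] with x hx
  rw [hx, Pi.smul_apply, norm_smul]
  ring

/-- `∫ p |q u|² = ∫ p q² |u|²` -/
theorem Q_Mr {p q : E n → ℝ} (hq : BMr q) (u : H n) :
    Q p (Mr q u) = Q (fun x => p x * q x ^ 2) u := by
  rw [Q, Q]
  apply integral_congr_ae
  filter_upwards [OpsQ_Mr_apply hq u] with x hx
  rw [hx, norm_mul, Complex.norm_real, Real.norm_eq_abs, mul_pow, sq_abs]
  ring

theorem Q_le {p : E n → ℝ} (hp : BMr p) {C : ℝ} (h : ∀ x, p x ≤ C) (u : H n) :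
    Q p u ≤ C * ‖u‖ ^ 2 := by
  have h1 := Q_mono hp (BMr.const C) h u
  have h2 := Q_smul_fun C (fun _ => 1) u
  simp only [mul_one] at h2
  rw [h2, Q_one] at h1
  exact h1

theorem Q_ge {p : E n → ℝ} (hp : BMr p) {c : ℝ} (h : ∀ x, c ≤ p x) (u : H n) :
    c * ‖u‖ ^ 2 ≤ Q p u := by
  have h1 := Q_mono (BMr.const c) hp h u
  have h2 := Q_smul_fun c (fun _ => 1) u
  simp only [mul_one] at h2
  rw [h2, Q_one] at h1
  exact h1

private theorem OpsQ_sqrt_bmr {p : E n → ℝ} (hp : BMr p) : BMr fun x => √(p x) := by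
  obtain ⟨h1, C, hC⟩ := hp
  refine ⟨h1.sqrt, √C, fun x => ?_⟩
  rw [abs_of_nonneg (Real.sqrt_nonneg _)]
  exact Real.sqrt_le_sqrt ((le_abs_self _).trans (hC x))

private theorem OpsQ_norm_sqrt {p : E n → ℝ} (hp : BMr p) (h : ∀ x, 0 ≤ p x) (u : H n) :
    ‖Mr (fun x => √(p x)) u‖ = √(Q p u) := by
  have h1 : ‖Mr (fun x => √(p x)) u‖ ^ 2 = Q p u := by
    rw [← Q_one, Q_Mr (OpsQ_sqrt_bmr hp)]
    congr 1
    funext x
    rw [one_mul, Real.sq_sqrt (h x)]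
  rw [← h1, Real.sqrt_sq (norm_nonneg _)]

theorem Q_cs {p : E n → ℝ} (hp : BMr p) (h : ∀ x, 0 ≤ p x) (u v : H n) :
    ‖⟪Mr p u, v⟫_ℂ‖ ≤ √(Q p u) * √(Q p v) := by
  have h1 : Mr p u = Mr (fun x => √(p x)) (Mr (fun x => √(p x)) u) := by
    rw [← Mr_mul (OpsQ_sqrt_bmr hp) (OpsQ_sqrt_bmr hp)]
    congr 2
    funext x
    rw [Real.mul_self_sqrt (h x)]
  rw [h1, Mr_inner (OpsQ_sqrt_bmr hp), ← OpsQ_norm_sqrt hp h u, ← OpsQ_norm_sqrt hp h v]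
  exact norm_inner_le_norm _ _

theorem Q_add_le {p : E n → ℝ} (hp : BMr p) (h : ∀ x, 0 ≤ p x) (u v : H n) :
    √(Q p (u + v)) ≤ √(Q p u) + √(Q p v) := by
  rw [← OpsQ_norm_sqrt hp h, ← OpsQ_norm_sqrt hp h, ← OpsQ_norm_sqrt hp h, map_add]
  exact norm_add_le _ _

/-- For `0 ≤ p ≤ C`: `∫ p |u + v|² ≤ ∫ p |u|² + 2 C |u| |v| + C |v|²` (norms in `L²`). -/
theorem Q_add_le' {p : E n → ℝ} (hp : BMr p) (h : ∀ x, 0 ≤ p x) {C : ℝ} (hC : ∀ x, p x ≤ C)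
    (u v : H n) : Q p (u + v) ≤ Q p u + 2 * C * ‖u‖ * ‖v‖ + C * ‖v‖ ^ 2 := by
  have hC0 : 0 ≤ C := (h 0).trans (hC 0)
  have h1 := Q_add_le hp h u v
  have hs : ∀ w : H n, √(Q p w) ≤ √C * ‖w‖ := by
    intro w
    calc √(Q p w) ≤ √(C * ‖w‖ ^ 2) := Real.sqrt_le_sqrt (Q_le hp hC w)
      _ = √C * ‖w‖ := by rw [Real.sqrt_mul hC0, Real.sqrt_sq (norm_nonneg _)]
  have hu := hs u
  have hv := hs v
  have h2 : Q p (u + v) = √(Q p (u + v)) ^ 2 := (Real.sq_sqrt (Q_nonneg h _)).symm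
  have h3 : √(Q p u) ^ 2 = Q p u := Real.sq_sqrt (Q_nonneg h _)
  have h4 : √C ^ 2 = C := Real.sq_sqrt hC0
  have h5 : 0 ≤ √(Q p (u + v)) := Real.sqrt_nonneg _
  have h6 : 0 ≤ √(Q p u) := Real.sqrt_nonneg _
  have h7 : 0 ≤ √(Q p v) := Real.sqrt_nonneg _
  have h8 : √(Q p (u + v)) ^ 2 ≤ (√(Q p u) + √(Q p v)) ^ 2 := pow_le_pow_left₀ h5 h1 2
  have h9 : √(Q p u) * √(Q p v) ≤ (√C * ‖u‖) * (√C * ‖v‖) :=
    mul_le_mul hu hv h7 (by positivity)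
  have h10 : √(Q p v) ^ 2 ≤ (√C * ‖v‖) ^ 2 := pow_le_pow_left₀ h7 hv 2
  have h11 : (√C * ‖u‖) * (√C * ‖v‖) = C * ‖u‖ * ‖v‖ := by
    calc (√C * ‖u‖) * (√C * ‖v‖) = √C ^ 2 * ‖u‖ * ‖v‖ := by ring
      _ = C * ‖u‖ * ‖v‖ := by rw [h4]
  have h12 : (√C * ‖v‖) ^ 2 = C * ‖v‖ ^ 2 := by rw [mul_pow, h4]
  rw [h11] at h9
  rw [h12] at h10
  rw [h2]
  calc √(Q p (u + v)) ^ 2 ≤ (√(Q p u) + √(Q p v)) ^ 2 := h8
    _ = √(Q p u) ^ 2 + 2 * (√(Q p u) * √(Q p v)) + √(Q p v) ^ 2 := by ring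
    _ ≤ Q p u + 2 * (C * ‖u‖ * ‖v‖) + C * ‖v‖ ^ 2 := by
        rw [h3]
        gcongr
    _ = Q p u + 2 * C * ‖u‖ * ‖v‖ + C * ‖v‖ ^ 2 := by ring

end Pool.Agent.helper12.RT
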