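import Pool.Agent.helper12.RT.OpsA

/-!
# RT-OpsT: Fourier multipliers

PROOFS.  `T m u = 𝓕⁻ (M m (𝓕 u))` (`T_apply`), so everything follows from `OpsA` and the fact that `𝓕` is a linear isometric
bijection of `H n` (`fourierInv_fourier_eq`, `fourier_fourierInv_eq`, `Lp.norm_fourier_eq`, `Lp.inner_fourier_eq`; for `𝓕⁻` use
`(Lp.fourierTransformₗᵢ (E n) ℂ).symm`).
-/

set_option autoImplicit false

open MeasureTheory FourierTransform
open scoped ENNReal InnerProductSpace ComplexConjugate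

namespace Pool.Agent.helper12.RT

variable {n : ℕ}

private theorem OpsT_eq (m : E n → ℂ) (u : H n) :
    T m u = (Lp.fourierTransformₗᵢ (E n) ℂ).symm
      (M m (Lp.fourierTransformₗᵢ (E n) ℂ u)) := rfl

theorem fourier_T (m : E n → ℂ) (u : H n) : (𝓕 (T m u) : H n) = M m (𝓕 u) :=
  (Lp.fourierTransformₗᵢ (E n) ℂ).apply_symm_apply _

theorem T_add {m m' : E n → ℂ} (hm : BM m) (hm' : BM m') (u : H n) :
    T (fun ξ => m ξ + m' ξ) u = T m u + T m' u := by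
  rw [OpsT_eq, OpsT_eq, OpsT_eq, M_add hm hm', map_add]

theorem T_mul {m m' : E n → ℂ} (hm : BM m) (hm' : BM m') (u : H n) :
    T (fun ξ => m ξ * m' ξ) u = T m (T m' u) := by
  rw [OpsT_eq, OpsT_eq m, OpsT_eq m', M_mul hm hm', LinearIsometryEquiv.apply_symm_apply]

theorem T_const (c : ℂ) (u : H n) : T (fun _ => c) u = c • u := by
  rw [OpsT_eq, M_const, map_smul, LinearIsometryEquiv.symm_apply_apply]

theorem T_norm_le {m : E n → ℂ} (hm : BM m) {C : ℝ} (h : ∀ ξ, ‖m ξ‖ ≤ C) (u : H n) :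
    ‖T m u‖ ≤ C * ‖u‖ := by
  rw [OpsT_eq, LinearIsometryEquiv.norm_map]
  have h1 := M_norm_le hm h (Lp.fourierTransformₗᵢ (E n) ℂ u)
  rwa [LinearIsometryEquiv.norm_map] at h1

theorem T_inner {m : E n → ℂ} (hm : BM m) (u v : H n) :
    ⟪T m u, v⟫_ℂ = ⟪u, T (fun ξ => conj (m ξ)) v⟫_ℂ := by
  have h1 : ⟪T m u, v⟫_ℂ = ⟪M m (Lp.fourierTransformₗᵢ (E n) ℂ u),
      Lp.fourierTransformₗᵢ (E n) ℂ v⟫_ℂ := by
    rw [← LinearIsometryEquiv.inner_map_map (Lp.fourierTransformₗᵢ (E n) ℂ) (T m u) v, OpsT_eq,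
      LinearIsometryEquiv.apply_symm_apply]
  have h2 : ⟪u, T (fun ξ => conj (m ξ)) v⟫_ℂ = ⟪Lp.fourierTransformₗᵢ (E n) ℂ u,
      M (fun ξ => conj (m ξ)) (Lp.fourierTransformₗᵢ (E n) ℂ v)⟫_ℂ := by
    rw [← LinearIsometryEquiv.inner_map_map (Lp.fourierTransformₗᵢ (E n) ℂ) u, OpsT_eq,
      LinearIsometryEquiv.apply_symm_apply]
  rw [h1, h2]
  exact M_inner hm _ _

theorem Tr_add {m m' : E n → ℝ} (hm : BMr m) (hm' : BMr m') (u : H n) :
    Tr (fun ξ => m ξ + m' ξ) u = Tr m u + Tr m' u := by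
  unfold Tr
  rw [← T_add hm.bm hm'.bm]
  congr 1
  congr 1
  funext ξ
  push_cast
  rfl

theorem Tr_mul {m m' : E n → ℝ} (hm : BMr m) (hm' : BMr m') (u : H n) :
    Tr (fun ξ => m ξ * m' ξ) u = Tr m (Tr m' u) := by
  unfold Tr
  rw [← T_mul hm.bm hm'.bm]
  congr 1
  congr 1
  funext ξ
  push_cast
  rfl

theorem Tr_comm {m m' : E n → ℝ} (hm : BMr m) (hm' : BMr m') (u : H n) :
    Tr m (Tr m' u) = Tr m' (Tr m u) := by
  rw [← Tr_mul hm hm', ← Tr_mul hm' hm]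
  congr 1
  congr 1
  funext ξ
  ring

theorem Tr_const (c : ℝ) (u : H n) : Tr (fun _ => c) u = (c : ℂ) • u :=
  T_const (c : ℂ) u

theorem Tr_norm_le {m : E n → ℝ} (hm : BMr m) {C : ℝ} (h : ∀ ξ, |m ξ| ≤ C) (u : H n) :
    ‖Tr m u‖ ≤ C * ‖u‖ := by
  apply T_norm_le hm.bm
  intro ξ
  rw [Complex.norm_real]
  exact h ξ

theorem Tr_inner {m : E n → ℝ} (hm : BMr m) (u v : H n) :
    ⟪Tr m u, v⟫_ℂ = ⟪u, Tr m v⟫_ℂ := by
  unfold Tr
  rw [T_inner hm.bm]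
  congr 1
  congr 1
  congr 1
  funext ξ
  exact Complex.conj_ofReal _

end Pool.Agent.helper12.RT
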