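import Pool.Agent.helper12.RT.Spec
import Pool.Agent.helper12.RT.OpsT

/-!
# RT: the two forms of the norm inequality
-/

set_option autoImplicit false

open MeasureTheory FourierTransform
open scoped ENNReal InnerProductSpace SchwartzMap

namespace Pool.Agent.helper12.RT

variable {n : ℕ}

theorem td_apply (g : H n) (φ : 𝓢(E n, ℂ)) :
    Lp.toTemperedDistribution g φ = ∫ x, φ x * g x := by
  rw [Lp.toTemperedDistribution_apply]
  rfl

theorem td_inj {g h : H n} (H1 : ∀ φ : 𝓢(E n, ℂ), ∫ x, φ x * g x = ∫ x, φ x * h x) : g = h := by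
  have h1 : Lp.toTemperedDistributionCLM ℂ (volume : Measure (E n)) 2 (g - h) = 0 := by
    rw [map_sub, sub_eq_zero]
    ext φ
    rw [Lp.toTemperedDistributionCLM_apply, Lp.toTemperedDistributionCLM_apply, td_apply,
      td_apply, H1]
  have h2 : g - h ∈ (Lp.toTemperedDistributionCLM ℂ (volume : Measure (E n)) 2).ker := h1
  rw [Lp.ker_toTemperedDistributionCLM_eq_bot] at h2
  exact sub_eq_zero.1 h2

theorem td_fourier (g : H n) (φ : 𝓢(E n, ℂ)) :
    ∫ ξ, φ ξ * (𝓕 g : H n) ξ = ∫ x, ft φ x * g x := by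
  have h1 := Lp.fourier_toTemperedDistribution_eq g
  have h2 := congrArg (fun t => t φ) h1
  simp only [TemperedDistribution.fourier_apply, td_apply] at h2
  rw [← h2]
  rfl

theorem isFourier_iff {u U : E n → ℂ} :
    IsFourier u U ↔ ∃ g : H n, (g : E n → ℂ) =ᵐ[volume] u ∧ ((𝓕 g : H n) : E n → ℂ) =ᵐ[volume] U := by
  constructor
  · rintro ⟨hu, hU, h⟩
    refine ⟨hu.toLp u, hu.coeFn_toLp, ?_⟩
    have h1 : (𝓕 (hu.toLp u) : H n) = hU.toLp U := by
      apply td_inj
      intro φ
      rw [td_fourier]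
      have h2 : ∫ x, ft φ x * (hu.toLp u) x = ∫ x, ft φ x * u x := by
        apply integral_congr_ae
        filter_upwards [hu.coeFn_toLp] with x hx
        rw [hx]
      have h3 : ∫ x, φ x * (hU.toLp U) x = ∫ x, φ x * U x := by
        apply integral_congr_ae
        filter_upwards [hU.coeFn_toLp] with x hx
        rw [hx]
      rw [h2, h3, h]
    rw [h1]
    exact hU.coeFn_toLp
  · rintro ⟨g, hg, hG⟩
    refine ⟨(memLp_congr_ae hg).1 (Lp.memLp g), (memLp_congr_ae hG).1 (Lp.memLp _), fun φ => ?_⟩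
    have h2 : ∫ x, ft φ x * g x = ∫ x, ft φ x * u x := by
      apply integral_congr_ae
      filter_upwards [hg] with x hx
      rw [hx]
    have h3 : ∫ x, φ x * (𝓕 g : H n) x = ∫ x, φ x * U x := by
      apply integral_congr_ae
      filter_upwards [hG] with x hx
      rw [hx]
    rw [← h2, ← h3]
    exact td_fourier g φ

theorem normAtMost_iff {m : E n → ℂ} (hm : BM m) {σ ω : Measure (E n)} {N : ℝ}
    (hω : ω ≪ volume) :
    NormAtMost m σ ω N ↔ NormLe (T m) σ ω N := by
  constructor
  · intro h f hf u hu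
    refine h f u (T m u) (𝓕 u : H n) hf hu ?_ ?_
    · exact isFourier_iff.2 ⟨u, Filter.EventuallyEq.rfl, Filter.EventuallyEq.rfl⟩
    · refine isFourier_iff.2 ⟨T m u, Filter.EventuallyEq.rfl, ?_⟩
      rw [fourier_T]
      exact M_apply hm (𝓕 u : H n)
  · intro h f u v U hf hu hU hV
    obtain ⟨g, hg, hG⟩ := isFourier_iff.1 hU
    obtain ⟨k, hk, hK⟩ := isFourier_iff.1 hV
    have h1 : (𝓕 k : H n) = 𝓕 (T m g) := by
      rw [fourier_T]
      apply Lp.ext
      filter_upwards [hK, hG, M_apply hm (𝓕 g : H n)] with ξ h1 h2 h3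
      rw [h1, h3, h2]
    have h2 : k = T m g := by
      have h3 := congrArg (fun z : H n => (𝓕⁻ z : H n)) h1
      simpa only [FourierTransform.fourierInv_fourier_eq] using h3
    have h3 : ∀ B : Set (E n), MeasurableSet B → Bornology.IsBounded B →
        ∫ x in B, f x ∂σ = ∫ x in B, g x := by
      intro B hB hB'
      rw [hu B hB hB']
      apply integral_congr_ae
      exact ae_restrict_of_ae (hg.mono fun x hx => hx.symm)
    have h4 := h f hf g h3
    have h5 : eLpNorm v 2 ω = eLpNorm k 2 ω := by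
      apply eLpNorm_congr_ae
      exact hω.ae_eq hk.symm
    rw [h5, h2]
    exact h4

end Pool.Agent.helper12.RT
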