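import Pool.Agent.helper12.RT.TPa

/-!
# RT-Comm: commutators of trigonometric polynomials and Fourier multipliers with Lipschitz symbols

PROOFS.  For `p = ∑ c_ν e_ν`: `T χ (M (e ν) u) = M (e ν) (T (χ(· + ν)) u)` (`weyl`), so
`T χ (M (e ν) u) - M (e ν) (T χ u) = M (e ν) (T (χ(· + ν) - χ) u)` has norm at most `ℓ ‖ν‖ ‖u‖`; `C = ∑ ‖c_ν‖ ‖ν‖`.
`comm_cs`: write `q cs = (1/2) q e_(lam d) + (1/2) q e_(-lam d)` (`cs_eq`).  By periodicity `T χ` commutes with `M (e (± lam d))`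
(`weyl`), so `[T χ, M (q e_(lam d))] = [T χ, M q] M (e_(lam d))`, of norm at most `C_q ℓ` (`M_norm_eq`).
-/

set_option autoImplicit false

open MeasureTheory FourierTransform
open scoped ENNReal InnerProductSpace ComplexConjugate

namespace Pool.Agent.helper12.RT

variable {n : ℕ}

theorem Comm_M_const_mul (c : ℂ) (ν : E n) (u : H n) :
    M (fun x => c * e ν x) u = c • M (e ν) u := by
  rw [M_mul (BM.const c) (e_bm ν), M_const]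

theorem Comm_Mr_sum {p : E n → ℝ} {F : Finset (E n)} {c : E n → ℂ}
    (hp : ∀ x, (p x : ℂ) = ∑ ν ∈ F, c ν * e ν x) (u : H n) :
    Mr p u = ∑ ν ∈ F, c ν • M (e ν) u := by
  have h : (fun x => (p x : ℂ)) = fun x => ∑ ν ∈ F, (fun ν x => c ν * e ν x) ν x := by
    funext x
    exact hp x
  unfold Mr
  rw [h, M_sum F (fun ν _ => (BM.const (c ν)).mul (e_bm ν)) u]
  exact Finset.sum_congr rfl fun ν _ => Comm_M_const_mul (c ν) ν u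

theorem Comm_shift {χ : E n → ℝ} (hχ : BMr χ) (ν : E n) : BMr fun ξ => χ (ξ + ν) := by
  obtain ⟨h1, C, hC⟩ := hχ
  exact ⟨h1.comp (measurable_id.add_const ν), C, fun ξ => hC _⟩

/-- The commutator with one character. -/
theorem Comm_e {χ : E n → ℝ} {l : ℝ} (hχ : BMr χ)
    (hlip : ∀ ξ ζ, |χ ξ - χ ζ| ≤ l * ‖ξ - ζ‖) (ν : E n) (u : H n) :
    ‖Tr χ (M (e ν) u) - M (e ν) (Tr χ u)‖ ≤ l * ‖ν‖ * ‖u‖ := by
  have h1 : Tr χ (M (e ν) u) = M (e ν) (Tr (fun ξ => χ (ξ + ν)) u) := weyl hχ.bm ν u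
  have hd : BMr fun ξ => χ (ξ + ν) - χ ξ := (Comm_shift hχ ν).sub hχ
  have h2 : Tr (fun ξ => χ (ξ + ν)) u = Tr (fun ξ => χ (ξ + ν) - χ ξ) u + Tr χ u := by
    rw [← Tr_add hd hχ u]
    congr 2
    funext ξ
    ring
  rw [h1, h2, map_add, add_sub_cancel_right, M_norm_eq (e_bm ν) (e_norm ν)]
  refine Tr_norm_le hd (fun ξ => ?_) u
  have h3 := hlip (ξ + ν) ξ
  rwa [add_sub_cancel_left] at h3

/-- A periodic multiplier commutes with the character. -/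
theorem Comm_per {χ : E n → ℝ} (hχ : BMr χ) {ν : E n} (hν : ∀ ξ, χ (ξ + ν) = χ ξ) (u : H n) :
    Tr χ (M (e ν) u) = M (e ν) (Tr χ u) := by
  have h1 : Tr χ (M (e ν) u) = M (e ν) (Tr (fun ξ => χ (ξ + ν)) u) := weyl hχ.bm ν u
  rw [h1]
  congr 3
  funext ξ
  exact hν ξ

theorem Comm_cs_bmr (d : E n) (lam : ℝ) : BMr (cs d lam) := by
  refine ⟨?_, 1, fun x => cs_abs d lam x⟩
  unfold cs
  have : Continuous fun x : E n => Real.cos (2 * Real.pi * lam * ⟪d, x⟫_ℝ) := by fun_prop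
  exact this.measurable

theorem Comm_Mr_cs (d : E n) (lam : ℝ) (u : H n) :
    Mr (cs d lam) u = (1 / 2 : ℂ) • M (e (lam • d)) u + (1 / 2 : ℂ) • M (e (-(lam • d))) u := by
  have h : (fun x => (cs d lam x : ℂ)) =
      fun x => (1 / 2 : ℂ) * e (lam • d) x + (1 / 2 : ℂ) * e (-(lam • d)) x := by
    funext x
    exact cs_eq d lam x
  unfold Mr
  rw [h, M_add ((BM.const _).mul (e_bm _)) ((BM.const _).mul (e_bm _)), Comm_M_const_mul,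
    Comm_M_const_mul]

theorem comm_TPr {K : ℝ} {p : E n → ℝ} (hp : TPr K p) :
    ∃ C : ℝ, 0 ≤ C ∧ ∀ (χ : E n → ℝ) (l : ℝ), BMr χ → 0 ≤ l →
      (∀ ξ ζ, |χ ξ - χ ζ| ≤ l * ‖ξ - ζ‖) →
      ∀ u : H n, ‖Tr χ (Mr p u) - Mr p (Tr χ u)‖ ≤ C * l * ‖u‖ := by
  obtain ⟨F, c, -, hc⟩ := hp
  refine ⟨∑ ν ∈ F, ‖c ν‖ * ‖ν‖, Finset.sum_nonneg fun ν _ => by positivity, ?_⟩
  intro χ l hχ hl hlip u
  rw [Comm_Mr_sum hc, Comm_Mr_sum hc, map_sum, ← Finset.sum_sub_distrib, Finset.sum_mul,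
    Finset.sum_mul]
  refine (norm_sum_le _ _).trans (Finset.sum_le_sum fun ν _ => ?_)
  rw [map_smul, ← smul_sub, norm_smul]
  calc ‖c ν‖ * ‖Tr χ (M (e ν) u) - M (e ν) (Tr χ u)‖ ≤ ‖c ν‖ * (l * ‖ν‖ * ‖u‖) :=
        mul_le_mul_of_nonneg_left (Comm_e hχ hlip ν u) (norm_nonneg _)
    _ = ‖c ν‖ * ‖ν‖ * l * ‖u‖ := by ring

theorem comm_cs {K : ℝ} {q : E n → ℝ} (hq : TPr K q) :
    ∃ C : ℝ, 0 ≤ C ∧ ∀ (d : E n) (lam : ℝ) (χ : E n → ℝ) (l : ℝ), BMr χ → 0 ≤ l →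
      (∀ ξ ζ, |χ ξ - χ ζ| ≤ l * ‖ξ - ζ‖) → (∀ ξ, χ (ξ + lam • d) = χ ξ) →
      ∀ u : H n, ‖Tr χ (Mr (fun x => q x * cs d lam x) u) -
        Mr (fun x => q x * cs d lam x) (Tr χ u)‖ ≤ C * l * ‖u‖ := by
  obtain ⟨C, hC, h⟩ := comm_TPr hq
  refine ⟨C, hC, ?_⟩
  intro d lam χ l hχ hl hlip hper u
  have hper' : ∀ ξ, χ (ξ + -(lam • d)) = χ ξ := by
    intro ξ
    have := hper (ξ + -(lam • d))
    rw [neg_add_cancel_right] at this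
    exact this.symm
  rw [Mr_mul hq.bmr (Comm_cs_bmr d lam), Mr_mul hq.bmr (Comm_cs_bmr d lam), Comm_Mr_cs, Comm_Mr_cs]
  simp only [map_add, map_smul]
  rw [← Comm_per hχ hper, ← Comm_per hχ hper']
  have h1 := h χ l hχ hl hlip (M (e (lam • d)) u)
  have h2 := h χ l hχ hl hlip (M (e (-(lam • d))) u)
  rw [M_norm_eq (e_bm _) (e_norm _)] at h1 h2
  have e1 : (1 / 2 : ℂ) • Tr χ (Mr q (M (e (lam • d)) u)) +
      (1 / 2 : ℂ) • Tr χ (Mr q (M (e (-(lam • d))) u)) -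
      ((1 / 2 : ℂ) • Mr q (Tr χ (M (e (lam • d)) u)) +
      (1 / 2 : ℂ) • Mr q (Tr χ (M (e (-(lam • d))) u))) =
      (1 / 2 : ℂ) • (Tr χ (Mr q (M (e (lam • d)) u)) - Mr q (Tr χ (M (e (lam • d)) u))) +
      (1 / 2 : ℂ) • (Tr χ (Mr q (M (e (-(lam • d))) u)) - Mr q (Tr χ (M (e (-(lam • d))) u))) := by
    rw [smul_sub, smul_sub]
    abel
  rw [e1]
  refine (norm_add_le _ _).trans ?_
  rw [norm_smul, norm_smul]
  have e2 : ‖(1 / 2 : ℂ)‖ = 1 / 2 := by norm_num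
  rw [e2]
  linarith

end Pool.Agent.helper12.RT
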