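import Pool.Agent.helper12.RT.Doub

/-!
# RT-DoubB: the doubling constants do not increase

PROOF.
* `doub_step`: `σ = s dx`, `σ₁ = s₁ dx`, `s₁ = s (1 + a cs)`; `s a = ∑ q_ν e_ν` (frequencies at most `2 K`, `A = ∑ |q_ν|`), `c ≤ s`, `Ls` = Lipschitz constant of `s`.
  Let `Q = cube x r`, `0 < η ≤ 1 / 7` small, `lam` large.
  (a) `r ≥ lam ^ (-1/2)`: for every cube with this property `|∫_Q s a cs| ≤ A (2 r)^n (√n + 1) / (r (lam - 2 K)) ≤ η c (2 r)^n ≤ η σ(Q)` (`cs_eq`,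
  `int_e_cube`), so `(1 - η) σ(Q) ≤ σ₁(Q) ≤ (1 + η) σ(Q)`, the same for `2 Q`, and
  `σ₁(2Q) ≤ (1 + η) D σ(Q) ≤ ((1 + η) / (1 - η)) D σ₁(Q) ≤ (D + ε) σ₁(Q)` (as real numbers; all measures of cubes are finite).
  (b) `r < lam ^ (-1/2)`: on `2 Q` `|s y - s x| ≤ Ls * 2 √n r ≤ η c ≤ η s x`, so `s₁ ≤ (3/2) (1 + η) s x` and `s₁ ≥ (1/2) (1 - η) s x`, hence
  `σ₁(2Q) ≤ (3/2) (1 + η) s x (4 r)^n` and `σ₁(Q) ≥ (1/2) (1 - η) s x (2 r)^n`: the quotient is at most `3 * 2^n * (1 + η) / (1 - η) ≤ 2 ^ (n + 2)`.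
  (If `n = 0` everything is trivial: all cubes are equal to the one-point space, `D ≥ 1` ... or use (b).)
-/

set_option autoImplicit false

open MeasureTheory FourierTransform
open scoped ENNReal InnerProductSpace ComplexConjugate

namespace Pool.Agent.helper12.RT

variable {n : ℕ}

private theorem DoubB_int {s : E n → ℝ} (hs : BMr s) (x : E n) {r : ℝ} (hr : 0 < r) :
    IntegrableOn s (cube x r) volume := by
  obtain ⟨h1, C, hC⟩ := hs
  have hfin : volume (cube x r) ≠ ∞ := by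
    rw [cube_vol x hr]
    exact ENNReal.ofReal_ne_top
  exact Measure.integrableOn_of_bounded (M := C) hfin h1.aestronglyMeasurable
    (Filter.Eventually.of_forall hC)

private theorem DoubB_intC {p : E n → ℂ} (hp : BM p) (x : E n) {r : ℝ} (hr : 0 < r) :
    IntegrableOn p (cube x r) volume := by
  obtain ⟨h1, C, hC⟩ := hp
  have hfin : volume (cube x r) ≠ ∞ := by
    rw [cube_vol x hr]
    exact ENNReal.ofReal_ne_top
  exact Measure.integrableOn_of_bounded (M := C) hfin h1.aestronglyMeasurable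
    (Filter.Eventually.of_forall hC)

private theorem DoubB_dens {s : E n → ℝ} (hs : BMr s) (h0 : ∀ x, 0 ≤ s x) (x : E n) {r : ℝ}
    (hr : 0 < r) : dens s (cube x r) = ENNReal.ofReal (∫ y in cube x r, s y) := by
  rw [dens, withDensity_apply _ (cube_meas x r),
    ofReal_integral_eq_lintegral_ofReal (DoubB_int hs x hr) (Filter.Eventually.of_forall h0)]

private theorem DoubB_iff {s : E n → ℝ} (hs : BMr s) (h0 : ∀ x, 0 ≤ s x) {C : ℝ} (hC : 0 ≤ C) :
    DoublingLe (dens s) C ↔ ∀ (x : E n) (r : ℝ), 0 < r →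
      ∫ y in cube x (2 * r), s y ≤ C * ∫ y in cube x r, s y := by
  refine forall_congr' fun x => forall_congr' fun r => forall_congr' fun hr => ?_
  have hr2 : 0 < 2 * r := by positivity
  rw [DoubB_dens hs h0 x hr2, DoubB_dens hs h0 x hr, ← ENNReal.ofReal_mul hC,
    ENNReal.ofReal_le_ofReal_iff]
  exact mul_nonneg hC (integral_nonneg h0)

private theorem DoubB_const (m : ℝ) (x : E n) {r : ℝ} (hr : 0 < r) :
    ∫ _ in cube x r, m = m * (2 * r) ^ n := by
  have hr2 : 0 ≤ (2 * r) ^ n := by positivity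
  rw [setIntegral_const, measureReal_def, cube_vol x hr, ENNReal.toReal_ofReal hr2, smul_eq_mul,
    mul_comm]

private theorem DoubB_bmc (m : ℝ) : BMr fun _ : E n => m :=
  ⟨measurable_const, |m|, fun _ => le_rfl⟩

private theorem DoubB_lb {s : E n → ℝ} (hs : BMr s) {m : ℝ} (x : E n) {r : ℝ} (hr : 0 < r)
    (h : ∀ y ∈ cube x r, m ≤ s y) : m * (2 * r) ^ n ≤ ∫ y in cube x r, s y := by
  rw [← DoubB_const m x hr]
  exact setIntegral_mono_on (DoubB_int (DoubB_bmc m) x hr) (DoubB_int hs x hr) (cube_meas x r) h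

private theorem DoubB_ub {s : E n → ℝ} (hs : BMr s) {m : ℝ} (x : E n) {r : ℝ} (hr : 0 < r)
    (h : ∀ y ∈ cube x r, s y ≤ m) : ∫ y in cube x r, s y ≤ m * (2 * r) ^ n := by
  rw [← DoubB_const m x hr]
  exact setIntegral_mono_on (DoubB_int hs x hr) (DoubB_int (DoubB_bmc m) x hr) (cube_meas x r) h

private theorem DoubB_osc {K : ℝ} {p : E n → ℝ} (hp : TPr K p) {d : E n} (hd : ‖d‖ = 1) :
    ∃ A : ℝ, 0 ≤ A ∧ ∀ lam : ℝ, 0 < lam → K < lam → ∀ (x : E n) (r : ℝ), 0 < r →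
      |∫ y in cube x r, p y * cs d lam y| ≤
        A * ((2 * r) ^ n * (√n / (r * (lam - K)))) := by
  obtain ⟨F, q, h1, h2'⟩ := hp
  have h2 : ∀ x, (p x : ℂ) = ∑ ν ∈ F, q ν * e ν x := h2'
  refine ⟨∑ ν ∈ F, ‖q ν‖, Finset.sum_nonneg fun _ _ => norm_nonneg _, ?_⟩
  intro lam hlam hK x r hr
  have hpt : ∀ y, ((p y * cs d lam y : ℝ) : ℂ) = ∑ ν ∈ F,
      (q ν / 2 * e (ν + lam • d) y + q ν / 2 * e (ν + -(lam • d)) y) := by
    intro y
    rw [Complex.ofReal_mul, h2 y, cs_eq, Finset.sum_mul]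
    refine Finset.sum_congr rfl fun ν _ => ?_
    rw [← e_mul, ← e_mul]
    ring
  have hi : ∀ ζ : E n, ∀ c : ℂ, IntegrableOn (fun y => c * e ζ y) (cube x r) volume :=
    fun ζ c => (DoubB_intC (e_bm ζ) x hr).const_mul c
  have hi2 : ∀ ν : E n, IntegrableOn (fun y => q ν / 2 * e (ν + lam • d) y +
      q ν / 2 * e (ν + -(lam • d)) y) (cube x r) volume := fun ν => (hi _ _).add (hi _ _)
  have h3 : ((∫ y in cube x r, p y * cs d lam y : ℝ) : ℂ) = ∑ ν ∈ F,
      (q ν / 2 * ∫ y in cube x r, e (ν + lam • d) y) +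
        ∑ ν ∈ F, (q ν / 2 * ∫ y in cube x r, e (ν + -(lam • d)) y) := by
    rw [← integral_complex_ofReal, integral_congr_ae (Filter.Eventually.of_forall hpt),
      integral_finset_sum _ fun ν _ => hi2 ν, ← Finset.sum_add_distrib]
    refine Finset.sum_congr rfl fun ν _ => ?_
    rw [integral_add (hi _ _) (hi _ _), integral_const_mul, integral_const_mul]
  have hnd : ‖lam • d‖ = lam := by
    rw [norm_smul, hd, mul_one, Real.norm_eq_abs, abs_of_pos hlam]
  have hb : ∀ ζ : E n, lam - K ≤ ‖ζ‖ → ‖∫ y in cube x r, e ζ y‖ ≤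
      (2 * r) ^ n * (√n / (r * (lam - K))) := by
    intro ζ hζ
    have hK0 : 0 < lam - K := by linarith
    have hζ0 : ζ ≠ 0 := by
      rintro rfl
      rw [norm_zero] at hζ
      linarith
    refine (int_e_cube x hr hζ0).trans ?_
    refine mul_le_mul_of_nonneg_left ?_ (by positivity)
    refine div_le_div_of_nonneg_left (Real.sqrt_nonneg _) (by positivity) ?_
    exact mul_le_mul_of_nonneg_left hζ hr.le
  have hb1 : ∀ ν ∈ F, lam - K ≤ ‖ν + lam • d‖ := by
    intro ν hν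
    have h4 := norm_sub_le (ν + lam • d) ν
    rw [add_sub_cancel_left, hnd] at h4
    have := h1 ν hν
    linarith
  have hb2 : ∀ ν ∈ F, lam - K ≤ ‖ν + -(lam • d)‖ := by
    intro ν hν
    have h4 := norm_sub_le ν (ν + -(lam • d))
    rw [sub_add_cancel_left, neg_neg, hnd] at h4
    have := h1 ν hν
    linarith
  rw [← Real.norm_eq_abs, ← Complex.norm_real, h3]
  refine (norm_add_le _ _).trans ?_
  have h5 : ‖∑ ν ∈ F, (q ν / 2 * ∫ y in cube x r, e (ν + lam • d) y)‖ ≤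
      ∑ ν ∈ F, ‖q ν‖ / 2 * ((2 * r) ^ n * (√n / (r * (lam - K)))) := by
    refine norm_sum_le_of_le _ fun ν hν => ?_
    rw [norm_mul, norm_div]
    have h6 : ‖(2 : ℂ)‖ = 2 := by simp
    rw [h6]
    exact mul_le_mul_of_nonneg_left (hb _ (hb1 ν hν)) (by positivity)
  have h5' : ‖∑ ν ∈ F, (q ν / 2 * ∫ y in cube x r, e (ν + -(lam • d)) y)‖ ≤
      ∑ ν ∈ F, ‖q ν‖ / 2 * ((2 * r) ^ n * (√n / (r * (lam - K)))) := by
    refine norm_sum_le_of_le _ fun ν hν => ?_
    rw [norm_mul, norm_div]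
    have h6 : ‖(2 : ℂ)‖ = 2 := by simp
    rw [h6]
    exact mul_le_mul_of_nonneg_left (hb _ (hb2 ν hν)) (by positivity)
  refine (add_le_add h5 h5').trans (le_of_eq ?_)
  rw [← Finset.sum_mul, ← Finset.sum_div]
  ring

private theorem DoubB_norm {x y : E n} {t : ℝ} (ht : 0 ≤ t) (h : y ∈ cube x t) :
    ‖y - x‖ ≤ √n * t := by
  rw [EuclideanSpace.norm_eq]
  have h1 : ∑ i, ‖(y - x) i‖ ^ 2 ≤ (n : ℝ) * t ^ 2 := by
    have h2 : ∑ i : Fin n, ‖(y - x) i‖ ^ 2 ≤ ∑ _i : Fin n, t ^ 2 := by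
      refine Finset.sum_le_sum fun i _ => ?_
      have h3 : ‖(y - x) i‖ ≤ t := by
        rw [Real.norm_eq_abs]
        exact h i
      exact pow_le_pow_left₀ (norm_nonneg _) h3 2
    refine h2.trans (le_of_eq ?_)
    rw [Finset.sum_const, Finset.card_univ, Fintype.card_fin, nsmul_eq_mul]
  refine (Real.sqrt_le_sqrt h1).trans (le_of_eq ?_)
  rw [Real.sqrt_mul (Nat.cast_nonneg n), Real.sqrt_sq ht]

theorem doub_step {K : ℝ} {s a : E n → ℝ} (hs : TPr K s) (ha : TPr K a) {c : ℝ} (hc : 0 < c)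
    (hs0 : ∀ x, c ≤ s x) (ha1 : ∀ x, |a x| ≤ 1 / 2) {D : ℝ} (hD : 2 ^ (n + 3) ≤ D)
    (h : DoublingLe (dens s) D) {d : E n} (hd : ‖d‖ = 1) :
    ∀ ε > 0, ∃ lam₀ : ℝ, ∀ lam ≥ lam₀,
      DoublingLe (dens fun x => s x * (1 + a x * cs d lam x)) (D + ε) := by
  intro ε hε
  obtain ⟨A, hA0, hA⟩ := DoubB_osc (TPr.mul hs ha) hd
  obtain ⟨Ls, hL0, hL⟩ := TPr.lipschitz hs
  have hD0 : 0 < D := lt_of_lt_of_le (by positivity) hD
  obtain ⟨η, hη⟩ : ∃ η : ℝ, η = min (1 / 7) (ε / (2 * D + ε)) := ⟨_, rfl⟩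
  have hη0 : 0 < η := by
    rw [hη]
    exact lt_min (by norm_num) (by positivity)
  have hη1 : 7 * η ≤ 1 := by
    have : η ≤ 1 / 7 := hη ▸ min_le_left _ _
    linarith
  have hη2 : η * (2 * D + ε) ≤ ε := by
    have : η ≤ ε / (2 * D + ε) := hη ▸ min_le_right _ _
    rwa [le_div_iff₀ (by positivity)] at this
  have hηc : 0 < η * c := mul_pos hη0 hc
  obtain ⟨R, hR⟩ : ∃ R : ℝ, R = 1 + 2 * A * √n / (η * c) + 2 * Ls * √n / (η * c) := ⟨_, rfl⟩
  have hA1 : 0 ≤ 2 * A * √n / (η * c) := by positivity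
  have hL1 : 0 ≤ 2 * Ls * √n / (η * c) := by positivity
  refine ⟨R ^ 2 + 2 * |K + K| + 1, fun lam hlam => ?_⟩
  have hKa : K + K ≤ |K + K| := le_abs_self _
  have hKa0 : 0 ≤ |K + K| := abs_nonneg _
  have hR0 : 1 ≤ R := by rw [hR]; linarith
  have hlam0 : 0 < lam := by nlinarith [sq_nonneg R]
  have hlamK : lam / 2 ≤ lam - (K + K) := by nlinarith [sq_nonneg R]
  obtain ⟨ρ, hρ⟩ : ∃ ρ : ℝ, ρ = √lam := ⟨_, rfl⟩
  have hρ2 : ρ * ρ = lam := hρ ▸ Real.mul_self_sqrt hlam0.le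
  have hρR : R ≤ ρ := by
    rw [hρ]
    refine Real.le_sqrt_of_sq_le ?_
    linarith
  have hρ0 : 0 < ρ := by linarith
  have hAρ : 2 * A * √n ≤ η * c * ρ := by
    have h1 : 2 * A * √n / (η * c) ≤ ρ := by rw [hR] at hρR; linarith
    rw [div_le_iff₀ hηc] at h1
    linarith
  have hLρ : 2 * Ls * √n ≤ η * c * ρ := by
    have h1 : 2 * Ls * √n / (η * c) ≤ ρ := by rw [hR] at hρR; linarith
    rw [div_le_iff₀ hηc] at h1
    linarith
  have hsb : BMr s := hs.bmr
  have hosb : BMr fun x => s x * a x * cs d lam x :=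
    (TPr.mul (TPr.mul hs ha) (cs_tpr hd lam)).bmr
  have hs1e : (fun x => s x * (1 + a x * cs d lam x)) =
      fun x => s x + s x * a x * cs d lam x := by
    funext x
    ring
  have hac : ∀ x, |a x * cs d lam x| ≤ 1 / 2 := by
    intro x
    rw [abs_mul]
    have h1 := ha1 x
    have h2 := cs_abs d lam x
    have h3 := abs_nonneg (a x)
    have h4 := abs_nonneg (cs d lam x)
    nlinarith
  have hsp : ∀ x, 0 < s x := fun x => lt_of_lt_of_le hc (hs0 x)
  have hs1l : ∀ x, 1 / 2 * s x ≤ s x * (1 + a x * cs d lam x) := by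
    intro x
    have h1 := (abs_le.1 (hac x)).1
    have h2 := hsp x
    nlinarith
  have hs1u : ∀ x, s x * (1 + a x * cs d lam x) ≤ 3 / 2 * s x := by
    intro x
    have h1 := (abs_le.1 (hac x)).2
    have h2 := hsp x
    nlinarith
  have hs1b : BMr fun x => s x * (1 + a x * cs d lam x) := by
    obtain ⟨m1, C1, hC1⟩ := hsb
    obtain ⟨m2, C2, hC2⟩ := hosb
    rw [hs1e]
    exact ⟨m1.add m2, C1 + C2, fun x => (abs_add_le _ _).trans (add_le_add (hC1 x) (hC2 x))⟩
  have hs10 : ∀ x, 0 ≤ s x * (1 + a x * cs d lam x) := fun x =>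
    le_trans (by have := hsp x; positivity) (hs1l x)
  have hDR := (DoubB_iff hsb (fun x => (hsp x).le) hD0.le).1 h
  rw [DoubB_iff hs1b hs10 (by linarith)]
  intro x r hr
  by_cases hrρ : 1 ≤ r * ρ
  · -- large cubes
    have hosc : ∀ t : ℝ, 0 < t → 1 ≤ t * ρ →
        |∫ y in cube x t, s y * a y * cs d lam y| ≤ η * ∫ y in cube x t, s y := by
      intro t ht htρ
      have h1 := hA lam hlam0 (by linarith) x t ht
      refine h1.trans ?_
      have h2 := DoubB_lb hsb x ht fun y _ => hs0 y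
      have h3 : A * ((2 * t) ^ n * (√n / (t * (lam - (K + K))))) ≤
          η * c * (2 * t) ^ n := by
        have h4 : √n / (t * (lam - (K + K))) ≤ 2 * √n / ρ := by
          rw [div_le_div_iff₀ (mul_pos ht (by linarith)) hρ0]
          have h5 : ρ ≤ 2 * (t * (lam - (K + K))) := by
            have h6 : ρ * 1 ≤ ρ * (t * ρ) := mul_le_mul_of_nonneg_left htρ hρ0.le
            have h7 : t * (lam / 2) ≤ t * (lam - (K + K)) :=
              mul_le_mul_of_nonneg_left hlamK ht.le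
            nlinarith
          have h6 := mul_le_mul_of_nonneg_left h5 (Real.sqrt_nonneg (n : ℝ))
          linarith
        have h8 : A * (√n / (t * (lam - (K + K)))) ≤ η * c := by
          refine (mul_le_mul_of_nonneg_left h4 hA0).trans ?_
          rw [← mul_div_assoc, div_le_iff₀ hρ0]
          linarith
        have h9 : 0 ≤ (2 * t) ^ n := by positivity
        calc A * ((2 * t) ^ n * (√n / (t * (lam - (K + K)))))
            = A * (√n / (t * (lam - (K + K)))) * (2 * t) ^ n := by ring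
          _ ≤ η * c * (2 * t) ^ n := mul_le_mul_of_nonneg_right h8 h9
      refine h3.trans ?_
      rw [mul_assoc]
      exact mul_le_mul_of_nonneg_left h2 hη0.le
    have hsplit : ∀ t : ℝ, 0 < t → ∫ y in cube x t, s y * (1 + a y * cs d lam y) =
        (∫ y in cube x t, s y) + ∫ y in cube x t, s y * a y * cs d lam y := by
      intro t ht
      rw [hs1e]
      exact integral_add (DoubB_int hsb x ht) (DoubB_int hosb x ht)
    have hr2 : 0 < 2 * r := by positivity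
    have h1 := (abs_le.1 (hosc (2 * r) hr2 (by nlinarith))).2
    have h2 := (abs_le.1 (hosc r hr hrρ)).1
    rw [hsplit _ hr2, hsplit _ hr]
    have h3 := hDR x r hr
    have h4 : 0 ≤ ∫ y in cube x r, s y := integral_nonneg fun y => (hsp y).le
    obtain ⟨S, hS⟩ : ∃ S, S = ∫ y in cube x r, s y := ⟨_, rfl⟩
    obtain ⟨S2, hS2⟩ : ∃ S2, S2 = ∫ y in cube x (2 * r), s y := ⟨_, rfl⟩
    obtain ⟨I1, hI1⟩ : ∃ I1, I1 = ∫ y in cube x r, s y * a y * cs d lam y := ⟨_, rfl⟩
    obtain ⟨I2, hI2⟩ : ∃ I2, I2 = ∫ y in cube x (2 * r), s y * a y * cs d lam y := ⟨_, rfl⟩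
    rw [← hS, ← hI1] at h2
    rw [← hS2, ← hI2] at h1
    rw [← hS, ← hS2] at h3
    rw [← hS] at h4
    rw [← hS, ← hS2, ← hI1, ← hI2]
    have h5 : S2 + I2 ≤ (1 + η) * (D * S) := by
      have h6 := mul_le_mul_of_nonneg_left h3 (by linarith : 0 ≤ 1 + η)
      linarith
    have h6 : (D + ε) * ((1 - η) * S) ≤ (D + ε) * (S + I1) :=
      mul_le_mul_of_nonneg_left (by linarith) (by linarith)
    have h7 : (1 + η) * (D * S) ≤ (D + ε) * ((1 - η) * S) := by
      have h8 : 0 ≤ (ε - η * (2 * D + ε)) * S := mul_nonneg (by linarith) h4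
      nlinarith
    linarith
  · -- small cubes
    push Not at hrρ
    have hr2 : 0 < 2 * r := by positivity
    have hsub : ∀ y ∈ cube x r, y ∈ cube x (2 * r) := fun y hy i => (hy i).trans (by linarith)
    have hdiff : ∀ y ∈ cube x (2 * r), |s y - s x| ≤ η * s x := by
      intro y hy
      refine (hL y x).trans ?_
      have h1 := mul_le_mul_of_nonneg_left (DoubB_norm hr2.le hy) hL0
      refine h1.trans ?_
      have h2 : Ls * (√n * (2 * r)) = 2 * Ls * √n * r := by ring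
      rw [h2]
      have h3 : 2 * Ls * √n * r ≤ η * c * ρ * r := mul_le_mul_of_nonneg_right hLρ hr.le
      have h4 : η * c * ρ * r ≤ η * c := by nlinarith
      have h5 := mul_le_mul_of_nonneg_left (hs0 x) hη0.le
      linarith
    have h1 := DoubB_ub hs1b (m := 3 / 2 * ((1 + η) * s x)) x hr2 fun y hy => by
      have h2 := hs1u y
      have h3 := (abs_le.1 (hdiff y hy)).2
      linarith
    have h2 := DoubB_lb hs1b (m := 1 / 2 * ((1 - η) * s x)) x hr fun y hy => by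
      have h2 := hs1l y
      have h3 := (abs_le.1 (hdiff y (hsub y hy))).1
      linarith
    have h3 : (2 * (2 * r)) ^ n = 2 ^ n * (2 * r) ^ n := by rw [mul_pow]
    rw [h3] at h1
    have h4 : (2 : ℝ) ^ (n + 2) ≤ D + ε := by
      have h5 : (2 : ℝ) ^ (n + 2) ≤ 2 ^ (n + 3) :=
        pow_le_pow_right₀ (by norm_num) (by omega)
      linarith
    have h5 : 0 ≤ ∫ y in cube x r, s y * (1 + a y * cs d lam y) := integral_nonneg hs10
    have h6 : (2 : ℝ) ^ (n + 2) * (1 / 2 * ((1 - η) * s x) * (2 * r) ^ n) ≤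
        (D + ε) * ∫ y in cube x r, s y * (1 + a y * cs d lam y) := by
      refine (mul_le_mul_of_nonneg_left h2 (by positivity)).trans ?_
      exact mul_le_mul_of_nonneg_right h4 h5
    refine h1.trans (le_trans ?_ h6)
    have h7 : (0 : ℝ) ≤ 2 ^ n * (2 * r) ^ n * s x := by
      have := hsp x
      positivity
    have h8 : (2 : ℝ) ^ (n + 2) = 4 * 2 ^ n := by rw [pow_add]; ring
    rw [h8]
    have h9 : 0 ≤ (1 - 7 * η) * (2 ^ n * (2 * r) ^ n * s x) := mul_nonneg (by linarith) h7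
    nlinarith

end Pool.Agent.helper12.RT
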