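import Pool.Agent.helper12.RT.Weyl

/-!
# RT-TPa: trigonometric polynomials

PROOFS.  `add`: use the union of the two frequency sets and the coefficient functions extended by zero
(`Finset.sum_subset`, or `∑ ν ∈ F ∪ G, ((if ν ∈ F then c ν else 0) + (if ν ∈ G then d ν else 0)) * e ν x`).
`mul`: `∑_ν ∑_μ c_ν d_μ e_(ν + μ)`; it is convenient to prove first that a function `x ↦ ∑ i ∈ S, c i * e (f i) x`, `S : Finset ι`,
`‖f i‖ ≤ K`, is `TP K` (induction on `S` with `TP.add`, or `Finset.sum_fiberwise`).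
`mono`, `conj` (`e_conj`), `bm`, `contDiff`: finite sums.  For real functions: `TPr K p` means `TP K (fun x => (p x : ℂ))`; `p = re ∘ (sum)`.
`lipschitz`: `|e ν x - e ν y| ≤ 2 π ‖ν‖ ‖x - y‖`.  `cs_eq`: Euler's formula, with `⟪lam • d, x⟫ = lam ⟪d, x⟫`.
-/

set_option autoImplicit false

open MeasureTheory FourierTransform
open scoped ENNReal InnerProductSpace ComplexConjugate

namespace Pool.Agent.helper12.RT

variable {n : ℕ}

private theorem gen {ι : Type} (S : Finset ι) (c : ι → ℂ) (f : ι → E n) (K : ℝ)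
    (hf : ∀ i ∈ S, ‖f i‖ ≤ K) : TP K fun x => ∑ i ∈ S, c i * e (f i) x := by
  classical
  refine ⟨S.image f, fun ν => ∑ i ∈ S.filter (fun i => f i = ν), c i, ?_, ?_⟩
  · intro ν hν
    rw [Finset.mem_image] at hν
    obtain ⟨i, hi, rfl⟩ := hν
    exact hf i hi
  · intro x
    have h1 : ∀ ν ∈ S.image f, (∑ i ∈ S.filter (fun i => f i = ν), c i) * e ν x =
        ∑ i ∈ S.filter (fun i => f i = ν), c i * e (f i) x := by
      intro ν _
      rw [Finset.sum_mul]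
      apply Finset.sum_congr rfl
      intro i hi
      rw [(Finset.mem_filter.1 hi).2]
    rw [Finset.sum_congr rfl h1]
    exact (Finset.sum_fiberwise_of_maps_to (fun i hi => Finset.mem_image_of_mem f hi)
      (fun i => c i * e (f i) x)).symm

theorem TP.mono {K K' : ℝ} {p : E n → ℂ} (h : TP K p) (hK : K ≤ K') : TP K' p := by
  obtain ⟨F, c, h1, h2⟩ := h
  exact ⟨F, c, fun ν hν => (h1 ν hν).trans hK, h2⟩

theorem TP.const {K : ℝ} (hK : 0 ≤ K) (c : ℂ) : TP K (fun _ : E n => c) := by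
  refine ⟨{0}, fun _ => c, ?_, ?_⟩
  · intro ν hν
    rw [Finset.mem_singleton] at hν
    rw [hν, norm_zero]
    exact hK
  · intro x
    rw [Finset.sum_singleton, e_zero, mul_one]

theorem TP.e {K : ℝ} {ν : E n} (hν : ‖ν‖ ≤ K) : TP K (e ν) := by
  refine ⟨{ν}, fun _ => 1, ?_, ?_⟩
  · intro μ hμ
    rw [Finset.mem_singleton] at hμ
    rw [hμ]
    exact hν
  · intro x
    rw [Finset.sum_singleton, one_mul]

theorem TP.add {K : ℝ} {p q : E n → ℂ} (hp : TP K p) (hq : TP K q) :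
    TP K fun x => p x + q x := by
  obtain ⟨F, c, h1, h2⟩ := hp
  obtain ⟨G, d, h3, h4⟩ := hq
  have h5 := gen (F.disjSum G) (Sum.elim c d) (Sum.elim id id) K (by
    intro i hi
    rw [Finset.mem_disjSum] at hi
    rcases hi with ⟨a, ha, rfl⟩ | ⟨b, hb, rfl⟩
    · exact h1 a ha
    · exact h3 b hb)
  have h6 : (fun x => p x + q x) = fun x => ∑ i ∈ F.disjSum G,
      Sum.elim c d i * Pool.Agent.helper12.RT.e (Sum.elim id id i) x := by
    funext x
    rw [Finset.sum_disjSum, h2, h4]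
    rfl
  rw [h6]
  exact h5

theorem TP.mul {K K' : ℝ} {p q : E n → ℂ} (hp : TP K p) (hq : TP K' q) :
    TP (K + K') fun x => p x * q x := by
  obtain ⟨F, c, h1, h2⟩ := hp
  obtain ⟨G, d, h3, h4⟩ := hq
  have h5 := gen (F ×ˢ G) (fun z => c z.1 * d z.2) (fun z => z.1 + z.2) (K + K') (by
    intro z hz
    rw [Finset.mem_product] at hz
    exact (norm_add_le _ _).trans (add_le_add (h1 _ hz.1) (h3 _ hz.2)))
  have h6 : (fun x => p x * q x) = fun x => ∑ z ∈ F ×ˢ G,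
      c z.1 * d z.2 * Pool.Agent.helper12.RT.e (z.1 + z.2) x := by
    funext x
    rw [h2, h4, Finset.sum_mul_sum, Finset.sum_product]
    apply Finset.sum_congr rfl
    intro ν _
    apply Finset.sum_congr rfl
    intro μ _
    rw [← e_mul]
    ring
  rw [h6]
  exact h5

theorem TP.conj {K : ℝ} {p : E n → ℂ} (hp : TP K p) : TP K fun x => conj (p x) := by
  obtain ⟨F, c, h1, h2⟩ := hp
  have h5 := gen F (fun ν => (starRingEnd ℂ) (c ν)) (fun ν => -ν) K (by
    intro ν hν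
    rw [norm_neg]
    exact h1 ν hν)
  have h6 : (fun x => (starRingEnd ℂ) (p x)) = fun x => ∑ ν ∈ F,
      (starRingEnd ℂ) (c ν) * Pool.Agent.helper12.RT.e (-ν) x := by
    funext x
    rw [h2, map_sum]
    apply Finset.sum_congr rfl
    intro ν _
    rw [map_mul, e_conj]
  rw [h6]
  exact h5

private theorem TP.neg' {K : ℝ} {p : E n → ℂ} (hp : TP K p) : TP K fun x => -p x := by
  obtain ⟨F, c, h1, h2⟩ := hp
  refine ⟨F, fun ν => -c ν, h1, ?_⟩
  intro x
  show -p x = _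
  rw [h2, ← Finset.sum_neg_distrib]
  apply Finset.sum_congr rfl
  intro ν _
  ring

theorem TP.bm {K : ℝ} {p : E n → ℂ} (hp : TP K p) : BM p := by
  obtain ⟨F, c, h1, h2⟩ := hp
  have h3 : p = fun x => ∑ ν ∈ F, c ν * Pool.Agent.helper12.RT.e ν x := by
    funext x
    exact h2 x
  refine ⟨?_, ∑ ν ∈ F, ‖c ν‖, ?_⟩
  · rw [h3]
    apply Finset.measurable_sum
    intro ν _
    exact (e_bm ν).1.const_mul (c ν)
  · intro x
    rw [h2]
    refine (norm_sum_le _ _).trans (Finset.sum_le_sum ?_)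
    intro ν _
    rw [norm_mul, e_norm, mul_one]

theorem TPr.mono {K K' : ℝ} {p : E n → ℝ} (h : TPr K p) (hK : K ≤ K') : TPr K' p :=
  TP.mono h hK

theorem TPr.const {K : ℝ} (hK : 0 ≤ K) (c : ℝ) : TPr K (fun _ : E n => c) :=
  TP.const hK (c : ℂ)

theorem TPr.add {K : ℝ} {p q : E n → ℝ} (hp : TPr K p) (hq : TPr K q) :
    TPr K fun x => p x + q x := by
  have h1 := TP.add hp hq
  have h2 : (fun x => (p x : ℂ) + (q x : ℂ)) = fun x => ((p x + q x : ℝ) : ℂ) := by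
    funext x
    push_cast
    ring
  rw [h2] at h1
  exact h1

theorem TPr.sub {K : ℝ} {p q : E n → ℝ} (hp : TPr K p) (hq : TPr K q) :
    TPr K fun x => p x - q x := by
  have h1 := TP.add hp (TP.neg' hq)
  have h2 : (fun x => (p x : ℂ) + -(q x : ℂ)) = fun x => ((p x - q x : ℝ) : ℂ) := by
    funext x
    push_cast
    ring
  rw [h2] at h1
  exact h1

theorem TPr.mul {K K' : ℝ} {p q : E n → ℝ} (hp : TPr K p) (hq : TPr K' q) :
    TPr (K + K') fun x => p x * q x := by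
  have h1 := TP.mul hp hq
  have h2 : (fun x => (p x : ℂ) * (q x : ℂ)) = fun x => ((p x * q x : ℝ) : ℂ) := by
    funext x
    push_cast
    ring
  rw [h2] at h1
  exact h1

theorem TPr.bmr {K : ℝ} {p : E n → ℝ} (hp : TPr K p) : BMr p := by
  obtain ⟨h1, C, hC⟩ := TP.bm hp
  refine ⟨Complex.measurable_re.comp h1, C, ?_⟩
  intro x
  have := hC x
  rwa [Complex.norm_real] at this

private theorem TPr.eq_re {K : ℝ} {p : E n → ℝ} (hp : TPr K p) :
    ∃ (F : Finset (E n)) (c : E n → ℂ),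
      p = fun x => (∑ ν ∈ F, c ν * Pool.Agent.helper12.RT.e ν x).re := by
  obtain ⟨F, c, h1, h2⟩ := hp
  refine ⟨F, c, ?_⟩
  funext x
  have := congrArg Complex.re (h2 x)
  rwa [Complex.ofReal_re] at this

theorem TPr.contDiff {K : ℝ} {p : E n → ℝ} (hp : TPr K p) : ContDiff ℝ ⊤ p := by
  obtain ⟨F, c, h1⟩ := TPr.eq_re hp
  rw [h1]
  have h2 : ContDiff ℝ ⊤ fun x => ∑ ν ∈ F, c ν * Pool.Agent.helper12.RT.e ν x := by
    apply ContDiff.sum
    intro ν _
    exact contDiff_const.mul (e_contDiff ν)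
  exact Complex.reCLM.contDiff.comp h2

private theorem e_lip (ν x y : E n) :
    ‖Pool.Agent.helper12.RT.e ν x - Pool.Agent.helper12.RT.e ν y‖ ≤
      2 * Real.pi * ‖ν‖ * ‖x - y‖ := by
  have h1 : Pool.Agent.helper12.RT.e ν x - Pool.Agent.helper12.RT.e ν y =
      Pool.Agent.helper12.RT.e ν y *
        (Complex.exp (Complex.I * ((2 * Real.pi * ⟪ν, x - y⟫_ℝ : ℝ) : ℂ)) - 1) := by
    unfold Pool.Agent.helper12.RT.e
    rw [mul_sub, ← Complex.exp_add, mul_one]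
    congr 2
    rw [inner_sub_right]
    push_cast
    ring
  rw [h1, norm_mul, e_norm, one_mul]
  refine (Real.norm_exp_I_mul_ofReal_sub_one_le).trans ?_
  rw [Real.norm_eq_abs, abs_mul, abs_of_pos Real.two_pi_pos]
  have h2 := mul_le_mul_of_nonneg_left (abs_real_inner_le_norm ν (x - y)) Real.two_pi_pos.le
  calc 2 * Real.pi * |⟪ν, x - y⟫_ℝ| ≤ 2 * Real.pi * (‖ν‖ * ‖x - y‖) := h2
    _ = 2 * Real.pi * ‖ν‖ * ‖x - y‖ := by ring

theorem TPr.lipschitz {K : ℝ} {p : E n → ℝ} (hp : TPr K p) :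
    ∃ C : ℝ, 0 ≤ C ∧ ∀ x y, |p x - p y| ≤ C * ‖x - y‖ := by
  obtain ⟨F, c, h1⟩ := TPr.eq_re hp
  refine ⟨∑ ν ∈ F, ‖c ν‖ * (2 * Real.pi * ‖ν‖), ?_, ?_⟩
  · apply Finset.sum_nonneg
    intro ν _
    positivity
  · intro x y
    rw [h1]
    simp only
    rw [← Complex.sub_re, ← Finset.sum_sub_distrib]
    refine (Complex.abs_re_le_norm _).trans ?_
    refine (norm_sum_le _ _).trans ?_
    rw [Finset.sum_mul]
    apply Finset.sum_le_sum
    intro ν _
    rw [← mul_sub, norm_mul, mul_assoc ‖c ν‖]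
    exact mul_le_mul_of_nonneg_left (e_lip ν x y) (norm_nonneg _)

theorem cs_eq (d : E n) (lam : ℝ) (x : E n) :
    (cs d lam x : ℂ) = (1 / 2) * e (lam • d) x + (1 / 2) * e (-(lam • d)) x := by
  unfold cs Pool.Agent.helper12.RT.e
  rw [inner_neg_left, real_inner_smul_left, Complex.ofReal_cos, Complex.cos]
  push_cast
  have h1 : 2 * (Real.pi : ℂ) * (lam : ℂ) * ((⟪d, x⟫_ℝ : ℝ) : ℂ) * Complex.I =
      2 * (Real.pi : ℂ) * ((lam : ℂ) * ((⟪d, x⟫_ℝ : ℝ) : ℂ)) * Complex.I := by ring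
  have h2 : -(2 * (Real.pi : ℂ) * (lam : ℂ) * ((⟪d, x⟫_ℝ : ℝ) : ℂ)) * Complex.I =
      2 * (Real.pi : ℂ) * (-((lam : ℂ) * ((⟪d, x⟫_ℝ : ℝ) : ℂ))) * Complex.I := by ring
  rw [h1, h2]
  ring

theorem cs_tpr {d : E n} (hd : ‖d‖ = 1) (lam : ℝ) : TPr |lam| (cs d lam) := by
  have hn1 : ‖lam • d‖ ≤ |lam| := by
    rw [norm_smul, hd, mul_one, Real.norm_eq_abs]
  have hn2 : ‖-(lam • d)‖ ≤ |lam| := by
    rw [norm_neg]
    exact hn1
  have h1 := TP.add (TP.mul (TP.const (n := n) le_rfl (1 / 2 : ℂ)) (TP.e hn1))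
    (TP.mul (TP.const (n := n) le_rfl (1 / 2 : ℂ)) (TP.e hn2))
  rw [zero_add] at h1
  have h2 : (fun x => (1 / 2 : ℂ) * Pool.Agent.helper12.RT.e (lam • d) x +
      (1 / 2 : ℂ) * Pool.Agent.helper12.RT.e (-(lam • d)) x) = fun x => (cs d lam x : ℂ) := by
    funext x
    rw [cs_eq]
  rw [h2] at h1
  exact h1

theorem cs_abs (d : E n) (lam : ℝ) (x : E n) : |cs d lam x| ≤ 1 := by
  unfold cs
  exact Real.abs_cos_le_one _

end Pool.Agent.helper12.RT
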