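import Pool.Agent.helper12.RT.SuppA
import Pool.Agent.helper12.RT.TPa

/-!
# RT-SuppB: frequencies of products with trigonometric polynomials

PROOFS.  `Supp.e`: `fourier_e` and quasi-invariance of null sets under translations
(`(measurePreserving_sub_right volume ν).quasiMeasurePreserving.ae`).  `Supp.TP`: write `p = ∑ c_ν e_ν`, `M_sum`, `M_mul`/`M_const`, and
`Supp.e` for every term, `Supp.mono`, sums (induction with `Supp.add`).  `Supp.cs`: `cs_eq` and `Supp.TP`, `Supp.e`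
(`q cs = (1/2) q e_(lam d) + (1/2) q e_(-lam d)`).
-/

set_option autoImplicit false

open MeasureTheory FourierTransform
open scoped ENNReal InnerProductSpace ComplexConjugate

namespace Pool.Agent.helper12.RT

variable {n : ℕ}

theorem SuppB_zero (B : Set (E n)) : Supp B (0 : H n) := by
  unfold Supp
  have h0 : (𝓕 (0 : H n) : H n) = 0 := map_zero (Lp.fourierTransformₗᵢ (E n) ℂ)
  rw [h0]
  filter_upwards [Lp.coeFn_zero ℂ 2 (volume : Measure (E n))] with ξ hξ _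
  rw [hξ]
  rfl

theorem SuppB_sum {ι : Type} {B : Set (E n)} (F : Finset ι) (f : ι → H n)
    (h : ∀ i ∈ F, Supp B (f i)) : Supp B (∑ i ∈ F, f i) := by
  classical
  induction F using Finset.induction_on with
  | empty => simpa using SuppB_zero B
  | insert a F ha ih =>
    rw [Finset.sum_insert ha]
    exact Supp.add (h a (Finset.mem_insert_self _ _))
      (ih fun i hi => h i (Finset.mem_insert_of_mem hi))

theorem SuppB_e {A B : Set (E n)} {u : H n} (hu : Supp A u) (ν : E n)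
    (hB : ∀ ζ ∈ A, ζ + ν ∈ B) : Supp B (M (e ν) u) := by
  have h1 : ∀ᵐ ξ ∂(volume : Measure (E n)), ξ - ν ∉ A → (𝓕 u : H n) (ξ - ν) = 0 :=
    (measurePreserving_sub_right (volume : Measure (E n)) ν).quasiMeasurePreserving.ae
      (p := fun ξ => ξ ∉ A → (𝓕 u : H n) ξ = 0) hu
  unfold Supp
  filter_upwards [h1, fourier_e ν u] with ξ h2 h3 h4
  rw [h3]
  apply h2
  intro h5
  apply h4
  have := hB _ h5
  rwa [sub_add_cancel] at this

theorem SuppB_ce {A B : Set (E n)} {u : H n} (hu : Supp A u) (c : ℂ) (ν : E n)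
    (hB : ∀ ζ ∈ A, ζ + ν ∈ B) : Supp B (M (fun x => c * e ν x) u) := by
  rw [M_mul (BM.const c) (e_bm ν), M_const]
  exact Supp.smul c (SuppB_e hu ν hB)

theorem SuppB_TP {A B : Set (E n)} {u : H n} (hu : Supp A u) {K : ℝ} {p : E n → ℂ}
    (hp : TP K p) (hB : ∀ ζ ∈ A, ∀ ξ, ‖ξ - ζ‖ ≤ K → ξ ∈ B) : Supp B (M p u) := by
  obtain ⟨F, c, hF, hpx⟩ := hp
  have hpe : p = fun x => ∑ ν ∈ F, c ν * e ν x := funext hpx
  rw [hpe, M_sum F (p := fun ν x => c ν * e ν x) (fun ν _ => (BM.const (c ν)).mul (e_bm ν))]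
  apply SuppB_sum
  intro ν hν
  apply SuppB_ce hu
  intro ζ hζ
  apply hB ζ hζ
  rw [add_sub_cancel_left]
  exact hF ν hν

theorem SuppB_one {A B : Set (E n)} {u : H n} (hu : Supp A u) {K : ℝ} {q : E n → ℂ}
    (hq : TP K q) (c : ℂ) (ν : E n) (hB : ∀ ζ ∈ A, ∀ ξ, ‖ξ - (ζ + ν)‖ ≤ K → ξ ∈ B) :
    Supp B (M (fun x => q x * (c * e ν x)) u) := by
  rw [M_mul hq.bm ((BM.const c).mul (e_bm ν))]
  have h1 : Supp {ζ | ζ - ν ∈ A} (M (fun x => c * e ν x) u) := by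
    apply SuppB_ce hu
    intro ζ hζ
    show ζ + ν - ν ∈ A
    rwa [add_sub_cancel_right]
  refine SuppB_TP h1 hq ?_
  intro ζ hζ ξ hξ
  apply hB (ζ - ν) hζ
  rwa [sub_add_cancel]

theorem Supp.e {A B : Set (E n)} {u : H n} (hu : Supp A u) (ν : E n)
    (hB : ∀ ζ ∈ A, ζ + ν ∈ B) : Supp B (M (e ν) u) := by
  exact SuppB_e hu ν hB

theorem Supp.TP {A B : Set (E n)} {u : H n} (hu : Supp A u) {K : ℝ} {p : E n → ℂ}
    (hp : TP K p) (hB : ∀ ζ ∈ A, ∀ ξ, ‖ξ - ζ‖ ≤ K → ξ ∈ B) : Supp B (M p u) := by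
  exact SuppB_TP hu hp hB

theorem Supp.TPr {A B : Set (E n)} {u : H n} (hu : Supp A u) {K : ℝ} {p : E n → ℝ}
    (hp : TPr K p) (hB : ∀ ζ ∈ A, ∀ ξ, ‖ξ - ζ‖ ≤ K → ξ ∈ B) : Supp B (Mr p u) := by
  exact SuppB_TP hu hp hB

theorem Supp.cs {A B : Set (E n)} {u : H n} (hu : Supp A u) {K : ℝ} {q : E n → ℝ}
    (hq : RT.TPr K q) (d : E n) (lam : ℝ)
    (hB : ∀ ζ ∈ A, ∀ ξ, (‖ξ - (ζ + lam • d)‖ ≤ K ∨ ‖ξ - (ζ - lam • d)‖ ≤ K) → ξ ∈ B) :
    Supp B (Mr (fun x => q x * RT.cs d lam x) u) := by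
  have he : (fun x => ((q x * RT.cs d lam x : ℝ) : ℂ))
      = fun x => (q x : ℂ) * ((1 / 2) * RT.e (lam • d) x)
        + (q x : ℂ) * ((1 / 2) * RT.e (-(lam • d)) x) := by
    funext x
    rw [Complex.ofReal_mul, cs_eq]
    ring
  have hq' : RT.TP K (fun x => (q x : ℂ)) := hq
  have hb : ∀ ν : E n, BM fun x => (q x : ℂ) * ((1 / 2) * RT.e ν x) := fun ν =>
    hq'.bm.mul ((BM.const (1 / 2)).mul (e_bm ν))
  have h1 : Supp B (M (fun x => (q x : ℂ) * ((1 / 2) * RT.e (lam • d) x)) u) := by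
    apply SuppB_one hu hq'
    intro ζ hζ ξ hξ
    exact hB ζ hζ ξ (Or.inl hξ)
  have h2 : Supp B (M (fun x => (q x : ℂ) * ((1 / 2) * RT.e (-(lam • d)) x)) u) := by
    apply SuppB_one hu hq'
    intro ζ hζ ξ hξ
    apply hB ζ hζ ξ (Or.inr ?_)
    rwa [sub_eq_add_neg ζ]
  unfold Mr
  rw [he, M_add (hb _) (hb _)]
  exact Supp.add h1 h2

end Pool.Agent.helper12.RT
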