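import Pool.Agent.helper12.RT.OpsQ
import Pool.Agent.helper12.RT.SuppB

/-!
# RT-Lower: slowly varying test functions

PROOFS.
* `exists_slow`: `φ = 𝓕⁻ (v)`, `v` the normalised indicator function of the ball (`indicatorConstLp`, the volume of the ball is positive and finite).
* `lower0`: `φ` has frequencies in the ball, where `|m ξ - m d| ≤ L r` (`Sym.lip` with `ξ := d`, `ζ := ξ`, `‖d‖ = 1`); apply `Tr_norm_le_of_supp` to the
  symbol `m - m d`.
* `lower1`: `q cs φ` has frequencies within `K + 1 + r` of `± lam d` (`Supp.cs`), and there `|m ξ - m d| ≤ L (K + 1 + r) / lam` (`m (± lam d) = m d` by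
  `Sym.homog`, `Sym.lip` with `ξ := ± lam d`).  The norm of `q cs φ` is at most `sup |q| * ‖φ‖`.
-/

set_option autoImplicit false

open MeasureTheory FourierTransform
open scoped ENNReal InnerProductSpace ComplexConjugate

namespace Pool.Agent.helper12.RT

variable {n : ℕ}

theorem exists_slow (ζ : E n) {r : ℝ} (hr : 0 < r) :
    ∃ φ : H n, ‖φ‖ = 1 ∧ Supp (Metric.closedBall ζ r) φ := by
  have hms : MeasurableSet (Metric.closedBall ζ r) := Metric.isClosed_closedBall.measurableSet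
  have hfin : (volume : Measure (E n)) (Metric.closedBall ζ r) ≠ ∞ :=
    (isCompact_closedBall ζ r).measure_ne_top
  have hpos : 0 < (volume : Measure (E n)) (Metric.closedBall ζ r) :=
    Metric.measure_closedBall_pos volume ζ hr
  have hV : 0 < (volume : Measure (E n)).real (Metric.closedBall ζ r) :=
    ENNReal.toReal_pos hpos.ne' hfin
  set V : ℝ := (volume : Measure (E n)).real (Metric.closedBall ζ r) ^ (1 / (2 : ℝ)) with hVdef
  have hVpos : 0 < V := Real.rpow_pos_of_pos hV _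
  let v : H n := indicatorConstLp 2 hms hfin ((V⁻¹ : ℝ) : ℂ)
  have hv : ‖v‖ = 1 := by
    have h := norm_indicatorConstLp (p := 2) (c := ((V⁻¹ : ℝ) : ℂ)) (hs := hms) (hμs := hfin)
      (by norm_num) (by norm_num)
    rw [show v = indicatorConstLp 2 hms hfin ((V⁻¹ : ℝ) : ℂ) from rfl, h, Complex.norm_real,
      Real.norm_eq_abs, abs_of_pos (inv_pos.mpr hVpos)]
    rw [show (2 : ℝ≥0∞).toReal = (2 : ℝ) from by norm_num, ← hVdef]
    exact inv_mul_cancel₀ hVpos.ne'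
  refine ⟨(Lp.fourierTransformₗᵢ (E n) ℂ).symm v, ?_, ?_⟩
  · rw [LinearIsometryEquiv.norm_map, hv]
  · have h1 : (𝓕 ((Lp.fourierTransformₗᵢ (E n) ℂ).symm v : H n) : H n) = v :=
      (Lp.fourierTransformₗᵢ (E n) ℂ).apply_symm_apply v
    unfold Supp
    rw [h1]
    have h2 : (v : E n → ℂ) =ᵐ[volume]
        (Metric.closedBall ζ r).indicator fun _ => ((V⁻¹ : ℝ) : ℂ) := indicatorConstLp_coeFn
    filter_upwards [h2] with ξ h3 h4
    rw [h3, Set.indicator_of_notMem h4]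

private theorem Lower_bmr {L : ℝ} {m : E n → ℝ} (hm : Sym L m) : BMr m :=
  ⟨hm.meas, 1, hm.bdd⟩

private theorem Lower_sub {m : E n → ℝ} (hm : BMr m) (c : ℝ) (u : H n) :
    Tr m u - (c : ℂ) • u = Tr (fun ξ => m ξ + -c) u := by
  rw [Tr_add hm (BMr.const (-c)) u, Tr_const (-c) u]
  push_cast
  rw [neg_smul, sub_eq_add_neg]

theorem lower0 {L : ℝ} {m : E n → ℝ} (hm : Sym L m) {d : E n} (hd : ‖d‖ = 1) {r : ℝ}
    (hr : 0 ≤ r) (hL : 0 ≤ L) {φ : H n} (hφ : ‖φ‖ = 1) (h : Supp (Metric.closedBall d r) φ) :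
    ‖Tr m φ - (m d : ℂ) • φ‖ ≤ L * r := by
  rw [Lower_sub (Lower_bmr hm) (m d) φ]
  have hd0 : d ≠ 0 := by
    intro h0
    rw [h0, norm_zero] at hd
    exact zero_ne_one hd
  have key : ∀ ξ ∈ Metric.closedBall d r, |m ξ + -m d| ≤ L * r := by
    intro ξ hξ
    rw [Metric.mem_closedBall, dist_comm, dist_eq_norm] at hξ
    have h1 := hm.lip d ξ hd0
    rw [hd, div_one] at h1
    rw [← sub_eq_add_neg, abs_sub_comm]
    exact h1.trans (mul_le_mul_of_nonneg_left hξ hL)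
  have h2 := Tr_norm_le_of_supp h ((Lower_bmr hm).add (BMr.const (-m d))) (mul_nonneg hL hr) key
  rwa [hφ, mul_one] at h2

theorem lower1 {L : ℝ} {m : E n → ℝ} (hm : Sym L m) (hL : 0 ≤ L) {d : E n} (hd : ‖d‖ = 1)
    {K : ℝ} {q : E n → ℝ} (hq : TPr K q) {d' : E n} (hd' : ‖d'‖ = 1) {r : ℝ} (hr : 0 ≤ r)
    {φ : H n} (h : Supp (Metric.closedBall d' r) φ) :
    ∀ ε > 0, ∃ lam₀ : ℝ, ∀ lam ≥ lam₀,
      ‖Tr m (Mr (fun x => q x * cs d lam x) φ) -
        (m d : ℂ) • Mr (fun x => q x * cs d lam x) φ‖ ≤ ε := by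
  intro ε hε
  obtain ⟨hqm, C, hC⟩ := hq.bmr
  have hC0 : 0 ≤ C := (abs_nonneg _).trans (hC 0)
  set R : ℝ := max (K + 1 + r) 0 with hR
  have hR0 : 0 ≤ R := le_max_right _ _
  refine ⟨max 1 (L * R * (C * ‖φ‖) / ε), fun lam hlam => ?_⟩
  have hlam1 : 1 ≤ lam := (le_max_left _ _).trans hlam
  have hlam0 : 0 < lam := lt_of_lt_of_le one_pos hlam1
  have hlam2 : L * R * (C * ‖φ‖) / ε ≤ lam := (le_max_right _ _).trans hlam
  rw [Lower_sub (Lower_bmr hm) (m d)]
  have hd0 : d ≠ 0 := by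
    intro h0
    rw [h0, norm_zero] at hd
    exact zero_ne_one hd
  have hsupp : Supp {ξ | ‖ξ - lam • d‖ ≤ R ∨ ‖ξ + lam • d‖ ≤ R}
      (Mr (fun x => q x * cs d lam x) φ) := by
    refine h.cs hq d lam ?_
    intro ζ hζ ξ hξ
    rw [Metric.mem_closedBall, dist_eq_norm] at hζ
    have hζ1 : ‖ζ‖ ≤ 1 + r := by
      calc ‖ζ‖ = ‖(ζ - d') + d'‖ := by rw [sub_add_cancel]
        _ ≤ ‖ζ - d'‖ + ‖d'‖ := norm_add_le _ _
        _ ≤ 1 + r := by rw [hd']; linarith
    rcases hξ with h1 | h1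
    · left
      calc ‖ξ - lam • d‖ = ‖(ξ - (ζ + lam • d)) + ζ‖ := by congr 1; abel
        _ ≤ ‖ξ - (ζ + lam • d)‖ + ‖ζ‖ := norm_add_le _ _
        _ ≤ K + 1 + r := by linarith
        _ ≤ R := le_max_left _ _
    · right
      calc ‖ξ + lam • d‖ = ‖(ξ - (ζ - lam • d)) + ζ‖ := by congr 1; abel
        _ ≤ ‖ξ - (ζ - lam • d)‖ + ‖ζ‖ := norm_add_le _ _
        _ ≤ K + 1 + r := by linarith
        _ ≤ R := le_max_left _ _
  have key : ∀ ξ ∈ {ξ : E n | ‖ξ - lam • d‖ ≤ R ∨ ‖ξ + lam • d‖ ≤ R},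
      |m ξ + -m d| ≤ L * R / lam := by
    intro ξ hξ
    rw [← sub_eq_add_neg, abs_sub_comm]
    have gen : ∀ t : ℝ, |t| = lam → ‖t • d - ξ‖ ≤ R → |m d - m ξ| ≤ L * R / lam := by
      intro t ht hle
      have ht0 : t ≠ 0 := by
        intro h0
        rw [h0, abs_zero] at ht
        exact hlam0.ne ht
      have h1 := hm.lip (t • d) ξ (smul_ne_zero ht0 hd0)
      rw [hm.homog t d ht0, norm_smul, hd, mul_one, Real.norm_eq_abs, ht] at h1
      refine h1.trans ?_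
      rw [mul_div_assoc]
      exact mul_le_mul_of_nonneg_left (div_le_div_of_nonneg_right hle hlam0.le) hL
    rcases hξ with h1 | h1
    · apply gen lam (abs_of_pos hlam0)
      rw [norm_sub_rev]
      exact h1
    · apply gen (-lam) (by rw [abs_neg, abs_of_pos hlam0])
      rw [norm_sub_rev, neg_smul, sub_neg_eq_add]
      exact h1
  have hnorm : ‖Mr (fun x => q x * cs d lam x) φ‖ ≤ C * ‖φ‖ := by
    refine Mr_norm_le (hq.bmr.mul (cs_tpr hd lam).bmr) (fun x => ?_) φ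
    rw [abs_mul]
    calc |q x| * |cs d lam x| ≤ C * 1 :=
          mul_le_mul (hC x) (cs_abs d lam x) (abs_nonneg _) hC0
      _ = C := mul_one C
  have h2 := Tr_norm_le_of_supp hsupp ((Lower_bmr hm).add (BMr.const (-m d)))
    (div_nonneg (mul_nonneg hL hR0) hlam0.le) key
  calc ‖Tr (fun ξ => m ξ + -m d) (Mr (fun x => q x * cs d lam x) φ)‖
      ≤ L * R / lam * ‖Mr (fun x => q x * cs d lam x) φ‖ := h2
    _ ≤ L * R / lam * (C * ‖φ‖) :=
        mul_le_mul_of_nonneg_left hnorm (div_nonneg (mul_nonneg hL hR0) hlam0.le)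
    _ = L * R * (C * ‖φ‖) / lam := by ring
    _ ≤ ε := by
        rw [div_le_iff₀ hlam0]
        rw [div_le_iff₀ hε] at hlam2
        linarith

end Pool.Agent.helper12.RT
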