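import Pool.Agent.helper12.RT.TPa

/-!
# RT-Doub: cubes

PROOFS.
* `cube_meas`, `cube_vol`: `cube x r` is the preimage of a box (product of intervals) under the measurable equivalence
  `EuclideanSpace.measurableEquiv`/`MeasurableEquiv.toLp` which is volume preserving (`EuclideanSpace.volume_preserving_symm_measurableEquiv_toLp` or
  similar; look for `volume_preserving` near `EuclideanSpace`), so `volume (cube x r) = (2 r) ^ n`.
* `int_e_cube`: by the same map and Fubini (`MeasureTheory.integral_fintype_prod_eq_prod` or similar) the integral is the product of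
  `∫_{x_i - r}^{x_i + r} exp (2 π i ζ_i t) dt`.  All factors have norm at most `2 r`, and the factor for a coordinate with
  `|ζ_i| ≥ ‖ζ‖ / √n` has norm at most `1 / (π |ζ_i|) ≤ √n / ‖ζ‖`.
-/

set_option autoImplicit false

open MeasureTheory FourierTransform
open scoped ENNReal InnerProductSpace ComplexConjugate

namespace Pool.Agent.helper12.RT

variable {n : ℕ}

private theorem doub_cube_eq (x : E n) (r : ℝ) :
    cube x r = (@WithLp.ofLp 2 (Fin n → ℝ)) ⁻¹'
      (Set.univ.pi fun i => Set.Icc (x i - r) (x i + r)) := by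
  ext y
  simp only [cube, Set.mem_ofPred_eq, Set.mem_preimage, Set.mem_pi, Set.mem_univ, forall_const,
    Set.mem_Icc, abs_le]
  refine forall_congr' fun i => ?_
  constructor
  · rintro ⟨h1, h2⟩
    constructor <;> linarith
  · rintro ⟨h1, h2⟩
    constructor <;> linarith

private theorem doub_box_meas (x : E n) (r : ℝ) :
    MeasurableSet (Set.univ.pi fun i : Fin n => Set.Icc (x i - r) (x i + r)) :=
  MeasurableSet.univ_pi fun _ => measurableSet_Icc

private theorem doub_int (x : E n) (r : ℝ) (ζ : E n) :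
    ∫ y in cube x r, e ζ y = ∏ i, ∫ t in Set.Icc (x i - r) (x i + r),
      Complex.exp ((2 * Real.pi * (ζ i) * Complex.I) * (t : ℂ)) := by
  have h1 : ∀ y : E n, e ζ y = (fun z : Fin n → ℝ =>
      ∏ i, Complex.exp ((2 * Real.pi * (ζ i) * Complex.I) * (z i : ℂ))) (WithLp.ofLp y) := by
    intro y
    simp only [e]
    rw [← Complex.exp_sum, PiLp.inner_apply]
    congr 1
    push_cast
    rw [Finset.mul_sum, Finset.sum_mul]
    refine Finset.sum_congr rfl fun i _ => ?_
    simp only [RCLike.inner_apply, conj_trivial]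
    push_cast
    ring
  simp only [h1]
  rw [doub_cube_eq]
  have h2 := (PiLp.volume_preserving_ofLp (Fin n)).setIntegral_preimage_emb
    (MeasurableEquiv.toLp 2 (Fin n → ℝ)).symm.measurableEmbedding
    (fun z : Fin n → ℝ =>
      ∏ i, Complex.exp ((2 * Real.pi * (ζ i) * Complex.I) * (z i : ℂ)))
    (Set.univ.pi fun i => Set.Icc (x i - r) (x i + r))
  refine h2.trans ?_
  rw [MeasureTheory.volume_pi, Measure.restrict_pi_pi]
  exact integral_fintype_prod_eq_prod
    (f := fun i (t : ℝ) => Complex.exp ((2 * Real.pi * (ζ i) * Complex.I) * (t : ℂ)))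
    (μ := fun i => volume.restrict (Set.Icc (x i - r) (x i + r)))

private theorem doub_norm_exp (z t : ℝ) :
    ‖Complex.exp ((2 * Real.pi * z * Complex.I) * (t : ℂ))‖ = 1 := by
  have : (2 * Real.pi * z * Complex.I) * (t : ℂ) = ((2 * Real.pi * z * t : ℝ) : ℂ) * Complex.I := by
    push_cast
    ring
  rw [this, Complex.norm_exp_ofReal_mul_I]

private theorem doub_trivial (c z : ℝ) {r : ℝ} (hr : 0 < r) :
    ‖∫ t in Set.Icc (c - r) (c + r), Complex.exp ((2 * Real.pi * z * Complex.I) * (t : ℂ))‖ ≤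
      2 * r := by
  have h := norm_setIntegral_le_of_norm_le_const (μ := (volume : Measure ℝ))
    (s := Set.Icc (c - r) (c + r)) (C := 1)
    (f := fun t : ℝ => Complex.exp ((2 * Real.pi * z * Complex.I) * (t : ℂ)))
    (by rw [Real.volume_Icc]; exact ENNReal.ofReal_lt_top)
    (fun t _ => (doub_norm_exp z t).le)
  refine h.trans ?_
  rw [measureReal_def, Real.volume_Icc, ENNReal.toReal_ofReal (by linarith)]
  linarith

private theorem doub_osc (c z : ℝ) {r : ℝ} (hr : 0 < r) (hz : z ≠ 0) :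
    ‖∫ t in Set.Icc (c - r) (c + r), Complex.exp ((2 * Real.pi * z * Complex.I) * (t : ℂ))‖ ≤
      2 / |z| := by
  rw [integral_Icc_eq_integral_Ioc, ← intervalIntegral.integral_of_le (by linarith)]
  have hc : (2 * Real.pi * z * Complex.I : ℂ) ≠ 0 := by
    have h1 : (Real.pi : ℂ) ≠ 0 := by exact_mod_cast Real.pi_ne_zero
    have h2 : (z : ℂ) ≠ 0 := by exact_mod_cast hz
    simp [h1, h2]
  rw [integral_exp_mul_complex hc, norm_div]
  have h1 : ‖(2 * Real.pi * z * Complex.I : ℂ)‖ = 2 * Real.pi * |z| := by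
    simp [abs_of_pos Real.pi_pos]
  rw [h1]
  have h2 : ‖Complex.exp (2 * Real.pi * z * Complex.I * ((c + r : ℝ) : ℂ)) -
      Complex.exp (2 * Real.pi * z * Complex.I * ((c - r : ℝ) : ℂ))‖ ≤ 2 := by
    refine (norm_sub_le _ _).trans ?_
    rw [doub_norm_exp, doub_norm_exp]
    norm_num
  have hz' : 0 < |z| := abs_pos.2 hz
  have hpi := Real.pi_gt_three
  calc _ ≤ 2 / (2 * Real.pi * |z|) := by gcongr
    _ ≤ 2 / |z| := by
      apply div_le_div_of_nonneg_left (by norm_num) hz'
      nlinarith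

theorem cube_meas (x : E n) (r : ℝ) : MeasurableSet (cube x r) := by
  rw [doub_cube_eq]
  exact (PiLp.volume_preserving_ofLp (Fin n)).measurable (doub_box_meas x r)

theorem cube_vol (x : E n) {r : ℝ} (hr : 0 < r) :
    volume (cube x r) = ENNReal.ofReal ((2 * r) ^ n) := by
  rw [doub_cube_eq, (PiLp.volume_preserving_ofLp (Fin n)).measure_preimage
    (doub_box_meas x r).nullMeasurableSet, MeasureTheory.volume_pi_pi]
  have h : ∀ i : Fin n, volume (Set.Icc (x i - r) (x i + r)) = ENNReal.ofReal (2 * r) := by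
    intro i
    rw [Real.volume_Icc]
    congr 1
    ring
  rw [Finset.prod_congr rfl fun i _ => h i, Finset.prod_const, Finset.card_univ, Fintype.card_fin,
    ENNReal.ofReal_pow (by linarith)]

theorem int_e_cube (x : E n) {r : ℝ} (hr : 0 < r) {ζ : E n} (hζ : ζ ≠ 0) :
    ‖∫ y in cube x r, e ζ y‖ ≤ (2 * r) ^ n * (√n / (r * ‖ζ‖)) := by
  rw [doub_int, norm_prod]
  have hn : 0 < n := by
    rcases Nat.eq_zero_or_pos n with h | h
    · exfalso
      subst h
      exact hζ (Subsingleton.elim _ _)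
    · exact h
  have : Nonempty (Fin n) := ⟨⟨0, hn⟩⟩
  obtain ⟨i₀, -, hi₀⟩ := Finset.exists_max_image (Finset.univ : Finset (Fin n))
    (fun i => |ζ i|) Finset.univ_nonempty
  have hnorm : ‖ζ‖ ≤ √n * |ζ i₀| := by
    rw [EuclideanSpace.norm_eq]
    have h1 : ∑ i, ‖ζ i‖ ^ 2 ≤ n * |ζ i₀| ^ 2 := by
      calc ∑ i, ‖ζ i‖ ^ 2 ≤ ∑ _i : Fin n, |ζ i₀| ^ 2 := by
            refine Finset.sum_le_sum fun i hi => ?_
            rw [Real.norm_eq_abs]
            exact pow_le_pow_left₀ (abs_nonneg _) (hi₀ i hi) 2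
        _ = n * |ζ i₀| ^ 2 := by simp
    calc √(∑ i, ‖ζ i‖ ^ 2) ≤ √(n * |ζ i₀| ^ 2) := Real.sqrt_le_sqrt h1
      _ = √n * |ζ i₀| := by
        rw [Real.sqrt_mul (Nat.cast_nonneg n), Real.sqrt_sq (abs_nonneg _)]
  have hζn : 0 < ‖ζ‖ := norm_pos_iff.2 hζ
  have hz : ζ i₀ ≠ 0 := by
    intro h
    rw [h, abs_zero, mul_zero] at hnorm
    linarith
  have hz' : 0 < |ζ i₀| := abs_pos.2 hz
  rw [← Finset.mul_prod_erase Finset.univ _ (Finset.mem_univ i₀)]
  have h2 : ∏ i ∈ Finset.univ.erase i₀, ‖∫ t in Set.Icc (x i - r) (x i + r),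
      Complex.exp ((2 * Real.pi * (ζ i) * Complex.I) * (t : ℂ))‖ ≤ (2 * r) ^ (n - 1) := by
    calc _ ≤ ∏ _i ∈ Finset.univ.erase i₀, (2 * r) :=
          Finset.prod_le_prod (fun i _ => norm_nonneg _) fun i _ => doub_trivial _ _ hr
      _ = (2 * r) ^ (n - 1) := by
        rw [Finset.prod_const, Finset.card_erase_of_mem (Finset.mem_univ _), Finset.card_univ,
          Fintype.card_fin]
  have h3 := doub_osc (x i₀) (ζ i₀) hr hz
  have h4 : (2 : ℝ) / |ζ i₀| ≤ (2 * r) * (√n / (r * ‖ζ‖)) := by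
    have e1 : (2 * r) * (√n / (r * ‖ζ‖)) = 2 * (√n / ‖ζ‖) := by
      field_simp
    rw [e1, div_le_iff₀ hz']
    have e2 : 2 * (√n / ‖ζ‖) * |ζ i₀| = 2 * (√n * |ζ i₀|) / ‖ζ‖ := by ring
    rw [e2, le_div_iff₀ hζn]
    linarith
  calc _ ≤ (2 / |ζ i₀|) * (2 * r) ^ (n - 1) :=
        mul_le_mul h3 h2 (Finset.prod_nonneg fun i _ => norm_nonneg _) (by positivity)
    _ ≤ ((2 * r) * (√n / (r * ‖ζ‖))) * (2 * r) ^ (n - 1) := by
        apply mul_le_mul_of_nonneg_right h4
        positivity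
    _ = (2 * r) ^ n * (√n / (r * ‖ζ‖)) := by
        obtain ⟨m, rfl⟩ : ∃ m, n = m + 1 := ⟨n - 1, by omega⟩
        rw [Nat.add_sub_cancel, pow_succ]
        ring

theorem doub_one : DoublingLe (dens fun _ : E n => (1 : ℝ)) (2 ^ n) := by
  have hd : dens (fun _ : E n => (1 : ℝ)) = volume := by
    unfold dens
    simp
  intro x r hr
  rw [hd, cube_vol x (by linarith : 0 < 2 * r), cube_vol x hr, ← ENNReal.ofReal_mul (by positivity)]
  apply ENNReal.ofReal_le_ofReal
  rw [← mul_pow]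

end Pool.Agent.helper12.RT
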