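import Pool.Agent.helper12.RT.TPa

/-!
# RT-TPb: the reciprocal of a positive trigonometric polynomial

PROOF.  Let `c ≤ s ≤ C` with `c ≤ C`, `θ = 1 - c / C ∈ [0, 1)`.  For `r x = 1 - s x / C ∈ [0, θ]` we have
`1 / s = (1 / C) ∑_j r ^ j`, and the partial sum `q = (1 / C) ∑_{j < J} r ^ j` satisfies
`|1 / s - q| = r ^ J / s ≤ θ ^ J / c` (`geom_sum_eq`, `1 - r = s / C`).  `q` is a trigonometric polynomial (`TPr.mul`, `TPr.add`).
-/

set_option autoImplicit false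

open MeasureTheory FourierTransform
open scoped ENNReal InnerProductSpace ComplexConjugate

namespace Pool.Agent.helper12.RT

variable {n : ℕ}

private theorem TPb_pow {K : ℝ} (hK : 0 ≤ K) {r : E n → ℝ} (hr : TPr K r) (J : ℕ) :
    ∃ K' : ℝ, 0 ≤ K' ∧ TPr K' fun x => r x ^ J := by
  induction J with
  | zero => exact ⟨0, le_refl _, by simpa using TPr.const (n := n) (le_refl 0) 1⟩
  | succ J ih =>
    obtain ⟨K', h0, h1⟩ := ih
    refine ⟨K' + K, by positivity, ?_⟩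
    simpa only [pow_succ] using h1.mul hr

private theorem TPb_geom {K : ℝ} (hK : 0 ≤ K) {r : E n → ℝ} (hr : TPr K r) (J : ℕ) :
    ∃ K' : ℝ, 0 ≤ K' ∧ TPr K' fun x => ∑ j ∈ Finset.range J, r x ^ j := by
  induction J with
  | zero => exact ⟨0, le_refl _, by simpa using TPr.const (n := n) (le_refl 0) 0⟩
  | succ J ih =>
    obtain ⟨K', h0, h1⟩ := ih
    obtain ⟨K'', h2, h3⟩ := TPb_pow hK hr J
    refine ⟨max K' K'', le_max_of_le_left h0, ?_⟩
    simpa only [Finset.sum_range_succ] using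
      (h1.mono (le_max_left K' K'')).add (h3.mono (le_max_right K' K''))

theorem TPr.exists_inv {K : ℝ} {s : E n → ℝ} (hs : TPr K s) {c : ℝ} (hc : 0 < c)
    (h : ∀ x, c ≤ s x) {ε : ℝ} (hε : 0 < ε) :
    ∃ (K' : ℝ) (q : E n → ℝ), TPr K' q ∧ ∀ x, |(s x)⁻¹ - q x| ≤ ε := by
  obtain ⟨-, C0, hC0⟩ := hs.bmr
  have hcC : c ≤ C0 := (h 0).trans ((le_abs_self _).trans (hC0 0))
  have hC : 0 < C0 := hc.trans_le hcC
  set K0 : ℝ := max K 0 with hK0
  have hK0' : 0 ≤ K0 := le_max_right _ _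
  have hs0 : TPr K0 s := hs.mono (le_max_left _ _)
  set θ : ℝ := 1 - c / C0 with hθ
  have hθ0 : 0 ≤ θ := by
    rw [hθ, sub_nonneg, div_le_one hC]
    exact hcC
  have hθ1 : θ < 1 := by
    rw [hθ]
    have : 0 < c / C0 := by positivity
    linarith
  obtain ⟨J, hJ⟩ := exists_pow_lt_of_lt_one (mul_pos hε hc) hθ1
  have hr : TPr K0 fun x => 1 - s x / C0 := by
    have h1 := (TPr.const (n := n) hK0' 1).sub
      ((TPr.const (n := n) (le_refl 0) (1 / C0)).mul hs0 |>.mono (by simp))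
    refine cast ?_ h1
    congr 1
    funext x
    ring
  obtain ⟨K', hK', hg⟩ := TPb_geom hK0' hr J
  refine ⟨0 + K', fun x => 1 / C0 * ∑ j ∈ Finset.range J, (1 - s x / C0) ^ j,
    (TPr.const (n := n) (le_refl 0) (1 / C0)).mul hg, fun x => ?_⟩
  have hsx : 0 < s x := hc.trans_le (h x)
  have hsC : s x ≤ C0 := (le_abs_self _).trans (hC0 x)
  have hr0 : 0 ≤ 1 - s x / C0 := by
    rw [sub_nonneg, div_le_one hC]
    exact hsC
  have hrθ : 1 - s x / C0 ≤ θ := by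
    rw [hθ]
    have := h x
    gcongr
  have hgs := geom_sum_mul (1 - s x / C0) J
  have hkey : (s x)⁻¹ - 1 / C0 * ∑ j ∈ Finset.range J, (1 - s x / C0) ^ j =
      (1 - s x / C0) ^ J / s x := by
    have h2 : s x / C0 * ∑ j ∈ Finset.range J, (1 - s x / C0) ^ j =
        1 - (1 - s x / C0) ^ J := by linarith
    rw [eq_div_iff hsx.ne', sub_mul, inv_mul_cancel₀ hsx.ne']
    have h3 : 1 / C0 * (∑ j ∈ Finset.range J, (1 - s x / C0) ^ j) * s x =
        s x / C0 * ∑ j ∈ Finset.range J, (1 - s x / C0) ^ j := by ring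
    rw [h3, h2]
    ring
  rw [hkey, abs_of_nonneg (by positivity), div_le_iff₀ hsx]
  calc (1 - s x / C0) ^ J ≤ θ ^ J := pow_le_pow_left₀ hr0 hrθ J
    _ ≤ ε * c := hJ.le
    _ ≤ ε * s x := mul_le_mul_of_nonneg_left (h x) hε.le

end Pool.Agent.helper12.RT
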