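import Pool.Agent.helper12.RT.TowerA

/-!
# RT-TowerB: the martingale

`avE G` is the average of `G` after an even step `s ↦ s (1 + c / 4)`, `w ↦ w (1 - c / 4)`, `y ↦ y + s c / 4`; `avO G` after an odd step
`s ↦ s (1 + x)`, `w ↦ w (1 + x)`, `x = ((1 - s w) / 2) c`.  `Rk j` is the average of `w y²` after `j` pairs of steps.
PROOF of `tower`.  CLAIM: there are continuous `A_j, B_j : ℝ → ℝ` with
`Rk j s w y = w y² + s A_j(s w) - y B_j(s w)` for all real `s, w, y`, and `A_j(P) ≥ j / 100 + (1/2) log P` for `0 < P ≤ 1`.  (`P = 1`, `y = 0`, `s = w = 1`: the result.)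
`A_0 = B_0 = 0`.  Even step (`P = s w` becomes `P (1 - c² / 16)`):
`w (1 - c/4) (y + s c / 4)² = w y² + c (..) + (c²/16) (w s² - 2 w s y) - c³ w s² / 64`, so with `ws² = s P`, `w s y = y P` (`av_odd`, `av_sq`)
`avE (Rk j) s w y = w y² + s Ae(P) - y Be(P)`, `Ae(P) = P / 32 + av (fun c => A_j(P (1 - c²/16)))`, `Be(P) = P / 16 + av (fun c => B_j(P (1 - c²/16)))`
(the terms `s (c / 4) A_j(..)` and `(s c / 4) B_j(..)` are odd in `c`).
Odd step (`P` becomes `P (1 + x)²`, `x = (1 - P) c / 2`): `A_{j+1}(P) = av (fun c => (1 + x) Ae(P (1 + x)²))`,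
`B_{j+1}(P) = av (fun c => Be(P (1 + x)²))`.
Inequality: for `0 < P ≤ 1`: `P (1 - c²/16) ∈ (0, 1]`, so `Ae(P) ≥ P/32 + j/100 + (1/2) log P + (1/2) av (log (1 - c²/16)) ≥ P/32 + j/100 + (1/2) log P - 1/60`
(`av_log_one_sub`).  `P (1 + x)² ∈ (0, 1]` (`P (1 + (1-P)/2)² ≤ 1`), so `A_{j+1}(P) ≥ av ((1+x) (P (1+x)²/32 + j/100 - 1/60 + (1/2) log P + log (1+x)))
≥ P/32 + j/100 - 1/60 + (1/2) log P + (1-P)²/16` (`av (1+x) = 1`, `av (1+x)³ = 1 + 3 av x² ≥ 1`, `av_mul_log` with `t = (1-P)/2`), and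
`P/32 + (1-P)²/16 - 1/60 ≥ 1/100` (minimum at `1 - P = 1/4`: `3/128 + 1/256 - 1/60 = 0.01067..`).
Continuity: `intervalIntegral.continuous_parametric_intervalIntegral_of_continuous'` or similar.
-/

set_option autoImplicit false

open MeasureTheory

namespace Pool.Agent.helper12.RT

noncomputable def avE (G : ℝ → ℝ → ℝ → ℝ) (s w y : ℝ) : ℝ :=
  av fun c => G (s * (1 + 1 / 4 * c)) (w * (1 + -(1 / 4) * c)) (y + s * (1 / 4 * c))

noncomputable def avO (G : ℝ → ℝ → ℝ → ℝ) (s w y : ℝ) : ℝ :=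
  av fun c => G (s * (1 + (1 - s * w) / 2 * c)) (w * (1 + (1 - s * w) / 2 * c)) y

noncomputable def Rk : ℕ → ℝ → ℝ → ℝ → ℝ
  | 0 => fun _ w y => w * y ^ 2
  | (j + 1) => avO (avE (Rk j))

/-- joint continuity -/
def Cont3 (G : ℝ → ℝ → ℝ → ℝ) : Prop := Continuous fun p : ℝ × ℝ × ℝ => G p.1 p.2.1 p.2.2

/-- parametric continuity of the average -/
theorem av_cont {X : Type*} [TopologicalSpace X] [FirstCountableTopology X] {F : X → ℝ → ℝ}
    (hF : Continuous fun p : X × ℝ => F p.1 p.2) : Continuous fun x => av (F x) := by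
  unfold av
  apply intervalIntegral.continuous_parametric_intervalIntegral_of_continuous'
  have h : Continuous fun p : X × ℝ => (p.1, Real.cos (2 * Real.pi * p.2)) := by fun_prop
  exact hF.comp h

theorem cont_avE {G : ℝ → ℝ → ℝ → ℝ} (hG : Cont3 G) : Cont3 (avE G) := by
  unfold Cont3 avE
  apply av_cont (X := ℝ × ℝ × ℝ)
  have h : Continuous fun q : (ℝ × ℝ × ℝ) × ℝ =>
      (q.1.1 * (1 + 1 / 4 * q.2), q.1.2.1 * (1 + -(1 / 4) * q.2),
        q.1.2.2 + q.1.1 * (1 / 4 * q.2)) := by fun_prop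
  exact hG.comp h

theorem cont_avO {G : ℝ → ℝ → ℝ → ℝ} (hG : Cont3 G) : Cont3 (avO G) := by
  unfold Cont3 avO
  apply av_cont (X := ℝ × ℝ × ℝ)
  have h : Continuous fun q : (ℝ × ℝ × ℝ) × ℝ =>
      (q.1.1 * (1 + (1 - q.1.1 * q.1.2.1) / 2 * q.2),
        q.1.2.1 * (1 + (1 - q.1.1 * q.1.2.1) / 2 * q.2), q.1.2.2) := by fun_prop
  exact hG.comp h

theorem cont_Rk (j : ℕ) : Cont3 (Rk j) := by
  induction j with
  | zero =>
    show Continuous fun p : ℝ × ℝ × ℝ => p.2.1 * p.2.2 ^ 2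
    fun_prop
  | succ j ih => exact cont_avO (cont_avE ih)

/-- the half step for the coefficient functions -/
noncomputable def halfA (A : ℝ → ℝ) (P : ℝ) : ℝ := P / 32 + av fun c => A (P * (1 - c ^ 2 / 16))

noncomputable def halfB (B : ℝ → ℝ) (P : ℝ) : ℝ := P / 16 + av fun c => B (P * (1 - c ^ 2 / 16))

noncomputable def stepA (A : ℝ → ℝ) (P : ℝ) : ℝ :=
  av fun c => (1 + (1 - P) / 2 * c) * halfA A (P * (1 + (1 - P) / 2 * c) ^ 2)

noncomputable def stepB (B : ℝ → ℝ) (P : ℝ) : ℝ :=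
  av fun c => halfB B (P * (1 + (1 - P) / 2 * c) ^ 2)

theorem halfA_cont {A : ℝ → ℝ} (hA : Continuous A) : Continuous (halfA A) := by
  unfold halfA
  have h : Continuous fun x : ℝ => av fun c => A (x * (1 - c ^ 2 / 16)) := by
    apply av_cont
    exact hA.comp (by fun_prop)
  fun_prop

theorem halfB_cont {B : ℝ → ℝ} (hB : Continuous B) : Continuous (halfB B) := by
  unfold halfB
  have h : Continuous fun x : ℝ => av fun c => B (x * (1 - c ^ 2 / 16)) := by
    apply av_cont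
    exact hB.comp (by fun_prop)
  fun_prop

theorem stepA_cont {A : ℝ → ℝ} (hA : Continuous A) : Continuous (stepA A) := by
  unfold stepA
  apply av_cont
  have h := halfA_cont hA
  have h2 : Continuous fun p : ℝ × ℝ => halfA A (p.1 * (1 + (1 - p.1) / 2 * p.2) ^ 2) :=
    h.comp (by fun_prop)
  fun_prop

theorem stepB_cont {B : ℝ → ℝ} (hB : Continuous B) : Continuous (stepB B) := by
  unfold stepB
  apply av_cont
  exact (halfB_cont hB).comp (by fun_prop)

/-- the even step -/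
theorem avE_formula {G : ℝ → ℝ → ℝ → ℝ} {A B : ℝ → ℝ} (hA : Continuous A) (hB : Continuous B)
    (hG : ∀ s w y, G s w y = w * y ^ 2 + s * A (s * w) - y * B (s * w)) (s w y : ℝ) :
    avE G s w y = w * y ^ 2 + s * halfA A (s * w) - y * halfB B (s * w) := by
  have h1 : avE G s w y = av (fun c =>
      (((w * y ^ 2 + (w * s ^ 2 / 16 - w * s * y / 8) * c ^ 2)
        + (w * s * y / 2 * c - w * y ^ 2 / 4 * c - w * s ^ 2 / 64 * c ^ 3
          + s / 4 * (c * A (s * w * (1 - c ^ 2 / 16)))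
          - s / 4 * (c * B (s * w * (1 - c ^ 2 / 16)))))
        + s * A (s * w * (1 - c ^ 2 / 16))) - y * B (s * w * (1 - c ^ 2 / 16))) := by
    unfold avE
    apply av_congr
    intro c _
    have hP : s * (1 + 1 / 4 * c) * (w * (1 + -(1 / 4) * c)) = s * w * (1 - c ^ 2 / 16) := by ring
    rw [hG, hP]
    ring
  have cA : Continuous fun c : ℝ => A (s * w * (1 - c ^ 2 / 16)) := hA.comp (by fun_prop)
  have cB : Continuous fun c : ℝ => B (s * w * (1 - c ^ 2 / 16)) := hB.comp (by fun_prop)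
  rw [h1, av_sub (by fun_prop) (by fun_prop), av_add (by fun_prop) (by fun_prop),
    av_add (by fun_prop) (by fun_prop), av_add (by fun_prop) (by fun_prop), av_const, av_mul, av_sq,
    av_mul, av_mul]
  rw [av_odd (f := fun c => w * s * y / 2 * c - w * y ^ 2 / 4 * c - w * s ^ 2 / 64 * c ^ 3
          + s / 4 * (c * A (s * w * (1 - c ^ 2 / 16)))
          - s / 4 * (c * B (s * w * (1 - c ^ 2 / 16))))
      (by intro c; rw [neg_sq]; ring)]
  unfold halfA halfB
  ring

/-- the odd step -/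
theorem avO_formula {G : ℝ → ℝ → ℝ → ℝ} {A B : ℝ → ℝ} (hA : Continuous A) (hB : Continuous B)
    (hG : ∀ s w y, G s w y = w * y ^ 2 + s * halfA A (s * w) - y * halfB B (s * w)) (s w y : ℝ) :
    avO G s w y = w * y ^ 2 + s * stepA A (s * w) - y * stepB B (s * w) := by
  set P := s * w with hP
  have h1 : avO G s w y = av (fun c =>
      ((w * y ^ 2 + (w * y ^ 2 * ((1 - P) / 2)) * c)
        + s * ((1 + (1 - P) / 2 * c) * halfA A (P * (1 + (1 - P) / 2 * c) ^ 2)))
        - y * halfB B (P * (1 + (1 - P) / 2 * c) ^ 2)) := by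
    unfold avO
    apply av_congr
    intro c _
    have hP2 : s * (1 + (1 - s * w) / 2 * c) * (w * (1 + (1 - s * w) / 2 * c))
        = P * (1 + (1 - P) / 2 * c) ^ 2 := by rw [hP]; ring
    rw [hG, hP2, ← hP]
    ring
  have cA : Continuous fun c : ℝ => halfA A (P * (1 + (1 - P) / 2 * c) ^ 2) :=
    (halfA_cont hA).comp (by fun_prop)
  have cB : Continuous fun c : ℝ => halfB B (P * (1 + (1 - P) / 2 * c) ^ 2) :=
    (halfB_cont hB).comp (by fun_prop)
  have e1 : av (fun c => w * y ^ 2 * ((1 - P) / 2) * c) = 0 := av_odd (by intro c; ring)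
  rw [h1, av_sub (Continuous.continuousOn (by fun_prop)) (Continuous.continuousOn (by fun_prop)),
    av_add (by fun_prop) (Continuous.continuousOn (by fun_prop)),
    av_add (by fun_prop) (by fun_prop), av_const, e1, av_mul, av_mul]
  unfold stepA stepB
  ring

/-- the lower bound for the coefficient -/
theorem stepA_lower {A : ℝ → ℝ} (hA : Continuous A) {a : ℝ}
    (h : ∀ P, 0 < P → P ≤ 1 → a + 1 / 2 * Real.log P ≤ A P) :
    ∀ P, 0 < P → P ≤ 1 → a + 1 / 100 + 1 / 2 * Real.log P ≤ stepA A P := by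
  have hhalf : ∀ P, 0 < P → P ≤ 1 → P / 32 + a + 1 / 2 * Real.log P - 1 / 60 ≤ halfA A P := by
    intro P hP0 hP1
    have hpos : ∀ c ∈ Set.Icc (-1 : ℝ) 1, 0 < 1 - c ^ 2 / 16 := by
      intro c hc
      have : c ^ 2 ≤ 1 := by nlinarith [hc.1, hc.2]
      linarith
    have cL : ContinuousOn (fun c : ℝ => Real.log (1 - c ^ 2 / 16)) (Set.Icc (-1) 1) := by
      intro c hc
      exact ContinuousAt.continuousWithinAt (ContinuousAt.log (by fun_prop) (hpos c hc).ne')
    have cL2 : ContinuousOn (fun c : ℝ => 1 / 2 * Real.log (1 - c ^ 2 / 16)) (Set.Icc (-1) 1) :=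
      continuousOn_const.mul cL
    have cA : Continuous fun c : ℝ => A (P * (1 - c ^ 2 / 16)) := hA.comp (by fun_prop)
    have h1 : av (fun c => (a + 1 / 2 * Real.log P) + 1 / 2 * Real.log (1 - c ^ 2 / 16)) ≤
        av (fun c => A (P * (1 - c ^ 2 / 16))) := by
      apply av_mono _ cA.continuousOn
      · intro c hc
        have hp := hpos c hc
        have h2 : P * (1 - c ^ 2 / 16) ≤ 1 := by nlinarith [sq_nonneg c]
        have h3 := h (P * (1 - c ^ 2 / 16)) (by positivity) h2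
        rw [Real.log_mul hP0.ne' hp.ne'] at h3
        linarith
      · exact continuousOn_const.add cL2
    rw [av_add (f := fun _ => a + 1 / 2 * Real.log P) continuousOn_const cL2, av_const,
      av_mul] at h1
    have h4 := av_log_one_sub
    unfold halfA
    linarith
  intro P hP0 hP1
  set t := (1 - P) / 2 with ht
  have ht0 : 0 ≤ t := by rw [ht]; linarith
  have ht1 : t ≤ 1 / 2 := by rw [ht]; linarith
  have hx : ∀ c ∈ Set.Icc (-1 : ℝ) 1, 1 / 2 ≤ 1 + t * c := by
    intro c hc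
    nlinarith [hc.1, hc.2]
  have hle : ∀ c ∈ Set.Icc (-1 : ℝ) 1, P * (1 + t * c) ^ 2 ≤ 1 := by
    intro c hc
    have h1 : 1 + t * c ≤ 1 + t := by nlinarith [hc.2]
    have h2 : (1 + t * c) ^ 2 ≤ (1 + t) ^ 2 :=
      pow_le_pow_left₀ (by linarith [hx c hc]) h1 2
    have h3 : P = 1 - 2 * t := by rw [ht]; ring
    have h4 : P * (1 + t) ^ 2 ≤ 1 := by
      rw [h3]
      nlinarith [mul_nonneg ht0 ht0, mul_nonneg (mul_nonneg ht0 ht0) ht0]
    nlinarith
  have cH : Continuous fun c : ℝ => halfA A (P * (1 + t * c) ^ 2) :=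
    (halfA_cont hA).comp (by fun_prop)
  have cL : ContinuousOn (fun c : ℝ => (1 + t * c) * Real.log (1 + t * c)) (Set.Icc (-1) 1) := by
    intro c hc
    apply ContinuousAt.continuousWithinAt
    apply ContinuousAt.mul (by fun_prop)
    exact ContinuousAt.log (by fun_prop) (by linarith [hx c hc] : (0 : ℝ) < 1 + t * c).ne'
  have h1 : av (fun c => ((P / 32 + a - 1 / 60 + 1 / 2 * Real.log P + 3 * P * t ^ 2 / 32 * c ^ 2)
      + ((3 * P * t / 32 + (a - 1 / 60 + 1 / 2 * Real.log P) * t) * c + P * t ^ 3 / 32 * c ^ 3))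
      + (1 + t * c) * Real.log (1 + t * c)) ≤ stepA A P := by
    unfold stepA
    rw [← ht]
    apply av_mono
    · exact (by fun_prop : ContinuousOn (fun c : ℝ =>
        (P / 32 + a - 1 / 60 + 1 / 2 * Real.log P + 3 * P * t ^ 2 / 32 * c ^ 2)
      + ((3 * P * t / 32 + (a - 1 / 60 + 1 / 2 * Real.log P) * t) * c + P * t ^ 3 / 32 * c ^ 3))
        (Set.Icc (-1) 1)).add cL
    · fun_prop
    · intro c hc
      have hp := hx c hc
      have hp0 : 0 < 1 + t * c := by linarith
      have h2 := hhalf (P * (1 + t * c) ^ 2) (by positivity) (hle c hc)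
      rw [Real.log_mul hP0.ne' (by positivity), Real.log_pow] at h2
      have h3 := mul_le_mul_of_nonneg_left h2 hp0.le
      refine le_trans (le_of_eq ?_) h3
      push_cast
      ring
  have h5 := av_mul_log (t := t) (by rw [abs_of_nonneg ht0]; exact ht1)
  rw [av_add (by fun_prop) cL, av_add (by fun_prop) (by fun_prop),
    av_add (by fun_prop) (by fun_prop), av_const, av_mul, av_sq,
    av_odd (f := fun c => (3 * P * t / 32 + (a - 1 / 60 + 1 / 2 * Real.log P) * t) * c
      + P * t ^ 3 / 32 * c ^ 3) (by intro c; ring)] at h1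
  have h6 : 0 ≤ P * t ^ 2 := by positivity
  have h7 : P = 1 - 2 * t := by rw [ht]; ring
  nlinarith [sq_nonneg (t - 1 / 8)]

theorem Rk_formula (j : ℕ) : ∃ A B : ℝ → ℝ, Continuous A ∧ Continuous B ∧
    (∀ s w y, Rk j s w y = w * y ^ 2 + s * A (s * w) - y * B (s * w)) ∧
    ∀ P, 0 < P → P ≤ 1 → (j : ℝ) / 100 + 1 / 2 * Real.log P ≤ A P := by
  induction j with
  | zero =>
    refine ⟨fun _ => 0, fun _ => 0, continuous_const, continuous_const, ?_, ?_⟩
    · intro s w y
      show w * y ^ 2 = _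
      ring
    · intro P hP0 hP1
      have := Real.log_nonpos hP0.le hP1
      push_cast
      linarith
  | succ j ih =>
    obtain ⟨A, B, hA, hB, hR, hlow⟩ := ih
    refine ⟨stepA A, stepB B, stepA_cont hA, stepB_cont hB, ?_, ?_⟩
    · intro s w y
      exact avO_formula hA hB (avE_formula hA hB hR) s w y
    · intro P hP0 hP1
      have := stepA_lower hA hlow P hP0 hP1
      push_cast
      linarith

theorem tower (j : ℕ) : (j : ℝ) / 100 ≤ Rk j 1 1 0 := by
  obtain ⟨A, B, hA, hB, hR, hlow⟩ := Rk_formula j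
  have := hlow 1 one_pos le_rfl
  rw [hR]
  rw [Real.log_one] at this
  simp only [mul_one, one_mul, zero_mul, sub_zero] at this ⊢
  norm_num at this ⊢
  linarith

end Pool.Agent.helper12.RT
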