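import Pool.Agent.helper12.RT.OpsQ

/-!
# RT-BridgeA: from `Bd` to `NormLe`

PROOF.  `σ = s dx`, `ω = w dx`, `c ≤ s, w ≤ C`.  Let `f ∈ L²(σ)` and `u ∈ H n` with `∫_B f dσ = ∫_B u dx` for all bounded Borel sets `B`.
`f` is in `L²(dx)` (`volume ≤ c⁻¹ • σ`, `MemLp.of_measure_le_smul` or `MemLp.mono_measure`, `withDensity` of a function bounded below), let `f' : H n` be
its class.  `∫_B f dσ = ∫_B s f dx` (`setIntegral_withDensity_eq_setIntegral_toReal_smul` or similar), so `u = s f` a.e.
(`ae_eq_of_forall_setIntegral_eq_of_sigmaFinite`-like, or apply it on the balls of radius `k`), i.e. `u = Mr s f'`.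
`eLpNorm f 2 σ ^ 2 = ∫ s ‖f‖² = Q s f'` and `eLpNorm (Tr m u) 2 ω ^ 2 = Q w (Tr m u)` (as `ENNReal.ofReal`; `eLpNorm_two_eq...`, `lintegral_withDensity_eq_lintegral_mul`,
`ofReal_integral_eq_lintegral_ofReal`): `dens_eLpNorm`.
`normLe_congr`: only the operator matters.
-/

set_option autoImplicit false

open MeasureTheory FourierTransform
open scoped ENNReal InnerProductSpace ComplexConjugate

namespace Pool.Agent.helper12.RT

variable {n : ℕ}

theorem Weight.bmr {s : E n → ℝ} (hs : Weight s) : BMr s := by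
  obtain ⟨c, C, hc, h⟩ := hs.bdd
  refine ⟨hs.smooth.continuous.measurable, C, fun x => ?_⟩
  rw [abs_of_nonneg (hc.le.trans (h x).1)]
  exact (h x).2

private theorem BridgeA_nonneg {s : E n → ℝ} (hs : Weight s) (x : E n) : 0 ≤ s x := by
  obtain ⟨c, C, hc, h⟩ := hs.bdd
  exact hc.le.trans (h x).1

theorem dens_eLpNorm {w : E n → ℝ} (hw : Weight w) (v : H n) :
    eLpNorm v 2 (dens w) = ENNReal.ofReal (√(Q w v)) := by
  have hm : Measurable fun x : E n => ENNReal.ofReal (w x) := hw.bmr.1.ennreal_ofReal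
  have hv : AEMeasurable (fun x : E n => ‖v x‖ₑ ^ (2 : ℝ)) volume :=
    ((Lp.memLp v).1.enorm).pow_const _
  have h1 : ∫⁻ x, ‖v x‖ₑ ^ (2 : ℝ) ∂(dens w) = ENNReal.ofReal (Q w v) := by
    rw [dens, lintegral_withDensity_eq_lintegral_mul₀ hm.aemeasurable hv, Q,
      ofReal_integral_eq_lintegral_ofReal (Q_integrable hw.bmr v)
        (Filter.Eventually.of_forall fun x => mul_nonneg (BridgeA_nonneg hw x) (by positivity))]
    apply lintegral_congr
    intro x
    rw [Pi.mul_apply, ENNReal.ofReal_mul (BridgeA_nonneg hw x), ENNReal.ofReal_pow (norm_nonneg _),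
      ofReal_norm, ENNReal.rpow_two]
  rw [eLpNorm_eq_lintegral_rpow_enorm_toReal (by norm_num) (by norm_num), ENNReal.toReal_ofNat, h1,
    ENNReal.ofReal_rpow_of_nonneg (Q_nonneg (BridgeA_nonneg hw) v) (by norm_num),
    ← Real.sqrt_eq_rpow]

private theorem BridgeA_memLp {s : E n → ℝ} (hs : Weight s) {f : E n → ℂ}
    (hf : MemLp f 2 (dens s)) : MemLp f 2 (volume : Measure (E n)) := by
  obtain ⟨c, C, hc, h⟩ := hs.bdd
  refine MemLp.of_measure_le_smul (c := (ENNReal.ofReal c)⁻¹) ?_ ?_ hf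
  · rw [ENNReal.inv_ne_top]
    exact (ENNReal.ofReal_pos.mpr hc).ne'
  · rw [Measure.le_iff]
    intro B hB
    rw [Measure.smul_apply, smul_eq_mul, dens, withDensity_apply _ hB]
    have h1 : ENNReal.ofReal c * volume B ≤ ∫⁻ x in B, ENNReal.ofReal (s x) := by
      rw [← setLIntegral_const]
      exact lintegral_mono fun x => ENNReal.ofReal_le_ofReal (h x).1
    calc volume B = (ENNReal.ofReal c)⁻¹ * (ENNReal.ofReal c * volume B) := by
          rw [← mul_assoc, ENNReal.inv_mul_cancel (ENNReal.ofReal_pos.mpr hc).ne'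
            ENNReal.ofReal_ne_top, one_mul]
      _ ≤ _ := mul_le_mul_right h1 _

private theorem BridgeA_intOn (u : H n) {B : Set (E n)} (hB : volume B < ∞) :
    IntegrableOn (fun x => u x) B := by
  have h1 : MemLp (fun x => u x) 2 (volume.restrict B) := (Lp.memLp u).restrict B
  have : IsFiniteMeasure (volume.restrict B) := ⟨by rw [Measure.restrict_apply_univ]; exact hB⟩
  exact h1.integrable (by norm_num)

/-- `f σ = u dx` means `u = s f` -/
theorem dens_repr {s : E n → ℝ} (hs : Weight s) {f : E n → ℂ} (hf : MemLp f 2 (dens s)) (u : H n)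
    (h : ∀ B : Set (E n), MeasurableSet B → Bornology.IsBounded B →
      ∫ x in B, f x ∂(dens s) = ∫ x in B, u x) :
    ∃ f' : H n, (f' : E n → ℂ) =ᵐ[volume] f ∧ u = Mr s f' ∧
      eLpNorm f 2 (dens s) = ENNReal.ofReal (√(Q s f')) := by
  have hf' := BridgeA_memLp hs hf
  set f' : H n := hf'.toLp f with hf'def
  have hff : (f' : E n → ℂ) =ᵐ[volume] f := hf'.coeFn_toLp
  refine ⟨f', hff, ?_, ?_⟩
  · have hb : ∀ B : Set (E n), MeasurableSet B → Bornology.IsBounded B →
        ∫ x in B, u x = ∫ x in B, (Mr s f' : H n) x := by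
      intro B hB hB'
      rw [← h B hB hB', dens, setIntegral_withDensity_eq_setIntegral_toReal_smul
        (hs.bmr.1.ennreal_ofReal) (Filter.Eventually.of_forall fun x => ENNReal.ofReal_lt_top) _ hB]
      apply integral_congr_ae
      have h1 : (Mr s f' : E n → ℂ) =ᵐ[volume] fun x => (s x : ℂ) * f' x := M_apply hs.bmr.bm f'
      filter_upwards [ae_restrict_of_ae h1, ae_restrict_of_ae hff] with x hx1 hx2
      rw [hx1, hx2, ENNReal.toReal_ofReal (BridgeA_nonneg hs x), Complex.real_smul]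
    apply Lp.ext
    refine Lp.ae_eq_of_forall_setIntegral_eq u (Mr s f') (by norm_num) (by norm_num)
      (fun B _ hB => BridgeA_intOn u hB) (fun B _ hB => BridgeA_intOn _ hB) ?_
    intro B hB hB'
    have hU : B = ⋃ k : ℕ, B ∩ Metric.closedBall (0 : E n) k := by
      rw [← Set.inter_iUnion, Metric.iUnion_closedBall_nat, Set.inter_univ]
    have hmono : Monotone fun k : ℕ => B ∩ Metric.closedBall (0 : E n) k := by
      intro a b hab
      exact Set.inter_subset_inter_right _ (Metric.closedBall_subset_closedBall (by exact_mod_cast hab))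
    have hmeas : ∀ k : ℕ, MeasurableSet (B ∩ Metric.closedBall (0 : E n) k) := fun k =>
      hB.inter Metric.isClosed_closedBall.measurableSet
    have t1 := tendsto_setIntegral_of_monotone (f := fun x => u x) hmeas hmono
      (by rw [← hU]; exact BridgeA_intOn u hB')
    have t2 := tendsto_setIntegral_of_monotone (f := fun x => (Mr s f' : H n) x) hmeas hmono
      (by rw [← hU]; exact BridgeA_intOn _ hB')
    rw [← hU] at t1 t2
    have h3 : (fun k : ℕ => ∫ x in B ∩ Metric.closedBall (0 : E n) k, u x) =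
        fun k : ℕ => ∫ x in B ∩ Metric.closedBall (0 : E n) k, (Mr s f' : H n) x := by
      funext k
      exact hb _ (hmeas k) (Metric.isBounded_closedBall.subset Set.inter_subset_right)
    rw [h3] at t1
    exact tendsto_nhds_unique t1 t2
  · rw [← dens_eLpNorm hs f']
    exact eLpNorm_congr_ae ((withDensity_absolutelyContinuous _ _).ae_le hff.symm)

theorem normLe_of_bd {m s w : E n → ℝ} (hs : Weight s) (hw : Weight w) {N : ℝ} (hN : 0 ≤ N)
    (h : Bd m s w (N ^ 2)) : NormLe (Tr m) (dens s) (dens w) N := by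
  intro f hf u hu
  obtain ⟨f', _, h2, h3⟩ := dens_repr hs hf u hu
  rw [h3, dens_eLpNorm hw, ← ENNReal.ofReal_mul hN]
  apply ENNReal.ofReal_le_ofReal
  rw [h2]
  calc √(Q w (Tr m (Mr s f'))) ≤ √(N ^ 2 * Q s f') := Real.sqrt_le_sqrt (h f')
    _ = N * √(Q s f') := by rw [Real.sqrt_mul (by positivity), Real.sqrt_sq hN]

end Pool.Agent.helper12.RT
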