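import Pool.Agent.helper12.RT.Main
import Pool.Agent.helper12.RT.SpecA

/-!
# RT: the final statement
-/

set_option autoImplicit false

open MeasureTheory FourierTransform
open scoped ENNReal InnerProductSpace

namespace Pool.Agent.helper12.RT

variable {n : ℕ}

theorem exists_lin (Φ : E n ≃ₗᵢ[ℝ] E n) (h : LinearMap.det (Φ.toLinearEquiv : E n →ₗ[ℝ] E n) = 1) :
    ∃ A : Matrix (Fin n) (Fin n) ℝ, A * A.transpose = 1 ∧ A.det = 1 ∧ (Φ : E n → E n) = lin A := by
  let b := EuclideanSpace.basisFun (Fin n) ℝ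
  let A : Matrix (Fin n) (Fin n) ℝ := LinearMap.toMatrix b.toBasis b.toBasis (Φ.toLinearEquiv : E n →ₗ[ℝ] E n)
  refine ⟨A, ?_, ?_, ?_⟩
  · have h1 : A ∈ Matrix.unitaryGroup (Fin n) ℝ := Φ.toMatrix_mem_unitaryGroup b b
    have h2 := (Matrix.mem_unitaryGroup_iff).1 h1
    rwa [Matrix.star_eq_conjTranspose, Matrix.conjTranspose_eq_transpose_of_trivial] at h2
  · rw [← h]
    exact LinearMap.det_toMatrix b.toBasis _
  · funext x
    have h1 := LinearMap.toMatrix_mulVec_repr b.toBasis b.toBasis (Φ.toLinearEquiv : E n →ₗ[ℝ] E n) x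
    ext i
    have h2 := congrFun h1 i
    simp only [lin]
    have h3 : (b.toBasis.repr x : Fin n → ℝ) = x.ofLp := by
      funext j
      simp [b]
    rw [h3] at h2
    change _ = (A.mulVec x.ofLp) i
    rw [h2]
    simp [b]

theorem dens_ac (w : E n → ℝ) : dens w ≪ volume := withDensity_absolutelyContinuous _ _

theorem dens_map_ac (w : E n → ℝ) (Φ : E n ≃ₗᵢ[ℝ] E n) : (dens w).map Φ ≪ volume := by
  have h1 : (volume : Measure (E n)).map Φ = volume := Φ.measurePreserving.map_eq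
  have h2 := (dens_ac w).map Φ.continuous.measurable
  rwa [h1] at h2

theorem final (n : ℕ) (hn : 2 ≤ n) (β : Fin n → ℕ) (hβ : Even (∑ j, β j))
    (hβ0 : 0 < ∑ j, β j) :
    ∃ (A : Matrix (Fin n) (Fin n) ℝ) (C : ℝ), A * A.transpose = 1 ∧ A.det = 1 ∧
      ∀ K : ℝ, ∃ s w : E n → ℝ, Weight s ∧ Weight w ∧
        DoublingLe (dens s) C ∧ DoublingLe (dens w) C ∧
        NormAtMost (rieszSymbol β) (dens s) (dens w) C ∧
        ¬ NormAtMost (rieszSymbol β) ((dens s).map (lin A)) ((dens w).map (lin A)) K := by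
  obtain ⟨L, m, p, q, hL, hm, hmβ, -, -, -⟩ := riesz_sym hn hβ hβ0
  have hbm : BM (rieszSymbol β) := by
    have h1 : (rieszSymbol β : E n → ℂ) = fun ξ => (m ξ : ℂ) := funext hmβ
    rw [h1]
    exact hm.bmr.bm
  obtain ⟨Φ, C, hdet, h⟩ := main n hn β hβ hβ0
  obtain ⟨A, hA1, hA2, hA3⟩ := exists_lin Φ hdet
  refine ⟨A, C, hA1, hA2, fun K => ?_⟩
  obtain ⟨s, w, h1, h2, h3, h4, h5, h6⟩ := h K
  refine ⟨s, w, h1, h2, h3, h4, (normAtMost_iff hbm (dens_ac w)).2 h5, fun h7 => h6 ?_⟩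
  rw [← hA3] at h7
  exact (normAtMost_iff hbm (dens_map_ac w Φ)).1 h7

end Pool.Agent.helper12.RT
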