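import Pool.Agent.helper12.RT.Defs

/-!
# RT-Cut: cut-off functions

Proofs by helper11.

PROOFS.
* `exists_cut`: `D ξ = Metric.infDist ξ {ζ | ∃ k : ℤ, ζ = (k * lam) • d}` is 1-Lipschitz and invariant under the translation by `lam • d`.
  `g ξ = max 0 (min (π / 2) (π * (D ξ / ρ - 1 / 2)))` is `π / ρ`-Lipschitz (`≤ 4 / ρ`).  `χL = cos ∘ g`, `χH = sin ∘ g`
  (`|cos a - cos b| ≤ |a - b|`).  If `χL ξ ≠ 0`, then `g ξ < π / 2`, `D ξ < ρ` and `ξ ∈ Zn d lam ρ` (`Metric.infDist_lt_iff`).  If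
  `χH ξ ≠ 0`, then `g ξ > 0`, `D ξ > ρ / 2`, and `‖ξ - (k lam) • d‖ ≥ D ξ` (`Metric.infDist_le_dist_of_mem`).
* `exists_cutSym`: `κ t = max 0 (min 1 (8 t - 1))` (zero for `t ≤ 1 / 8`, one for `t ≥ 1 / 4`, 8-Lipschitz),
  `m' ξ = m ξ * κ (‖ξ‖ / ρ)`, `ν ξ = √(2 - (m' ξ) ^ 2)`.  Lipschitz constant of `m'`: for two points `ξ, ζ` we may assume (symmetry) that
  `κ (‖ξ‖ / ρ) ≥ κ (‖ζ‖ / ρ)` and `κ (‖ξ‖ / ρ) > 0`, so `‖ξ‖ ≥ ρ / 8`:
  `|m' ξ - m' ζ| ≤ |m ξ - m ζ| κ(ξ) + |m ζ| |κ(ξ) - κ(ζ)| ≤ L ‖ξ - ζ‖ / ‖ξ‖ + (8 / ρ) ‖ξ - ζ‖ ≤ (8 L + 8) / ρ ‖ξ - ζ‖`.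
  `ν`: `|√a - √b| ≤ |a - b| / 2` for `a, b ≥ 1`, and `|m' ^ 2 ξ - m' ^ 2 ζ| ≤ 2 |m' ξ - m' ζ|`.
-/

set_option autoImplicit false

open MeasureTheory FourierTransform
open scoped ENNReal InnerProductSpace ComplexConjugate

namespace Pool.Agent.helper12.RT

variable {n : ℕ}

private theorem cut_clip (a b x y : ℝ) :
    |max a (min b x) - max a (min b y)| ≤ |x - y| := by
  have h1 : |max a (min b x) - max a (min b y)| ≤ |min b x - min b y| := by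
    have h := abs_max_sub_max_le_max a (min b x) a (min b y)
    simpa using h
  have h2 : |min b x - min b y| ≤ |x - y| := by
    have h := abs_min_sub_min_le_max b x b y
    simpa using h
  exact h1.trans h2

private theorem cut_cos (a b : ℝ) : |Real.cos a - Real.cos b| ≤ |a - b| := by
  have h := Real.lipschitzWith_cos.dist_le_mul a b
  rw [Real.dist_eq, Real.dist_eq] at h
  simpa using h

private theorem cut_sin (a b : ℝ) : |Real.sin a - Real.sin b| ≤ |a - b| := by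
  have h := Real.lipschitzWith_sin.dist_le_mul a b
  rw [Real.dist_eq, Real.dist_eq] at h
  simpa using h

/-- the set of the multiples of `lam • d` -/
private def cutS (d : E n) (lam : ℝ) : Set (E n) := {ζ | ∃ k : ℤ, ζ = ((k : ℝ) * lam) • d}

private theorem cutS_ne (d : E n) (lam : ℝ) : (cutS d lam).Nonempty :=
  ⟨((0 : ℤ) * lam : ℝ) • d, 0, rfl⟩

private theorem cut_D_add (d : E n) (lam : ℝ) (ξ : E n) :
    Metric.infDist (ξ + lam • d) (cutS d lam) = Metric.infDist ξ (cutS d lam) := by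
  have hi : Isometry (fun x : E n => x + lam • d) := by
    intro x y
    simp
  have h1 := Metric.infDist_image hi (x := ξ) (t := cutS d lam)
  have h2 : (fun x : E n => x + lam • d) '' cutS d lam = cutS d lam := by
    ext z
    constructor
    · rintro ⟨y, ⟨k, rfl⟩, rfl⟩
      refine ⟨k + 1, ?_⟩
      show ((k : ℝ) * lam) • d + lam • d = _
      rw [← add_smul]
      congr 1
      push_cast
      ring
    · rintro ⟨k, rfl⟩
      refine ⟨((k - 1 : ℤ) * lam : ℝ) • d, ⟨k - 1, rfl⟩, ?_⟩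
      show ((k - 1 : ℤ) * lam : ℝ) • d + lam • d = _
      rw [← add_smul]
      congr 1
      push_cast
      ring
  rw [h2] at h1
  exact h1

private theorem cut_D_lip (d : E n) (lam : ℝ) (ξ ζ : E n) :
    |Metric.infDist ξ (cutS d lam) - Metric.infDist ζ (cutS d lam)| ≤ ‖ξ - ζ‖ := by
  rw [abs_le]
  have h1 := Metric.infDist_le_infDist_add_dist (s := cutS d lam) (x := ξ) (y := ζ)
  have h2 := Metric.infDist_le_infDist_add_dist (s := cutS d lam) (x := ζ) (y := ξ)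
  rw [dist_eq_norm] at h1
  rw [dist_comm, dist_eq_norm] at h2
  constructor <;> linarith

/-- the angle -/
private noncomputable def cutg (d : E n) (lam ρ : ℝ) (ξ : E n) : ℝ :=
  max 0 (min (Real.pi / 2) (Real.pi * (Metric.infDist ξ (cutS d lam) / ρ - 1 / 2)))

private theorem cutg_cont (d : E n) (lam ρ : ℝ) : Continuous (cutg d lam ρ) := by
  unfold cutg
  have h := Metric.continuous_infDist_pt (cutS d lam)
  fun_prop

private theorem cutg_lip (d : E n) (lam : ℝ) {ρ : ℝ} (hρ : 0 < ρ) (ξ ζ : E n) :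
    |cutg d lam ρ ξ - cutg d lam ρ ζ| ≤ 4 / ρ * ‖ξ - ζ‖ := by
  unfold cutg
  refine (cut_clip _ _ _ _).trans ?_
  have e : Real.pi * (Metric.infDist ξ (cutS d lam) / ρ - 1 / 2) -
      Real.pi * (Metric.infDist ζ (cutS d lam) / ρ - 1 / 2) =
      Real.pi / ρ * (Metric.infDist ξ (cutS d lam) - Metric.infDist ζ (cutS d lam)) := by
    field_simp
    ring
  rw [e, abs_mul, abs_of_pos (div_pos Real.pi_pos hρ)]
  apply mul_le_mul _ (cut_D_lip d lam ξ ζ) (abs_nonneg _) (by positivity)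
  exact div_le_div_of_nonneg_right (by linarith [Real.pi_lt_four]) hρ.le

theorem exists_cut {d : E n} (hd : ‖d‖ = 1) {lam ρ : ℝ} (hρ : 0 < ρ) :
    ∃ χL χH : E n → ℝ, BMr χL ∧ BMr χH ∧ (∀ ξ, |χL ξ| ≤ 1) ∧ (∀ ξ, |χH ξ| ≤ 1) ∧
      (∀ ξ ζ, |χL ξ - χL ζ| ≤ 4 / ρ * ‖ξ - ζ‖) ∧ (∀ ξ ζ, |χH ξ - χH ζ| ≤ 4 / ρ * ‖ξ - ζ‖) ∧
      (∀ ξ, χL (ξ + lam • d) = χL ξ) ∧ (∀ ξ, χH (ξ + lam • d) = χH ξ) ∧
      (∀ ξ, χL ξ * χL ξ + χH ξ * χH ξ = 1) ∧ (∀ ξ, ξ ∉ Zn d lam ρ → χL ξ = 0) ∧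
      ∀ ξ, ξ ∈ Zn d lam (ρ / 2) → χH ξ = 0 := by
  have _ := hd
  refine ⟨fun ξ => Real.cos (cutg d lam ρ ξ), fun ξ => Real.sin (cutg d lam ρ ξ), ?_, ?_,
    fun ξ => Real.abs_cos_le_one _, fun ξ => Real.abs_sin_le_one _, ?_, ?_, ?_, ?_, ?_, ?_, ?_⟩
  · exact ⟨(Real.continuous_cos.comp (cutg_cont d lam ρ)).measurable, 1,
      fun ξ => Real.abs_cos_le_one _⟩
  · exact ⟨(Real.continuous_sin.comp (cutg_cont d lam ρ)).measurable, 1,
      fun ξ => Real.abs_sin_le_one _⟩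
  · intro ξ ζ
    exact (cut_cos _ _).trans (cutg_lip d lam hρ ξ ζ)
  · intro ξ ζ
    exact (cut_sin _ _).trans (cutg_lip d lam hρ ξ ζ)
  · intro ξ
    show Real.cos (cutg d lam ρ (ξ + lam • d)) = Real.cos (cutg d lam ρ ξ)
    unfold cutg
    rw [cut_D_add]
  · intro ξ
    show Real.sin (cutg d lam ρ (ξ + lam • d)) = Real.sin (cutg d lam ρ ξ)
    unfold cutg
    rw [cut_D_add]
  · intro ξ
    show Real.cos _ * Real.cos _ + Real.sin _ * Real.sin _ = 1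
    have h := Real.cos_sq_add_sin_sq (cutg d lam ρ ξ)
    nlinarith
  · intro ξ hξ
    have h1 : ρ ≤ Metric.infDist ξ (cutS d lam) := by
      rw [Metric.le_infDist (cutS_ne d lam)]
      rintro y ⟨k, rfl⟩
      by_contra hcon
      push Not at hcon
      apply hξ
      refine ⟨k, ?_⟩
      rw [← dist_eq_norm]
      exact hcon.le
    have h2 : Real.pi / 2 ≤ Real.pi * (Metric.infDist ξ (cutS d lam) / ρ - 1 / 2) := by
      have h3 : 1 ≤ Metric.infDist ξ (cutS d lam) / ρ := by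
        rw [le_div_iff₀ hρ]; linarith
      have h4 : 1 / 2 ≤ Metric.infDist ξ (cutS d lam) / ρ - 1 / 2 := by linarith
      have h5 := mul_le_mul_of_nonneg_left h4 Real.pi_pos.le
      linarith
    show Real.cos (cutg d lam ρ ξ) = 0
    unfold cutg
    rw [min_eq_left h2, max_eq_right (by positivity), Real.cos_pi_div_two]
  · rintro ξ ⟨k, hk⟩
    have h1 : Metric.infDist ξ (cutS d lam) ≤ ρ / 2 := by
      refine (Metric.infDist_le_dist_of_mem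
        (show ((k : ℝ) * lam) • d ∈ cutS d lam from ⟨k, rfl⟩)).trans ?_
      rw [dist_eq_norm]
      exact hk
    have h2 : Real.pi * (Metric.infDist ξ (cutS d lam) / ρ - 1 / 2) ≤ 0 := by
      have h3 : Metric.infDist ξ (cutS d lam) / ρ ≤ 1 / 2 := by
        rw [div_le_iff₀ hρ]; linarith
      have h4 : Metric.infDist ξ (cutS d lam) / ρ - 1 / 2 ≤ 0 := by linarith
      exact mul_nonpos_of_nonneg_of_nonpos Real.pi_pos.le h4
    show Real.sin (cutg d lam ρ ξ) = 0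
    unfold cutg
    rw [max_eq_left ((min_le_right _ _).trans h2), Real.sin_zero]

/-- the cut-off of the radius -/
private noncomputable def cutk (t : ℝ) : ℝ := max 0 (min 1 (8 * t - 1))

private theorem cutk_nonneg (t : ℝ) : 0 ≤ cutk t := le_max_left _ _

private theorem cutk_le (t : ℝ) : cutk t ≤ 1 := max_le zero_le_one (min_le_left _ _)

private theorem cutk_lip (s t : ℝ) : |cutk s - cutk t| ≤ 8 * |s - t| := by
  refine (cut_clip _ _ _ _).trans ?_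
  have e : 8 * s - 1 - (8 * t - 1) = 8 * (s - t) := by ring
  rw [e, abs_mul, abs_of_pos (by norm_num : (0 : ℝ) < 8)]

private theorem cutk_cont : Continuous cutk := by
  unfold cutk
  fun_prop

private theorem cutk_pos {t : ℝ} (h : 0 < cutk t) : 1 / 8 < t := by
  by_contra hcon
  push Not at hcon
  have h1 : cutk t = 0 := by
    unfold cutk
    apply max_eq_left
    exact (min_le_right _ _).trans (by linarith)
  linarith

private theorem cut_sym_lip_aux {L : ℝ} (hL : 0 ≤ L) {m : E n → ℝ} (hm : Sym L m) {ρ : ℝ}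
    (hρ : 0 < ρ) (ξ ζ : E n) (hle : cutk (‖ζ‖ / ρ) ≤ cutk (‖ξ‖ / ρ)) :
    |m ξ * cutk (‖ξ‖ / ρ) - m ζ * cutk (‖ζ‖ / ρ)| ≤ (8 * L + 8) / ρ * ‖ξ - ζ‖ := by
  rcases (cutk_nonneg (‖ξ‖ / ρ)).eq_or_lt with h0 | h0
  · have h1 : cutk (‖ζ‖ / ρ) = 0 := le_antisymm (by rw [← h0] at hle; exact hle) (cutk_nonneg _)
    rw [h1, ← h0]
    simp only [mul_zero, sub_zero, abs_zero]
    positivity
  · have h1 := cutk_pos h0
    rw [lt_div_iff₀ hρ] at h1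
    have hξ0 : 0 < ‖ξ‖ := by
      have : 0 < 1 / 8 * ρ := by positivity
      linarith
    have hξ : ξ ≠ 0 := norm_pos_iff.1 hξ0
    have e : m ξ * cutk (‖ξ‖ / ρ) - m ζ * cutk (‖ζ‖ / ρ) =
        (m ξ - m ζ) * cutk (‖ξ‖ / ρ) + m ζ * (cutk (‖ξ‖ / ρ) - cutk (‖ζ‖ / ρ)) := by ring
    rw [e]
    refine (abs_add_le _ _).trans ?_
    rw [abs_mul, abs_mul, abs_of_nonneg (cutk_nonneg _)]
    have h2 : |m ξ - m ζ| * cutk (‖ξ‖ / ρ) ≤ 8 * L / ρ * ‖ξ - ζ‖ := by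
      refine (mul_le_of_le_one_right (abs_nonneg _) (cutk_le _)).trans ?_
      refine (hm.lip ξ ζ hξ).trans ?_
      have h3 : ‖ξ - ζ‖ / ‖ξ‖ ≤ 8 / ρ * ‖ξ - ζ‖ := by
        rw [div_le_iff₀ hξ0]
        have h4 : 1 ≤ 8 / ρ * ‖ξ‖ := by
          rw [div_mul_eq_mul_div, le_div_iff₀ hρ]
          linarith
        have h5 := mul_le_mul_of_nonneg_left h4 (norm_nonneg (ξ - ζ))
        calc ‖ξ - ζ‖ = ‖ξ - ζ‖ * 1 := (mul_one _).symm
          _ ≤ ‖ξ - ζ‖ * (8 / ρ * ‖ξ‖) := h5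
          _ = 8 / ρ * ‖ξ - ζ‖ * ‖ξ‖ := by ring
      have h6 := mul_le_mul_of_nonneg_left h3 hL
      refine h6.trans (le_of_eq ?_)
      ring
    have h3 : |m ζ| * |cutk (‖ξ‖ / ρ) - cutk (‖ζ‖ / ρ)| ≤ 8 / ρ * ‖ξ - ζ‖ := by
      refine (mul_le_of_le_one_left (abs_nonneg _) (hm.bdd ζ)).trans ?_
      refine (cutk_lip _ _).trans ?_
      rw [← sub_div, abs_div, abs_of_pos hρ]
      have h4 := abs_norm_sub_norm_le ξ ζ
      have h5 : 8 * (|‖ξ‖ - ‖ζ‖| / ρ) = 8 / ρ * |‖ξ‖ - ‖ζ‖| := by ring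
      rw [h5]
      exact mul_le_mul_of_nonneg_left h4 (by positivity)
    calc |m ξ - m ζ| * cutk (‖ξ‖ / ρ) + |m ζ| * |cutk (‖ξ‖ / ρ) - cutk (‖ζ‖ / ρ)|
        ≤ 8 * L / ρ * ‖ξ - ζ‖ + 8 / ρ * ‖ξ - ζ‖ := add_le_add h2 h3
      _ = (8 * L + 8) / ρ * ‖ξ - ζ‖ := by ring

private theorem cut_sym_lip {L : ℝ} (hL : 0 ≤ L) {m : E n → ℝ} (hm : Sym L m) {ρ : ℝ}
    (hρ : 0 < ρ) (ξ ζ : E n) :
    |m ξ * cutk (‖ξ‖ / ρ) - m ζ * cutk (‖ζ‖ / ρ)| ≤ (8 * L + 8) / ρ * ‖ξ - ζ‖ := by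
  rcases le_total (cutk (‖ζ‖ / ρ)) (cutk (‖ξ‖ / ρ)) with h | h
  · exact cut_sym_lip_aux hL hm hρ ξ ζ h
  · rw [abs_sub_comm, norm_sub_rev]
    exact cut_sym_lip_aux hL hm hρ ζ ξ h

private theorem cut_sym_abs {L : ℝ} {m : E n → ℝ} (hm : Sym L m) (ρ : ℝ) (ξ : E n) :
    |m ξ * cutk (‖ξ‖ / ρ)| ≤ 1 := by
  rw [abs_mul, abs_of_nonneg (cutk_nonneg _)]
  exact mul_le_one₀ (hm.bdd ξ) (cutk_nonneg _) (cutk_le _)

private theorem cut_sym_meas {L : ℝ} {m : E n → ℝ} (hm : Sym L m) (ρ : ℝ) :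
    Measurable fun ξ : E n => m ξ * cutk (‖ξ‖ / ρ) := by
  apply hm.meas.mul
  apply cutk_cont.measurable.comp
  fun_prop

private theorem cut_sqrt {a b : ℝ} (ha : 1 ≤ a) (hb : 1 ≤ b) : |√a - √b| ≤ |a - b| / 2 := by
  have h1 : 1 ≤ √a := Real.one_le_sqrt.2 ha
  have h2 : 1 ≤ √b := Real.one_le_sqrt.2 hb
  have e : a - b = (√a - √b) * (√a + √b) := by
    have h3 := Real.mul_self_sqrt (by linarith : 0 ≤ a)
    have h4 := Real.mul_self_sqrt (by linarith : 0 ≤ b)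
    nlinarith
  rw [e, abs_mul, abs_of_pos (by linarith : 0 < √a + √b)]
  have h5 : |√a - √b| * 2 ≤ |√a - √b| * (√a + √b) :=
    mul_le_mul_of_nonneg_left (by linarith) (abs_nonneg _)
  linarith

theorem exists_cutSym {L : ℝ} (hL : 0 ≤ L) {m : E n → ℝ} (hm : Sym L m) {ρ : ℝ} (hρ : 0 < ρ) :
    ∃ m' ν : E n → ℝ, BMr m' ∧ BMr ν ∧ (∀ ξ, |m' ξ| ≤ 1) ∧ (∀ ξ, |ν ξ| ≤ 2) ∧
      (∀ ξ, ρ / 4 ≤ ‖ξ‖ → m' ξ = m ξ) ∧ (∀ ξ, m' ξ * m' ξ + ν ξ * ν ξ = 2) ∧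
      (∀ ξ ζ, |m' ξ - m' ζ| ≤ (8 * L + 8) / ρ * ‖ξ - ζ‖) ∧
      ∀ ξ ζ, |ν ξ - ν ζ| ≤ (8 * L + 8) / ρ * ‖ξ - ζ‖ := by
  have hsq : ∀ ξ, 1 ≤ 2 - (m ξ * cutk (‖ξ‖ / ρ)) * (m ξ * cutk (‖ξ‖ / ρ)) := by
    intro ξ
    have h1 := abs_le.1 (cut_sym_abs hm ρ ξ)
    nlinarith
  have hν2 : ∀ ξ, |√(2 - (m ξ * cutk (‖ξ‖ / ρ)) * (m ξ * cutk (‖ξ‖ / ρ)))| ≤ 2 := by
    intro ξ
    rw [abs_of_nonneg (Real.sqrt_nonneg _), Real.sqrt_le_left (by norm_num)]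
    have h1 := mul_self_nonneg (m ξ * cutk (‖ξ‖ / ρ))
    nlinarith
  refine ⟨fun ξ => m ξ * cutk (‖ξ‖ / ρ),
    fun ξ => √(2 - (m ξ * cutk (‖ξ‖ / ρ)) * (m ξ * cutk (‖ξ‖ / ρ))),
    ⟨cut_sym_meas hm ρ, 1, cut_sym_abs hm ρ⟩, ⟨?_, 2, hν2⟩, cut_sym_abs hm ρ, hν2, ?_, ?_,
    cut_sym_lip hL hm hρ, ?_⟩
  · exact Real.continuous_sqrt.measurable.comp
      (measurable_const.sub ((cut_sym_meas hm ρ).mul (cut_sym_meas hm ρ)))
  · intro ξ hξ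
    have h1 : cutk (‖ξ‖ / ρ) = 1 := by
      unfold cutk
      have h2 : 1 / 4 ≤ ‖ξ‖ / ρ := by
        rw [le_div_iff₀ hρ]; linarith
      rw [min_eq_left (by linarith), max_eq_right zero_le_one]
    show m ξ * cutk (‖ξ‖ / ρ) = m ξ
    rw [h1, mul_one]
  · intro ξ
    show m ξ * cutk (‖ξ‖ / ρ) * (m ξ * cutk (‖ξ‖ / ρ)) + √_ * √_ = 2
    rw [Real.mul_self_sqrt (by linarith [hsq ξ])]
    ring
  · intro ξ ζ
    refine (cut_sqrt (hsq ξ) (hsq ζ)).trans ?_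
    have h1 := cut_sym_lip hL hm hρ ξ ζ
    have h2 := cut_sym_abs hm ρ ξ
    have h3 := cut_sym_abs hm ρ ζ
    set A := m ξ * cutk (‖ξ‖ / ρ) with hA
    set B := m ζ * cutk (‖ζ‖ / ρ) with hB
    have e : 2 - A * A - (2 - B * B) = -((A - B) * (A + B)) := by ring
    rw [e, abs_neg, abs_mul]
    have h4 : |A + B| ≤ 2 := (abs_add_le _ _).trans (by linarith)
    have h5 : |A - B| * |A + B| ≤ |A - B| * 2 := mul_le_mul_of_nonneg_left h4 (abs_nonneg _)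
    linarith

end Pool.Agent.helper12.RT
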