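import Pool.Agent.helper12.RT.OpsQ
import Pool.Agent.helper12.RT.SuppB
import Pool.Agent.helper12.RT.Comm
import Pool.Agent.helper12.RT.Cut

/-!
# RT-High: functions with high quasi-frequencies

`s₁ = s (1 + a cs)`, `w₁ = w (1 + b cs)` with `cs = cs d lam`.  If `u` has no frequencies in the `ρ / 2`-neighbourhood of the
multiples of `lam • d`, then `∫ w₁ |T m (s₁ u)|² ≤ 5 ∫ s₁ |u|² + (C / ρ) ‖u‖²`.
PROOF.  All constants `C` depend on `s, w, a, b, L` only (bounds, and the commutator constants of `comm_TPr`), `ρ ≥ ρ₀ ≥ 1`.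
Let `h = (1 + a cs) u ∈ H n`, so `Mr s₁ u = Mr s h`, `‖h‖ ≤ (3/2) ‖u‖`.
(1) `Mr s₁ u = Mr s h` has frequencies with `‖ξ‖ ≥ ρ / 4`: `s₁ = s + (s a) cs`, `s` and `s a` are trigonometric polynomials with
frequencies at most `2 K` (`K ≥ 0`; enlarge `K`), so a frequency `ξ` of `s₁ u` is within `2 K` of `ζ + j lam d`, `j ∈ {0, 1, -1}`, `ζ ∉ Zn d lam (ρ / 2)`
(`Supp.TPr`, `Supp.cs`, `Supp.add`).  If `‖ξ‖ < ρ / 4` and `2 K ≤ ρ / 4`, then `‖ζ + j lam d‖ ≤ ρ / 2`, so `ζ ∈ Zn d lam (ρ / 2)`, a contradiction.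
(2) With `m', ν` of `exists_cutSym`: `Tr m (Mr s h) = Tr m' (Mr s h)` (`Tr_congr` with `A = {ξ | ρ / 4 ≤ ‖ξ‖}`), and
`Tr m' (Mr s h) = Mr s (Tr m' h) + r₁`, `‖r₁‖ ≤ (C / ρ) ‖h‖` (`comm_TPr`).
(3) `w₁ ≤ (3/2) w` and `w s² ≤ s`: `Q w₁ (Mr s (Tr m' h)) ≤ (3/2) Q s (Tr m' h)` (`Q_Mr`, `Q_mono`), and by `Q_add_le'`
`Q w₁ (Tr m (Mr s₁ u)) ≤ (3/2) Q s (Tr m' h) + (C / ρ) ‖u‖²`.
(4) `Q s (Tr m' h) + Q s (Tr ν h) = re ⟪h, Tr m' (Mr s (Tr m' h)) + Tr ν (Mr s (Tr ν h))⟫` (`Q_eq_inner`, `Tr_inner`), and up to `(C / ρ) ‖h‖²` this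
is `re ⟪h, Mr s (Tr m' (Tr m' h) + Tr ν (Tr ν h))⟫ = re ⟪h, Mr s (2 h)⟫ = 2 Q s h` (`comm_TPr`, `Tr_mul`, `Tr_add`, `Tr_const`).  As
`Q s (Tr ν h) ≥ 0`: `Q s (Tr m' h) ≤ 2 Q s h + (C / ρ) ‖h‖²`.
(5) `Q s h = ∫ s (1 + a cs)² |u|² ≤ (3/2) Q s₁ u` (`Q_Mr`, `0 ≤ 1 + a cs ≤ 3/2`).  Total: `(3/2) * 2 * (3/2) = 4.5 ≤ 5`.
-/

set_option autoImplicit false

open MeasureTheory FourierTransform
open scoped ENNReal InnerProductSpace ComplexConjugate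

namespace Pool.Agent.helper12.RT

variable {n : ℕ}

private theorem High_cs_bmr {d : E n} (hd : ‖d‖ = 1) (lam : ℝ) : BMr (cs d lam) :=
  (cs_tpr hd lam).bmr

/-- Energy of the truncated multiplier. -/
private theorem High_energy {s : E n → ℝ} (hs : BMr s) (hs0 : ∀ x, 0 ≤ s x) {m' ν : E n → ℝ}
    (hm' : BMr m') (hν : BMr ν) (h1 : ∀ ξ, |m' ξ| ≤ 1) (h2 : ∀ ξ, |ν ξ| ≤ 2)
    (h3 : ∀ ξ, m' ξ * m' ξ + ν ξ * ν ξ = 2) {δ : ℝ} (hδ : 0 ≤ δ)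
    (hc1 : ∀ v : H n, ‖Tr m' (Mr s v) - Mr s (Tr m' v)‖ ≤ δ * ‖v‖)
    (hc2 : ∀ v : H n, ‖Tr ν (Mr s v) - Mr s (Tr ν v)‖ ≤ δ * ‖v‖) (h : H n) :
    Q s (Tr m' h) ≤ 2 * Q s h + 3 * δ * ‖h‖ ^ 2 := by
  have hP : ‖Tr m' h‖ ≤ 1 * ‖h‖ := Tr_norm_le hm' h1 h
  have hN : ‖Tr ν h‖ ≤ 2 * ‖h‖ := Tr_norm_le hν h2 h
  have e1 : Q s (Tr m' h) = (⟪h, Tr m' (Mr s (Tr m' h))⟫_ℂ).re := by
    rw [Q_eq_inner hs, Tr_inner hm']
  have e2 : Q s (Tr ν h) = (⟪h, Tr ν (Mr s (Tr ν h))⟫_ℂ).re := by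
    rw [Q_eq_inner hs, Tr_inner hν]
  have e3 : Tr m' (Tr m' h) + Tr ν (Tr ν h) = (2 : ℂ) • h := by
    rw [← Tr_mul hm' hm', ← Tr_mul hν hν, ← Tr_add (hm'.mul hm') (hν.mul hν)]
    have : (fun ξ => m' ξ * m' ξ + ν ξ * ν ξ) = fun _ : E n => (2 : ℝ) := funext h3
    rw [this, Tr_const]
    norm_num
  set r2 : H n := Tr m' (Mr s (Tr m' h)) - Mr s (Tr m' (Tr m' h)) with hr2
  set r3 : H n := Tr ν (Mr s (Tr ν h)) - Mr s (Tr ν (Tr ν h)) with hr3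
  have e4 : Tr m' (Mr s (Tr m' h)) + Tr ν (Mr s (Tr ν h)) = (2 : ℂ) • Mr s h + (r2 + r3) := by
    have : Mr s (Tr m' (Tr m' h)) + Mr s (Tr ν (Tr ν h)) = (2 : ℂ) • Mr s h := by
      rw [← map_add, e3, map_smul]
    rw [← this, hr2, hr3]
    abel
  have n2 : ‖r2‖ ≤ δ * ‖h‖ := by
    refine (hc1 _).trans ?_
    exact mul_le_mul_of_nonneg_left (by linarith) hδ
  have n3 : ‖r3‖ ≤ 2 * δ * ‖h‖ := by
    refine (hc2 _).trans ?_
    calc δ * ‖Tr ν h‖ ≤ δ * (2 * ‖h‖) := mul_le_mul_of_nonneg_left hN hδ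
      _ = 2 * δ * ‖h‖ := by ring
  have e5 : Q s (Tr m' h) + Q s (Tr ν h) = 2 * Q s h + (⟪h, r2 + r3⟫_ℂ).re := by
    rw [e1, e2, ← Complex.add_re, ← inner_add_right, e4, inner_add_right, inner_smul_right,
      Complex.add_re, Q_eq_inner hs]
    simp
  have n4 : (⟪h, r2 + r3⟫_ℂ).re ≤ 3 * δ * ‖h‖ ^ 2 := by
    calc (⟪h, r2 + r3⟫_ℂ).re ≤ ‖⟪h, r2 + r3⟫_ℂ‖ := Complex.re_le_norm _
      _ ≤ ‖h‖ * ‖r2 + r3‖ := norm_inner_le_norm _ _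
      _ ≤ ‖h‖ * (δ * ‖h‖ + 2 * δ * ‖h‖) := by
          refine mul_le_mul_of_nonneg_left ?_ (norm_nonneg _)
          exact (norm_add_le _ _).trans (add_le_add n2 n3)
      _ = 3 * δ * ‖h‖ ^ 2 := by ring
  have n5 : 0 ≤ Q s (Tr ν h) := Q_nonneg hs0 _
  linarith

theorem high {L : ℝ} (hL : 0 ≤ L) {m : E n → ℝ} (hm : Sym L m) {K : ℝ} {s w a b : E n → ℝ}
    (hs : TPr K s) (hw : TPr K w) (ha : TPr K a) (hb : TPr K b) (hs0 : ∀ x, 0 ≤ s x)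
    (hw0 : ∀ x, 0 ≤ w x) (hsw : ∀ x, s x * w x ≤ 1) (ha1 : ∀ x, |a x| ≤ 1 / 2)
    (hb1 : ∀ x, |b x| ≤ 1 / 2) {d : E n} (hd : ‖d‖ = 1) :
    ∃ C ρ₀ : ℝ, 0 ≤ C ∧ 1 ≤ ρ₀ ∧ ∀ ρ ≥ ρ₀, ∀ lam ≥ ρ, ∀ u : H n,
      Supp (Zn d lam (ρ / 2))ᶜ u →
      Q (fun x => w x * (1 + b x * cs d lam x))
          (Tr m (Mr (fun x => s x * (1 + a x * cs d lam x)) u)) ≤
        5 * Q (fun x => s x * (1 + a x * cs d lam x)) u + C / ρ * ‖u‖ ^ 2 := by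
  classical
  -- enlarge `K`
  set K' : ℝ := max K 0 with hK'
  have hK0 : 0 ≤ K' := le_max_right _ _
  have hsK : TPr K' s := hs.mono (le_max_left _ _)
  have hwK : TPr K' w := hw.mono (le_max_left _ _)
  have haK : TPr K' a := ha.mono (le_max_left _ _)
  obtain ⟨Bs, hBs⟩ := hsK.bmr.2
  obtain ⟨Bw, hBw⟩ := hwK.bmr.2
  obtain ⟨Cs, hCs0, hCs⟩ := comm_TPr hsK
  have hBs0 : 0 ≤ Bs := (abs_nonneg _).trans (hBs 0)
  have hBw0 : 0 ≤ Bw := (abs_nonneg _).trans (hBw 0)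
  set D : ℝ := Cs * (8 * L + 8) with hD
  have hD0 : 0 ≤ D := by positivity
  refine ⟨9 / 4 * (9 / 2 * D + 3 * Bw * Bs * D + 3 / 2 * Bw * D ^ 2), max 1 (8 * K'),
    by positivity, le_max_left _ _, ?_⟩
  intro ρ hρ lam hlam u hu
  have hρ1 : 1 ≤ ρ := (le_max_left _ _).trans hρ
  have hρ0 : 0 < ρ := by linarith
  have hρK : 8 * K' ≤ ρ := (le_max_right _ _).trans hρ
  have hcs : BMr (cs d lam) := High_cs_bmr hd lam
  have hcsa : ∀ x, |cs d lam x| ≤ 1 := cs_abs d lam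
  have hm0 : BMr m := ⟨hm.meas, 1, hm.bdd⟩
  -- the function `1 + a cs`
  set c1 : E n → ℝ := fun x => 1 + a x * cs d lam x with hc1
  have hc1m : BMr c1 := (BMr.const 1).add (haK.bmr.mul hcs)
  have hac : ∀ x, |a x * cs d lam x| ≤ 1 / 2 := by
    intro x
    rw [abs_mul]
    calc |a x| * |cs d lam x| ≤ 1 / 2 * 1 :=
          mul_le_mul (ha1 x) (hcsa x) (abs_nonneg _) (by norm_num)
      _ = 1 / 2 := by norm_num
  have hbc : ∀ x, |b x * cs d lam x| ≤ 1 / 2 := by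
    intro x
    rw [abs_mul]
    calc |b x| * |cs d lam x| ≤ 1 / 2 * 1 :=
          mul_le_mul (hb1 x) (hcsa x) (abs_nonneg _) (by norm_num)
      _ = 1 / 2 := by norm_num
  have hc1l : ∀ x, 1 / 2 ≤ c1 x := by
    intro x
    have := (abs_le.1 (hac x)).1
    simp only [hc1]
    linarith
  have hc1u : ∀ x, c1 x ≤ 3 / 2 := by
    intro x
    have := (abs_le.1 (hac x)).2
    simp only [hc1]
    linarith
  have hc1a : ∀ x, |c1 x| ≤ 3 / 2 := by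
    intro x
    rw [abs_of_nonneg (by linarith [hc1l x])]
    exact hc1u x
  set w1 : E n → ℝ := fun x => w x * (1 + b x * cs d lam x) with hw1
  have hw1m : BMr w1 := hwK.bmr.mul ((BMr.const 1).add (hb.bmr.mul hcs))
  have hw10 : ∀ x, 0 ≤ w1 x := by
    intro x
    have := (abs_le.1 (hbc x)).1
    exact mul_nonneg (hw0 x) (by linarith)
  have hw1u : ∀ x, w1 x ≤ 3 / 2 * w x := by
    intro x
    have := (abs_le.1 (hbc x)).2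
    calc w x * (1 + b x * cs d lam x) ≤ w x * (3 / 2) :=
          mul_le_mul_of_nonneg_left (by linarith) (hw0 x)
      _ = 3 / 2 * w x := by ring
  have hw1B : ∀ x, w1 x ≤ 3 / 2 * Bw := by
    intro x
    refine (hw1u x).trans ?_
    have := (le_abs_self _).trans (hBw x)
    linarith
  set s1 : E n → ℝ := fun x => s x * c1 x with hs1
  have hs1m : BMr s1 := hsK.bmr.mul hc1m
  have hs10 : ∀ x, 0 ≤ s1 x := fun x => mul_nonneg (hs0 x) (by linarith [hc1l x])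
  set h : H n := Mr c1 u with hh
  have hMs1 : Mr s1 u = Mr s h := Mr_mul hsK.bmr hc1m u
  have hhn : ‖h‖ ≤ 3 / 2 * ‖u‖ := Mr_norm_le hc1m hc1a u
  -- frequencies of `s₁ u`
  have hsupp : Supp {ξ : E n | ρ / 4 ≤ ‖ξ‖} (Mr s1 u) := by
    have hfun : s1 = fun x => s x + (s x * a x) * cs d lam x := by
      funext x
      simp only [hs1, hc1]
      ring
    have hsa : TPr (K' + K') (fun x => s x * a x) := hsK.mul haK
    have hdec : Mr s1 u = Mr s u + Mr (fun x => (s x * a x) * cs d lam x) u := by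
      rw [hfun]
      exact Mr_add hsK.bmr (hsa.bmr.mul hcs) u
    rw [hdec]
    refine Supp.add ?_ ?_
    · refine Supp.TPr hu hsK ?_
      intro ζ hζ ξ hξ
      have h0 : ρ / 2 < ‖ζ‖ := by
        by_contra hcon
        refine hζ ⟨0, ?_⟩
        simpa using not_lt.1 hcon
      have h1 : ‖ζ‖ ≤ ‖ξ‖ + ‖ξ - ζ‖ := by
        have := norm_sub_le ξ (ξ - ζ)
        rwa [sub_sub_cancel] at this
      show ρ / 4 ≤ ‖ξ‖
      linarith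
    · refine Supp.cs hu hsa d lam ?_
      intro ζ hζ ξ hξ
      show ρ / 4 ≤ ‖ξ‖
      rcases hξ with hξ | hξ
      · have h0 : ρ / 2 < ‖ζ + lam • d‖ := by
          by_contra hcon
          refine hζ ⟨-1, ?_⟩
          have : ζ - (((-1 : ℤ) : ℝ) * lam) • d = ζ + lam • d := by
            push_cast
            rw [neg_one_mul, neg_smul, sub_neg_eq_add]
          rw [this]
          exact not_lt.1 hcon
        have h1 : ‖ζ + lam • d‖ ≤ ‖ξ‖ + ‖ξ - (ζ + lam • d)‖ := by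
          have := norm_sub_le ξ (ξ - (ζ + lam • d))
          rwa [sub_sub_cancel] at this
        linarith
      · have h0 : ρ / 2 < ‖ζ - lam • d‖ := by
          by_contra hcon
          refine hζ ⟨1, ?_⟩
          have : ζ - (((1 : ℤ) : ℝ) * lam) • d = ζ - lam • d := by
            push_cast
            rw [one_mul]
          rw [this]
          exact not_lt.1 hcon
        have h1 : ‖ζ - lam • d‖ ≤ ‖ξ‖ + ‖ξ - (ζ - lam • d)‖ := by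
          have := norm_sub_le ξ (ξ - (ζ - lam • d))
          rwa [sub_sub_cancel] at this
        linarith
  -- the truncated symbol
  obtain ⟨m', ν, hm'm, hνm, hm'1, hν2, hm'e, hsq, hm'l, hνl⟩ := exists_cutSym hL hm hρ0
  have hl0 : 0 ≤ (8 * L + 8) / ρ := by positivity
  have hTm : Tr m (Mr s1 u) = Tr m' (Mr s1 u) :=
    Tr_congr hsupp hm0 hm'm fun ξ hξ => (hm'e ξ hξ).symm
  have hcm : ∀ v : H n, ‖Tr m' (Mr s v) - Mr s (Tr m' v)‖ ≤ D / ρ * ‖v‖ := by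
    intro v
    refine (hCs m' _ hm'm hl0 hm'l v).trans (le_of_eq ?_)
    rw [hD]
    ring
  have hcν : ∀ v : H n, ‖Tr ν (Mr s v) - Mr s (Tr ν v)‖ ≤ D / ρ * ‖v‖ := by
    intro v
    refine (hCs ν _ hνm hl0 hνl v).trans (le_of_eq ?_)
    rw [hD]
    ring
  have hδ0 : 0 ≤ D / ρ := by positivity
  have hen := High_energy hsK.bmr hs0 hm'm hνm hm'1 hν2 hsq hδ0 hcm hcν h
  -- step 3
  set P : H n := Tr m' h with hP
  have hPn : ‖P‖ ≤ ‖h‖ := by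
    have := Tr_norm_le hm'm hm'1 h
    rwa [one_mul] at this
  set r1 : H n := Tr m' (Mr s h) - Mr s P with hr1
  have hr1n : ‖r1‖ ≤ D / ρ * ‖h‖ := hcm h
  have hdecomp : Tr m (Mr s1 u) = Mr s P + r1 := by
    rw [hTm, hMs1, hr1]
    abel
  have hMsP : ‖Mr s P‖ ≤ Bs * ‖h‖ := by
    refine (Mr_norm_le hsK.bmr hBs P).trans ?_
    exact mul_le_mul_of_nonneg_left hPn hBs0
  have hQ1 : Q w1 (Mr s P + r1) ≤ Q w1 (Mr s P) + 2 * (3 / 2 * Bw) * ‖Mr s P‖ * ‖r1‖ +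
      3 / 2 * Bw * ‖r1‖ ^ 2 := Q_add_le' hw1m hw10 hw1B _ _
  have hQ2 : Q w1 (Mr s P) ≤ 3 / 2 * Q s P := by
    rw [Q_Mr hsK.bmr, ← Q_smul_fun]
    refine Q_mono ?_ ((BMr.const _).mul hsK.bmr) ?_ P
    · have : (fun x => w1 x * s x ^ 2) = fun x => w1 x * (s x * s x) := by
        funext x
        ring
      rw [this]
      exact hw1m.mul (hsK.bmr.mul hsK.bmr)
    · intro x
      have h1 : w1 x * s x ^ 2 ≤ (3 / 2 * w x) * s x ^ 2 :=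
        mul_le_mul_of_nonneg_right (hw1u x) (by positivity)
      have h2 : (s x * w x) * s x ≤ 1 * s x := mul_le_mul_of_nonneg_right (hsw x) (hs0 x)
      nlinarith
  have hQ3 : Q s h ≤ 3 / 2 * Q s1 u := by
    rw [hh, Q_Mr hc1m, ← Q_smul_fun]
    refine Q_mono ?_ ((BMr.const _).mul hs1m) ?_ u
    · have : (fun x => s x * c1 x ^ 2) = fun x => s x * (c1 x * c1 x) := by
        funext x
        ring
      rw [this]
      exact hsK.bmr.mul (hc1m.mul hc1m)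
    · intro x
      have h1 : 0 ≤ s1 x := hs10 x
      have h2 : s1 x * c1 x ≤ s1 x * (3 / 2) := mul_le_mul_of_nonneg_left (hc1u x) h1
      calc s x * c1 x ^ 2 = s1 x * c1 x := by
            simp only [hs1]
            ring
        _ ≤ s1 x * (3 / 2) := h2
        _ = 3 / 2 * s1 x := by ring
  have hQs1 : 0 ≤ Q s1 u := Q_nonneg hs10 u
  -- the error terms
  have hh2 : ‖h‖ ^ 2 ≤ 9 / 4 * ‖u‖ ^ 2 := by
    have := pow_le_pow_left₀ (norm_nonneg _) hhn 2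
    nlinarith
  have hr1sq : ‖r1‖ ^ 2 ≤ D ^ 2 / ρ * ‖h‖ ^ 2 := by
    have h1 := pow_le_pow_left₀ (norm_nonneg _) hr1n 2
    refine h1.trans ?_
    have h2 : (D / ρ * ‖h‖) ^ 2 = D ^ 2 / ρ * ‖h‖ ^ 2 * (1 / ρ) := by
      field_simp
    rw [h2]
    refine mul_le_of_le_one_right (by positivity) ?_
    rw [div_le_one hρ0]
    exact hρ1
  have herr1 : 2 * (3 / 2 * Bw) * ‖Mr s P‖ * ‖r1‖ ≤ 3 * Bw * Bs * D / ρ * ‖h‖ ^ 2 := by
    calc 2 * (3 / 2 * Bw) * ‖Mr s P‖ * ‖r1‖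
        ≤ 2 * (3 / 2 * Bw) * (Bs * ‖h‖) * (D / ρ * ‖h‖) := by
          refine mul_le_mul ?_ hr1n (norm_nonneg _) (by positivity)
          exact mul_le_mul_of_nonneg_left hMsP (by positivity)
      _ = _ := by ring
  have herr2 : 3 / 2 * Bw * ‖r1‖ ^ 2 ≤ 3 / 2 * Bw * D ^ 2 / ρ * ‖h‖ ^ 2 := by
    calc 3 / 2 * Bw * ‖r1‖ ^ 2 ≤ 3 / 2 * Bw * (D ^ 2 / ρ * ‖h‖ ^ 2) :=
          mul_le_mul_of_nonneg_left hr1sq (by positivity)
      _ = _ := by ring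
  have hfin : (9 / 2 * D / ρ + 3 * Bw * Bs * D / ρ + 3 / 2 * Bw * D ^ 2 / ρ) * ‖h‖ ^ 2 ≤
      9 / 4 * (9 / 2 * D + 3 * Bw * Bs * D + 3 / 2 * Bw * D ^ 2) / ρ * ‖u‖ ^ 2 := by
    calc _ ≤ (9 / 2 * D / ρ + 3 * Bw * Bs * D / ρ + 3 / 2 * Bw * D ^ 2 / ρ) *
          (9 / 4 * ‖u‖ ^ 2) := mul_le_mul_of_nonneg_left hh2 (by positivity)
      _ = _ := by ring
  rw [hdecomp]
  have hen' : Q s P ≤ 3 * Q s1 u + 3 * (D / ρ) * ‖h‖ ^ 2 := by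
    linarith
  calc Q w1 (Mr s P + r1)
      ≤ 3 / 2 * (3 * Q s1 u + 3 * (D / ρ) * ‖h‖ ^ 2) + 3 * Bw * Bs * D / ρ * ‖h‖ ^ 2 +
          3 / 2 * Bw * D ^ 2 / ρ * ‖h‖ ^ 2 := by linarith
    _ = 9 / 2 * Q s1 u + (9 / 2 * D / ρ + 3 * Bw * Bs * D / ρ + 3 / 2 * Bw * D ^ 2 / ρ) *
          ‖h‖ ^ 2 := by ring
    _ ≤ 5 * Q s1 u + 9 / 4 * (9 / 2 * D + 3 * Bw * Bs * D + 3 / 2 * Bw * D ^ 2) / ρ *
          ‖u‖ ^ 2 := by linarith

end Pool.Agent.helper12.RT
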