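import Pool.Agent.helper12.RT.OpsQ
import Pool.Agent.helper12.RT.SuppB
import Pool.Agent.helper12.RT.TPb

/-!
# RT-LowA: the key estimate for low frequencies

`s₁ = s (1 + a cs)`, `cs = cs d lam`, `v = Mr s₁ u`; `g` has frequencies of norm at most `R`, `v - g` of norm at least `lam - R`.
PROOF (all constants `C` depend on `s, a` only; `K ≥ 0`; `‖g‖ ≤ ‖v‖ ≤ C ‖u‖`).  Let `h = Mr s⁻¹ g`, so `Mr s h = g` (`Mr_mul`), `‖h‖ ≤ C ‖u‖`.  Let `q` be a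
trigonometric polynomial with frequencies at most `K'` and `|s⁻¹ - q| ≤ η` (`TPr.exists_inv`), `h' = Mr q g`: `‖h - h'‖ ≤ η ‖g‖ ≤ C η ‖u‖`, and `h'` has frequencies
of norm at most `R + K'` (`Supp.TPr`).
`A := Q s h = re ⟪h, Mr s h⟫ = re ⟪h, g⟫`, which is `re ⟪h', g⟫` up to `C η ‖u‖²`.  `⟪h', g⟫ = ⟪h', v⟫`, because `v - g` has frequencies of norm
at least `lam - R > R + K'` (disjoint supports, `inner_eq_zero_of_supp`).  So `A ≤ ‖⟪h, Mr s₁ u⟫‖ + C η ‖u‖² ≤ √(Q s₁ h) √(Q s₁ u) + C η ‖u‖²` (`Q_cs`, `Mr_inner`; `s₁ ≥ c / 2 > 0`).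
`Q s₁ h = Q s h + Q ((s a) cs) h` (`Q_add_fun`), and `|Q ((s a) cs) h| ≤ C η ‖u‖² + |re ⟪h', Mr ((s a) cs) h'⟫| = C η ‖u‖²` (`Q_eq_inner`; the frequencies of `Mr ((s a) cs) h'` are
within `R + K' + 2 K` of `± lam d` (`Supp.cs`), disjoint from the ball of radius `R + K'` if `lam > 2 R + 2 K' + 2 K`).  With `B = Q s₁ u`: `A ≤ √(A + C η ‖u‖²) √B + C η ‖u‖²
≤ (A + C η ‖u‖² + B) / 2 + C η ‖u‖²`, so `A ≤ B + 3 C η ‖u‖²`.  Choose `η` with `3 C η ≤ ε`.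
-/

set_option autoImplicit false

open MeasureTheory FourierTransform
open scoped ENNReal InnerProductSpace ComplexConjugate

namespace Pool.Agent.helper12.RT

variable {n : ℕ}

theorem low_aux {K : ℝ} {s a : E n → ℝ} (hs : TPr K s) (ha : TPr K a) {c : ℝ} (hc : 0 < c)
    (hs0 : ∀ x, c ≤ s x) (ha1 : ∀ x, |a x| ≤ 1 / 2) {d : E n} (hd : ‖d‖ = 1) :
    ∀ ε > 0, ∀ R > 0, ∃ lam₀ : ℝ, ∀ lam ≥ lam₀, ∀ (u g : H n), ‖g‖ ≤ ‖Mr (fun x => s x * (1 + a x * cs d lam x)) u‖ →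
      Supp {ξ | ‖ξ‖ ≤ R} g →
      Supp {ξ | lam - R ≤ ‖ξ‖} (Mr (fun x => s x * (1 + a x * cs d lam x)) u - g) →
      Q s (Mr (fun x => (s x)⁻¹) g) ≤
        Q (fun x => s x * (1 + a x * cs d lam x)) u + ε * ‖u‖ ^ 2 := by
  intro ε hε R hR
  -- the constants
  obtain ⟨Cs, hCs⟩ := hs.bmr.2
  set C0 : ℝ := max Cs 1 with hC0def
  have hC01 : 1 ≤ C0 := le_max_right _ _
  have hC0 : 0 < C0 := by linarith
  have hsC : ∀ x, |s x| ≤ C0 := fun x => (hCs x).trans (le_max_left _ _)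
  have hspos : ∀ x, 0 < s x := fun x => lt_of_lt_of_le hc (hs0 x)
  set C2 : ℝ := 2 * C0 ^ 2 * (4 * C0 / c + 2 * C0) + 16 * C0 ^ 2 with hC2def
  have hC2 : 0 < C2 := by positivity
  set η : ℝ := min 1 (ε / C2) with hηdef
  have hη : 0 < η := lt_min one_pos (div_pos hε hC2)
  have hη1 : η ≤ 1 := min_le_left _ _
  have hηε : C2 * η ≤ ε := by
    have : η ≤ ε / C2 := min_le_right _ _
    rw [le_div_iff₀ hC2] at this
    linarith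
  obtain ⟨K1, q, hq1, hqs⟩ := hs.exists_inv hc hs0 hη
  set K' : ℝ := max K1 0 with hK'def
  have hq : TPr K' q := hq1.mono (le_max_left _ _)
  have hK' : 0 ≤ K' := le_max_right _ _
  set K0 : ℝ := max K 0 with hK0def
  have hK0 : 0 ≤ K0 := le_max_right _ _
  have hsK : TPr K0 s := hs.mono (le_max_left _ _)
  have haK : TPr K0 a := ha.mono (le_max_left _ _)
  refine ⟨2 * R + 2 * K' + 2 * K0 + 1, ?_⟩
  intro lam hlam u g hg hsg hsv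
  have hlam0 : 0 < lam := by linarith
  -- boundedness
  have hsb : BMr s := hs.bmr
  have hab : BMr a := ha.bmr
  have hcb : BMr (cs d lam) := (cs_tpr hd lam).bmr
  have hqb : BMr q := hq.bmr
  have hib : BMr fun x => (s x)⁻¹ := hsb.inv hc hs0
  have hPb : BMr fun x => (s x * a x) * cs d lam x := (hsb.mul hab).mul hcb
  have hs1e : (fun x => s x * (1 + a x * cs d lam x)) =
      fun x => s x + (s x * a x) * cs d lam x := by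
    funext x
    ring
  have hs1b : BMr fun x => s x * (1 + a x * cs d lam x) := by
    rw [hs1e]
    exact hsb.add hPb
  have hac : ∀ x, |a x * cs d lam x| ≤ 1 / 2 := by
    intro x
    rw [abs_mul]
    have h1 := ha1 x
    have h2 := cs_abs d lam x
    have h3 := abs_nonneg (a x)
    have h4 := abs_nonneg (cs d lam x)
    nlinarith
  have hs1pos : ∀ x, 0 ≤ s x * (1 + a x * cs d lam x) := by
    intro x
    have := abs_le.mp (hac x)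
    exact mul_nonneg (hspos x).le (by linarith [this.1])
  have hs1C : ∀ x, |s x * (1 + a x * cs d lam x)| ≤ 2 * C0 := by
    intro x
    rw [abs_mul]
    have h1 : |1 + a x * cs d lam x| ≤ 2 := by
      have := abs_le.mp (hac x)
      rw [abs_le]
      constructor <;> linarith [this.1, this.2]
    have h2 := hsC x
    have h3 := abs_nonneg (1 + a x * cs d lam x)
    have h4 := abs_nonneg (s x)
    nlinarith
  have hPC : ∀ x, |(s x * a x) * cs d lam x| ≤ C0 := by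
    intro x
    have h1 : |(s x * a x) * cs d lam x| = |s x| * |a x * cs d lam x| := by
      rw [← abs_mul]
      congr 1
      ring
    rw [h1]
    have h2 := hsC x
    have h3 := hac x
    have h4 := abs_nonneg (s x)
    have h5 := abs_nonneg (a x * cs d lam x)
    nlinarith
  set v : H n := Mr (fun x => s x * (1 + a x * cs d lam x)) u with hvdef
  set P : H n →L[ℂ] H n := Mr fun x => (s x * a x) * cs d lam x with hPdef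
  set h : H n := Mr (fun x => (s x)⁻¹) g with hhdef
  set h' : H n := Mr q g with hh'def
  set r : H n := Mr (fun x => (s x)⁻¹ - q x) g with hrdef
  have hhr : h = h' + r := by
    rw [hhdef, hh'def, hrdef, ← Mr_add hqb (hib.sub hqb)]
    congr 2
    funext x
    ring
  have hU : 0 ≤ ‖u‖ := norm_nonneg u
  have hv : ‖v‖ ≤ 2 * C0 * ‖u‖ := Mr_norm_le hs1b hs1C u
  have hgv : ‖g‖ ≤ 2 * C0 * ‖u‖ := hg.trans hv
  have hr : ‖r‖ ≤ 2 * C0 * η * ‖u‖ := by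
    have h1 : ‖r‖ ≤ η * ‖g‖ := Mr_norm_le (hib.sub hqb) hqs g
    nlinarith
  have hh : ‖h‖ ≤ 2 * C0 / c * ‖u‖ := by
    have h1 : ‖h‖ ≤ c⁻¹ * ‖g‖ := by
      apply Mr_norm_le hib
      intro x
      rw [abs_of_pos (inv_pos.mpr (hspos x))]
      exact inv_anti₀ hc (hs0 x)
    have h2 : c⁻¹ * ‖g‖ ≤ c⁻¹ * (2 * C0 * ‖u‖) :=
      mul_le_mul_of_nonneg_left hgv (inv_pos.mpr hc).le
    calc ‖h‖ ≤ c⁻¹ * (2 * C0 * ‖u‖) := h1.trans h2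
      _ = 2 * C0 / c * ‖u‖ := by
        rw [div_eq_mul_inv]
        ring
  have hh' : ‖h'‖ ≤ (2 * C0 / c + 2 * C0) * ‖u‖ := by
    have h1 : h' = h - r := by
      rw [hhr]
      abel
    have h2 : ‖h'‖ ≤ ‖h‖ + ‖r‖ := by
      rw [h1]
      exact norm_sub_le _ _
    have h3 : 2 * C0 * η * ‖u‖ ≤ 2 * C0 * ‖u‖ := by
      have : 0 ≤ 2 * C0 * ‖u‖ := by positivity
      nlinarith
    nlinarith
  -- the frequencies of h'
  have hsh' : Supp {ξ | ‖ξ‖ ≤ R + K'} h' := by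
    apply hsg.TPr hq
    intro ζ hζ ξ hξ
    have h1 : ‖ξ‖ ≤ ‖ξ - ζ‖ + ‖ζ‖ := norm_le_norm_sub_add ξ ζ
    have h2 : ‖ζ‖ ≤ R := hζ
    show ‖ξ‖ ≤ R + K'
    linarith
  -- A = re ⟪h, g⟫
  have hMsh : Mr s h = g := by
    rw [hhdef, ← Mr_mul hsb hib]
    have h1 : (fun x => s x * (s x)⁻¹) = fun _ => (1 : ℝ) := by
      funext x
      exact mul_inv_cancel₀ (hspos x).ne'
    rw [h1, Mr_const]
    simp
  have hA : Q s h = (⟪h, g⟫_ℂ).re := by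
    rw [Q_eq_inner hsb, hMsh]
  -- ⟪h', g⟫ = ⟪h', v⟫
  have hdisj1 : Disjoint {ξ : E n | ‖ξ‖ ≤ R + K'} {ξ : E n | lam - R ≤ ‖ξ‖} := by
    rw [Set.disjoint_left]
    intro ξ h1 h2
    have h1' : ‖ξ‖ ≤ R + K' := h1
    have h2' : lam - R ≤ ‖ξ‖ := h2
    linarith
  have hgveq : ⟪h', g⟫_ℂ = ⟪h', v⟫_ℂ := by
    have h1 : ⟪h', v - g⟫_ℂ = 0 := inner_eq_zero_of_supp hdisj1 hsh' hsv
    rw [inner_sub_right, sub_eq_zero] at h1
    exact h1.symm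
  have hAle : Q s h ≤ ‖⟪h, v⟫_ℂ‖ + 8 * C0 ^ 2 * η * ‖u‖ ^ 2 := by
    have h1 : ⟪h, g⟫_ℂ = ⟪h, v⟫_ℂ - ⟪r, v⟫_ℂ + ⟪r, g⟫_ℂ := by
      have h2 : ⟪h, g⟫_ℂ = ⟪h', g⟫_ℂ + ⟪r, g⟫_ℂ := by rw [hhr, inner_add_left]
      have h3 : ⟪h, v⟫_ℂ = ⟪h', v⟫_ℂ + ⟪r, v⟫_ℂ := by rw [hhr, inner_add_left]
      rw [h2, h3, hgveq]
      ring
    have h2 : ‖⟪r, v⟫_ℂ‖ ≤ 4 * C0 ^ 2 * η * ‖u‖ ^ 2 := by
      calc ‖⟪r, v⟫_ℂ‖ ≤ ‖r‖ * ‖v‖ := norm_inner_le_norm r v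
        _ ≤ (2 * C0 * η * ‖u‖) * (2 * C0 * ‖u‖) :=
            mul_le_mul hr hv (norm_nonneg _) (by positivity)
        _ = 4 * C0 ^ 2 * η * ‖u‖ ^ 2 := by ring
    have h3 : ‖⟪r, g⟫_ℂ‖ ≤ 4 * C0 ^ 2 * η * ‖u‖ ^ 2 := by
      calc ‖⟪r, g⟫_ℂ‖ ≤ ‖r‖ * ‖g‖ := norm_inner_le_norm r g
        _ ≤ (2 * C0 * η * ‖u‖) * (2 * C0 * ‖u‖) :=
            mul_le_mul hr hgv (norm_nonneg _) (by positivity)
        _ = 4 * C0 ^ 2 * η * ‖u‖ ^ 2 := by ring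
    rw [hA, h1]
    have h4 : (⟪h, v⟫_ℂ - ⟪r, v⟫_ℂ + ⟪r, g⟫_ℂ).re ≤ ‖⟪h, v⟫_ℂ - ⟪r, v⟫_ℂ + ⟪r, g⟫_ℂ‖ :=
      Complex.re_le_norm _
    have h5 : ‖⟪h, v⟫_ℂ - ⟪r, v⟫_ℂ + ⟪r, g⟫_ℂ‖ ≤ ‖⟪h, v⟫_ℂ‖ + ‖⟪r, v⟫_ℂ‖ + ‖⟪r, g⟫_ℂ‖ :=
      (norm_add_le _ _).trans (by linarith [norm_sub_le ⟪h, v⟫_ℂ ⟪r, v⟫_ℂ])
    linarith
  -- Cauchy-Schwarz
  have hcs : ‖⟪h, v⟫_ℂ‖ ≤ √(Q (fun x => s x * (1 + a x * cs d lam x)) h) *
      √(Q (fun x => s x * (1 + a x * cs d lam x)) u) := by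
    rw [hvdef, ← Mr_inner hs1b]
    exact Q_cs hs1b hs1pos h u
  -- the form of the oscillating part
  have hsPh' : Supp {ξ | lam - R - K' - 2 * K0 ≤ ‖ξ‖} (P h') := by
    apply hsh'.cs (hsK.mul haK) d lam
    intro ζ hζ ξ hξ
    have hζ' : ‖ζ‖ ≤ R + K' := hζ
    have hnd : ‖lam • d‖ = lam := by
      rw [norm_smul, hd, mul_one, Real.norm_eq_abs, abs_of_pos hlam0]
    show lam - R - K' - 2 * K0 ≤ ‖ξ‖
    rcases hξ with h1 | h1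
    · have h2 : lam • d = ξ - (ξ - (ζ + lam • d)) - ζ := by abel
      have h3 : ‖lam • d‖ ≤ ‖ξ‖ + ‖ξ - (ζ + lam • d)‖ + ‖ζ‖ := by
        rw [h2]
        refine (norm_sub_le _ _).trans ?_
        have h4 := norm_sub_le ξ (ξ - (ζ + lam • d))
        rw [← h2]
        linarith
      rw [hnd] at h3
      linarith
    · have h2 : lam • d = ζ - ξ + (ξ - (ζ - lam • d)) := by abel
      have h3 : ‖lam • d‖ ≤ ‖ζ‖ + ‖ξ‖ + ‖ξ - (ζ - lam • d)‖ := by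
        rw [h2]
        refine (norm_add_le _ _).trans ?_
        have h4 := norm_sub_le ζ ξ
        rw [← h2]
        linarith
      rw [hnd] at h3
      linarith
  have hdisj2 : Disjoint {ξ : E n | ‖ξ‖ ≤ R + K'} {ξ : E n | lam - R - K' - 2 * K0 ≤ ‖ξ‖} := by
    rw [Set.disjoint_left]
    intro ξ h1 h2
    have h1' : ‖ξ‖ ≤ R + K' := h1
    have h2' : lam - R - K' - 2 * K0 ≤ ‖ξ‖ := h2
    linarith
  have hzero : ⟪h', P h'⟫_ℂ = 0 := inner_eq_zero_of_supp hdisj2 hsh' hsPh'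
  have hPn : ∀ w : H n, ‖P w‖ ≤ C0 * ‖w‖ := fun w => Mr_norm_le hPb hPC w
  have hQP : Q (fun x => (s x * a x) * cs d lam x) h ≤
      2 * C0 ^ 2 * (4 * C0 / c + 2 * C0) * η * ‖u‖ ^ 2 := by
    rw [Q_eq_inner hPb]
    have h1 : ⟪h, P h⟫_ℂ = ⟪h', P r⟫_ℂ + ⟪r, P h⟫_ℂ := by
      have h2 : ⟪h, P h⟫_ℂ = ⟪h', P h⟫_ℂ + ⟪r, P h⟫_ℂ := by
        conv_lhs => rw [show ⟪h, P h⟫_ℂ = ⟪h' + r, P h⟫_ℂ by rw [← hhr]]
        rw [inner_add_left]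
      have h3 : ⟪h', P h⟫_ℂ = ⟪h', P h'⟫_ℂ + ⟪h', P r⟫_ℂ := by
        rw [hhr, map_add, inner_add_right]
      rw [h2, h3, hzero, zero_add]
    have h2 : ‖⟪h', P r⟫_ℂ‖ ≤ ((2 * C0 / c + 2 * C0) * ‖u‖) * (C0 * (2 * C0 * η * ‖u‖)) := by
      calc ‖⟪h', P r⟫_ℂ‖ ≤ ‖h'‖ * ‖P r‖ := norm_inner_le_norm _ _
        _ ≤ ((2 * C0 / c + 2 * C0) * ‖u‖) * (C0 * (2 * C0 * η * ‖u‖)) := by
            apply mul_le_mul hh' _ (norm_nonneg _) (by positivity)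
            exact (hPn r).trans (mul_le_mul_of_nonneg_left hr hC0.le)
    have h3 : ‖⟪r, P h⟫_ℂ‖ ≤ (2 * C0 * η * ‖u‖) * (C0 * (2 * C0 / c * ‖u‖)) := by
      calc ‖⟪r, P h⟫_ℂ‖ ≤ ‖r‖ * ‖P h‖ := norm_inner_le_norm _ _
        _ ≤ (2 * C0 * η * ‖u‖) * (C0 * (2 * C0 / c * ‖u‖)) := by
            apply mul_le_mul hr _ (norm_nonneg _) (by positivity)
            exact (hPn h).trans (mul_le_mul_of_nonneg_left hh hC0.le)
    have h4 : (⟪h, P h⟫_ℂ).re ≤ ‖⟪h', P r⟫_ℂ‖ + ‖⟪r, P h⟫_ℂ‖ := by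
      rw [h1]
      exact (Complex.re_le_norm _).trans (norm_add_le _ _)
    calc (⟪h, P h⟫_ℂ).re ≤ ‖⟪h', P r⟫_ℂ‖ + ‖⟪r, P h⟫_ℂ‖ := h4
      _ ≤ ((2 * C0 / c + 2 * C0) * ‖u‖) * (C0 * (2 * C0 * η * ‖u‖)) +
          (2 * C0 * η * ‖u‖) * (C0 * (2 * C0 / c * ‖u‖)) := add_le_add h2 h3
      _ = 2 * C0 ^ 2 * (4 * C0 / c + 2 * C0) * η * ‖u‖ ^ 2 := by ring
  have hQs1h : Q (fun x => s x * (1 + a x * cs d lam x)) h ≤
      Q s h + 2 * C0 ^ 2 * (4 * C0 / c + 2 * C0) * η * ‖u‖ ^ 2 := by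
    rw [hs1e, Q_add_fun hsb hPb]
    linarith
  have hX := Q_nonneg hs1pos h
  have hY := Q_nonneg hs1pos u
  have hsq : √(Q (fun x => s x * (1 + a x * cs d lam x)) h) *
      √(Q (fun x => s x * (1 + a x * cs d lam x)) u) ≤
      (Q (fun x => s x * (1 + a x * cs d lam x)) h +
        Q (fun x => s x * (1 + a x * cs d lam x)) u) / 2 := by
    nlinarith [sq_nonneg (√(Q (fun x => s x * (1 + a x * cs d lam x)) h) -
      √(Q (fun x => s x * (1 + a x * cs d lam x)) u)), Real.sq_sqrt hX, Real.sq_sqrt hY]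
  have hfin : C2 * η * ‖u‖ ^ 2 ≤ ε * ‖u‖ ^ 2 := mul_le_mul_of_nonneg_right hηε (sq_nonneg _)
  rw [hC2def] at hfin
  nlinarith

end Pool.Agent.helper12.RT
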