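import Pool.Agent.helper12.RT.LowA

/-!
# RT-Low: functions with low quasi-frequencies

`s₁ = s (1 + a cs)`, `w₁ = w (1 + b cs)` with `cs = cs d lam`, `m(d) = 0`.  If `u` has frequencies in `Zn d lam ρ` (the `ρ`-neighbourhood of
the multiples of `lam • d`), then `∫ w₁ |T m (s₁ u)|² ≤ N ∫ s₁ |u|² + ε ‖u‖²` if `lam` is large, where `N` is the bound for `s, w`.
PROOF.  `K ≥ 1`.  `R = ρ + 2 K`.  `v = Mr s₁ u` has frequencies in `Zn d lam R` (`s₁ = s + (s a) cs`; `Zn` is invariant under `± lam • d`;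
`Supp.TPr`, `Supp.cs`, `Supp.add`).  Let `P ξ = 1` for `‖ξ‖ ≤ R` and `0` otherwise (a real symbol), `g = Tr P v`, `v' = v - g`; all `lam ≥ 4 R + ...`.
(1) `v'` has frequencies in `{ξ | ∃ k ≠ 0, ‖ξ - (k lam) d‖ ≤ R}`, where `|m ξ| = |m ξ - m ((k lam) d)| ≤ L R / lam`
(`Sym.homog`, `hmd`, `Sym.lip` with `ξ := (k lam) d`, of norm `|k| lam ≥ lam`).  So `‖Tr m v'‖ ≤ (L R / lam) ‖v‖` (`Tr_norm_le_of_supp`), and by
`Q_add_le'`: `Q w₁ (Tr m v) ≤ Q w₁ (Tr m g) + (C / lam) ‖u‖²`.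
(2) `Tr m g` has frequencies of norm at most `R`, and `Mr ((w b) cs) (Tr m g)` has frequencies within `R + 2 K` of `± lam d`; if
`lam > 2 R + 2 K` these sets are disjoint, so `⟪Tr m g, Mr ((w b) cs) (Tr m g)⟫ = 0` and `Q w₁ (Tr m g) = Q w (Tr m g)` (`Q_add_fun`, `Q_eq_inner`,
`inner_eq_zero_of_supp`).
(3) Let `h = Mr s⁻¹ g`, so `Mr s h = g` and `Q w (Tr m g) ≤ N Q s h` by `Bd`.
(4) By `low_aux` (with `ε' = ε / (2 N + 2)`), `Q s h ≤ Q s₁ u + ε' ‖u‖²` for large `lam`.  (`‖g‖ ≤ ‖v‖` by `Tr_norm_le`.)  So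
`Q w₁ (Tr m v) ≤ N Q s₁ u + N ε' ‖u‖² + (C / lam) ‖u‖²`.
-/

set_option autoImplicit false

open MeasureTheory FourierTransform
open scoped ENNReal InnerProductSpace ComplexConjugate

namespace Pool.Agent.helper12.RT

variable {n : ℕ}

private theorem low_norm_kd {d : E n} (hd : ‖d‖ = 1) {lam : ℝ} (hlam : 0 ≤ lam) {k : ℤ}
    (hk : k ≠ 0) : lam ≤ ‖((k : ℝ) * lam) • d‖ := by
  rw [norm_smul, hd, mul_one, Real.norm_eq_abs, abs_mul, abs_of_nonneg hlam]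
  have h1 : (1 : ℝ) ≤ |(k : ℝ)| := by
    have h2 : (1 : ℤ) ≤ |k| := Int.one_le_abs hk
    have h3 : ((1 : ℤ) : ℝ) ≤ ((|k| : ℤ) : ℝ) := by exact_mod_cast h2
    rw [Int.cast_abs] at h3
    simpa using h3
  nlinarith

private theorem low_supp_v {K : ℝ} {s a : E n → ℝ} (hs : TPr K s) (ha : TPr K a) {d : E n}
    (hK : 0 ≤ K) (hd : ‖d‖ = 1) (lam ρ : ℝ) {u : H n} (hu : Supp (Zn d lam ρ) u) :
    Supp (Zn d lam (ρ + 2 * K)) (Mr (fun x => s x * (1 + a x * cs d lam x)) u) := by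
  have e1 : (fun x => s x * (1 + a x * cs d lam x)) =
      fun x => s x + (fun x => (s x * a x) * cs d lam x) x := by
    funext x
    ring
  have hsa : TPr (K + K) (fun x => s x * a x) := hs.mul ha
  rw [e1, Mr_add hs.bmr (hsa.bmr.mul (cs_tpr hd lam).bmr)]
  apply Supp.add
  · apply Supp.TPr hu hs
    rintro ζ ⟨k, hk⟩ ξ hξ
    refine ⟨k, ?_⟩
    have h1 : ‖ξ - ((k : ℝ) * lam) • d‖ ≤ ‖ξ - ζ‖ + ‖ζ - ((k : ℝ) * lam) • d‖ :=
      norm_sub_le_norm_sub_add_norm_sub _ _ _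
    linarith
  · apply Supp.cs hu hsa d lam
    rintro ζ ⟨k, hk⟩ ξ (hξ | hξ)
    · refine ⟨k + 1, ?_⟩
      have h0 : ξ - (((k + 1 : ℤ) : ℝ) * lam) • d =
          (ξ - (ζ + lam • d)) + (ζ - ((k : ℝ) * lam) • d) := by
        push_cast
        rw [add_mul, one_mul, add_smul]
        abel
      rw [h0]
      refine (norm_add_le _ _).trans ?_
      linarith
    · refine ⟨k - 1, ?_⟩
      have h0 : ξ - (((k - 1 : ℤ) : ℝ) * lam) • d =
          (ξ - (ζ - lam • d)) + (ζ - ((k : ℝ) * lam) • d) := by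
        push_cast
        rw [sub_mul, one_mul, sub_smul]
        abel
      rw [h0]
      refine (norm_add_le _ _).trans ?_
      linarith

private theorem low_bound1 {a : E n → ℝ} (ha1 : ∀ x, |a x| ≤ 1 / 2) (d : E n) (lam : ℝ) (x : E n) :
    1 / 2 ≤ 1 + a x * cs d lam x ∧ 1 + a x * cs d lam x ≤ 3 / 2 := by
  have h1 : |a x * cs d lam x| ≤ 1 / 2 := by
    rw [abs_mul]
    have h2 := ha1 x
    have h3 := cs_abs d lam x
    have h4 := abs_nonneg (a x)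
    have h5 := abs_nonneg (cs d lam x)
    nlinarith
  rw [abs_le] at h1
  constructor
  · linarith [h1.1]
  · linarith [h1.2]

private theorem low_symP (R : ℝ) : BMr (fun ξ : E n => if ‖ξ‖ ≤ R then (1 : ℝ) else 0) := by
  refine ⟨Measurable.ite (measurableSet_le measurable_norm measurable_const) measurable_const
    measurable_const, 1, fun ξ => ?_⟩
  show |(if ‖ξ‖ ≤ R then (1 : ℝ) else 0)| ≤ 1
  split_ifs <;> simp

/-- The form with the weight `w (1 + b cs)` agrees with the form with weight `w` on functions with low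
frequencies. -/
private theorem low_Q_eq {K : ℝ} {w b : E n → ℝ} (hw : TPr K w) (hb : TPr K b) {d : E n}
    (hd : ‖d‖ = 1) {lam R : ℝ} (hlam : 2 * R + 2 * K < lam) {f : H n}
    (hf : Supp {ξ | ‖ξ‖ ≤ R} f) :
    Q (fun x => w x * (1 + b x * cs d lam x)) f = Q w f := by
  have e1 : (fun x => w x * (1 + b x * cs d lam x)) =
      fun x => w x + (fun x => (w x * b x) * cs d lam x) x := by
    funext x
    ring
  have hwb : TPr (K + K) (fun x => w x * b x) := hw.mul hb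
  have hbm : BMr (fun x => (w x * b x) * cs d lam x) := hwb.bmr.mul (cs_tpr hd lam).bmr
  rw [e1, Q_add_fun hw.bmr hbm, Q_eq_inner hbm]
  have h1 : Supp {ξ | lam - R - 2 * K ≤ ‖ξ‖} (Mr (fun x => (w x * b x) * cs d lam x) f) := by
    apply Supp.cs hf hwb d lam
    intro ζ hζ ξ hξ
    have hζ' : ‖ζ‖ ≤ R := hζ
    show lam - R - 2 * K ≤ ‖ξ‖
    have hl : lam ≤ ‖lam • d‖ := by
      rw [norm_smul, hd, mul_one]
      exact le_abs_self lam
    rcases hξ with hξ | hξ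
    · have h2 : lam • d = ξ - (ξ - (ζ + lam • d)) - ζ := by abel
      have h3 : ‖lam • d‖ ≤ ‖ξ‖ + ‖ξ - (ζ + lam • d)‖ + ‖ζ‖ := by
        conv_lhs => rw [h2]
        refine (norm_sub_le _ _).trans ?_
        have := norm_sub_le ξ (ξ - (ζ + lam • d))
        linarith
      linarith
    · have h2 : lam • d = ζ + (ξ - (ζ - lam • d)) - ξ := by abel
      have h3 : ‖lam • d‖ ≤ ‖ζ‖ + ‖ξ - (ζ - lam • d)‖ + ‖ξ‖ := by
        conv_lhs => rw [h2]
        refine (norm_sub_le _ _).trans ?_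
        have := norm_add_le ζ (ξ - (ζ - lam • d))
        linarith
      linarith
  have hdisj : Disjoint {ξ : E n | ‖ξ‖ ≤ R} {ξ | lam - R - 2 * K ≤ ‖ξ‖} := by
    rw [Set.disjoint_left]
    intro ξ h2 h3
    have h2' : ‖ξ‖ ≤ R := h2
    have h3' : lam - R - 2 * K ≤ ‖ξ‖ := h3
    linarith
  rw [inner_eq_zero_of_supp hdisj hf h1]
  simp

theorem low {L : ℝ} (hL : 0 ≤ L) {m : E n → ℝ} (hm : Sym L m) {K : ℝ} {s w a b : E n → ℝ}
    (hs : TPr K s) (hw : TPr K w) (ha : TPr K a) (hb : TPr K b) {c : ℝ} (hc : 0 < c)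
    (hs0 : ∀ x, c ≤ s x) (hw0 : ∀ x, 0 ≤ w x) (ha1 : ∀ x, |a x| ≤ 1 / 2)
    (hb1 : ∀ x, |b x| ≤ 1 / 2) {N : ℝ} (hN : 0 ≤ N) (hB : Bd m s w N) {d : E n} (hd : ‖d‖ = 1)
    (hmd : m d = 0) :
    ∀ ε > 0, ∀ ρ > 0, ∃ lam₀ : ℝ, ∀ lam ≥ lam₀, ∀ u : H n, Supp (Zn d lam ρ) u →
      Q (fun x => w x * (1 + b x * cs d lam x))
          (Tr m (Mr (fun x => s x * (1 + a x * cs d lam x)) u)) ≤
        N * Q (fun x => s x * (1 + a x * cs d lam x)) u + ε * ‖u‖ ^ 2 := by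
  intro ε hε ρ hρ
  -- a frequency bound which is at least 1
  set K1 : ℝ := max K 1 with hK1
  have hK1' : K ≤ K1 := le_max_left _ _
  have hK10 : 1 ≤ K1 := le_max_right _ _
  have hs := hs.mono hK1'
  have hw := hw.mono hK1'
  have ha := ha.mono hK1'
  have hb := hb.mono hK1'
  obtain ⟨-, Cs, hCs⟩ := hs.bmr
  obtain ⟨-, Cw, hCw⟩ := hw.bmr
  have hCs0 : 0 ≤ Cs := (abs_nonneg _).trans (hCs 0)
  have hCw0 : 0 ≤ Cw := (abs_nonneg _).trans (hCw 0)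
  have hmB : BMr m := ⟨hm.meas, 1, hm.bdd⟩
  set R : ℝ := ρ + 2 * K1 with hR
  have hR0 : 0 < R := by linarith
  set C1 : ℝ := 3 / 2 * Cs with hC1
  set C2 : ℝ := 3 / 2 * Cw with hC2
  have hC10 : 0 ≤ C1 := by positivity
  have hC20 : 0 ≤ C2 := by positivity
  set ε' : ℝ := ε / (2 * N + 2) with hε'
  have hε'0 : 0 < ε' := by positivity
  have hNε : N * ε' ≤ ε / 2 := by
    rw [hε', mul_div_assoc', div_le_div_iff₀ (by positivity) (by norm_num)]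
    nlinarith
  obtain ⟨lam₁, hlam₁⟩ := low_aux hs ha hc hs0 ha1 hd ε' hε'0 R hR0
  refine ⟨max (max 1 (L * R)) (max (2 * R + 2 * K1 + 1)
    (max lam₁ (6 * C2 * (L * R) * C1 ^ 2 / ε))), fun lam hlam u hu => ?_⟩
  have g1 : 1 ≤ lam := (le_max_left _ _).trans ((le_max_left _ _).trans hlam)
  have g2 : L * R ≤ lam := (le_max_right _ _).trans ((le_max_left _ _).trans hlam)
  have g3 : 2 * R + 2 * K1 + 1 ≤ lam := (le_max_left _ _).trans ((le_max_right _ _).trans hlam)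
  have g4 : lam₁ ≤ lam :=
    (le_max_left _ _).trans ((le_max_right _ _).trans ((le_max_right _ _).trans hlam))
  have g5 : 6 * C2 * (L * R) * C1 ^ 2 / ε ≤ lam :=
    (le_max_right _ _).trans ((le_max_right _ _).trans ((le_max_right _ _).trans hlam))
  have hlam0 : 0 < lam := by linarith
  set s₁ : E n → ℝ := fun x => s x * (1 + a x * cs d lam x) with hs₁
  set w₁ : E n → ℝ := fun x => w x * (1 + b x * cs d lam x) with hw₁
  have hcsB : BMr (cs d lam) := (cs_tpr hd lam).bmr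
  have hs₁B : BMr s₁ := hs.bmr.mul ((BMr.const 1).add (ha.bmr.mul hcsB))
  have hw₁B : BMr w₁ := hw.bmr.mul ((BMr.const 1).add (hb.bmr.mul hcsB))
  have hs₁le : ∀ x, |s₁ x| ≤ C1 := by
    intro x
    have h1 := low_bound1 ha1 d lam x
    have h2 := hCs x
    rw [hs₁, hC1]
    simp only
    rw [abs_mul, abs_of_nonneg (a := 1 + a x * cs d lam x) (by linarith [h1.1])]
    have h3 := abs_nonneg (s x)
    nlinarith [h1.1, h1.2]
  have hw₁0 : ∀ x, 0 ≤ w₁ x := fun x =>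
    mul_nonneg (hw0 x) (by linarith [(low_bound1 hb1 d lam x).1])
  have hw₁le : ∀ x, w₁ x ≤ C2 := by
    intro x
    have h1 := low_bound1 hb1 d lam x
    have h2 := (le_abs_self _).trans (hCw x)
    have h3 := hw0 x
    rw [hw₁, hC2]
    simp only
    nlinarith [h1.1, h1.2]
  set v : H n := Mr s₁ u with hv
  have hvn : ‖v‖ ≤ C1 * ‖u‖ := Mr_norm_le hs₁B hs₁le u
  have hvS : Supp (Zn d lam R) v := low_supp_v hs ha (by linarith) hd lam ρ hu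
  -- splitting of `v`
  set P : E n → ℝ := fun ξ => if ‖ξ‖ ≤ R then (1 : ℝ) else 0 with hP
  have hPB : BMr P := low_symP R
  have hP1 : ∀ ξ, |P ξ| ≤ 1 := by
    intro ξ
    simp only [hP]
    split_ifs <;> simp
  set P' : E n → ℝ := fun ξ => 1 - P ξ with hP'
  have hP'B : BMr P' := (BMr.const 1).sub hPB
  have hP'1 : ∀ ξ, |P' ξ| ≤ 1 := by
    intro ξ
    simp only [hP', hP]
    split_ifs <;> simp
  set g : H n := Tr P v with hg
  set v' : H n := Tr P' v with hv'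
  have hsum : v = g + v' := by
    rw [hg, hv', ← Tr_add hPB hP'B]
    have e1 : (fun ξ => P ξ + P' ξ) = fun _ : E n => (1 : ℝ) := by
      funext ξ
      simp only [hP']
      ring
    rw [e1, Tr_const]
    simp
  have hgn : ‖g‖ ≤ ‖v‖ := by
    have := Tr_norm_le hPB hP1 v
    rwa [one_mul] at this
  have hv'n : ‖v'‖ ≤ ‖v‖ := by
    have := Tr_norm_le hP'B hP'1 v
    rwa [one_mul] at this
  have hgS : Supp {ξ | ‖ξ‖ ≤ R} g := by
    apply supp_of_symbol hPB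
    intro ξ hξ
    simp only [hP]
    exact if_neg hξ
  have hv'S : Supp {ξ | ∃ k : ℤ, k ≠ 0 ∧ ‖ξ - ((k : ℝ) * lam) • d‖ ≤ R} v' := by
    have h1 : Supp (Zn d lam R) v' := hvS.Tr hP'B
    have h2 : Supp {ξ | ¬ ‖ξ‖ ≤ R} v' := by
      apply supp_of_symbol hP'B
      intro ξ hξ
      have h3 : ‖ξ‖ ≤ R := not_not.1 hξ
      simp only [hP', hP]
      rw [if_pos h3]
      norm_num
    refine (h1.inter h2).mono ?_
    rintro ξ ⟨⟨k, hk⟩, h3⟩
    refine ⟨k, ?_, hk⟩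
    rintro rfl
    apply h3
    simpa using hk
  have hv'S2 : Supp {ξ | lam - R ≤ ‖ξ‖} (v - g) := by
    have e1 : v - g = v' := by
      rw [hsum]
      abel
    rw [e1]
    refine hv'S.mono ?_
    rintro ξ ⟨k, hk, hk2⟩
    show lam - R ≤ ‖ξ‖
    have h1 := low_norm_kd hd hlam0.le hk
    have h2 : ‖((k : ℝ) * lam) • d‖ ≤ ‖ξ‖ + ‖ξ - ((k : ℝ) * lam) • d‖ := by
      have h3 : ((k : ℝ) * lam) • d = ξ - (ξ - ((k : ℝ) * lam) • d) := by abel
      conv_lhs => rw [h3]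
      exact norm_sub_le _ _
    linarith
  -- step (1)
  have hmv' : ‖Tr m v'‖ ≤ (L * R / lam) * ‖v'‖ := by
    apply Tr_norm_le_of_supp hv'S hmB (by positivity)
    rintro ξ ⟨k, hk, hk2⟩
    have h1 := low_norm_kd hd hlam0.le hk
    have hne : ((k : ℝ) * lam) • d ≠ 0 := by
      rw [← norm_pos_iff]
      linarith
    have hk0 : (k : ℝ) * lam ≠ 0 := by
      intro h0
      rw [h0, zero_smul] at hne
      exact hne rfl
    have h2 : m (((k : ℝ) * lam) • d) = 0 := by rw [hm.homog _ _ hk0, hmd]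
    have h3 := hm.lip (((k : ℝ) * lam) • d) ξ hne
    rw [h2, zero_sub, abs_neg] at h3
    refine h3.trans ?_
    rw [mul_div_assoc]
    apply mul_le_mul_of_nonneg_left _ hL
    rw [norm_sub_rev]
    have hpos : 0 < ‖((k : ℝ) * lam) • d‖ := norm_pos_iff.2 hne
    rw [div_le_div_iff₀ hpos hlam0]
    have h5 := norm_nonneg (ξ - ((k : ℝ) * lam) • d)
    nlinarith
  have hmgn : ‖Tr m g‖ ≤ ‖v‖ := by
    have := Tr_norm_le hmB hm.bdd g
    rw [one_mul] at this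
    exact this.trans hgn
  have hstep1 : Q w₁ (Tr m v) ≤ Q w₁ (Tr m g) + ε / 2 * ‖u‖ ^ 2 := by
    have e1 : Tr m v = Tr m g + Tr m v' := by
      conv_lhs => rw [hsum]
      exact map_add _ _ _
    rw [e1]
    refine (Q_add_le' hw₁B hw₁0 hw₁le _ _).trans ?_
    set θ : ℝ := L * R / lam with hθ
    have hθ0 : 0 ≤ θ := by positivity
    have hθ1 : θ ≤ 1 := by
      rw [hθ, div_le_one hlam0]
      exact g2
    have hn1 : ‖Tr m v'‖ ≤ θ * ‖v‖ := hmv'.trans (mul_le_mul_of_nonneg_left hv'n hθ0)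
    have hn0 := norm_nonneg (Tr m v')
    have hv0 := norm_nonneg v
    have hu0 := norm_nonneg u
    have hA : ‖Tr m g‖ * ‖Tr m v'‖ ≤ ‖v‖ * (θ * ‖v‖) :=
      mul_le_mul hmgn hn1 hn0 hv0
    have hB' : ‖Tr m v'‖ ^ 2 ≤ θ * ‖v‖ ^ 2 := by
      calc ‖Tr m v'‖ ^ 2 ≤ (θ * ‖v‖) ^ 2 := pow_le_pow_left₀ hn0 hn1 2
        _ = θ * (θ * ‖v‖ ^ 2) := by ring
        _ ≤ θ * (1 * ‖v‖ ^ 2) := by gcongr
        _ = θ * ‖v‖ ^ 2 := by ring
    have hv2 : ‖v‖ ^ 2 ≤ C1 ^ 2 * ‖u‖ ^ 2 := by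
      calc ‖v‖ ^ 2 ≤ (C1 * ‖u‖) ^ 2 := pow_le_pow_left₀ hv0 hvn 2
        _ = C1 ^ 2 * ‖u‖ ^ 2 := by ring
    have hfin : 3 * C2 * θ * C1 ^ 2 ≤ ε / 2 := by
      rw [div_le_iff₀ hε] at g5
      have e2 : 3 * C2 * θ * C1 ^ 2 = (3 * C2 * (L * R) * C1 ^ 2) / lam := by
        rw [hθ]
        ring
      rw [e2, div_le_iff₀ hlam0]
      linarith
    have hC2θ : 0 ≤ 3 * C2 * θ := by positivity
    calc Q w₁ (Tr m g) + 2 * C2 * ‖Tr m g‖ * ‖Tr m v'‖ + C2 * ‖Tr m v'‖ ^ 2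
        = Q w₁ (Tr m g) + 2 * C2 * (‖Tr m g‖ * ‖Tr m v'‖) + C2 * ‖Tr m v'‖ ^ 2 := by ring
      _ ≤ Q w₁ (Tr m g) + 2 * C2 * (‖v‖ * (θ * ‖v‖)) + C2 * (θ * ‖v‖ ^ 2) := by
          gcongr
      _ = Q w₁ (Tr m g) + 3 * C2 * θ * ‖v‖ ^ 2 := by ring
      _ ≤ Q w₁ (Tr m g) + 3 * C2 * θ * (C1 ^ 2 * ‖u‖ ^ 2) := by
          gcongr
      _ = Q w₁ (Tr m g) + (3 * C2 * θ * C1 ^ 2) * ‖u‖ ^ 2 := by ring
      _ ≤ Q w₁ (Tr m g) + ε / 2 * ‖u‖ ^ 2 := by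
          gcongr
  -- step (2)
  have hstep2 : Q w₁ (Tr m g) = Q w (Tr m g) :=
    low_Q_eq hw hb hd (by linarith) (hgS.Tr hmB)
  -- step (3)
  have hsinv : BMr (fun x => (s x)⁻¹) := hs.bmr.inv hc hs0
  have hMsh : Mr s (Mr (fun x => (s x)⁻¹) g) = g := by
    rw [← Mr_mul hs.bmr hsinv]
    have e1 : (fun x => s x * (s x)⁻¹) = fun _ : E n => (1 : ℝ) := by
      funext x
      exact mul_inv_cancel₀ (by linarith [hs0 x] : s x ≠ 0)
    rw [e1, Mr_const]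
    simp
  have hstep3 : Q w (Tr m g) ≤ N * Q s (Mr (fun x => (s x)⁻¹) g) := by
    have := hB (Mr (fun x => (s x)⁻¹) g)
    rwa [hMsh] at this
  -- step (4)
  have hstep4 : Q s (Mr (fun x => (s x)⁻¹) g) ≤ Q s₁ u + ε' * ‖u‖ ^ 2 :=
    hlam₁ lam g4 u g hgn hgS hv'S2
  have hu2 : 0 ≤ ‖u‖ ^ 2 := by positivity
  calc Q w₁ (Tr m v) ≤ Q w₁ (Tr m g) + ε / 2 * ‖u‖ ^ 2 := hstep1
    _ = Q w (Tr m g) + ε / 2 * ‖u‖ ^ 2 := by rw [hstep2]
    _ ≤ N * Q s (Mr (fun x => (s x)⁻¹) g) + ε / 2 * ‖u‖ ^ 2 := by linarith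
    _ ≤ N * (Q s₁ u + ε' * ‖u‖ ^ 2) + ε / 2 * ‖u‖ ^ 2 := by
        have := mul_le_mul_of_nonneg_left hstep4 hN
        linarith
    _ = N * Q s₁ u + (N * ε') * ‖u‖ ^ 2 + ε / 2 * ‖u‖ ^ 2 := by ring
    _ ≤ N * Q s₁ u + ε / 2 * ‖u‖ ^ 2 + ε / 2 * ‖u‖ ^ 2 := by
        have := mul_le_mul_of_nonneg_right hNε hu2
        linarith
    _ = N * Q s₁ u + ε * ‖u‖ ^ 2 := by ring

end Pool.Agent.helper12.RT
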