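import Pool.Agent.helper12.RT.High
import Pool.Agent.helper12.RT.Low

/-!
# RT-Step: one step of the construction does not increase the norm

PROOF.  `s₁ = s (1 + a cs)`, `w₁ = w (1 + b cs)`, `c / 2 ≤ s₁`, so `‖u‖² ≤ (2 / c) Q s₁ u` (`Q_ge`).
Fix `ρ` (large, chosen at the end), `χL, χH` from `exists_cut` for `lam` and `ρ`, `X = Tr χL` or `Tr χH` (self-adjoint, norm at most 1,
`X_L X_L + X_H X_H = 1` by `Tr_mul`, `Tr_add`, `Tr_const`).  `X` commutes with `Tr m` (`Tr_comm`), and for `p = w₁` or `s₁`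
(`p = p₀ + p₁ cs` with trigonometric polynomials `p₀`, `p₁`) `‖X (Mr p u) - Mr p (X u)‖ ≤ (C / ρ) ‖u‖` (`comm_TPr`, `comm_cs`, `Mr_add`), `C` independent of `ρ` and `lam`.
For every `v` and `p ∈ {s₁, w₁}`: `Q p v = re ⟪v, Mr p v⟫ = ∑_X re ⟪v, Mr p (X (X v))⟫`, and `⟪X v, Mr p (X v)⟫ = ⟪v, X (Mr p (X v))⟫`, so
`|Q p v - Q p (X_L v) - Q p (X_H v)| ≤ (C / ρ) ‖v‖²`.
With `v = Tr m (Mr s₁ u)`: `X v = Tr m (X (Mr s₁ u)) = Tr m (Mr s₁ (X u)) + r`, `‖r‖ ≤ (C / ρ) ‖u‖`, so (`Q_add_le'`)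
`Q w₁ v ≤ Q w₁ (Tr m (Mr s₁ (X_L u))) + Q w₁ (Tr m (Mr s₁ (X_H u))) + (C / ρ) ‖u‖²`.
`X_L u` has frequencies in `Zn d lam ρ` and `X_H u` in the complement of `Zn d lam (ρ / 2)` (`supp_of_symbol`).  By `low` and `high` (`lam ≥ ρ`)
`Q w₁ v ≤ N Q s₁ (X_L u) + ε' ‖u‖² + 5 Q s₁ (X_H u) + (C / ρ) ‖u‖² ≤ N (Q s₁ (X_L u) + Q s₁ (X_H u)) + ... ≤ N Q s₁ u + (ε' + C' / ρ) ‖u‖²
≤ (N + (2 / c) (ε' + C' / ρ)) Q s₁ u`.  First choose `ρ`, then `ε'`, then `lam₀`.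
-/

set_option autoImplicit false

open MeasureTheory FourierTransform
open scoped ENNReal InnerProductSpace ComplexConjugate

namespace Pool.Agent.helper12.RT

variable {n : ℕ}

/-- the commutator of `χ` and `p₀ + p₁ cs` -/
private theorem comm_one {K : ℝ} {p₀ p₁ : E n → ℝ} (h0 : TPr K p₀) (h1 : TPr K p₁) :
    ∃ C : ℝ, 0 ≤ C ∧ ∀ (d : E n) (lam : ℝ) (χ : E n → ℝ) (l : ℝ), ‖d‖ = 1 → BMr χ → 0 ≤ l →
      (∀ ξ ζ, |χ ξ - χ ζ| ≤ l * ‖ξ - ζ‖) → (∀ ξ, χ (ξ + lam • d) = χ ξ) →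
      ∀ u : H n, ‖Tr χ (Mr (fun x => p₀ x + p₁ x * cs d lam x) u) -
        Mr (fun x => p₀ x + p₁ x * cs d lam x) (Tr χ u)‖ ≤ C * l * ‖u‖ := by
  obtain ⟨C, hC, hc⟩ := comm_TPr h0
  obtain ⟨C', hC', hc'⟩ := comm_cs h1
  refine ⟨C + C', by positivity, ?_⟩
  intro d lam χ l hd hχ hl hlip hper u
  have e1 := hc χ l hχ hl hlip u
  have e2 := hc' d lam χ l hχ hl hlip hper u
  have hb : BMr fun x => p₁ x * cs d lam x := h1.bmr.mul (cs_tpr hd lam).bmr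
  rw [Mr_add h0.bmr hb, Mr_add h0.bmr hb, map_add]
  have : Tr χ (Mr p₀ u) + Tr χ (Mr (fun x => p₁ x * cs d lam x) u) -
      (Mr p₀ (Tr χ u) + Mr (fun x => p₁ x * cs d lam x) (Tr χ u)) =
      (Tr χ (Mr p₀ u) - Mr p₀ (Tr χ u)) +
      (Tr χ (Mr (fun x => p₁ x * cs d lam x) u) - Mr (fun x => p₁ x * cs d lam x) (Tr χ u)) := by
    abel
  rw [this]
  calc _ ≤ _ := norm_add_le _ _
    _ ≤ C * l * ‖u‖ + C' * l * ‖u‖ := add_le_add e1 e2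
    _ = _ := by ring

/-- one half of the localisation formula -/
private theorem loc_half {p χ : E n → ℝ} (hp : BMr p) (hχ : BMr χ) (h1 : ∀ ξ, |χ ξ| ≤ 1) {κ : ℝ}
    (hκ : 0 ≤ κ) (hc : ∀ u : H n, ‖Tr χ (Mr p u) - Mr p (Tr χ u)‖ ≤ κ * ‖u‖) (v : H n) :
    |(⟪v, Mr p (Tr χ (Tr χ v))⟫_ℂ).re - Q p (Tr χ v)| ≤ κ * ‖v‖ ^ 2 := by
  rw [Q_eq_inner hp]
  have e1 : ⟪Tr χ v, Mr p (Tr χ v)⟫_ℂ = ⟪v, Tr χ (Mr p (Tr χ v))⟫_ℂ := Tr_inner hχ _ _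
  rw [e1, ← Complex.sub_re, ← inner_sub_right]
  have e2 : ‖Tr χ v‖ ≤ 1 * ‖v‖ := Tr_norm_le hχ h1 v
  rw [one_mul] at e2
  calc _ ≤ ‖⟪v, Mr p (Tr χ (Tr χ v)) - Tr χ (Mr p (Tr χ v))⟫_ℂ‖ := Complex.abs_re_le_norm _
    _ ≤ ‖v‖ * ‖Mr p (Tr χ (Tr χ v)) - Tr χ (Mr p (Tr χ v))‖ := norm_inner_le_norm _ _
    _ = ‖v‖ * ‖Tr χ (Mr p (Tr χ v)) - Mr p (Tr χ (Tr χ v))‖ := by rw [norm_sub_rev]
    _ ≤ ‖v‖ * (κ * ‖Tr χ v‖) := by gcongr; exact hc _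
    _ ≤ ‖v‖ * (κ * ‖v‖) := by gcongr
    _ = _ := by ring

private theorem loc {p χL χH : E n → ℝ} (hp : BMr p) (hL : BMr χL) (hH : BMr χH)
    (hL1 : ∀ ξ, |χL ξ| ≤ 1) (hH1 : ∀ ξ, |χH ξ| ≤ 1)
    (hLH : ∀ ξ, χL ξ * χL ξ + χH ξ * χH ξ = 1) {κ : ℝ}
    (hκ : 0 ≤ κ) (hcL : ∀ u : H n, ‖Tr χL (Mr p u) - Mr p (Tr χL u)‖ ≤ κ * ‖u‖)
    (hcH : ∀ u : H n, ‖Tr χH (Mr p u) - Mr p (Tr χH u)‖ ≤ κ * ‖u‖) (v : H n) :
    |Q p v - (Q p (Tr χL v) + Q p (Tr χH v))| ≤ 2 * κ * ‖v‖ ^ 2 := by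
  have e0 : v = Tr χL (Tr χL v) + Tr χH (Tr χH v) := by
    rw [← Tr_mul hL hL, ← Tr_mul hH hH, ← Tr_add (hL.mul hL) (hH.mul hH)]
    have : (fun ξ => χL ξ * χL ξ + χH ξ * χH ξ) = fun _ : E n => (1 : ℝ) := funext hLH
    rw [this, Tr_const]
    simp
  have e1 : Q p v = (⟪v, Mr p (Tr χL (Tr χL v))⟫_ℂ).re + (⟪v, Mr p (Tr χH (Tr χH v))⟫_ℂ).re := by
    rw [Q_eq_inner hp, ← Complex.add_re, ← inner_add_right, ← map_add, ← e0]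
  have e2 := loc_half hp hL hL1 hκ hcL v
  have e3 := loc_half hp hH hH1 hκ hcH v
  rw [e1]
  rw [abs_le] at *
  constructor <;> linarith [e2.1, e2.2, e3.1, e3.2]

theorem step {L : ℝ} (hL : 0 ≤ L) {m : E n → ℝ} (hm : Sym L m) {K : ℝ} {s w a b : E n → ℝ}
    (hs : TPr K s) (hw : TPr K w) (ha : TPr K a) (hb : TPr K b) {c : ℝ} (hc : 0 < c)
    (hs0 : ∀ x, c ≤ s x) (hw0 : ∀ x, 0 ≤ w x) (hsw : ∀ x, s x * w x ≤ 1)
    (ha1 : ∀ x, |a x| ≤ 1 / 2) (hb1 : ∀ x, |b x| ≤ 1 / 2) {N : ℝ} (hN : 5 ≤ N)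
    (hB : Bd m s w N) {d : E n} (hd : ‖d‖ = 1) (hmd : m d = 0) :
    ∀ ε > 0, ∃ lam₀ : ℝ, ∀ lam ≥ lam₀,
      Bd m (fun x => s x * (1 + a x * cs d lam x)) (fun x => w x * (1 + b x * cs d lam x))
        (N + ε) := by
  intro ε hε
  have hs00 : ∀ x, 0 ≤ s x := fun x => hc.le.trans (hs0 x)
  have hmB : BMr m := ⟨hm.meas, 1, hm.bdd⟩
  obtain ⟨Ch, ρ₀, hCh, hρ₀, hhigh⟩ := high hL hm hs hw ha hb hs00 hw0 hsw ha1 hb1 hd
  -- the commutator constants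
  have hK : ∀ p : E n → ℝ, TPr K p → TPr (max K (K + K)) p := fun p hp => hp.mono (le_max_left _ _)
  have hsa : TPr (max K (K + K)) fun x => s x * a x := (hs.mul ha).mono (le_max_right _ _)
  have hwb : TPr (max K (K + K)) fun x => w x * b x := (hw.mul hb).mono (le_max_right _ _)
  obtain ⟨Cs, hCs, hcs⟩ := comm_one (hK s hs) hsa
  obtain ⟨Cw, hCw, hcw⟩ := comm_one (hK w hw) hwb
  obtain ⟨_, S0, hS0⟩ := hs.bmr
  obtain ⟨_, W0, hW0⟩ := hw.bmr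
  set S : ℝ := 2 * |S0| with hSdef
  set W : ℝ := 2 * |W0| with hWdef
  have hS : 0 ≤ S := by positivity
  have hW : 0 ≤ W := by positivity
  set Ck : ℝ := 4 * (Cs + Cw) with hCk
  have hCk0 : 0 ≤ Ck := by positivity
  set A : ℝ := 2 * N * Ck + Ch + 2 * Ck * S ^ 2 + 4 * W * S * Ck + 2 * W * Ck ^ 2 with hA
  have hA0 : 0 ≤ A := by positivity
  set ρ : ℝ := max ρ₀ (A / (c * ε / 4)) with hρdef
  have hρ1 : ρ₀ ≤ ρ := le_max_left _ _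
  have hρ2 : 1 ≤ ρ := hρ₀.trans hρ1
  have hρ : 0 < ρ := by linarith
  have hAρ : A / ρ ≤ c * ε / 4 := by
    rw [div_le_iff₀ hρ]
    have : A / (c * ε / 4) ≤ ρ := le_max_right _ _
    rwa [div_le_iff₀ (by positivity), mul_comm] at this
  obtain ⟨lam₁, hlow⟩ := low hL hm hs hw ha hb hc hs0 hw0 ha1 hb1 (by linarith : (0 : ℝ) ≤ N) hB
    hd hmd (c * ε / 4) (by positivity) ρ hρ
  refine ⟨max lam₁ ρ, ?_⟩
  intro lam hlam u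
  have hlam1 : lam ≥ lam₁ := (le_max_left _ _).trans hlam
  have hlam2 : lam ≥ ρ := (le_max_right _ _).trans hlam
  obtain ⟨χL, χH, bL, bH, L1, H1, lipL, lipH, perL, perH, LH, sL, sH⟩ :=
    exists_cut (n := n) hd (lam := lam) hρ
  set s₁ : E n → ℝ := fun x => s x * (1 + a x * cs d lam x) with hs₁
  set w₁ : E n → ℝ := fun x => w x * (1 + b x * cs d lam x) with hw₁
  have hs₁' : s₁ = fun x => s x + (s x * a x) * cs d lam x := by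
    funext x; rw [hs₁]; ring
  have hw₁' : w₁ = fun x => w x + (w x * b x) * cs d lam x := by
    funext x; rw [hw₁]; ring
  have hcsb : BMr (cs d lam : E n → ℝ) := (cs_tpr hd lam).bmr
  have bs₁ : BMr s₁ := by
    rw [hs₁']
    exact hs.bmr.add ((hs.bmr.mul ha.bmr).mul hcsb)
  have bw₁ : BMr w₁ := by
    rw [hw₁']
    exact hw.bmr.add ((hw.bmr.mul hb.bmr).mul hcsb)
  have hac : ∀ x, |a x * cs d lam x| ≤ 1 / 2 := fun x => by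
    rw [abs_mul]
    calc |a x| * |cs d lam x| ≤ (1 / 2) * 1 :=
          mul_le_mul (ha1 x) (cs_abs d lam x) (abs_nonneg _) (by norm_num)
      _ = 1 / 2 := by norm_num
  have hbc : ∀ x, |b x * cs d lam x| ≤ 1 / 2 := fun x => by
    rw [abs_mul]
    calc |b x| * |cs d lam x| ≤ (1 / 2) * 1 :=
          mul_le_mul (hb1 x) (cs_abs d lam x) (abs_nonneg _) (by norm_num)
      _ = 1 / 2 := by norm_num
  have hs₁c : ∀ x, c / 2 ≤ s₁ x := fun x => by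
    have h1 := hs0 x
    have h2 := abs_le.1 (hac x)
    have : s₁ x = s x * (1 + a x * cs d lam x) := rfl
    rw [this]
    nlinarith [h2.1, h2.2]
  have hw₁0 : ∀ x, 0 ≤ w₁ x := fun x => by
    have h1 := hw0 x
    have h2 := abs_le.1 (hbc x)
    have : w₁ x = w x * (1 + b x * cs d lam x) := rfl
    rw [this]
    apply mul_nonneg h1
    linarith [h2.1]
  have hs₁S : ∀ x, |s₁ x| ≤ S := fun x => by
    have : s₁ x = s x * (1 + a x * cs d lam x) := rfl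
    rw [this, abs_mul]
    have h2 := abs_le.1 (hac x)
    have h3 : |1 + a x * cs d lam x| ≤ 2 := by
      rw [abs_le]; constructor <;> linarith [h2.1, h2.2]
    calc |s x| * |1 + a x * cs d lam x| ≤ |S0| * 2 :=
          mul_le_mul ((hS0 x).trans (le_abs_self _)) h3 (abs_nonneg _) (abs_nonneg _)
      _ = S := by rw [hSdef]; ring
  have hw₁W : ∀ x, w₁ x ≤ W := fun x => by
    have : w₁ x = w x * (1 + b x * cs d lam x) := rfl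
    refine (le_abs_self _).trans ?_
    rw [this, abs_mul]
    have h2 := abs_le.1 (hbc x)
    have h3 : |1 + b x * cs d lam x| ≤ 2 := by
      rw [abs_le]; constructor <;> linarith [h2.1, h2.2]
    calc |w x| * |1 + b x * cs d lam x| ≤ |W0| * 2 :=
          mul_le_mul ((hW0 x).trans (le_abs_self _)) h3 (abs_nonneg _) (abs_nonneg _)
      _ = W := by rw [hWdef]; ring
  -- commutators
  set κ : ℝ := Ck / ρ with hκ
  have hκ0 : 0 ≤ κ := by positivity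
  have hCs4 : Cs * (4 / ρ) ≤ κ := by
    rw [hκ, hCk, mul_div_assoc', div_le_div_iff_of_pos_right hρ]
    linarith
  have hCw4 : Cw * (4 / ρ) ≤ κ := by
    rw [hκ, hCk, mul_div_assoc', div_le_div_iff_of_pos_right hρ]
    linarith
  have cLs : ∀ u : H n, ‖Tr χL (Mr s₁ u) - Mr s₁ (Tr χL u)‖ ≤ κ * ‖u‖ := fun u => by
    have := hcs d lam χL (4 / ρ) hd bL (by positivity) lipL perL u
    rw [← hs₁'] at this
    exact this.trans (by gcongr)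
  have cHs : ∀ u : H n, ‖Tr χH (Mr s₁ u) - Mr s₁ (Tr χH u)‖ ≤ κ * ‖u‖ := fun u => by
    have := hcs d lam χH (4 / ρ) hd bH (by positivity) lipH perH u
    rw [← hs₁'] at this
    exact this.trans (by gcongr)
  have cLw : ∀ u : H n, ‖Tr χL (Mr w₁ u) - Mr w₁ (Tr χL u)‖ ≤ κ * ‖u‖ := fun u => by
    have := hcw d lam χL (4 / ρ) hd bL (by positivity) lipL perL u
    rw [← hw₁'] at this
    exact this.trans (by gcongr)
  have cHw : ∀ u : H n, ‖Tr χH (Mr w₁ u) - Mr w₁ (Tr χH u)‖ ≤ κ * ‖u‖ := fun u => by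
    have := hcw d lam χH (4 / ρ) hd bH (by positivity) lipH perH u
    rw [← hw₁'] at this
    exact this.trans (by gcongr)
  -- localisation
  set v : H n := Tr m (Mr s₁ u) with hv
  have hvn : ‖v‖ ≤ S * ‖u‖ := by
    have h1 := Tr_norm_le hmB hm.bdd (Mr s₁ u)
    have h2 := Mr_norm_le bs₁ hs₁S u
    rw [one_mul] at h1
    exact h1.trans h2
  have lw := loc bw₁ bL bH L1 H1 LH hκ0 cLw cHw v
  have ls := loc bs₁ bL bH L1 H1 LH hκ0 cLs cHs u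
  -- moving the cut-off inside
  have key : ∀ χ : E n → ℝ, BMr χ → (∀ ξ, |χ ξ| ≤ 1) →
      (∀ u : H n, ‖Tr χ (Mr s₁ u) - Mr s₁ (Tr χ u)‖ ≤ κ * ‖u‖) →
      Q w₁ (Tr χ v) ≤ Q w₁ (Tr m (Mr s₁ (Tr χ u))) + (2 * W * S * κ + W * κ ^ 2) * ‖u‖ ^ 2 := by
    intro χ bχ χ1 cχ
    have e1 : Tr χ v = Tr m (Mr s₁ (Tr χ u)) + Tr m (Tr χ (Mr s₁ u) - Mr s₁ (Tr χ u)) := by
      rw [hv, Tr_comm bχ hmB, ← map_add]
      congr 1
      abel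
    have e2 : ‖Tr m (Tr χ (Mr s₁ u) - Mr s₁ (Tr χ u))‖ ≤ κ * ‖u‖ := by
      have h1 := Tr_norm_le hmB hm.bdd (Tr χ (Mr s₁ u) - Mr s₁ (Tr χ u))
      rw [one_mul] at h1
      exact h1.trans (cχ u)
    have e3 : ‖Tr m (Mr s₁ (Tr χ u))‖ ≤ S * ‖u‖ := by
      have h1 := Tr_norm_le hmB hm.bdd (Mr s₁ (Tr χ u))
      have h2 := Mr_norm_le bs₁ hs₁S (Tr χ u)
      have h3 := Tr_norm_le bχ χ1 u
      rw [one_mul] at h1 h3
      exact h1.trans (h2.trans (by gcongr))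
    rw [e1]
    refine (Q_add_le' bw₁ hw₁0 hw₁W _ _).trans ?_
    have h1 : 2 * W * ‖Tr m (Mr s₁ (Tr χ u))‖ * ‖Tr m (Tr χ (Mr s₁ u) - Mr s₁ (Tr χ u))‖ ≤
        2 * W * (S * ‖u‖) * (κ * ‖u‖) := by gcongr
    have h2 : W * ‖Tr m (Tr χ (Mr s₁ u) - Mr s₁ (Tr χ u))‖ ^ 2 ≤ W * (κ * ‖u‖) ^ 2 := by gcongr
    linear_combination h1 + h2
  have kL := key χL bL L1 cLs
  have kH := key χH bH H1 cHs
  have nL : ‖Tr χL u‖ ≤ ‖u‖ := by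
    have := Tr_norm_le bL L1 u
    rwa [one_mul] at this
  have nH : ‖Tr χH u‖ ≤ ‖u‖ := by
    have := Tr_norm_le bH H1 u
    rwa [one_mul] at this
  have lo := hlow lam hlam1 (Tr χL u) (supp_of_symbol bL sL u)
  have hi := hhigh ρ hρ1 lam hlam2 (Tr χH u) (supp_of_symbol bH (fun ξ hξ => sH ξ (by
    by_contra h
    exact hξ h)) u)
  have hiQ : 0 ≤ Q s₁ (Tr χH u) := Q_nonneg (fun x => (by positivity : (0:ℝ) ≤ c / 2).trans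
    (hs₁c x)) _
  have lo' : c * ε / 4 * ‖Tr χL u‖ ^ 2 ≤ c * ε / 4 * ‖u‖ ^ 2 := by gcongr
  have hi' : Ch / ρ * ‖Tr χH u‖ ^ 2 ≤ Ch / ρ * ‖u‖ ^ 2 := by gcongr
  have hi'' : 5 * Q s₁ (Tr χH u) ≤ N * Q s₁ (Tr χH u) := by gcongr
  have lw1 := (abs_le.1 lw).2
  have ls1 := (abs_le.1 ls).1
  have hv2 : 2 * κ * ‖v‖ ^ 2 ≤ 2 * κ * (S * ‖u‖) ^ 2 := by gcongr
  have hκ2 : κ ^ 2 ≤ Ck ^ 2 / ρ := by
    rw [hκ, div_pow]
    apply div_le_div_of_nonneg_left (by positivity) hρ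
    nlinarith
  have ls2 : N * (Q s₁ (Tr χL u) + Q s₁ (Tr χH u)) ≤ N * (Q s₁ u + 2 * κ * ‖u‖ ^ 2) :=
    mul_le_mul_of_nonneg_left (by linarith) (by linarith)
  have hsum : Q w₁ v ≤ N * Q s₁ u + (2 * N * κ + c * ε / 4 + Ch / ρ + 2 * κ * S ^ 2 +
      2 * (2 * W * S * κ + W * κ ^ 2)) * ‖u‖ ^ 2 := by
    have lo2 : Q w₁ (Tr m (Mr s₁ (Tr χL u))) ≤ N * Q s₁ (Tr χL u) + c * ε / 4 * ‖Tr χL u‖ ^ 2 := lo
    have hi2 : Q w₁ (Tr m (Mr s₁ (Tr χH u))) ≤ 5 * Q s₁ (Tr χH u) + Ch / ρ * ‖Tr χH u‖ ^ 2 := hi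
    linarith
  have hcoef : 2 * N * κ + c * ε / 4 + Ch / ρ + 2 * κ * S ^ 2 +
      2 * (2 * W * S * κ + W * κ ^ 2) ≤ c * ε / 2 := by
    have h1 : 2 * N * κ + Ch / ρ + 2 * κ * S ^ 2 + 2 * (2 * W * S * κ + W * κ ^ 2) ≤ A / ρ := by
      have h2 : W * κ ^ 2 ≤ W * (Ck ^ 2 / ρ) := by gcongr
      have h3 : A / ρ = 2 * N * κ + Ch / ρ + 2 * κ * S ^ 2 + 2 * (2 * W * S * κ) +
          2 * (W * (Ck ^ 2 / ρ)) := by
        rw [hA, hκ]; ring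
      rw [h3]
      linarith
    linarith
  have hu : ‖u‖ ^ 2 ≤ 2 / c * Q s₁ u := by
    have := Q_ge bs₁ hs₁c u
    rw [div_mul_eq_mul_div, le_div_iff₀ hc]
    linarith
  show Q w₁ v ≤ (N + ε) * Q s₁ u
  calc Q w₁ v ≤ N * Q s₁ u + (c * ε / 2) * ‖u‖ ^ 2 := by
        refine hsum.trans ?_
        gcongr
    _ ≤ N * Q s₁ u + (c * ε / 2) * (2 / c * Q s₁ u) := by gcongr
    _ = (N + ε) * Q s₁ u := by
        field_simp

end Pool.Agent.helper12.RT
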