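import Pool.Agent.helper12.RT.Defs

/-!
# RT-RL: averaging over a rapidly oscillating phase

PROOF.  Let `|F x c| ≤ C` for `c ∈ [-1, 1]`.  Both integrals change by at most `C ‖g - g'‖_1` if `g` is replaced by `g'`, and the continuous functions with
compact support are dense in `L¹` (`Integrable.exists_hasCompactSupport_integral_sub_le` or similar), so let `g` be
continuous with compact support.  `Φ(x, c) = F x c * g x` is continuous, and it vanishes if `x` is outside of a compact set `S`, so it is
uniformly continuous on `ℝⁿ × [-1, 1]` (restrict to a compact neighbourhood of `S`).  By translation invariance, for every `t ∈ [0, 1]`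
`∫ F x (cs d lam x) * g x dx = ∫ Φ(x + (t / lam) • d, cos (2 π lam ⟪d, x⟫ + 2 π t)) dx` (`⟪d, d⟫ = 1`), and the right-hand side differs from
`∫ Φ(x, cos (2 π lam ⟪d, x⟫ + 2 π t)) dx` by at most `ε / 2` if `lam` is large (uniform continuity, and both integrands vanish outside of the closed
1-neighbourhood of `S`).  Integrate over `t ∈ [0, 1]` and use Fubini: `∫_0^1 Φ(x, cos (2 π lam ⟪d, x⟫ + 2 π t)) dt = ∫_0^1 Φ(x, cos (2 π θ)) dθ` by
periodicity (`Function.Periodic.intervalIntegral_add_eq`).
-/

set_option autoImplicit false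

open MeasureTheory FourierTransform
open scoped ENNReal InnerProductSpace ComplexConjugate

namespace Pool.Agent.helper12.RT

variable {n : ℕ}

theorem rl_cs_shift {d : E n} (hd : ‖d‖ = 1) {lam : ℝ} (hlam : lam ≠ 0) (t : ℝ) (x : E n) :
    cs d lam (x + (t / lam) • d) = Real.cos (2 * Real.pi * (lam * ⟪d, x⟫_ℝ + t)) := by
  unfold cs
  congr 1
  rw [inner_add_right, inner_smul_right, real_inner_self_eq_norm_sq, hd]
  field_simp

theorem rl_period (f : ℝ → ℝ) (s : ℝ) :
    ∫ t in (0 : ℝ)..1, f (Real.cos (2 * Real.pi * (s + t))) =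
      ∫ θ in (0 : ℝ)..1, f (Real.cos (2 * Real.pi * θ)) := by
  have hper : Function.Periodic (fun θ : ℝ => f (Real.cos (2 * Real.pi * θ))) 1 := by
    intro θ
    show f (Real.cos (2 * Real.pi * (θ + 1))) = f (Real.cos (2 * Real.pi * θ))
    rw [mul_add, mul_one, Real.cos_add_two_pi]
  have h1 : ∫ t in (0 : ℝ)..1, f (Real.cos (2 * Real.pi * (s + t))) =
      ∫ θ in (s + 0)..(s + 1), f (Real.cos (2 * Real.pi * θ)) := by
    rw [← intervalIntegral.integral_comp_add_left (fun θ : ℝ => f (Real.cos (2 * Real.pi * θ))) s]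
  rw [h1, add_zero, hper.intervalIntegral_add_eq s 0, zero_add]

theorem rl_cc {F : E n → ℝ → ℝ} (hF : Continuous fun p : E n × ℝ => F p.1 p.2) {C : ℝ}
    (hC : ∀ x, ∀ c ∈ Set.Icc (-1 : ℝ) 1, |F x c| ≤ C) {g : E n → ℝ} (hg : Integrable g)
    (hgc : Continuous g) (hgs : HasCompactSupport g)
    {d : E n} (hd : ‖d‖ = 1) :
    ∀ ε > 0, ∃ lam₀ : ℝ, ∀ lam ≥ lam₀,
      |(∫ x, F x (cs d lam x) * g x) -
        ∫ x, (∫ θ in (0 : ℝ)..1, F x (Real.cos (2 * Real.pi * θ))) * g x| ≤ ε := by
  intro ε hε
  obtain ⟨R, hR⟩ := hgs.isCompact.isBounded.subset_closedBall (0 : E n)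
  have hg0 : ∀ x : E n, x ∉ Metric.closedBall (0 : E n) R → g x = 0 := by
    intro x hx
    by_contra h
    exact hx (hR (subset_tsupport g (Function.mem_support.mpr h)))
  set V : ℝ := (volume (Metric.closedBall (0 : E n) (R + 1))).toReal with hV
  have hV0 : 0 ≤ V := ENNReal.toReal_nonneg
  have hVfin : volume (Metric.closedBall (0 : E n) (R + 1)) < ∞ := measure_closedBall_lt_top
  have hΦ : Continuous fun p : E n × ℝ => F p.1 p.2 * g p.1 := hF.mul (hgc.comp continuous_fst)
  have hK : IsCompact (Metric.closedBall (0 : E n) (R + 2) ×ˢ Set.Icc (-1 : ℝ) 1) :=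
    (isCompact_closedBall _ _).prod isCompact_Icc
  have hU := hK.uniformContinuousOn_of_continuous hΦ.continuousOn
  rw [Metric.uniformContinuousOn_iff] at hU
  obtain ⟨δ, hδ, hδU⟩ := hU (ε / (V + 1)) (by positivity)
  refine ⟨max 1 (2 / δ), fun lam hlam => ?_⟩
  have hlam1 : 1 ≤ lam := le_trans (le_max_left _ _) hlam
  have hlam2 : 2 / δ ≤ lam := le_trans (le_max_right _ _) hlam
  have hlam0 : 0 < lam := by linarith
  have hlamd : 1 / lam < δ := by
    rw [div_lt_iff₀ hlam0]
    rw [div_le_iff₀ hδ] at hlam2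
    nlinarith
  -- integrability on the product
  have hcosI : ∀ y : ℝ, Real.cos y ∈ Set.Icc (-1 : ℝ) 1 := fun y => ⟨Real.neg_one_le_cos y, Real.cos_le_one y⟩
  have hint : Integrable (fun p : ℝ × E n => F p.2 (Real.cos (2 * Real.pi * (lam * ⟪d, p.2⟫_ℝ + p.1))) * g p.2)
      ((volume.restrict (Set.Ioc (0 : ℝ) 1)).prod volume) := by
    have hb : Integrable (fun p : ℝ × E n => C * ‖g p.2‖)
        ((volume.restrict (Set.Ioc (0 : ℝ) 1)).prod volume) :=
      (hg.norm.const_mul C).comp_snd _
    refine hb.mono' ?_ (Filter.Eventually.of_forall fun p => ?_)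
    · refine Continuous.aestronglyMeasurable ?_
      refine Continuous.mul ?_ (hgc.comp continuous_snd)
      refine hF.comp (Continuous.prodMk continuous_snd ?_)
      fun_prop
    · rw [norm_mul]
      exact mul_le_mul_of_nonneg_right (hC _ _ (hcosI _)) (norm_nonneg _)
  set A : ℝ := ∫ x, F x (cs d lam x) * g x with hA
  set B : ℝ → ℝ := fun t => ∫ x, F x (Real.cos (2 * Real.pi * (lam * ⟪d, x⟫_ℝ + t))) * g x with hB
  have hI : ∀ t : ℝ, Integrable (fun x => F x (Real.cos (2 * Real.pi * (lam * ⟪d, x⟫_ℝ + t))) * g x) := by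
    intro t
    refine (hg.norm.const_mul C).mono' ?_ (Filter.Eventually.of_forall fun x => ?_)
    · refine Continuous.aestronglyMeasurable ?_
      refine Continuous.mul ?_ hgc
      refine hF.comp (Continuous.prodMk continuous_id ?_)
      fun_prop
    · rw [norm_mul]
      exact mul_le_mul_of_nonneg_right (hC _ _ (hcosI _)) (norm_nonneg _)
  have hstep : ∀ t ∈ Set.Ioc (0 : ℝ) 1, ‖A - B t‖ ≤ ε := by
    intro t ht
    have hsh : A = ∫ x, F (x + (t / lam) • d) (Real.cos (2 * Real.pi * (lam * ⟪d, x⟫_ℝ + t))) * g (x + (t / lam) • d) := by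
      rw [hA, ← integral_add_right_eq_self _ ((t / lam) • d)]
      refine integral_congr_ae (Filter.Eventually.of_forall fun x => ?_)
      show F (x + (t / lam) • d) (cs d lam (x + (t / lam) • d)) * g (x + (t / lam) • d) = _
      rw [rl_cs_shift hd hlam0.ne']
    have hI2 : Integrable (fun x => F (x + (t / lam) • d) (Real.cos (2 * Real.pi * (lam * ⟪d, x⟫_ℝ + t))) * g (x + (t / lam) • d)) := by
      refine (((hg.norm.comp_add_right ((t / lam) • d))).const_mul C).mono' ?_ (Filter.Eventually.of_forall fun x => ?_)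
      · refine Continuous.aestronglyMeasurable ?_
        refine Continuous.mul ?_ (by fun_prop)
        refine hF.comp (Continuous.prodMk (by fun_prop) ?_)
        fun_prop
      · rw [norm_mul]
        exact mul_le_mul_of_nonneg_right (hC _ _ (hcosI _)) (norm_nonneg _)
    have hnd : ‖(t / lam) • d‖ ≤ 1 / lam := by
      rw [norm_smul, hd, mul_one, Real.norm_of_nonneg (div_nonneg ht.1.le hlam0.le)]
      exact div_le_div_of_nonneg_right ht.2 hlam0.le
    have h1lam : 1 / lam ≤ 1 := by
      rw [div_le_one hlam0]; exact hlam1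
    rw [hsh, hB]
    simp only
    rw [← integral_sub hI2 (hI t)]
    have hpt : ∀ x : E n, ‖F (x + (t / lam) • d) (Real.cos (2 * Real.pi * (lam * ⟪d, x⟫_ℝ + t))) * g (x + (t / lam) • d) -
        F x (Real.cos (2 * Real.pi * (lam * ⟪d, x⟫_ℝ + t))) * g x‖ ≤
        (Metric.closedBall (0 : E n) (R + 1)).indicator (fun _ => ε / (V + 1)) x := by
      intro x
      by_cases hx : x ∈ Metric.closedBall (0 : E n) (R + 1)
      · rw [Set.indicator_of_mem hx]
        have h1 : ((x + (t / lam) • d, Real.cos (2 * Real.pi * (lam * ⟪d, x⟫_ℝ + t))) : E n × ℝ) ∈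
            Metric.closedBall (0 : E n) (R + 2) ×ˢ Set.Icc (-1 : ℝ) 1 := by
          refine ⟨?_, hcosI _⟩
          rw [mem_closedBall_zero_iff] at hx ⊢
          calc ‖x + (t / lam) • d‖ ≤ ‖x‖ + ‖(t / lam) • d‖ := norm_add_le _ _
            _ ≤ R + 2 := by linarith
        have h2 : ((x, Real.cos (2 * Real.pi * (lam * ⟪d, x⟫_ℝ + t))) : E n × ℝ) ∈
            Metric.closedBall (0 : E n) (R + 2) ×ˢ Set.Icc (-1 : ℝ) 1 := by
          refine ⟨?_, hcosI _⟩
          rw [mem_closedBall_zero_iff] at hx ⊢
          linarith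
        have h3 := hδU _ h1 _ h2 (by
          rw [Prod.dist_eq]
          have e1 : dist (x + (t / lam) • d) x = ‖(t / lam) • d‖ := by
            rw [dist_eq_norm, add_sub_cancel_left]
          simp only [dist_self]
          rw [e1, max_eq_left (norm_nonneg _)]
          linarith)
        rw [Real.dist_eq] at h3
        exact h3.le
      · rw [Set.indicator_of_notMem hx]
        have h1 : g x = 0 := by
          apply hg0
          intro h
          apply hx
          rw [mem_closedBall_zero_iff] at h ⊢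
          linarith
        have h2 : g (x + (t / lam) • d) = 0 := by
          apply hg0
          intro h
          apply hx
          rw [mem_closedBall_zero_iff] at h ⊢
          have : ‖x‖ ≤ ‖x + (t / lam) • d‖ + ‖(t / lam) • d‖ := by
            have := norm_sub_le (x + (t / lam) • d) ((t / lam) • d)
            rwa [add_sub_cancel_right] at this
          linarith
        rw [h1, h2]
        simp
    have hindI : Integrable ((Metric.closedBall (0 : E n) (R + 1)).indicator (fun _ => ε / (V + 1))) := by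
      rw [integrable_indicator_iff measurableSet_closedBall]
      exact integrableOn_const hVfin.ne
    calc ‖∫ x, (F (x + (t / lam) • d) (Real.cos (2 * Real.pi * (lam * ⟪d, x⟫_ℝ + t))) * g (x + (t / lam) • d) -
        F x (Real.cos (2 * Real.pi * (lam * ⟪d, x⟫_ℝ + t))) * g x)‖ ≤
        ∫ x, (Metric.closedBall (0 : E n) (R + 1)).indicator (fun _ => ε / (V + 1)) x :=
          norm_integral_le_of_norm_le hindI (Filter.Eventually.of_forall hpt)
      _ = V * (ε / (V + 1)) := by
          rw [integral_indicator measurableSet_closedBall, setIntegral_const, smul_eq_mul, hV]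
          rfl
      _ ≤ ε := by
          rw [mul_div_assoc', div_le_iff₀ (by positivity)]
          nlinarith
  have hBint : IntervalIntegrable B volume 0 1 := by
    rw [intervalIntegrable_iff_integrableOn_Ioc_of_le zero_le_one]
    exact hint.integral_prod_left
  have hswap : ∫ t in (0 : ℝ)..1, B t = ∫ x, (∫ θ in (0 : ℝ)..1, F x (Real.cos (2 * Real.pi * θ))) * g x := by
    rw [intervalIntegral.integral_of_le zero_le_one, hB]
    simp only
    rw [integral_integral_swap hint]
    refine integral_congr_ae (Filter.Eventually.of_forall fun x => ?_)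
    show ∫ t in Set.Ioc (0 : ℝ) 1, F x (Real.cos (2 * Real.pi * (lam * ⟪d, x⟫_ℝ + t))) * g x = _
    rw [← intervalIntegral.integral_of_le zero_le_one, intervalIntegral.integral_mul_const, rl_period]
  have hAB : A - ∫ t in (0 : ℝ)..1, B t = ∫ t in (0 : ℝ)..1, (A - B t) := by
    rw [intervalIntegral.integral_sub intervalIntegrable_const hBint, intervalIntegral.integral_const]
    simp
  rw [← hswap, hAB, ← Real.norm_eq_abs]
  have := intervalIntegral.norm_integral_le_of_norm_le_const (a := (0 : ℝ)) (b := 1) (f := fun t => A - B t) (C := ε) (by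
    intro t ht
    rw [Set.uIoc_of_le zero_le_one] at ht
    exact hstep t ht)
  simpa using this

theorem rl {F : E n → ℝ → ℝ} (hF : Continuous fun p : E n × ℝ => F p.1 p.2) {C : ℝ}
    (hC : ∀ x, ∀ c ∈ Set.Icc (-1 : ℝ) 1, |F x c| ≤ C) {g : E n → ℝ} (hg : Integrable g)
    {d : E n} (hd : ‖d‖ = 1) :
    ∀ ε > 0, ∃ lam₀ : ℝ, ∀ lam ≥ lam₀,
      |(∫ x, F x (cs d lam x) * g x) -
        ∫ x, (∫ θ in (0 : ℝ)..1, F x (Real.cos (2 * Real.pi * θ))) * g x| ≤ ε := by
  intro ε hε
  have hC0 : 0 ≤ C := le_trans (abs_nonneg _) (hC 0 0 (by constructor <;> norm_num))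
  have hcosI : ∀ y : ℝ, Real.cos y ∈ Set.Icc (-1 : ℝ) 1 := fun y => ⟨Real.neg_one_le_cos y, Real.cos_le_one y⟩
  obtain ⟨g', hg's, hg'e, hg'c, hg'i⟩ :=
    hg.exists_hasCompactSupport_integral_sub_le (ε := ε / (3 * (C + 1))) (by positivity)
  obtain ⟨lam₀, hlam₀⟩ := rl_cc hF hC hg'i hg'c hg's hd (ε / 3) (by positivity)
  refine ⟨lam₀, fun lam hlam => ?_⟩
  have h1 := hlam₀ lam hlam
  -- general comparison
  have key : ∀ f : E n → ℝ, Continuous f → (∀ x, ‖f x‖ ≤ C) →
      |(∫ x, f x * g x) - ∫ x, f x * g' x| ≤ ε / 3 := by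
    intro f hf hfC
    have i1 : Integrable (fun x => f x * g x) := hg.bdd_mul hf.aestronglyMeasurable (Filter.Eventually.of_forall hfC)
    have i2 : Integrable (fun x => f x * g' x) := hg'i.bdd_mul hf.aestronglyMeasurable (Filter.Eventually.of_forall hfC)
    rw [← integral_sub i1 i2, ← Real.norm_eq_abs]
    have i3 : Integrable (fun x => C * ‖g x - g' x‖) := (hg.sub hg'i).norm.const_mul C
    calc ‖∫ x, (f x * g x - f x * g' x)‖ ≤ ∫ x, C * ‖g x - g' x‖ := by
          refine norm_integral_le_of_norm_le i3 (Filter.Eventually.of_forall fun x => ?_)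
          rw [← mul_sub, norm_mul]
          exact mul_le_mul_of_nonneg_right (hfC x) (norm_nonneg _)
      _ = C * ∫ x, ‖g x - g' x‖ := integral_const_mul _ _
      _ ≤ C * (ε / (3 * (C + 1))) := mul_le_mul_of_nonneg_left hg'e hC0
      _ ≤ ε / 3 := by
          rw [mul_div_assoc', div_le_div_iff₀ (by positivity) (by positivity)]
          nlinarith
  have hcs0 : Continuous fun x : E n => cs d lam x := by
    unfold cs
    fun_prop
  have hcs : Continuous fun x : E n => F x (cs d lam x) :=
    hF.comp (Continuous.prodMk continuous_id hcs0)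
  have h2 := key (fun x => F x (cs d lam x)) hcs (fun x => hC _ _ (hcosI _))
  have hmean : Continuous fun x : E n => ∫ θ in (0 : ℝ)..1, F x (Real.cos (2 * Real.pi * θ)) := by
    refine intervalIntegral.continuous_parametric_intervalIntegral_of_continuous' ?_ 0 1
    have e0 : Continuous fun p : E n × ℝ => Real.cos (2 * Real.pi * p.2) := by fun_prop
    exact hF.comp (Continuous.prodMk continuous_fst e0)
  have h3 := key (fun x => ∫ θ in (0 : ℝ)..1, F x (Real.cos (2 * Real.pi * θ))) hmean (fun x => by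
    have := intervalIntegral.norm_integral_le_of_norm_le_const (a := (0 : ℝ)) (b := 1)
      (f := fun θ => F x (Real.cos (2 * Real.pi * θ))) (C := C) (fun θ _ => hC _ _ (hcosI _))
    simpa using this)
  rw [abs_le] at h1 h2 h3 ⊢
  constructor <;> linarith [h1.1, h1.2, h2.1, h2.2, h3.1, h3.2]

end Pool.Agent.helper12.RT
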