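import Pool.Agent.helper12.RT.Rot

/-!
# RT-BridgeB: from `NormLe` for the rotated measures to `Bd`

Notation: `s' = s ∘ Φ.symm`, `w' = w ∘ Φ.symm`, `U` from `rot`.
PROOF.
* `bd_of_normLe`: for `u ∈ H n` let `f = u` and `f' = U u`: `f' ∈ L²(dens s')`, and `f' (dens s') = (Mr s' f') dx = U (Mr s u) dx`
  (integrals over bounded Borel sets, `withDensity`), `Tr m (U (Mr s u)) = U (Tr (m ∘ Φ) (Mr s u))`; with `dens_eLpNorm` and `Q s' (U u) = Q s u`,
  `Q w' (U v) = Q w v` (change of variables) the inequality `NormLe` is `√(Q w (Tr (m ∘ Φ) (Mr s u))) ≤ K √(Q s u)`.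
-/

set_option autoImplicit false

open MeasureTheory FourierTransform
open scoped ENNReal InnerProductSpace ComplexConjugate

namespace Pool.Agent.helper12.RT

variable {n : ℕ}

theorem BridgeB_Q (Φ : E n ≃ₗᵢ[ℝ] E n) (w : E n → ℝ) (z U : H n)
    (hU : (U : E n → ℂ) =ᵐ[volume] fun x => z (Φ.symm x)) :
    Q (fun x => w (Φ.symm x)) U = Q w z := by
  unfold Q
  have h1 : ∫ x, w (Φ.symm x) * ‖U x‖ ^ 2 = ∫ x, (fun y => w y * ‖z y‖ ^ 2) (Φ.symm x) := by
    apply integral_congr_ae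
    filter_upwards [hU] with x hx
    rw [hx]
  rw [h1]
  exact MeasurePreserving.integral_comp Φ.symm.measurePreserving
    Φ.symm.toHomeomorph.measurableEmbedding (fun y => w y * ‖z y‖ ^ 2)

theorem BridgeB_pos {s : E n → ℝ} (hs : Weight s) (x : E n) : 0 ≤ s x := by
  obtain ⟨c, C, hc, h⟩ := hs.bdd
  exact hc.le.trans (h x).1

theorem bd_of_normLe {m s w : E n → ℝ} (hm : BMr m) (hs : Weight s) (hw : Weight w)
    (Φ : E n ≃ₗᵢ[ℝ] E n) {K : ℝ} (hK : 0 ≤ K)
    (h : NormLe (Tr m) ((dens s).map Φ) ((dens w).map Φ) K) :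
    Bd (fun ξ => m (Φ ξ)) s w (K ^ 2) := by
  obtain ⟨U, hU, hUT⟩ := rot Φ
  rw [dens_map hs, dens_map hw] at h
  intro u
  have hs' : Weight fun x => s (Φ.symm x) := weight_comp hs Φ
  have hw' : Weight fun x => w (Φ.symm x) := weight_comp hw Φ
  -- `f' = U u` is in `L²`
  have hf : MemLp (U u : E n → ℂ) 2 (dens fun x => s (Φ.symm x)) := by
    refine ⟨?_, ?_⟩
    · exact (Lp.aestronglyMeasurable (U u)).mono_ac (withDensity_absolutelyContinuous _ _)
    · rw [dens_eLpNorm hs']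
      exact ENNReal.ofReal_lt_top
  -- `Mr s' (U u) = U (Mr s u)`
  have hcomm : Mr (fun x => s (Φ.symm x)) (U u) = U (Mr s u) := by
    apply Lp.ext
    have h1 : (Mr (fun x => s (Φ.symm x)) (U u) : E n → ℂ) =ᵐ[volume]
        fun x => ((s (Φ.symm x) : ℝ) : ℂ) * (U u : H n) x := M_apply hs'.bmr.bm (U u)
    have h2 : (Mr s u : E n → ℂ) =ᵐ[volume] fun x => ((s x : ℝ) : ℂ) * u x := M_apply hs.bmr.bm u
    have h3 : ∀ᵐ x ∂(volume : Measure (E n)), (Mr s u : H n) (Φ.symm x)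
        = ((s (Φ.symm x) : ℝ) : ℂ) * u (Φ.symm x) :=
      Φ.symm.measurePreserving.quasiMeasurePreserving.ae
        (p := fun y => (Mr s u : H n) y = ((s y : ℝ) : ℂ) * u y) h2
    filter_upwards [h1, h3, hU u, hU (Mr s u)] with x k1 k2 k3 k4
    rw [k1, k4, k2, k3]
  have hint : ∀ B : Set (E n), MeasurableSet B → Bornology.IsBounded B →
      ∫ x in B, (U u : H n) x ∂(dens fun x => s (Φ.symm x))
        = ∫ x in B, (Mr (fun x => s (Φ.symm x)) (U u) : H n) x := by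
    intro B hB _
    unfold dens
    rw [setIntegral_withDensity_eq_setIntegral_toReal_smul
      (hs'.bmr.1.ennreal_ofReal) (Filter.Eventually.of_forall fun x => ENNReal.ofReal_lt_top)
      _ hB]
    apply setIntegral_congr_ae hB
    have h1 : (Mr (fun x => s (Φ.symm x)) (U u) : E n → ℂ) =ᵐ[volume]
        fun x => ((s (Φ.symm x) : ℝ) : ℂ) * (U u : H n) x := M_apply hs'.bmr.bm (U u)
    filter_upwards [h1] with x k1 _
    rw [k1, ENNReal.toReal_ofReal (BridgeB_pos hs _), Complex.real_smul]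
  have hmain := h (U u) hf (Mr (fun x => s (Φ.symm x)) (U u)) hint
  rw [hcomm, hUT m hm, dens_eLpNorm hw', dens_eLpNorm hs',
    BridgeB_Q Φ w (Tr (fun ξ => m (Φ ξ)) (Mr s u)) _ (hU _), BridgeB_Q Φ s u _ (hU _),
    ← ENNReal.ofReal_mul hK, ENNReal.ofReal_le_ofReal_iff (by positivity)] at hmain
  have h1 : 0 ≤ Q w (Tr (fun ξ => m (Φ ξ)) (Mr s u)) := Q_nonneg (BridgeB_pos hw) _
  have h2 : 0 ≤ Q s u := Q_nonneg (BridgeB_pos hs) _
  calc Q w (Tr (fun ξ => m (Φ ξ)) (Mr s u))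
      = √(Q w (Tr (fun ξ => m (Φ ξ)) (Mr s u))) ^ 2 := (Real.sq_sqrt h1).symm
    _ ≤ (K * √(Q s u)) ^ 2 := by
        apply pow_le_pow_left₀ (Real.sqrt_nonneg _) hmain
    _ = K ^ 2 * Q s u := by rw [mul_pow, Real.sq_sqrt h2]

end Pool.Agent.helper12.RT
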