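import Pool.Agent.helper12.RT.StageEO

/-!
# RT-Build: iteration of the stages

proofs: helper51

PROOF of `build`.  `State` for `(1, 1, 0)` with `D = 2 ^ (n + 3)` (`doub_one`, monotonicity in `D`), `B = 5` (`‖Tr m u‖ ≤ ‖u‖`, `Mr_const`), `δ = L r`
(`lower0`).  Let `η = ε / (2 J + 1)`.  By induction on `k ≤ J`: there are `s, w, y` with
`State ... (D + 2 k η) (B + 2 k η) (δ + 2 k η)`, `w ≤ 4 ^ k`, `∫ Rk (J - k) (s, w, y) ‖φ‖² ≥ J / 100 - 2 k η` and `∫ s ‖φ‖² ≤ 1 + 2 k η`: for `k = 0`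
the integral is `Rk J 1 1 0 * ‖φ‖² = Rk J 1 1 0` (`tower`), and the step from `k` to `k + 1` is `stageO` with `G = avE (Rk (J - k - 1))` followed by `stageE` with
`G = Rk (J - k - 1)` (`Rk (j + 1) = avO (avE (Rk j))` by definition).
-/

set_option autoImplicit false

open MeasureTheory FourierTransform
open scoped ENNReal InnerProductSpace ComplexConjugate

namespace Pool.Agent.helper12.RT

variable {n : ℕ}

private theorem Build_base {L : ℝ} (hL : 0 ≤ L) {m mr : E n → ℝ} (hm : Sym L m)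
    (hmr : Sym L mr) {φ : H n}
    (hφ1 : ‖φ‖ = 1) {d₁ : E n} (hd₁ : ‖d₁‖ = 1) (κ : ℝ)
    {r : ℝ} (hr : 0 ≤ r) (hφ : Supp (Metric.closedBall d₁ r) φ) (J : ℕ)
    {η : ℝ} (hη : 0 < η) :
    State m mr φ d₁ κ (2 ^ (n + 3) + η) (5 + η) (L * r + η)
      (fun _ => 1) (fun _ => 1) (fun _ => 0) ∧
      (∀ _ : E n, (1 : ℝ) ≤ 4 ^ 0) ∧
      (J : ℝ) / 100 - η ≤ ∫ x, Rk J 1 1 0 * ‖φ x‖ ^ 2 ∧
      ∫ x, (1 : ℝ) * ‖φ x‖ ^ 2 ≤ 1 + η := by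
  have hQ1 : ∫ x, (1 : ℝ) * ‖φ x‖ ^ 2 = 1 := by
    have h := Q_one φ
    rw [Q, hφ1, one_pow] at h
    exact h
  have hD1 : DoublingLe (dens fun _ : E n => (1 : ℝ)) (2 ^ (n + 3) + η) := by
    intro x ρ hρ
    refine (doub_one x ρ hρ).trans ?_
    gcongr
    have h1 : (2 : ℝ) ^ n ≤ 2 ^ (n + 3) := pow_le_pow_right₀ (by norm_num) (by omega)
    linarith
  refine ⟨⟨⟨0, TPr.const le_rfl 1, TPr.const le_rfl 1, TPr.const le_rfl 0⟩,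
    ⟨1, one_pos, fun _ => ⟨le_rfl, le_rfl⟩⟩, fun _ => by norm_num, hD1, hD1, ?_, ?_⟩,
    fun _ => by norm_num, ?_, ?_⟩
  · intro u
    rw [Q_one, Q_one, Mr_const, Complex.ofReal_one, one_smul]
    have h1 : ‖Tr m u‖ ≤ 1 * ‖u‖ :=
      Tr_norm_le ⟨hm.meas, 1, hm.bdd⟩ hm.bdd u
    rw [one_mul] at h1
    have h2 : ‖Tr m u‖ ^ 2 ≤ ‖u‖ ^ 2 := pow_le_pow_left₀ (norm_nonneg _) h1 2
    have h3 : 0 ≤ ‖u‖ ^ 2 := by positivity
    nlinarith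
  · rw [Mr_const, Mr_const, Complex.ofReal_one, one_smul, Complex.ofReal_zero, zero_smul,
      smul_zero, add_zero]
    have h1 := lower0 hmr hd₁ hr hL hφ1 hφ
    linarith
  · have h1 : ∫ x, Rk J 1 1 0 * ‖φ x‖ ^ 2 = Rk J 1 1 0 := by
      have h2 : ∫ x, Rk J 1 1 0 * ‖φ x‖ ^ 2 = Rk J 1 1 0 * ∫ x, ‖φ x‖ ^ 2 :=
        integral_const_mul _ _
      have h3 : ∫ x, ‖φ x‖ ^ 2 = 1 := by
        rw [← hQ1]
        simp only [one_mul]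
      rw [h2, h3, mul_one]
    rw [h1]
    have h4 := tower J
    linarith
  · rw [hQ1]
    linarith

private theorem Build_aux {L : ℝ} (hL : 0 ≤ L) {m mr : E n → ℝ} (hm : Sym L m)
    (hmr : Sym L mr) {φ : H n}
    (hφ1 : ‖φ‖ = 1) {d₁ d₂ : E n} (hd₁ : ‖d₁‖ = 1) (hd₂ : ‖d₂‖ = 1) (hm₁ : m d₁ = 0)
    (hm₂ : m d₂ = 0) {r : ℝ} (hr : 0 ≤ r) (hφ : Supp (Metric.closedBall d₁ r) φ) (J : ℕ)
    {η : ℝ} (hη : 0 < η) : ∀ k j : ℕ, k + j = J →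
    ∃ s w y : E n → ℝ,
      State m mr φ d₁ (mr d₂ - mr d₁) (2 ^ (n + 3) + (2 * k + 1) * η) (5 + (2 * k + 1) * η)
        (L * r + (2 * k + 1) * η) s w y ∧
      (∀ x, w x ≤ 4 ^ k) ∧
      (J : ℝ) / 100 - (2 * k + 1) * η ≤ ∫ x, Rk j (s x) (w x) (y x) * ‖φ x‖ ^ 2 ∧
      ∫ x, s x * ‖φ x‖ ^ 2 ≤ 1 + (2 * k + 1) * η := by
  intro k
  induction k with
  | zero =>
    intro j hj
    have hjJ : j = J := by omega
    subst hjJ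
    have h := Build_base hL hm hmr hφ1 hd₁ (mr d₂ - mr d₁) hr hφ j hη
    have e : ((2 : ℝ) * ((0 : ℕ) : ℝ) + 1) * η = η := by push_cast; ring
    rw [e]
    exact ⟨fun _ => 1, fun _ => 1, fun _ => 0, h.1, h.2.1, h.2.2.1, h.2.2.2⟩
  | succ k ih =>
    intro j hj
    obtain ⟨s, w, y, hS, hw, hR, hs⟩ := ih (j + 1) (by omega)
    have hpos : 0 ≤ (2 * (k : ℝ) + 1) * η := by positivity
    obtain ⟨s1, w1, y1, hS1, hw1, hR1, hs1⟩ := stageO hL hm hmr hd₁ hr hφ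
      (by linarith) (by linarith) hS hm₁ (cont_avE (cont_Rk j)) hη
    obtain ⟨s2, w2, y2, hS2, hw2, hR2, hs2⟩ := stageE hL hm hmr hd₁ hr hφ
      (by linarith) (by linarith) hS1 hd₂ hm₂ rfl (cont_Rk j) hη
    have e : ((2 : ℝ) * ((k + 1 : ℕ) : ℝ) + 1) * η = (2 * k + 1) * η + η + η := by
      push_cast; ring
    have hRk : ∀ x, Rk (j + 1) (s x) (w x) (y x) = avO (avE (Rk j)) (s x) (w x) (y x) :=
      fun _ => rfl
    simp only [hRk] at hR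
    rw [abs_le] at hR1 hR2 hs1 hs2
    rw [e]
    refine ⟨s2, w2, y2, ?_, ?_, ?_, ?_⟩
    · have h1 := hS2
      rw [add_assoc (2 ^ (n + 3) : ℝ), add_assoc (5 : ℝ), add_assoc (L * r),
        add_assoc (2 ^ (n + 3) : ℝ), add_assoc (5 : ℝ), add_assoc (L * r)] at h1
      exact h1
    · intro x
      have h1 := hw2 x
      have h2 := hw1 x
      have h3 := hw x
      have h4 : (4 : ℝ) ^ (k + 1) = 4 * 4 ^ k := by ring
      rw [h4]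
      linarith
    · linarith [hR1.1, hR2.1]
    · linarith [hs1.2, hs2.2]

theorem build {L : ℝ} (hL : 0 ≤ L) {m mr : E n → ℝ} (hm : Sym L m) (hmr : Sym L mr) {φ : H n}
    (hφ1 : ‖φ‖ = 1) {d₁ d₂ : E n} (hd₁ : ‖d₁‖ = 1) (hd₂ : ‖d₂‖ = 1) (hm₁ : m d₁ = 0)
    (hm₂ : m d₂ = 0) {r : ℝ} (hr : 0 ≤ r) (hφ : Supp (Metric.closedBall d₁ r) φ) (J : ℕ)
    {ε : ℝ} (hε : 0 < ε) :
    ∃ s w y : E n → ℝ,
      State m mr φ d₁ (mr d₂ - mr d₁) (2 ^ (n + 3) + ε) (5 + ε) (L * r + ε) s w y ∧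
      (∀ x, w x ≤ 4 ^ J) ∧ (J : ℝ) / 100 - ε ≤ ∫ x, (w x * y x ^ 2) * ‖φ x‖ ^ 2 ∧
      ∫ x, s x * ‖φ x‖ ^ 2 ≤ 1 + ε := by
  have hη : 0 < ε / (2 * J + 1) := by positivity
  have e : (2 * (J : ℝ) + 1) * (ε / (2 * J + 1)) = ε := by
    have : (2 * (J : ℝ) + 1) ≠ 0 := by positivity
    field_simp
  have h := Build_aux hL hm hmr hφ1 hd₁ hd₂ hm₁ hm₂ hr hφ J hη J 0 (by omega)
  rw [e] at h
  exact h

end Pool.Agent.helper12.RT
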