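import Mathlib

/-!
# RT: two-weight norms of even order Riesz transforms are not rotationally stable (MP_34c9e6_an)

RESULT.  Let `n ≥ 2` and let `R = R_1^(β 1) ... R_n^(β n)` be an iterated Riesz transform of even order `|β| > 0`.
There are a rotation `Φ` and a constant `C` such that for every `K` there are doubling measures `σ = s dx`, `ω = w dx`
with doubling constants at most `C`, `N_R(σ, ω) ≤ C` and `N_R(Φ_* σ, Φ_* ω) > K`.  So `N_R` is unstable under rotations (and
under biLipschitz maps) on the class of doubling measures, for every `n ≥ 2`.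

IDEA.  `s` and `w` are finite products `∏ (1 + a_k(x) cos (2 π λ_k ⟨d_k, x⟩))` with very lacunary `λ_1 ≪ λ_2 ≪ ...`, and the
directions `d_k` alternate between two unit vectors `d₁`, `d₂`.  An operator `T` with a symbol `m`, homogeneous of degree 0
and even, multiplies the `k`-th term of `s = ∑ (s_k - s_(k-1))` by (nearly) `m(d_k)`.  If `m(d₁) = m(d₂) = c`, then `T - c` kills all
these terms and it is bounded from `L²(σ)` to `L²(ω)` by a constant depending only on `sup s w` (`Step`, a homogenisation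
lemma, one frequency at a time).  After a rotation `m(d₁) ≠ m(d₂)`, and `T` acts as a martingale transform
which is unbounded for a suitable choice of the amplitudes `a_k` (`Tower`).
All functions `s, w, a_k` are trigonometric polynomials (`TP`), all operators are Fourier multipliers `T m` and
multiplication operators `M p` on `L²(ℝⁿ)`.
-/

set_option autoImplicit false

open MeasureTheory FourierTransform
open scoped ENNReal InnerProductSpace

namespace Pool.Agent.helper12.RT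

/-- Euclidean space -/
abbrev E (n : ℕ) := EuclideanSpace ℝ (Fin n)

/-- `L²(ℝⁿ)` -/
noncomputable abbrev H (n : ℕ) := Lp ℂ 2 (volume : Measure (E n))

variable {n : ℕ}

/-- bounded Borel functions -/
def BM (p : E n → ℂ) : Prop := Measurable p ∧ ∃ C : ℝ, ∀ x, ‖p x‖ ≤ C

theorem BM.memLp {p : E n → ℂ} (hp : BM p) : MemLp p ∞ (volume : Measure (E n)) := by
  obtain ⟨h1, C, hC⟩ := hp
  exact memLp_top_of_bound h1.aestronglyMeasurable C (Filter.Eventually.of_forall hC)

theorem BM.exists_op {p : E n → ℂ} (hp : BM p) :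
    ∃ L : H n →L[ℂ] H n, ∀ u : H n, (L u : E n → ℂ) =ᵐ[volume] fun x => p x * u x := by
  let P : Lp ℂ ∞ (volume : Measure (E n)) := hp.memLp.toLp p
  let B : ℂ →L[ℂ] ℂ →L[ℂ] ℂ := ContinuousLinearMap.mul ℂ ℂ
  let L : H n →L[ℂ] H n := (B.holderL (volume : Measure (E n)) ∞ 2 2 P)
  refine ⟨L, fun u => ?_⟩
  have h1 : (L u : E n → ℂ) =ᵐ[volume] fun x => B (P x) (u x) := B.coeFn_holder P u
  have h2 : (P : E n → ℂ) =ᵐ[volume] p := hp.memLp.coeFn_toLp
  filter_upwards [h1, h2] with x hx1 hx2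
  rw [hx1, hx2]
  rfl

open Classical in
/-- multiplication by the bounded Borel function `p` -/
noncomputable def M (p : E n → ℂ) : H n →L[ℂ] H n :=
  if hp : BM p then hp.exists_op.choose else 0

theorem M_apply {p : E n → ℂ} (hp : BM p) (u : H n) :
    (M p u : E n → ℂ) =ᵐ[volume] fun x => p x * u x := by
  rw [M, dif_pos hp]
  exact hp.exists_op.choose_spec u

/-- bounded real Borel functions -/
def BMr (p : E n → ℝ) : Prop := Measurable p ∧ ∃ C : ℝ, ∀ x, |p x| ≤ C

theorem BMr.bm {p : E n → ℝ} (hp : BMr p) : BM fun x => (p x : ℂ) := by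
  obtain ⟨h1, C, hC⟩ := hp
  refine ⟨Complex.measurable_ofReal.comp h1, C, fun x => ?_⟩
  rw [Complex.norm_real]
  exact hC x

/-- multiplication by a real function -/
noncomputable def Mr (p : E n → ℝ) : H n →L[ℂ] H n := M fun x => (p x : ℂ)

/-- the Fourier multiplier with symbol `m` -/
noncomputable def T (m : E n → ℂ) : H n →L[ℂ] H n :=
  ((Lp.fourierTransformₗᵢ (E n) ℂ).symm.toContinuousLinearEquiv : H n →L[ℂ] H n) ∘L M m ∘L
    ((Lp.fourierTransformₗᵢ (E n) ℂ).toContinuousLinearEquiv : H n →L[ℂ] H n)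

theorem T_apply (m : E n → ℂ) (u : H n) : T m u = 𝓕⁻ (M m (𝓕 u)) := rfl

/-- the Fourier multiplier with a real symbol -/
noncomputable def Tr (m : E n → ℝ) : H n →L[ℂ] H n := T fun ξ => (m ξ : ℂ)

/-- the quadratic form `∫ p |u|²` -/
noncomputable def Q (p : E n → ℝ) (u : H n) : ℝ := ∫ x, p x * ‖u x‖ ^ 2

/-- `T m : L²(s dx) → L²(w dx)`, `f ↦ T m (f s)`, has norm at most `√N` -/
def Bd (m : E n → ℝ) (s w : E n → ℝ) (N : ℝ) : Prop :=
  ∀ u : H n, Q w (Tr m (Mr s u)) ≤ N * Q s u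

/-! ### Trigonometric polynomials -/

/-- the character `exp (2 π i ⟨ν, x⟩)` -/
noncomputable def e (ν x : E n) : ℂ := Complex.exp (2 * Real.pi * (⟪ν, x⟫_ℝ : ℝ) * Complex.I)

/-- trigonometric polynomials with frequencies of norm at most `K` -/
def TP (K : ℝ) (p : E n → ℂ) : Prop :=
  ∃ (F : Finset (E n)) (c : E n → ℂ), (∀ ν ∈ F, ‖ν‖ ≤ K) ∧ ∀ x, p x = ∑ ν ∈ F, c ν * e ν x

/-- real trigonometric polynomials -/
def TPr (K : ℝ) (p : E n → ℝ) : Prop := TP K fun x => (p x : ℂ)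

/-- the cosine with frequency `lam` in the direction `d` -/
noncomputable def cs (d : E n) (lam : ℝ) (x : E n) : ℝ := Real.cos (2 * Real.pi * lam * ⟪d, x⟫_ℝ)

/-- `u` has frequencies in `A` only -/
def Supp (A : Set (E n)) (u : H n) : Prop :=
  ∀ᵐ ξ ∂(volume : Measure (E n)), ξ ∉ A → (𝓕 u : H n) ξ = 0

/-- the `ρ`-neighbourhood of the multiples of `lam • d` -/
def Zn (d : E n) (lam ρ : ℝ) : Set (E n) := {ξ | ∃ k : ℤ, ‖ξ - ((k : ℝ) * lam) • d‖ ≤ ρ}

/-- the symbols: bounded by 1, even, homogeneous of degree 0, Lipschitz on the sphere -/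
structure Sym (L : ℝ) (m : E n → ℝ) : Prop where
  meas : Measurable m
  bdd : ∀ ξ, |m ξ| ≤ 1
  homog : ∀ (t : ℝ) (ξ : E n), t ≠ 0 → m (t • ξ) = m ξ
  lip : ∀ ξ ζ : E n, ξ ≠ 0 → |m ξ - m ζ| ≤ L * (‖ξ - ζ‖ / ‖ξ‖)

/-! ### Measures -/

/-- the measure `s dx` -/
noncomputable def dens (s : E n → ℝ) : Measure (E n) :=
  (volume : Measure (E n)).withDensity fun x => ENNReal.ofReal (s x)

/-- the cube with centre `x` and side `2 r` -/
def cube (x : E n) (r : ℝ) : Set (E n) := {y | ∀ i, |y i - x i| ≤ r}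

/-- `σ(2Q) ≤ C σ(Q)` for all cubes `Q` -/
def DoublingLe (σ : Measure (E n)) (C : ℝ) : Prop :=
  ∀ (x : E n) (r : ℝ), 0 < r → σ (cube x (2 * r)) ≤ ENNReal.ofReal C * σ (cube x r)

/-- `N_T(σ, ω) ≤ N`: if `f ∈ L²(σ)` and `f σ = u dx` with `u ∈ L²(dx)`, then `‖T u‖_(L²(ω)) ≤ N ‖f‖_(L²(σ))` -/
def NormLe (A : H n →L[ℂ] H n) (σ ω : Measure (E n)) (N : ℝ) : Prop :=
  ∀ f : E n → ℂ, MemLp f 2 σ → ∀ u : H n,
    (∀ B : Set (E n), MeasurableSet B → Bornology.IsBounded B →
      ∫ x in B, f x ∂σ = ∫ x in B, u x) →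
    eLpNorm (A u) 2 ω ≤ ENNReal.ofReal N * eLpNorm f 2 σ

/-- smooth densities which are bounded and bounded below by a positive constant -/
structure Weight (s : E n → ℝ) : Prop where
  smooth : ContDiff ℝ ⊤ s
  bdd : ∃ c C : ℝ, 0 < c ∧ ∀ x, c ≤ s x ∧ s x ≤ C

/-- the symbol of the iterated Riesz transform `R_1^(β 1) ... R_n^(β n)` -/
noncomputable def rieszSymbol (β : Fin n → ℕ) (ξ : E n) : ℂ :=
  ∏ j, (Complex.I * (ξ j : ℂ) / (‖ξ‖ : ℂ)) ^ β j

/-- the iterated Riesz transform -/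
noncomputable def riesz (β : Fin n → ℕ) : H n →L[ℂ] H n := T (rieszSymbol β)

end Pool.Agent.helper12.RT
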