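import Pool.Agent.helper12.RT.Defs

/-!
# RT-Dirs: the choice of the directions and of the rotation

PROOF.  `m p ≠ m q` for unit vectors `p, q`, and `m (- ξ) = m ξ` (`Sym.homog` with `t = -1`), so `p, q` are linearly independent.  Let `f₁ = p`, `f₂` a unit
vector orthogonal to `p` in the span of `p, q` (`f₂ = (q - ⟪p, q⟫ p) / ‖..‖`), `γ t = cos t • f₁ + sin t • f₂` (unit vectors),
`q = γ φ` for some `φ`, `h t = m (γ t)`: continuous (`Sym.lip`), `h (t + π) = h t`.  `h 0 ≠ h φ`.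
There is `t₀` with `h t₀ = h (t₀ + φ)`: the continuous function `t ↦ h (t + φ) - h t` has integral `0` over `[0, π]` (periodicity), so it takes
values `≤ 0` and `≥ 0`, intermediate value theorem.  (Or: it attains a maximum of `h` at some `t`; `h (t + φ) - h t ≤ 0` there, and
`h (t' + φ) - h t' ≥ 0` at `t' = t - φ`.)  `d₁ = γ t₀`, `d₂ = γ (t₀ + φ)`.
Rotation `Φ` with `Φ (γ t) = γ (t - t₀)` for all `t`: the composition of the two reflections in the hyperplanes orthogonal to unit vectors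
`a = γ (α)` and `b = γ (β)`: the reflection in `(ℝ ∙ a)ᗮ` maps `v` to `v - 2 ⟪a, v⟫ a`, and `γ t` to `- γ (2 α - t)`; so first `a`, then `b`: `γ t` is mapped
to `γ (2 β - 2 α + t)`; take `α = t₀ / 2`, `β = 0`.  Determinant: `(-1) * (-1) = 1` (`Submodule.det_reflection` or
`LinearEquiv.det`, `finrank (ℝ ∙ a) = 1`, `Submodule.orthogonal_orthogonal`).  Then `m (Φ d₁) = h 0 ≠ h φ = m (Φ d₂)`.
-/

set_option autoImplicit false

open MeasureTheory FourierTransform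
open scoped ENNReal InnerProductSpace ComplexConjugate

namespace Pool.Agent.helper12.RT

variable {n : ℕ}

/-- A circle. -/
noncomputable def Dirs_g (f₁ f₂ : E n) (t : ℝ) : E n := Real.cos t • f₁ + Real.sin t • f₂

theorem Dirs_inner {f₁ f₂ : E n} (h1 : ‖f₁‖ = 1) (h2 : ‖f₂‖ = 1) (h12 : ⟪f₁, f₂⟫_ℝ = 0) (s t : ℝ) :
    ⟪Dirs_g f₁ f₂ s, Dirs_g f₁ f₂ t⟫_ℝ = Real.cos (s - t) := by
  have h21 : ⟪f₂, f₁⟫_ℝ = 0 := by rw [real_inner_comm, h12]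
  have h11 : ⟪f₁, f₁⟫_ℝ = 1 := by rw [real_inner_self_eq_norm_sq, h1]; norm_num
  have h22 : ⟪f₂, f₂⟫_ℝ = 1 := by rw [real_inner_self_eq_norm_sq, h2]; norm_num
  unfold Dirs_g
  simp only [inner_add_left, inner_add_right, real_inner_smul_left, real_inner_smul_right, h12,
    h21, h11, h22, Real.cos_sub]
  ring

theorem Dirs_norm {f₁ f₂ : E n} (h1 : ‖f₁‖ = 1) (h2 : ‖f₂‖ = 1) (h12 : ⟪f₁, f₂⟫_ℝ = 0) (t : ℝ) :
    ‖Dirs_g f₁ f₂ t‖ = 1 := by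
  have h := Dirs_inner h1 h2 h12 t t
  rw [real_inner_self_eq_norm_sq, sub_self, Real.cos_zero] at h
  have h0 := norm_nonneg (Dirs_g f₁ f₂ t)
  nlinarith

theorem Dirs_cont (f₁ f₂ : E n) : Continuous (Dirs_g f₁ f₂) := by
  unfold Dirs_g
  fun_prop

theorem Dirs_refl {f₁ f₂ : E n} (h1 : ‖f₁‖ = 1) (h2 : ‖f₂‖ = 1) (h12 : ⟪f₁, f₂⟫_ℝ = 0) (a t : ℝ) :
    (ℝ ∙ Dirs_g f₁ f₂ a).reflection (Dirs_g f₁ f₂ t) = Dirs_g f₁ f₂ (2 * a - t) := by
  have e1 : 2 * Real.cos (a - t) * Real.cos a - Real.cos t = Real.cos (2 * a - t) := by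
    have h3 : Real.cos (2 * a - t) = Real.cos (a + (a - t)) := by congr 1; ring
    have h4 : Real.cos t = Real.cos (a - (a - t)) := by congr 1; ring
    rw [h3, h4, Real.cos_add, Real.cos_sub a (a - t)]
    ring
  have e2 : 2 * Real.cos (a - t) * Real.sin a - Real.sin t = Real.sin (2 * a - t) := by
    have h3 : Real.sin (2 * a - t) = Real.sin (a + (a - t)) := by congr 1; ring
    have h4 : Real.sin t = Real.sin (a - (a - t)) := by congr 1; ring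
    rw [h3, h4, Real.sin_add, Real.sin_sub a (a - t)]
    ring
  rw [Submodule.reflection_singleton_apply, Dirs_inner h1 h2 h12, Dirs_norm h1 h2 h12]
  unfold Dirs_g
  rw [← e1, ← e2]
  simp only [RCLike.ofReal_real_eq_id, id_eq, one_pow, div_one]
  module

theorem Dirs_det {a : E n} (ha : a ≠ 0) :
    LinearMap.det (((ℝ ∙ a).reflection).toLinearEquiv : E n →ₗ[ℝ] E n) = (-1) ^ (n - 1) := by
  have h1 : LinearMap.det (((ℝ ∙ a).reflection).toLinearEquiv : E n →ₗ[ℝ] E n) =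
      (-1) ^ (Module.finrank ℝ (ℝ ∙ a)ᗮ) := Submodule.det_reflection _
  have h2 := Submodule.finrank_add_finrank_orthogonal (ℝ ∙ a)
  rw [finrank_span_singleton ha, finrank_euclideanSpace_fin] at h2
  rw [h1]
  congr 1
  omega

/-- The rotation of the circle by `- t₀`. -/
theorem Dirs_rot {f₁ f₂ : E n} (h1 : ‖f₁‖ = 1) (h2 : ‖f₂‖ = 1) (h12 : ⟪f₁, f₂⟫_ℝ = 0) (t₀ : ℝ) :
    ∃ Φ : E n ≃ₗᵢ[ℝ] E n, LinearMap.det (Φ.toLinearEquiv : E n →ₗ[ℝ] E n) = 1 ∧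
      ∀ t, Φ (Dirs_g f₁ f₂ t) = Dirs_g f₁ f₂ (t - t₀) := by
  have hne : ∀ t, Dirs_g f₁ f₂ t ≠ 0 := by
    intro t h
    have := Dirs_norm h1 h2 h12 t
    rw [h, norm_zero] at this
    exact zero_ne_one this
  refine ⟨((ℝ ∙ Dirs_g f₁ f₂ (t₀ / 2)).reflection).trans ((ℝ ∙ Dirs_g f₁ f₂ 0).reflection), ?_, ?_⟩
  · have e : ((((ℝ ∙ Dirs_g f₁ f₂ (t₀ / 2)).reflection).trans
        ((ℝ ∙ Dirs_g f₁ f₂ 0).reflection)).toLinearEquiv : E n →ₗ[ℝ] E n) =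
        (((ℝ ∙ Dirs_g f₁ f₂ 0).reflection).toLinearEquiv : E n →ₗ[ℝ] E n) ∘ₗ
        (((ℝ ∙ Dirs_g f₁ f₂ (t₀ / 2)).reflection).toLinearEquiv : E n →ₗ[ℝ] E n) := rfl
    rw [e, LinearMap.det_comp, Dirs_det (hne _), Dirs_det (hne _), ← mul_pow]
    norm_num
  · intro t
    rw [LinearIsometryEquiv.trans_apply, Dirs_refl h1 h2 h12, Dirs_refl h1 h2 h12]
    congr 1
    ring

/-- Equal values at distance `φ`. -/
theorem Dirs_ivt {h : ℝ → ℝ} (hc : Continuous h) (hper : Function.Periodic h Real.pi) (φ : ℝ) :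
    ∃ t, h t = h (t + φ) := by
  obtain ⟨tm, -, htm⟩ := isCompact_Icc.exists_isMaxOn (Set.nonempty_Icc.2 Real.pi_pos.le)
    (hc.continuousOn (s := Set.Icc 0 Real.pi))
  have hmax : ∀ t, h t ≤ h tm := by
    intro t
    obtain ⟨y, hy, hty⟩ := hper.exists_mem_Ico₀ Real.pi_pos t
    rw [hty]
    exact htm ⟨hy.1, hy.2.le⟩
  have hg : Continuous fun t => h (t + φ) - h t := by fun_prop
  obtain ⟨t, ht⟩ := mem_range_of_exists_le_of_exists_ge hg (c := 0)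
    ⟨tm, sub_nonpos.2 (hmax _)⟩ ⟨tm - φ, by
      show 0 ≤ h (tm - φ + φ) - h (tm - φ)
      rw [sub_add_cancel]
      exact sub_nonneg.2 (hmax _)⟩
  exact ⟨t, (sub_eq_zero.1 ht).symm⟩

theorem exists_dirs {L : ℝ} {m : E n → ℝ} (hm : Sym L m) {p q : E n} (hp : ‖p‖ = 1)
    (hq : ‖q‖ = 1) (hpq : m p ≠ m q) :
    ∃ (Φ : E n ≃ₗᵢ[ℝ] E n) (d₁ d₂ : E n),
      LinearMap.det (Φ.toLinearEquiv : E n →ₗ[ℝ] E n) = 1 ∧ ‖d₁‖ = 1 ∧ ‖d₂‖ = 1 ∧
      m d₁ = m d₂ ∧ m (Φ d₁) ≠ m (Φ d₂) := by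
  -- the plane
  have hw0 : q - ⟪p, q⟫_ℝ • p ≠ 0 := by
    intro hw
    have hq' : q = ⟪p, q⟫_ℝ • p := sub_eq_zero.1 hw
    have hc0 : ⟪p, q⟫_ℝ ≠ 0 := by
      intro h0
      rw [h0, zero_smul] at hq'
      rw [hq', norm_zero] at hq
      exact zero_ne_one hq
    apply hpq
    rw [hq', hm.homog _ _ hc0]
  have hwn : 0 < ‖q - ⟪p, q⟫_ℝ • p‖ := norm_pos_iff.2 hw0
  have hpp : ⟪p, p⟫_ℝ = 1 := by rw [real_inner_self_eq_norm_sq, hp]; norm_num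
  have hqq : ⟪q, q⟫_ℝ = 1 := by rw [real_inner_self_eq_norm_sq, hq]; norm_num
  have hpw : ⟪p, q - ⟪p, q⟫_ℝ • p⟫_ℝ = 0 := by
    rw [inner_sub_right, real_inner_smul_right, hpp]
    ring
  have hsq : ‖q - ⟪p, q⟫_ℝ • p‖ ^ 2 = 1 - ⟪p, q⟫_ℝ ^ 2 := by
    rw [← real_inner_self_eq_norm_sq, inner_sub_left, inner_sub_right, inner_sub_right,
      real_inner_smul_left, real_inner_smul_right, real_inner_smul_left, real_inner_smul_right,
      hpp, hqq, real_inner_comm p q]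
    ring
  obtain ⟨f₂, hf₂⟩ : ∃ f₂ : E n, f₂ = ‖q - ⟪p, q⟫_ℝ • p‖⁻¹ • (q - ⟪p, q⟫_ℝ • p) := ⟨_, rfl⟩
  have h2 : ‖f₂‖ = 1 := by
    rw [hf₂, norm_smul, norm_inv, norm_norm, inv_mul_cancel₀ hwn.ne']
  have h12 : ⟪p, f₂⟫_ℝ = 0 := by
    rw [hf₂, real_inner_smul_right, hpw, mul_zero]
  have hc1 : |⟪p, q⟫_ℝ| ≤ 1 := by
    have := abs_real_inner_le_norm p q
    rwa [hp, hq, mul_one] at this
  obtain ⟨φ, hφ⟩ : ∃ φ : ℝ, φ = Real.arccos ⟪p, q⟫_ℝ := ⟨_, rfl⟩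
  have hcos : Real.cos φ = ⟪p, q⟫_ℝ := by
    rw [hφ, Real.cos_arccos (abs_le.1 hc1).1 (abs_le.1 hc1).2]
  have hsin : Real.sin φ = ‖q - ⟪p, q⟫_ℝ • p‖ := by
    rw [hφ, Real.sin_arccos, ← hsq, Real.sqrt_sq hwn.le]
  have hgφ : Dirs_g p f₂ φ = q := by
    unfold Dirs_g
    rw [hcos, hsin, hf₂, smul_smul, mul_inv_cancel₀ hwn.ne', one_smul]
    abel
  have hg0 : Dirs_g p f₂ 0 = p := by
    unfold Dirs_g
    simp
  have hne : ∀ t, Dirs_g p f₂ t ≠ 0 := by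
    intro t h
    have := Dirs_norm hp h2 h12 t
    rw [h, norm_zero] at this
    exact zero_ne_one this
  have hcont : Continuous fun t => m (Dirs_g p f₂ t) := by
    rw [continuous_iff_continuousAt]
    intro t
    unfold ContinuousAt
    rw [tendsto_iff_norm_sub_tendsto_zero]
    have hb : ∀ s, ‖m (Dirs_g p f₂ s) - m (Dirs_g p f₂ t)‖ ≤
        L * ‖Dirs_g p f₂ s - Dirs_g p f₂ t‖ := by
      intro s
      have := hm.lip (Dirs_g p f₂ s) (Dirs_g p f₂ t) (hne s)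
      rwa [Dirs_norm hp h2 h12 s, div_one] at this
    have hlim : Filter.Tendsto (fun s => L * ‖Dirs_g p f₂ s - Dirs_g p f₂ t‖) (nhds t) (nhds 0) := by
      have h3 : Continuous fun s => L * ‖Dirs_g p f₂ s - Dirs_g p f₂ t‖ := by
        have := Dirs_cont p f₂
        fun_prop
      have h4 := h3.tendsto t
      simpa using h4
    exact squeeze_zero (fun s => norm_nonneg _) hb hlim
  have hper : Function.Periodic (fun t => m (Dirs_g p f₂ t)) Real.pi := by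
    intro t
    show m (Dirs_g p f₂ (t + Real.pi)) = m (Dirs_g p f₂ t)
    have : Dirs_g p f₂ (t + Real.pi) = (-1 : ℝ) • Dirs_g p f₂ t := by
      unfold Dirs_g
      rw [Real.cos_add_pi, Real.sin_add_pi, neg_smul, neg_smul, neg_smul, one_smul]
      abel
    rw [this, hm.homog _ _ (by norm_num)]
  obtain ⟨t₀, ht₀⟩ := Dirs_ivt hcont hper φ
  obtain ⟨Φ, hdet, hΦ⟩ := Dirs_rot hp h2 h12 t₀
  refine ⟨Φ, Dirs_g p f₂ t₀, Dirs_g p f₂ (t₀ + φ), hdet, Dirs_norm hp h2 h12 _,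
    Dirs_norm hp h2 h12 _, ht₀, ?_⟩
  rw [hΦ, hΦ, sub_self, hg0, add_sub_cancel_left, hgφ]
  exact hpq

end Pool.Agent.helper12.RT
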