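import Pool.Agent.helper12.RT.Defs

/-!
# RT-RSym: the symbols of the iterated Riesz transforms of even order

PROOF.  `m ξ = (-1) ^ (|β| / 2) * ∏ j, (ξ j / ‖ξ‖) ^ β j`, `|β| = ∑ β j = 2 l > 0`.  `rieszSymbol β ξ = I ^ |β| * ∏ (ξ j / ‖ξ‖) ^ β j` (`Finset.prod_pow_eq_pow_sum`, `mul_pow`).
`|ξ j| ≤ ‖ξ‖`, so `|m| ≤ 1`.  `homog`: `(t ξ j) / ‖t ξ‖ = (t / |t|) (ξ j / ‖ξ‖)`, and `(t / |t|) ^ |β| = 1`.
`lip` with `L = 2 |β| + 1`: for `ζ = 0`: `m 0 = 0` and `‖ξ - 0‖ / ‖ξ‖ = 1`.  For `ζ ≠ 0`: `|a - b| ≤ |ξ j / ‖ξ‖ - ζ j / ‖ζ‖| ≤ ‖ξ / ‖ξ‖ - ζ / ‖ζ‖‖ ≤ 2 ‖ξ - ζ‖ / ‖ξ‖`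
for every factor, and a product of `|β|` factors of absolute value at most 1 changes by at most `|β|` times that
(`|∏ a_j ^ β_j - ∏ b_j ^ β_j| ≤ ∑ β_j |a_j - b_j|`, induction; `Finset.prod` version: `norm_prod_sub_prod_le` or similar, or prove it).
Two unit vectors: `β j₀ > 0`; `q` = a unit vector with `q j₀ = 0` (a basis vector `j₁ ≠ j₀`, `n ≥ 2`): `m q = 0`.  `p = (1, ..., 1) / √n`:
`m p ≠ 0`.
-/

set_option autoImplicit false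

open MeasureTheory FourierTransform
open scoped ENNReal InnerProductSpace ComplexConjugate

namespace Pool.Agent.helper12.RT

variable {n : ℕ}

private theorem RSym_pow_sub (a b : ℝ) (ha : |a| ≤ 1) (hb : |b| ≤ 1) (k : ℕ) :
    |a ^ k - b ^ k| ≤ k * |a - b| := by
  induction k with
  | zero => simp
  | succ k ih =>
    have h1 : a ^ (k + 1) - b ^ (k + 1) = (a ^ k - b ^ k) * a + b ^ k * (a - b) := by ring
    rw [h1]
    refine (abs_add_le _ _).trans ?_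
    rw [abs_mul, abs_mul]
    have h2 : |b ^ k| ≤ 1 := by
      rw [abs_pow]
      exact pow_le_one₀ (abs_nonneg _) hb
    have h3 : |a ^ k - b ^ k| * |a| ≤ |a ^ k - b ^ k| * 1 :=
      mul_le_mul_of_nonneg_left ha (abs_nonneg _)
    have h4 : |b ^ k| * |a - b| ≤ 1 * |a - b| := mul_le_mul_of_nonneg_right h2 (abs_nonneg _)
    push_cast
    linarith

private theorem RSym_prod_le (s : Finset (Fin n)) (β : Fin n → ℕ) (a : Fin n → ℝ)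
    (ha : ∀ j, |a j| ≤ 1) : |∏ j ∈ s, a j ^ β j| ≤ 1 := by
  rw [Finset.abs_prod]
  refine Finset.prod_le_one (fun j _ => abs_nonneg _) (fun j _ => ?_)
  rw [abs_pow]
  exact pow_le_one₀ (abs_nonneg _) (ha j)

private theorem RSym_prod_sub (s : Finset (Fin n)) (β : Fin n → ℕ) (a b : Fin n → ℝ)
    (ha : ∀ j, |a j| ≤ 1) (hb : ∀ j, |b j| ≤ 1) :
    |∏ j ∈ s, a j ^ β j - ∏ j ∈ s, b j ^ β j| ≤ ∑ j ∈ s, (β j : ℝ) * |a j - b j| := by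
  classical
  induction s using Finset.induction_on with
  | empty => simp
  | insert i s hi ih =>
    rw [Finset.prod_insert hi, Finset.prod_insert hi, Finset.sum_insert hi]
    have h1 : a i ^ β i * ∏ j ∈ s, a j ^ β j - b i ^ β i * ∏ j ∈ s, b j ^ β j =
        (a i ^ β i - b i ^ β i) * ∏ j ∈ s, a j ^ β j +
          b i ^ β i * (∏ j ∈ s, a j ^ β j - ∏ j ∈ s, b j ^ β j) := by ring
    rw [h1]
    refine (abs_add_le _ _).trans ?_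
    rw [abs_mul, abs_mul]
    have h2 : |b i ^ β i| ≤ 1 := by
      rw [abs_pow]
      exact pow_le_one₀ (abs_nonneg _) (hb i)
    have h3 := mul_le_mul_of_nonneg_left (RSym_prod_le s β a ha)
      (abs_nonneg (a i ^ β i - b i ^ β i))
    have h4 := mul_le_mul_of_nonneg_right h2
      (abs_nonneg (∏ j ∈ s, a j ^ β j - ∏ j ∈ s, b j ^ β j))
    have h5 := RSym_pow_sub (a i) (b i) (ha i) (hb i) (β i)
    linarith

private theorem RSym_coord (ξ : E n) (j : Fin n) : |ξ j / ‖ξ‖| ≤ 1 := by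
  rw [abs_div, abs_norm]
  apply div_le_one_of_le₀ _ (norm_nonneg _)
  exact PiLp.norm_apply_le ξ j

private theorem RSym_lip (ξ ζ : E n) (hξ : ξ ≠ 0) (hζ : ζ ≠ 0) (j : Fin n) :
    |ξ j / ‖ξ‖ - ζ j / ‖ζ‖| ≤ 2 * (‖ξ - ζ‖ / ‖ξ‖) := by
  have h1 : 0 < ‖ξ‖ := norm_pos_iff.mpr hξ
  have h2 : 0 < ‖ζ‖ := norm_pos_iff.mpr hζ
  have h3 : ξ j / ‖ξ‖ - ζ j / ‖ζ‖ = (ξ - ζ) j / ‖ξ‖ + (ζ j / ‖ζ‖) * ((‖ζ‖ - ‖ξ‖) / ‖ξ‖) := by
    rw [PiLp.sub_apply]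
    field_simp
    ring
  rw [h3]
  refine (abs_add_le _ _).trans ?_
  have h4 : |(ξ - ζ) j / ‖ξ‖| ≤ ‖ξ - ζ‖ / ‖ξ‖ := by
    rw [abs_div, abs_norm]
    exact div_le_div_of_nonneg_right (PiLp.norm_apply_le (ξ - ζ) j) h1.le
  have h5 : |(ζ j / ‖ζ‖) * ((‖ζ‖ - ‖ξ‖) / ‖ξ‖)| ≤ ‖ξ - ζ‖ / ‖ξ‖ := by
    rw [abs_mul]
    have h6 : |(‖ζ‖ - ‖ξ‖) / ‖ξ‖| ≤ ‖ξ - ζ‖ / ‖ξ‖ := by
      rw [abs_div, abs_norm]
      refine div_le_div_of_nonneg_right ?_ h1.le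
      have := abs_norm_sub_norm_le ζ ξ
      rwa [norm_sub_rev] at this
    have h7 := mul_le_mul (RSym_coord ζ j) h6 (abs_nonneg _) zero_le_one
    linarith
  linarith

theorem riesz_sym (hn : 2 ≤ n) {β : Fin n → ℕ} (hβ : Even (∑ j, β j)) (hβ0 : 0 < ∑ j, β j) :
    ∃ (L : ℝ) (m : E n → ℝ) (p q : E n), 0 ≤ L ∧ Sym L m ∧
      (∀ ξ, rieszSymbol β ξ = (m ξ : ℂ)) ∧ ‖p‖ = 1 ∧ ‖q‖ = 1 ∧ m p ≠ m q := by
  obtain ⟨r, hr⟩ := hβ
  obtain ⟨j₀, -, hj₀⟩ := Finset.exists_ne_zero_of_sum_ne_zero hβ0.ne'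
  have : Nontrivial (Fin n) := Fin.nontrivial_iff_two_le.mpr hn
  obtain ⟨j₁, hj₁⟩ := exists_ne j₀
  let m : E n → ℝ := fun ξ => (-1) ^ r * ∏ j, (ξ j / ‖ξ‖) ^ β j
  have hm : ∀ ξ, m ξ = (-1) ^ r * ∏ j, (ξ j / ‖ξ‖) ^ β j := fun ξ => rfl
  have hz : ∀ ξ : E n, ξ j₀ = 0 → m ξ = 0 := by
    intro ξ h
    rw [hm, Finset.prod_eq_zero (Finset.mem_univ j₀), mul_zero]
    rw [h, zero_div, zero_pow hj₀]
  have hb : ∀ ξ, |m ξ| ≤ 1 := by
    intro ξ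
    rw [hm, abs_mul, abs_pow, abs_neg, abs_one, one_pow, one_mul]
    exact RSym_prod_le Finset.univ β (fun j => ξ j / ‖ξ‖) (RSym_coord ξ)
  have hh : ∀ (t : ℝ) (ξ : E n), t ≠ 0 → m (t • ξ) = m ξ := by
    intro t ξ ht
    rw [hm, hm]
    have h1 : ∀ j, ((t • ξ) j / ‖t • ξ‖) ^ β j = (t / |t|) ^ β j * (ξ j / ‖ξ‖) ^ β j := by
      intro j
      rw [← mul_pow, norm_smul, Real.norm_eq_abs, PiLp.smul_apply, smul_eq_mul, mul_div_mul_comm]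
    rw [Finset.prod_congr rfl (fun j _ => h1 j), Finset.prod_mul_distrib,
      Finset.prod_pow_eq_pow_sum, hr, ← two_mul, pow_mul, div_pow, sq_abs,
      div_self (pow_ne_zero 2 ht), one_pow, one_mul]
  have hmeas : Measurable m := by
    refine Measurable.const_mul ?_ _
    refine Finset.measurable_prod _ (fun j _ => ?_)
    refine Measurable.pow_const ?_ _
    refine Measurable.div ?_ measurable_norm
    exact (PiLp.continuous_apply 2 (fun _ : Fin n => ℝ) j).measurable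
  refine ⟨2 * ∑ j, (β j : ℝ) + 1, m, ‖(WithLp.toLp 2 (fun _ => (1 : ℝ)) : E n)‖⁻¹ •
    (WithLp.toLp 2 (fun _ => (1 : ℝ)) : E n), EuclideanSpace.single j₁ (1 : ℝ), by positivity,
    ⟨hmeas, hb, hh, ?_⟩, ?_, ?_, ?_, ?_⟩
  · intro ξ ζ hξ
    have h1 : 0 < ‖ξ‖ := norm_pos_iff.mpr hξ
    by_cases hζ : ζ = 0
    · rw [hζ, hz 0 rfl, sub_zero, sub_zero, div_self h1.ne', mul_one]
      have h2 : 0 ≤ ∑ j, (β j : ℝ) := by positivity
      have := hb ξ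
      linarith
    · rw [hm, hm, ← mul_sub, abs_mul, abs_pow, abs_neg, abs_one, one_pow, one_mul]
      refine (RSym_prod_sub Finset.univ β (fun j => ξ j / ‖ξ‖) (fun j => ζ j / ‖ζ‖)
        (RSym_coord ξ) (RSym_coord ζ)).trans ?_
      have h2 : ∑ j, (β j : ℝ) * |ξ j / ‖ξ‖ - ζ j / ‖ζ‖| ≤
          ∑ j, (β j : ℝ) * (2 * (‖ξ - ζ‖ / ‖ξ‖)) :=
        Finset.sum_le_sum fun j _ =>
          mul_le_mul_of_nonneg_left (RSym_lip ξ ζ hξ hζ j) (Nat.cast_nonneg _)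
      refine h2.trans ?_
      rw [← Finset.sum_mul]
      have h3 : 0 ≤ ‖ξ - ζ‖ / ‖ξ‖ := by positivity
      nlinarith
  · intro ξ
    rw [hm]
    unfold rieszSymbol
    have h1 : ∀ j, (Complex.I * (ξ j : ℂ) / (‖ξ‖ : ℂ)) ^ β j =
        Complex.I ^ β j * (((ξ j / ‖ξ‖ : ℝ) : ℂ)) ^ β j := by
      intro j
      rw [← mul_pow, mul_div_assoc]
      push_cast
      rfl
    rw [Finset.prod_congr rfl (fun j _ => h1 j), Finset.prod_mul_distrib,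
      Finset.prod_pow_eq_pow_sum, hr, ← two_mul, pow_mul, Complex.I_sq]
    push_cast
    rfl
  · have h1 : (WithLp.toLp 2 (fun _ => (1 : ℝ)) : E n) ≠ 0 := by
      intro h
      have := congrArg (fun v : E n => v j₀) h
      simp at this
    rw [norm_smul, norm_inv, norm_norm, inv_mul_cancel₀ (norm_ne_zero_iff.mpr h1)]
  · simp
  · have h1 : (WithLp.toLp 2 (fun _ => (1 : ℝ)) : E n) ≠ 0 := by
      intro h
      have := congrArg (fun v : E n => v j₀) h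
      simp at this
    have h2 : ‖(WithLp.toLp 2 (fun _ => (1 : ℝ)) : E n)‖ ≠ 0 := norm_ne_zero_iff.mpr h1
    rw [hh _ _ (inv_ne_zero h2), hz (EuclideanSpace.single j₁ (1 : ℝ)) (by simp [hj₁.symm])]
    rw [hm]
    refine mul_ne_zero (pow_ne_zero _ (by norm_num)) (Finset.prod_ne_zero_iff.mpr fun j _ => ?_)
    refine pow_ne_zero _ (div_ne_zero ?_ h2)
    simp

end Pool.Agent.helper12.RT
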