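import Pool.Agent.helper12.RT.OpsQ
import Pool.Agent.helper12.RT.OpsT

/-!
# RT-Shift: adding a constant to the symbol

PROOFS.
* `sym_shift`: `μ = (m - c) / 2`; `meas`, `bdd` (`|m|, |c| ≤ 1`), `homog`, `lip` (`L / 2 ≤ L`).  `sym_comp`: a linear isometry preserves norms.
* `bd_shift`: `m = 2 μ + c`, `Tr m v = 2 Tr μ v + c v` (`Tr_add`, `Tr_mul`, `Tr_const`), `√(Q w ·)` is a seminorm (`Q_add_le`, `Q_smul`):
  `√(Q w (Tr m (Mr s u))) ≤ 2 √N √(Q s u) + √(Q w (Mr s u))` and `Q w (Mr s u) = ∫ w s² |u|² ≤ Q s u`.  Square.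
-/

set_option autoImplicit false

open MeasureTheory FourierTransform
open scoped ENNReal InnerProductSpace ComplexConjugate

namespace Pool.Agent.helper12.RT

variable {n : ℕ}

theorem sym_shift {L : ℝ} (hL : 0 ≤ L) {m : E n → ℝ} (hm : Sym L m) {c : ℝ} (hc : |c| ≤ 1) :
    Sym L fun ξ => (m ξ - c) / 2 where
  meas := (hm.meas.sub_const c).div_const 2
  bdd := fun ξ => by
    have h1 := abs_le.mp (hm.bdd ξ)
    have h2 := abs_le.mp hc
    rw [abs_le]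
    constructor <;> linarith [h1.1, h1.2, h2.1, h2.2]
  homog := fun t ξ ht => by rw [hm.homog t ξ ht]
  lip := fun ξ ζ hξ => by
    have h1 := hm.lip ξ ζ hξ
    have h2 : (m ξ - c) / 2 - (m ζ - c) / 2 = (m ξ - m ζ) / 2 := by ring
    rw [h2, abs_div, abs_of_pos (by norm_num : (0 : ℝ) < 2)]
    have h3 := abs_nonneg (m ξ - m ζ)
    linarith

theorem sym_comp {L : ℝ} {m : E n → ℝ} (hm : Sym L m) (Φ : E n ≃ₗᵢ[ℝ] E n) :
    Sym L fun ξ => m (Φ ξ) where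
  meas := hm.meas.comp Φ.continuous.measurable
  bdd := fun ξ => hm.bdd _
  homog := fun t ξ ht => by
    rw [map_smul]
    exact hm.homog t _ ht
  lip := fun ξ ζ hξ => by
    have h1 := hm.lip (Φ ξ) (Φ ζ) (by
      intro h
      apply hξ
      rw [← norm_eq_zero, ← Φ.norm_map, h, norm_zero])
    rwa [← map_sub, Φ.norm_map, Φ.norm_map] at h1

theorem Sym.bmr {L : ℝ} {m : E n → ℝ} (hm : Sym L m) : BMr m := ⟨hm.meas, 1, hm.bdd⟩

theorem bd_shift {m s w : E n → ℝ} (hm : BMr m) (hs : BMr s) (hw : BMr w)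
    (hs0 : ∀ x, 0 ≤ s x) (hw0 : ∀ x, 0 ≤ w x) (hsw : ∀ x, s x * w x ≤ 1) {c : ℝ} (hc : |c| ≤ 1)
    {N : ℝ} (hN : 0 ≤ N) (h : Bd (fun ξ => (m ξ - c) / 2) s w N) :
    Bd m s w ((2 * √N + 1) ^ 2) := by
  intro u
  have hμ : BMr fun ξ : E n => (m ξ - c) / 2 := by
    have h1 := (hm.sub (BMr.const c)).mul (BMr.const (n := n) (1 / 2))
    refine cast ?_ h1
    congr 1
    funext x
    ring
  have e1 : Tr m (Mr s u) = (Tr (fun ξ => (m ξ - c) / 2) (Mr s u) +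
      Tr (fun ξ => (m ξ - c) / 2) (Mr s u)) + (c : ℂ) • Mr s u := by
    rw [← Tr_const c (Mr s u), ← Tr_add hμ hμ, ← Tr_add (hμ.add hμ) (BMr.const c)]
    congr 2
    funext ξ
    ring
  have hQs : 0 ≤ Q s u := Q_nonneg hs0 u
  have h1 : √(Q w (Tr (fun ξ => (m ξ - c) / 2) (Mr s u))) ≤ √N * √(Q s u) := by
    rw [← Real.sqrt_mul hN]
    exact Real.sqrt_le_sqrt (h u)
  have h2 : √(Q w ((c : ℂ) • Mr s u)) ≤ √(Q s u) := by
    apply Real.sqrt_le_sqrt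
    have h3 : Q w (Mr s u) ≤ Q s u := by
      rw [Q_Mr hs]
      have hbs : BMr fun x => w x * s x ^ 2 := by
        have := hw.mul (hs.mul hs)
        refine cast ?_ this
        congr 1
        funext x
        ring
      apply Q_mono hbs hs
      intro x
      have := mul_le_mul_of_nonneg_right (hsw x) (hs0 x)
      nlinarith
    have h4 : 0 ≤ Q w (Mr s u) := Q_nonneg hw0 _
    rw [Q_smul, Complex.norm_real, Real.norm_eq_abs]
    have h5 : |c| ^ 2 ≤ 1 := pow_le_one₀ (abs_nonneg _) hc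
    nlinarith
  have h3 : √(Q w (Tr m (Mr s u))) ≤ (2 * √N + 1) * √(Q s u) := by
    rw [e1]
    have h4 := Q_add_le hw hw0 (Tr (fun ξ => (m ξ - c) / 2) (Mr s u) +
      Tr (fun ξ => (m ξ - c) / 2) (Mr s u)) ((c : ℂ) • Mr s u)
    have h5 := Q_add_le hw hw0 (Tr (fun ξ => (m ξ - c) / 2) (Mr s u))
      (Tr (fun ξ => (m ξ - c) / 2) (Mr s u))
    linarith
  have h4 : Q w (Tr m (Mr s u)) = √(Q w (Tr m (Mr s u))) ^ 2 :=
    (Real.sq_sqrt (Q_nonneg hw0 _)).symm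
  rw [h4]
  calc √(Q w (Tr m (Mr s u))) ^ 2 ≤ ((2 * √N + 1) * √(Q s u)) ^ 2 :=
        pow_le_pow_left₀ (Real.sqrt_nonneg _) h3 2
    _ = (2 * √N + 1) ^ 2 * Q s u := by rw [mul_pow, Real.sq_sqrt hQs]

end Pool.Agent.helper12.RT
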