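import Pool.Agent.helper12.RT.Unb
import Pool.Agent.helper12.RT.Dirs
import Pool.Agent.helper12.RT.RSym
import Pool.Agent.helper12.RT.Shift
import Pool.Agent.helper12.RT.BridgeB

/-!
# RT-Main: assembly

PROOF.  `riesz_sym` gives `L, m, p, q`, `exists_dirs` gives `Φ, d₁, d₂`, `c = m d₁ = m d₂`, `μ = (m - c) / 2` (`sym_shift`), `mr = m ∘ Φ` (`sym_comp`),
`unbounded` for `μ, mr, N = (max K 0) ^ 2` gives `s, w`.  They are `Weight`s (`TPr.contDiff`, `TPr.bmr`).  `Bd μ s w 6` gives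
`Bd m s w ((2 √6 + 1) ^ 2)` (`bd_shift`), so `NormLe (riesz β) (dens s) (dens w) (2 √6 + 1)` (`normLe_of_bd`), `2 √6 + 1 ≤ 6`.
`NormLe (riesz β) ((dens s).map Φ) ((dens w).map Φ) K` implies the same with `max K 0`, and `Bd mr s w ((max K 0) ^ 2)`
(`bd_of_normLe`), a contradiction.  `C = max 6 (2 ^ (n + 4))`.
-/

set_option autoImplicit false

open MeasureTheory FourierTransform
open scoped ENNReal InnerProductSpace ComplexConjugate

namespace Pool.Agent.helper12.RT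

theorem main (n : ℕ) (hn : 2 ≤ n) (β : Fin n → ℕ) (hβ : Even (∑ j, β j))
    (hβ0 : 0 < ∑ j, β j) :
    ∃ (Φ : E n ≃ₗᵢ[ℝ] E n) (C : ℝ), LinearMap.det (Φ.toLinearEquiv : E n →ₗ[ℝ] E n) = 1 ∧
      ∀ K : ℝ, ∃ s w : E n → ℝ, Weight s ∧ Weight w ∧
        DoublingLe (dens s) C ∧ DoublingLe (dens w) C ∧
        NormLe (riesz β) (dens s) (dens w) C ∧
        ¬ NormLe (riesz β) ((dens s).map Φ) ((dens w).map Φ) K := by
  obtain ⟨L, m, p, q, hL, hm, hmβ, hp, hq, hpq⟩ := riesz_sym hn hβ hβ0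
  obtain ⟨Φ, d₁, d₂, hdet, hd₁, hd₂, h12, hne⟩ := exists_dirs hm hp hq hpq
  have hR : riesz β = Tr m := by
    rw [riesz, Tr]
    congr 1
    funext ξ
    exact hmβ ξ
  refine ⟨Φ, max 6 (2 ^ (n + 4)), hdet, fun K => ?_⟩
  have hc : |m d₁| ≤ 1 := hm.bdd d₁
  have hμ : Sym L fun ξ => (m ξ - m d₁) / 2 := sym_shift hL hm hc
  have hmr : Sym L fun ξ => m (Φ ξ) := sym_comp hm Φ
  obtain ⟨s, w, ⟨K₀, hs, hw⟩, ⟨c, hc0, hsw0⟩, hsw, hds, hdw, hbd, hnb⟩ :=
    unbounded hL hμ hmr hd₁ hd₂ (by simp) (by simp [h12]) hne ((max K 0) ^ 2)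
  have hWs : Weight s := by
    obtain ⟨_, C, hC⟩ := hs.bmr
    exact ⟨hs.contDiff, c, C, hc0, fun x => ⟨(hsw0 x).1, (abs_le.1 (hC x)).2⟩⟩
  have hWw : Weight w := by
    obtain ⟨_, C, hC⟩ := hw.bmr
    exact ⟨hw.contDiff, c, C, hc0, fun x => ⟨(hsw0 x).2, (abs_le.1 (hC x)).2⟩⟩
  have hmono : ∀ {σ : Measure (E n)} {D : ℝ}, DoublingLe σ (2 ^ (n + 4)) →
      DoublingLe σ (max 6 (2 ^ (n + 4))) := by
    intro σ D h x r hr
    refine (h x r hr).trans ?_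
    gcongr
    exact le_max_right _ _
  refine ⟨s, w, hWs, hWw, hmono (D := 0) hds, hmono (D := 0) hdw, ?_, ?_⟩
  · have h1 : Bd m s w ((2 * √6 + 1) ^ 2) :=
      bd_shift hm.bmr hs.bmr hw.bmr (fun x => (hc0.trans_le (hsw0 x).1).le)
        (fun x => (hc0.trans_le (hsw0 x).2).le) hsw hc (by norm_num) hbd
    have h2 : NormLe (Tr m) (dens s) (dens w) (2 * √6 + 1) :=
      normLe_of_bd hWs hWw (by positivity) h1
    rw [hR]
    intro f hf u hu
    refine (h2 f hf u hu).trans ?_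
    gcongr
    refine le_trans ?_ (le_max_left _ _)
    have h3 : √6 ≤ 5 / 2 := by
      rw [Real.sqrt_le_left (by norm_num)]
      norm_num
    linarith
  · intro h
    apply hnb
    refine bd_of_normLe hm.bmr hWs hWw Φ (le_max_right _ _) ?_
    rw [hR] at h
    intro f hf u hu
    refine (h f hf u hu).trans ?_
    gcongr
    exact le_max_left _ _

end Pool.Agent.helper12.RT
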