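import Pool.Agent.helper12.RT.BridgeA
import Pool.Agent.helper12.RT.OpsT

/-!
# RT-Rot: rotations

PROOFS.  `Φ` is a linear isometric bijection of `ℝⁿ`, `σ' = Φ_* (s dx)`, `s' = s ∘ Φ⁻¹`.
* `dens_map`: `(dens s).map Φ = dens (s ∘ Φ.symm)` (`Φ` preserves the volume: `LinearIsometryEquiv.measurePreserving`;
  `MeasurePreserving` and `withDensity`, e.g. evaluate on Borel sets with `lintegral_map_equiv`/`MeasurePreserving.setLIntegral_comp_preimage`).
* `weight_comp`.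
* `rot`: there is a linear isometric bijection `U` of `H n` with `U u = u ∘ Φ.symm` a.e. (`Lp.compMeasurePreservingₗᵢ`), and `𝓕 (U u) = U (𝓕 u)`:
  both sides are continuous in `u`, so let `u = f.toLp 2` for a Schwartz function `f` (`SchwartzMap.denseRange_toLpCLM`); `f ∘ Φ.symm` is the Schwartz function
  `SchwartzMap.compCLMOfContinuousLinearEquiv`, and for the Fourier integral `Real.fourier_comp_linearIsometry` (or `fourierIntegral_comp_linearIsometry`).
  So `Tr m (U u) = U (Tr (m ∘ Φ) u)`.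
-/

set_option autoImplicit false

open MeasureTheory FourierTransform
open scoped ENNReal InnerProductSpace ComplexConjugate

namespace Pool.Agent.helper12.RT

variable {n : ℕ}

theorem weight_comp {s : E n → ℝ} (hs : Weight s) (Φ : E n ≃ₗᵢ[ℝ] E n) :
    Weight fun x => s (Φ.symm x) := by
  obtain ⟨c, C, hc, h⟩ := hs.bdd
  exact ⟨hs.smooth.comp Φ.symm.contDiff, c, C, hc, fun x => h _⟩

theorem dens_map {s : E n → ℝ} (hs : Weight s) (Φ : E n ≃ₗᵢ[ℝ] E n) :
    (dens s).map Φ = dens fun x => s (Φ.symm x) := by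
  have hΦ : MeasurePreserving Φ (volume : Measure (E n)) volume := Φ.measurePreserving
  have hsm : Measurable fun x => ENNReal.ofReal (s (Φ.symm x)) :=
    (hs.smooth.continuous.comp Φ.symm.continuous).measurable.ennreal_ofReal
  ext B hB
  rw [Measure.map_apply hΦ.measurable hB]
  unfold dens
  rw [withDensity_apply _ (hΦ.measurable hB), withDensity_apply _ hB]
  rw [← hΦ.setLIntegral_comp_preimage hB hsm]
  simp only [LinearIsometryEquiv.symm_apply_apply]

theorem Rot_fourier (Φ : E n ≃ₗᵢ[ℝ] E n)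
    (hΦ : MeasurePreserving Φ.symm (volume : Measure (E n)) volume) (u : H n) :
    (𝓕 (Lp.compMeasurePreservingₗᵢ ℂ Φ.symm hΦ u) : H n) =
      Lp.compMeasurePreservingₗᵢ ℂ Φ.symm hΦ (𝓕 u : H n) := by
  set p := fun u : H n ↦ (𝓕 (Lp.compMeasurePreservingₗᵢ ℂ Φ.symm hΦ u) : H n) =
      Lp.compMeasurePreservingₗᵢ ℂ Φ.symm hΦ (𝓕 u : H n)
  have hS : ∀ f : SchwartzMap (E n) ℂ, Lp.compMeasurePreservingₗᵢ ℂ Φ.symm hΦ (f.toLp 2) =
      (SchwartzMap.compCLMOfContinuousLinearEquiv ℂ Φ.symm.toContinuousLinearEquiv f).toLp 2 := by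
    intro f
    apply Lp.ext
    have h1 : (Lp.compMeasurePreservingₗᵢ ℂ Φ.symm hΦ (f.toLp 2) : E n → ℂ) =ᵐ[volume]
        (f.toLp 2 : E n → ℂ) ∘ Φ.symm := Lp.coeFn_compMeasurePreserving _ hΦ
    have h2 : (f.toLp 2 : E n → ℂ) ∘ Φ.symm =ᵐ[volume] (f : E n → ℂ) ∘ Φ.symm :=
      hΦ.quasiMeasurePreserving.ae_eq_comp (f.coeFn_toLp 2 volume)
    have h3 := (SchwartzMap.compCLMOfContinuousLinearEquiv ℂ
      Φ.symm.toContinuousLinearEquiv f).coeFn_toLp 2 (volume : Measure (E n))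
    refine (h1.trans h2).trans ?_
    refine Filter.EventuallyEq.trans ?_ h3.symm
    exact Filter.Eventually.of_forall (fun x => rfl)
  apply DenseRange.induction_on (p := p)
    (SchwartzMap.denseRange_toLpCLM (p := 2) ENNReal.ofNat_ne_top) u
  · apply isClosed_eq
    · exact (Lp.fourierTransformₗᵢ (E n) ℂ).continuous.comp
        (Lp.compMeasurePreservingₗᵢ ℂ Φ.symm hΦ).continuous
    · exact (Lp.compMeasurePreservingₗᵢ ℂ Φ.symm hΦ).continuous.comp
        (Lp.fourierTransformₗᵢ (E n) ℂ).continuous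
  · intro f
    simp only [p, SchwartzMap.toLpCLM_apply]
    rw [hS, SchwartzMap.toLp_fourier_eq, SchwartzMap.toLp_fourier_eq, hS]
    congr 1
    ext x
    rw [SchwartzMap.fourier_coe]
    rw [SchwartzMap.compCLMOfContinuousLinearEquiv_apply,
      SchwartzMap.compCLMOfContinuousLinearEquiv_apply]
    rw [SchwartzMap.fourier_coe]
    exact Real.fourier_comp_linearIsometry Φ.symm (f : E n → ℂ) x

theorem rot (Φ : E n ≃ₗᵢ[ℝ] E n) :
    ∃ U : H n →L[ℂ] H n, (∀ u : H n, (U u : E n → ℂ) =ᵐ[volume] fun x => u (Φ.symm x)) ∧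
      ∀ m : E n → ℝ, BMr m → ∀ u : H n, Tr m (U u) = U (Tr (fun ξ => m (Φ ξ)) u) := by
  have hΦ : MeasurePreserving Φ.symm (volume : Measure (E n)) volume := Φ.symm.measurePreserving
  have hU : ∀ u : H n, (Lp.compMeasurePreservingₗᵢ ℂ Φ.symm hΦ u : E n → ℂ) =ᵐ[volume]
      fun x => u (Φ.symm x) := fun u => Lp.coeFn_compMeasurePreserving u hΦ
  refine ⟨(Lp.compMeasurePreservingₗᵢ ℂ Φ.symm hΦ).toContinuousLinearMap, hU, ?_⟩
  intro m hm u
  have hm' : BMr fun ξ => m (Φ ξ) :=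
    ⟨hm.1.comp Φ.continuous.measurable, hm.2.choose, fun x => hm.2.choose_spec _⟩
  have key : ∀ v : H n, M (fun x => (m x : ℂ)) (Lp.compMeasurePreservingₗᵢ ℂ Φ.symm hΦ v) =
      Lp.compMeasurePreservingₗᵢ ℂ Φ.symm hΦ (M (fun x => (m (Φ x) : ℂ)) v) := by
    intro v
    apply Lp.ext
    have h1 := M_apply hm.bm (Lp.compMeasurePreservingₗᵢ ℂ Φ.symm hΦ v)
    have h2 := hU v
    have h3 := hU (M (fun x => (m (Φ x) : ℂ)) v)
    have h4 := hΦ.quasiMeasurePreserving.ae_eq_comp (M_apply hm'.bm v)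
    filter_upwards [h1, h2, h3, h4] with x hx1 hx2 hx3 hx4
    rw [hx1, hx2, hx3]
    simp only [Function.comp_apply, LinearIsometryEquiv.apply_symm_apply] at hx4
    rw [hx4]
  have hinv : ∀ w : H n, (Lp.fourierTransformₗᵢ (E n) ℂ).symm
      (Lp.compMeasurePreservingₗᵢ ℂ Φ.symm hΦ w) =
      Lp.compMeasurePreservingₗᵢ ℂ Φ.symm hΦ ((Lp.fourierTransformₗᵢ (E n) ℂ).symm w) := by
    intro w
    apply (Lp.fourierTransformₗᵢ (E n) ℂ).injective
    rw [LinearIsometryEquiv.apply_symm_apply]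
    have h := Rot_fourier Φ hΦ ((Lp.fourierTransformₗᵢ (E n) ℂ).symm w)
    have h' : (𝓕 ((Lp.fourierTransformₗᵢ (E n) ℂ).symm w) : H n) = w :=
      (Lp.fourierTransformₗᵢ (E n) ℂ).apply_symm_apply w
    rw [h'] at h
    exact h.symm
  have hf := Rot_fourier Φ hΦ u
  change (Lp.fourierTransformₗᵢ (E n) ℂ).symm (M (fun x => (m x : ℂ))
    (𝓕 (Lp.compMeasurePreservingₗᵢ ℂ Φ.symm hΦ u) : H n)) =
    Lp.compMeasurePreservingₗᵢ ℂ Φ.symm hΦ ((Lp.fourierTransformₗᵢ (E n) ℂ).symm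
      (M (fun x => (m (Φ x) : ℂ)) (𝓕 u : H n)))
  rw [hf, key, hinv]

end Pool.Agent.helper12.RT
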