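import Pool.Agent.helper12.RT.Defs

/-!
# RT: the norm inequality in terms of functions

`NormLe` of `Defs.lean` for a Fourier multiplier, stated for functions.
-/

set_option autoImplicit false

open MeasureTheory FourierTransform

namespace Pool.Agent.helper12.RT

variable {n : ℕ}

/-- the Fourier transform `∫ φ(x) exp (- 2 π i ⟨x, ξ⟩) dx` of an integrable function -/
noncomputable def ft (φ : E n → ℂ) (ξ : E n) : ℂ := (𝓕 φ) ξ

/-- `u` and `U` are in `L²(ℝⁿ)` and `U` is the Fourier transform of `u` -/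
def IsFourier (u U : E n → ℂ) : Prop :=
  MemLp u 2 volume ∧ MemLp U 2 volume ∧
    ∀ φ : SchwartzMap (E n) ℂ, ∫ ξ, φ ξ * U ξ = ∫ x, ft φ x * u x

/-- `N_T(σ, ω) ≤ N` for the Fourier multiplier `T` with symbol `m`: if `f ∈ L²(σ)`, `f σ = u dx` with `u ∈ L²(dx)`, and
`v = T u` (the Fourier transform of `v` is `m U` where `U` is that of `u`), then `‖v‖_(L²(ω)) ≤ N ‖f‖_(L²(σ))` -/
def NormAtMost (m : E n → ℂ) (σ ω : Measure (E n)) (N : ℝ) : Prop :=
  ∀ f u v U : E n → ℂ, MemLp f 2 σ →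
    (∀ B : Set (E n), MeasurableSet B → Bornology.IsBounded B →
      ∫ x in B, f x ∂σ = ∫ x in B, u x) →
    IsFourier u U → IsFourier v (fun ξ => m ξ * U ξ) →
    eLpNorm v 2 ω ≤ ENNReal.ofReal N * eLpNorm f 2 σ

/-- the linear map with matrix `A` -/
def lin (A : Matrix (Fin n) (Fin n) ℝ) (x : E n) : E n := WithLp.toLp 2 (A.mulVec x.ofLp)

end Pool.Agent.helper12.RT
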