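import Pool.Agent.helper12.RT.Step
import Pool.Agent.helper12.RT.DoubB
import Pool.Agent.helper12.RT.RL
import Pool.Agent.helper12.RT.TowerB
import Pool.Agent.helper12.RT.Lower

/-!
# RT-Stage: one stage of the construction

`State`: the properties of `(s, w, y)`; `m` is the symbol which vanishes at `d₁, d₂`, `mr` is the rotated symbol, `φ` the test function,
`κ = mr d₂ - mr d₁`.
PROOF of `stage` (general step in the direction `d` with amplitudes `a`, `b` and `y' = y + yo cs`).  Let `s' = s (1 + a cs d lam)`, `w' = w (1 + b cs)`,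
`y' = y + yo cs`.  `tp`: `TPr.add`, `TPr.mul`, `cs_tpr`.  `pos`: `1 + a cs ≥ 1/2`.  `sw`: hypothesis `hab`.  `ds, dw`: `doub_step`.  `bd`: `step`.
`lo`: `Tr mr (Mr s' φ) = Tr mr (Mr s φ) + Tr mr (Mr (s a cs) φ)`, and the second term is within `ε` of `mr d • Mr (s a cs) φ` (`lower1`);
`mr d₁ s' + κ y' = (mr d₁ s + κ y) + (mr d₁ s a + κ yo) cs = (mr d₁ s + κ y) + mr d (s a) cs` by `hyo`.
The two integrals: `rl` with `F x c = G (s x (1 + a x c)) (w x (1 + b x c)) (y x + yo x c)` and `g x = ‖φ x‖ ^ 2` (integrable; `F` is bounded for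
`c ∈ [-1, 1]` because `s, w, y, a, b, yo` are bounded and `G` is continuous, hence bounded on compact sets), and with
`F x c = s x (1 + a x c)`, whose average is `s x` (`av_const`, `av_odd`).  Take `lam` larger than all the `lam₀`.
-/

set_option autoImplicit false

open MeasureTheory FourierTransform
open scoped ENNReal InnerProductSpace ComplexConjugate

namespace Pool.Agent.helper12.RT

variable {n : ℕ}

structure State (m mr : E n → ℝ) (φ : H n) (d₁ : E n) (κ D B δ : ℝ) (s w y : E n → ℝ) :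
    Prop where
  tp : ∃ K : ℝ, TPr K s ∧ TPr K w ∧ TPr K y
  pos : ∃ c : ℝ, 0 < c ∧ ∀ x, c ≤ s x ∧ c ≤ w x
  sw : ∀ x, s x * w x ≤ 1
  ds : DoublingLe (dens s) D
  dw : DoublingLe (dens w) D
  bd : Bd m s w B
  lo : ‖Tr mr (Mr s φ) - ((mr d₁ : ℂ) • Mr s φ + (κ : ℂ) • Mr y φ)‖ ≤ δ

/-- A real scalar can be moved into the function. -/
private theorem Stage_smul {p : E n → ℝ} (hp : BMr p) (c : ℝ) (u : H n) :
    (c : ℂ) • Mr p u = Mr (fun x => c * p x) u := by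
  rw [Mr_mul (BMr.const c) hp, Mr_const]

private theorem Stage_abs {a c : ℝ} (ha : |a| ≤ 1 / 2) (hc : c ∈ Set.Icc (-1 : ℝ) 1) :
    1 / 2 ≤ 1 + a * c ∧ 1 + a * c ≤ 3 / 2 := by
  have h1 : |a * c| ≤ 1 / 2 := by
    rw [abs_mul]
    have h2 : |c| ≤ 1 := abs_le.2 ⟨hc.1, hc.2⟩
    calc |a| * |c| ≤ 1 / 2 * 1 := mul_le_mul ha h2 (abs_nonneg _) (by norm_num)
      _ = 1 / 2 := by norm_num
  have h3 := abs_le.1 h1
  constructor <;> linarith [h3.1, h3.2]

private theorem Stage_bound {s w y a b yo : E n → ℝ} (hs : BMr s) (hw : BMr w) (hy : BMr y)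
    (hyo : BMr yo) (ha1 : ∀ x, |a x| ≤ 1 / 2) (hb1 : ∀ x, |b x| ≤ 1 / 2)
    {G : ℝ → ℝ → ℝ → ℝ} (hG : Cont3 G) :
    ∃ C : ℝ, ∀ x, ∀ c ∈ Set.Icc (-1 : ℝ) 1,
      |G (s x * (1 + a x * c)) (w x * (1 + b x * c)) (y x + yo x * c)| ≤ C := by
  obtain ⟨-, Cs, hCs⟩ := hs
  obtain ⟨-, Cw, hCw⟩ := hw
  obtain ⟨-, Cy, hCy⟩ := hy
  obtain ⟨-, Co, hCo⟩ := hyo
  set R : ℝ := 2 * |Cs| + 2 * |Cw| + |Cy| + |Co| with hR
  have hcomp : IsCompact (Set.Icc (-R) R ×ˢ (Set.Icc (-R) R ×ˢ Set.Icc (-R) R)) :=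
    isCompact_Icc.prod (isCompact_Icc.prod isCompact_Icc)
  obtain ⟨C, hC⟩ := hcomp.exists_bound_of_continuousOn (f := fun p : ℝ × ℝ × ℝ => G p.1 p.2.1 p.2.2)
    (Continuous.continuousOn hG)
  refine ⟨C, fun x c hc => ?_⟩
  have h1 := Stage_abs (ha1 x) hc
  have h2 := Stage_abs (hb1 x) hc
  have hcc : |c| ≤ 1 := abs_le.2 ⟨hc.1, hc.2⟩
  have hs1 : |s x| ≤ |Cs| := (hCs x).trans (le_abs_self _)
  have hw1 : |w x| ≤ |Cw| := (hCw x).trans (le_abs_self _)
  have hy1 : |y x| ≤ |Cy| := (hCy x).trans (le_abs_self _)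
  have ho1 : |yo x| ≤ |Co| := (hCo x).trans (le_abs_self _)
  have h3 : |s x * (1 + a x * c)| ≤ R := by
    rw [abs_mul, abs_of_pos (show (0 : ℝ) < 1 + a x * c by linarith [h1.1])]
    have h4 : |s x| * (1 + a x * c) ≤ |Cs| * 2 :=
      mul_le_mul hs1 (by linarith [h1.2]) (by linarith [h1.1]) (abs_nonneg _)
    rw [hR]
    linarith [abs_nonneg Cw, abs_nonneg Cy, abs_nonneg Co]
  have h4 : |w x * (1 + b x * c)| ≤ R := by
    rw [abs_mul, abs_of_pos (show (0 : ℝ) < 1 + b x * c by linarith [h2.1])]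
    have h5 : |w x| * (1 + b x * c) ≤ |Cw| * 2 :=
      mul_le_mul hw1 (by linarith [h2.2]) (by linarith [h2.1]) (abs_nonneg _)
    rw [hR]
    linarith [abs_nonneg Cs, abs_nonneg Cy, abs_nonneg Co]
  have h5 : |y x + yo x * c| ≤ R := by
    have h6 : |yo x * c| ≤ |Co| := by
      rw [abs_mul]
      calc |yo x| * |c| ≤ |Co| * 1 := mul_le_mul ho1 hcc (abs_nonneg _) (abs_nonneg _)
        _ = |Co| := mul_one _
    have h7 := abs_add_le (y x) (yo x * c)
    rw [hR]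
    linarith [abs_nonneg Cs, abs_nonneg Cw]
  have h6 := hC (s x * (1 + a x * c), w x * (1 + b x * c), y x + yo x * c)
    ⟨⟨(abs_le.1 h3).1, (abs_le.1 h3).2⟩, ⟨(abs_le.1 h4).1, (abs_le.1 h4).2⟩,
      ⟨(abs_le.1 h5).1, (abs_le.1 h5).2⟩⟩
  exact h6

private theorem Stage_alg {V : Type*} [AddCommGroup V] [Module ℂ V] (u v y z Tu Tv : V)
    (a k b : ℂ) (h : a • v + k • z = b • v) :
    Tu + Tv - (a • (u + v) + k • (y + z)) = (Tu - (a • u + k • y)) + (Tv - b • v) := by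
  rw [← h, smul_add, smul_add]
  abel

theorem stage {L : ℝ} (hL : 0 ≤ L) {m mr : E n → ℝ} (hm : Sym L m) (hmr : Sym L mr) {φ : H n}
    {d₁ : E n} (hd₁ : ‖d₁‖ = 1) {r : ℝ} (hr : 0 ≤ r) (hφ : Supp (Metric.closedBall d₁ r) φ)
    {κ D B δ : ℝ} (hD : 2 ^ (n + 3) ≤ D) (hB : 5 ≤ B) {s w y : E n → ℝ}
    (h : State m mr φ d₁ κ D B δ s w y) {d : E n} (hd : ‖d‖ = 1) (hmd : m d = 0)
    {K : ℝ} {a b yo : E n → ℝ} (ha : TPr K a) (hb : TPr K b) (hyot : TPr K yo)
    (ha1 : ∀ x, |a x| ≤ 1 / 2) (hb1 : ∀ x, |b x| ≤ 1 / 2)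
    (hab : ∀ x, ∀ c ∈ Set.Icc (-1 : ℝ) 1, s x * (1 + a x * c) * (w x * (1 + b x * c)) ≤ 1)
    (hyo : ∀ x, mr d₁ * (s x * a x) + κ * yo x = mr d * (s x * a x))
    {G : ℝ → ℝ → ℝ → ℝ} (hG : Cont3 G) {ε : ℝ} (hε : 0 < ε) :
    ∃ s' w' y' : E n → ℝ, State m mr φ d₁ κ (D + ε) (B + ε) (δ + ε) s' w' y' ∧
      (∀ x, w' x ≤ 2 * w x) ∧
      |(∫ x, G (s' x) (w' x) (y' x) * ‖φ x‖ ^ 2) -
        ∫ x, av (fun c => G (s x * (1 + a x * c)) (w x * (1 + b x * c)) (y x + yo x * c)) *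
          ‖φ x‖ ^ 2| ≤ ε ∧
      |(∫ x, s' x * ‖φ x‖ ^ 2) - ∫ x, s x * ‖φ x‖ ^ 2| ≤ ε := by
  obtain ⟨K', hs, hw, hy⟩ := h.tp
  obtain ⟨c, hc, hpos⟩ := h.pos
  set K₀ : ℝ := max (max K K') 0 with hK₀
  have hKK : K ≤ K₀ := (le_max_left _ _).trans (le_max_left _ _)
  have hKK' : K' ≤ K₀ := (le_max_right _ _).trans (le_max_left _ _)
  have hK0 : 0 ≤ K₀ := le_max_right _ _
  have hs := hs.mono hKK'
  have hw := hw.mono hKK'
  have hy := hy.mono hKK'
  have ha := ha.mono hKK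
  have hb := hb.mono hKK
  have hyot := hyot.mono hKK
  have hs0 : ∀ x, c ≤ s x := fun x => (hpos x).1
  have hw0 : ∀ x, c ≤ w x := fun x => (hpos x).2
  have hq : TPr (K₀ + K₀) fun x => s x * a x := hs.mul ha
  have hcs1 : ∀ lam x, cs d lam x ∈ Set.Icc (-1 : ℝ) 1 := fun lam x => abs_le.1 (cs_abs d lam x)
  have hint : Integrable (fun x => ‖φ x‖ ^ 2) := by
    simpa using Q_integrable (BMr.const 1) φ
  have hsc := hs.contDiff.continuous
  have hwc := hw.contDiff.continuous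
  have hyc := hy.contDiff.continuous
  have hac := ha.contDiff.continuous
  have hbc := hb.contDiff.continuous
  have hoc := hyot.contDiff.continuous
  obtain ⟨C₁, hC₁⟩ := Stage_bound hs.bmr hw.bmr hy.bmr hyot.bmr ha1 hb1 hG
  have hF₁ : Continuous fun p : E n × ℝ =>
      G (s p.1 * (1 + a p.1 * p.2)) (w p.1 * (1 + b p.1 * p.2)) (y p.1 + yo p.1 * p.2) := by
    have h1 : Continuous fun p : E n × ℝ =>
        (s p.1 * (1 + a p.1 * p.2), w p.1 * (1 + b p.1 * p.2), y p.1 + yo p.1 * p.2) := by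
      fun_prop
    exact Continuous.comp hG h1
  obtain ⟨l₁, hl₁⟩ := rl (F := fun x c => G (s x * (1 + a x * c)) (w x * (1 + b x * c))
    (y x + yo x * c)) hF₁ hC₁ hint hd ε hε
  obtain ⟨C₂, hC₂⟩ := Stage_bound hs.bmr hw.bmr hy.bmr hyot.bmr ha1 hb1
    (G := fun u _ _ => u) (by unfold Cont3; fun_prop)
  have hF₂ : Continuous fun p : E n × ℝ => s p.1 * (1 + a p.1 * p.2) := by fun_prop
  obtain ⟨l₂, hl₂⟩ := rl (F := fun x c => s x * (1 + a x * c)) hF₂ hC₂ hint hd ε hε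
  obtain ⟨l₃, hl₃⟩ := doub_step hs ha hc hs0 ha1 hD h.ds hd ε hε
  obtain ⟨l₄, hl₄⟩ := doub_step hw hb hc hw0 hb1 hD h.dw hd ε hε
  obtain ⟨l₅, hl₅⟩ := step hL hm hs hw ha hb hc hs0 (fun x => hc.le.trans (hw0 x)) h.sw ha1 hb1
    hB h.bd hd hmd ε hε
  obtain ⟨l₆, hl₆⟩ := lower1 hmr hL hd hq hd₁ hr hφ ε hε
  set lam : ℝ := max (max (max l₁ l₂) (max l₃ l₄)) (max l₅ l₆) with hlam
  have e₁ : lam ≥ l₁ := by rw [hlam]; simp
  have e₂ : lam ≥ l₂ := by rw [hlam]; simp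
  have e₃ : lam ≥ l₃ := by rw [hlam]; simp
  have e₄ : lam ≥ l₄ := by rw [hlam]; simp
  have e₅ : lam ≥ l₅ := by rw [hlam]; simp
  have e₆ : lam ≥ l₆ := by rw [hlam]; simp
  have hcs := cs_tpr hd lam
  have hone : TPr (K₀ + |lam|) (fun _ : E n => (1 : ℝ)) :=
    TPr.const (by positivity) 1
  have hs' : TPr (K₀ + (K₀ + |lam|)) fun x => s x * (1 + a x * cs d lam x) :=
    hs.mul (hone.add (ha.mul hcs))
  have hw' : TPr (K₀ + (K₀ + |lam|)) fun x => w x * (1 + b x * cs d lam x) :=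
    hw.mul (hone.add (hb.mul hcs))
  have hy' : TPr (K₀ + (K₀ + |lam|)) fun x => y x + yo x * cs d lam x :=
    (hy.mono (by linarith [abs_nonneg lam])).add ((hyot.mul hcs).mono (by linarith))
  refine ⟨fun x => s x * (1 + a x * cs d lam x), fun x => w x * (1 + b x * cs d lam x),
    fun x => y x + yo x * cs d lam x, ⟨⟨_, hs', hw', hy'⟩, ⟨c / 2, by positivity, ?_⟩, ?_,
      hl₃ lam e₃, hl₄ lam e₄, hl₅ lam e₅, ?_⟩, ?_, hl₁ lam e₁, ?_⟩
  · intro x
    have h1 := Stage_abs (ha1 x) (hcs1 lam x)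
    have h2 := Stage_abs (hb1 x) (hcs1 lam x)
    have h3 := hs0 x
    have h4 := hw0 x
    constructor
    · nlinarith [h1.1]
    · nlinarith [h2.1]
  · intro x
    exact hab x _ (hcs1 lam x)
  · have hqb : BMr fun x => s x * a x * cs d lam x := hq.bmr.mul hcs.bmr
    have hob : BMr fun x => yo x * cs d lam x := hyot.bmr.mul hcs.bmr
    have h1 : Mr (fun x => s x * (1 + a x * cs d lam x)) φ =
        Mr s φ + Mr (fun x => s x * a x * cs d lam x) φ := by
      rw [← Mr_add hs.bmr hqb]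
      congr 2
      funext x
      ring
    have h2 : Mr (fun x => y x + yo x * cs d lam x) φ =
        Mr y φ + Mr (fun x => yo x * cs d lam x) φ := Mr_add hy.bmr hob φ
    have h3 : (mr d₁ : ℂ) • Mr (fun x => s x * a x * cs d lam x) φ +
        (κ : ℂ) • Mr (fun x => yo x * cs d lam x) φ =
        (mr d : ℂ) • Mr (fun x => s x * a x * cs d lam x) φ := by
      rw [Stage_smul hqb, Stage_smul hob, Stage_smul hqb,
        ← Mr_add ((BMr.const _).mul hqb) ((BMr.const _).mul hob)]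
      congr 2
      funext x
      have h4 := hyo x
      calc mr d₁ * (s x * a x * cs d lam x) + κ * (yo x * cs d lam x) =
          (mr d₁ * (s x * a x) + κ * yo x) * cs d lam x := by ring
        _ = mr d * (s x * a x * cs d lam x) := by rw [h4]; ring
    have h4 : Tr mr (Mr (fun x => s x * (1 + a x * cs d lam x)) φ) -
        ((mr d₁ : ℂ) • Mr (fun x => s x * (1 + a x * cs d lam x)) φ +
          (κ : ℂ) • Mr (fun x => y x + yo x * cs d lam x) φ) =
        (Tr mr (Mr s φ) - ((mr d₁ : ℂ) • Mr s φ + (κ : ℂ) • Mr y φ)) +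
        (Tr mr (Mr (fun x => s x * a x * cs d lam x) φ) -
          (mr d : ℂ) • Mr (fun x => s x * a x * cs d lam x) φ) := by
      rw [h1, h2, map_add]
      exact Stage_alg _ _ _ _ _ _ _ _ _ h3
    rw [h4]
    refine (norm_add_le _ _).trans ?_
    exact add_le_add h.lo (hl₆ lam e₆)
  · intro x
    have h2 := Stage_abs (hb1 x) (hcs1 lam x)
    have h4 := hw0 x
    show w x * (1 + b x * cs d lam x) ≤ 2 * w x
    nlinarith [h2.2]
  · have h1 := hl₂ lam e₂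
    have h2 : ∀ x, (∫ θ in (0 : ℝ)..1, s x * (1 + a x * Real.cos (2 * Real.pi * θ))) = s x := by
      intro x
      have h3 : av (fun c => s x + s x * a x * c) = s x := by
        rw [av_add (f := fun _ => s x) (g := fun c => s x * a x * c)
          (by fun_prop) (by fun_prop), av_const, av_odd, add_zero]
        intro c
        ring
      calc (∫ θ in (0 : ℝ)..1, s x * (1 + a x * Real.cos (2 * Real.pi * θ))) =
          av (fun c => s x + s x * a x * c) := by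
            unfold av
            congr 1
            funext θ
            ring
        _ = s x := h3
    simp only [h2] at h1
    exact h1

end Pool.Agent.helper12.RT
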