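import Pool.Agent.helper12.RT.Stage

/-!
# RT-StageEO: the even and the odd stages

PROOF.  Apply `stage` (from `Stage.lean`).
`stageE`: `d = d₂`, `a = 1/4`, `b = -1/4`, `yo = s / 4`; `s' w' = s w (1 - cs²/16) ≤ 1`.  `stageO`: `d = d₁`, `a = b = (1 - s w) / 2`, `yo = 0`;
`s' w' = P (1 + (1 - P) cs / 2)² ≤ P (1 + (1-P)/2)² ≤ 1` for `0 ≤ P = s w ≤ 1`.
`avE`, `avO` unfold to the averages in `stage` (`av_congr` for the order of the factors).
-/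

set_option autoImplicit false

open MeasureTheory FourierTransform
open scoped ENNReal InnerProductSpace ComplexConjugate

namespace Pool.Agent.helper12.RT

variable {n : ℕ}

theorem stageE {L : ℝ} (hL : 0 ≤ L) {m mr : E n → ℝ} (hm : Sym L m) (hmr : Sym L mr) {φ : H n}
    {d₁ : E n} (hd₁ : ‖d₁‖ = 1) {r : ℝ} (hr : 0 ≤ r) (hφ : Supp (Metric.closedBall d₁ r) φ)
    {κ D B δ : ℝ} (hD : 2 ^ (n + 3) ≤ D) (hB : 5 ≤ B) {s w y : E n → ℝ}
    (h : State m mr φ d₁ κ D B δ s w y) {d₂ : E n} (hd₂ : ‖d₂‖ = 1) (hmd : m d₂ = 0)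
    (hκ : κ = mr d₂ - mr d₁) {G : ℝ → ℝ → ℝ → ℝ} (hG : Cont3 G) {ε : ℝ} (hε : 0 < ε) :
    ∃ s' w' y' : E n → ℝ, State m mr φ d₁ κ (D + ε) (B + ε) (δ + ε) s' w' y' ∧
      (∀ x, w' x ≤ 2 * w x) ∧
      |(∫ x, G (s' x) (w' x) (y' x) * ‖φ x‖ ^ 2) -
        ∫ x, avE G (s x) (w x) (y x) * ‖φ x‖ ^ 2| ≤ ε ∧
      |(∫ x, s' x * ‖φ x‖ ^ 2) - ∫ x, s x * ‖φ x‖ ^ 2| ≤ ε := by
  obtain ⟨K, hs, hw, hy⟩ := h.tp
  obtain ⟨c0, hc0, hpos⟩ := h.pos
  have hK : (0 : ℝ) ≤ max K 0 := le_max_right _ _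
  have hs' : TPr (max K 0) s := hs.mono (le_max_left _ _)
  have ha : TPr (max K 0 + 0) (fun _ : E n => (1 / 4 : ℝ)) := TPr.const (by simpa using hK) _
  have hb : TPr (max K 0 + 0) (fun _ : E n => (-(1 / 4) : ℝ)) := TPr.const (by simpa using hK) _
  have hyo : TPr (max K 0 + 0) (fun x => s x * (1 / 4)) :=
    TPr.mul hs' (TPr.const (le_refl 0) (1 / 4))
  obtain ⟨s', w', y', h1, h2, h3, h4⟩ := stage hL hm hmr hd₁ hr hφ hD hB h hd₂ hmd ha hb hyo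
    (fun x => by norm_num) (fun x => by norm_num)
    (fun x c hc => by
      have hP0 : 0 ≤ s x * w x := mul_nonneg (hc0.le.trans (hpos x).1) (hc0.le.trans (hpos x).2)
      have hP1 := h.sw x
      have hcc : c ^ 2 ≤ 1 := by nlinarith [hc.1, hc.2]
      have e1 : s x * (1 + 1 / 4 * c) * (w x * (1 + -(1 / 4) * c)) =
          s x * w x * (1 - c ^ 2 / 16) := by ring
      rw [e1]
      nlinarith [sq_nonneg c, mul_nonneg hP0 (sq_nonneg c)])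
    (fun x => by rw [hκ]; ring) hG hε
  refine ⟨s', w', y', h1, h2, ?_, h4⟩
  have e2 : ∀ x, av (fun c => G (s x * (1 + 1 / 4 * c)) (w x * (1 + -(1 / 4) * c))
      (y x + s x * (1 / 4) * c)) = avE G (s x) (w x) (y x) := by
    intro x
    unfold avE
    congr 1
    funext c
    rw [mul_assoc (s x) (1 / 4) c]
  simp only [e2] at h3
  exact h3

theorem stageO {L : ℝ} (hL : 0 ≤ L) {m mr : E n → ℝ} (hm : Sym L m) (hmr : Sym L mr) {φ : H n}
    {d₁ : E n} (hd₁ : ‖d₁‖ = 1) {r : ℝ} (hr : 0 ≤ r) (hφ : Supp (Metric.closedBall d₁ r) φ)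
    {κ D B δ : ℝ} (hD : 2 ^ (n + 3) ≤ D) (hB : 5 ≤ B) {s w y : E n → ℝ}
    (h : State m mr φ d₁ κ D B δ s w y) (hmd : m d₁ = 0)
    {G : ℝ → ℝ → ℝ → ℝ} (hG : Cont3 G) {ε : ℝ} (hε : 0 < ε) :
    ∃ s' w' y' : E n → ℝ, State m mr φ d₁ κ (D + ε) (B + ε) (δ + ε) s' w' y' ∧
      (∀ x, w' x ≤ 2 * w x) ∧
      |(∫ x, G (s' x) (w' x) (y' x) * ‖φ x‖ ^ 2) -
        ∫ x, avO G (s x) (w x) (y x) * ‖φ x‖ ^ 2| ≤ ε ∧
      |(∫ x, s' x * ‖φ x‖ ^ 2) - ∫ x, s x * ‖φ x‖ ^ 2| ≤ ε := by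
  obtain ⟨K, hs, hw, hy⟩ := h.tp
  obtain ⟨c0, hc0, hpos⟩ := h.pos
  have hK : (0 : ℝ) ≤ max K 0 := le_max_right _ _
  have hs' : TPr (max K 0) s := hs.mono (le_max_left _ _)
  have hw' : TPr (max K 0) w := hw.mono (le_max_left _ _)
  have hKK : (0 : ℝ) ≤ max K 0 + max K 0 := add_nonneg hK hK
  have ha : TPr (max K 0 + max K 0 + 0) (fun x : E n => (1 - s x * w x) / 2) := by
    have e1 := TPr.mul (TPr.sub (TPr.const (n := n) hKK 1) (TPr.mul hs' hw'))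
      (TPr.const (le_refl 0) (1 / 2))
    have e2 : (fun x : E n => (1 - s x * w x) / 2) = fun x => (1 - s x * w x) * (1 / 2) := by
      funext x
      ring
    rw [e2]
    exact e1
  have hyo : TPr (max K 0 + max K 0 + 0) (fun _ : E n => (0 : ℝ)) :=
    TPr.const (by simpa using hKK) _
  have hP0 : ∀ x, 0 ≤ s x * w x := fun x =>
    mul_nonneg (hc0.le.trans (hpos x).1) (hc0.le.trans (hpos x).2)
  have ha1 : ∀ x, |(1 - s x * w x) / 2| ≤ 1 / 2 := by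
    intro x
    rw [abs_le]
    constructor <;> linarith [hP0 x, h.sw x]
  obtain ⟨s', w', y', h1, h2, h3, h4⟩ := stage hL hm hmr hd₁ hr hφ hD hB h hd₁ hmd ha ha hyo
    ha1 ha1
    (fun x c hc => by
      have h0 := hP0 x
      have h1 := h.sw x
      have e1 : s x * (1 + (1 - s x * w x) / 2 * c) * (w x * (1 + (1 - s x * w x) / 2 * c)) =
          s x * w x * (1 + (1 - s x * w x) / 2 * c) ^ 2 := by ring
      rw [e1]
      generalize s x * w x = P at h0 h1 ⊢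
      have e2 : 0 ≤ 1 + (1 - P) / 2 * c := by nlinarith [hc.1, hc.2]
      have e3 : 1 + (1 - P) / 2 * c ≤ 1 + (1 - P) / 2 := by nlinarith [hc.1, hc.2]
      have e4 : (1 + (1 - P) / 2 * c) ^ 2 ≤ (1 + (1 - P) / 2) ^ 2 := pow_le_pow_left₀ e2 e3 2
      have e5 : P * (1 + (1 - P) / 2 * c) ^ 2 ≤ P * (1 + (1 - P) / 2) ^ 2 :=
        mul_le_mul_of_nonneg_left e4 h0
      have e6 : 1 - P * (1 + (1 - P) / 2) ^ 2 = (1 - P) ^ 2 * (4 - P) / 4 := by ring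
      have e7 : 0 ≤ (1 - P) ^ 2 * (4 - P) / 4 := by
        have : 0 ≤ 4 - P := by linarith
        positivity
      linarith)
    (fun x => by ring) hG hε
  refine ⟨s', w', y', h1, h2, ?_, h4⟩
  have e2 : ∀ x, av (fun c => G (s x * (1 + (1 - s x * w x) / 2 * c))
      (w x * (1 + (1 - s x * w x) / 2 * c)) (y x + 0 * c)) = avO G (s x) (w x) (y x) := by
    intro x
    unfold avO
    congr 1
    funext c
    rw [zero_mul, add_zero]
  simp only [e2] at h3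
  exact h3

end Pool.Agent.helper12.RT
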