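import Pool.Agent.helper12.RT.OpsT

/-!
# RT-SuppA: functions with restricted frequencies

PROOFS.  `Supp A u`: the Fourier transform of `u` vanishes a.e. outside `A` (no measurability of `A` is needed).
`fourier_T`, `M_apply` for `𝓕 (T m u)`; `fourier_add` etc. and `Lp.coeFn_add`, `Lp.coeFn_smul`, `Lp.coeFn_sub` for the linear statements.
`T_congr`: the Fourier transforms are a.e. equal (`Lp.ext`, injectivity of `𝓕⁻`).
`T_norm_le_of_supp`: `‖T m u‖ = ‖M m (𝓕 u)‖`, and `‖m ξ * 𝓕 u ξ‖ ≤ C * ‖𝓕 u ξ‖` a.e. (`Lp.norm_le_mul_norm_of_ae_le_mul`).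
`inner_eq_zero_of_supp`: `Lp.inner_fourier_eq`, `L2.inner_def`, the integrand vanishes a.e.
-/

set_option autoImplicit false

open MeasureTheory FourierTransform
open scoped ENNReal InnerProductSpace ComplexConjugate

namespace Pool.Agent.helper12.RT

variable {n : ℕ}

theorem Supp.mono {A B : Set (E n)} {u : H n} (h : Supp A u) (hAB : A ⊆ B) : Supp B u := by
  filter_upwards [h] with ξ hξ hB
  exact hξ fun hA => hB (hAB hA)

theorem supp_univ (u : H n) : Supp Set.univ u := by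
  exact Filter.Eventually.of_forall fun ξ h => absurd (Set.mem_univ ξ) h

theorem Supp.add {A : Set (E n)} {u v : H n} (hu : Supp A u) (hv : Supp A v) :
    Supp A (u + v) := by
  have h0 : (𝓕 (u + v) : H n) = 𝓕 u + 𝓕 v := map_add (Lp.fourierTransformₗᵢ (E n) ℂ) u v
  unfold Supp
  rw [h0]
  filter_upwards [hu, hv, Lp.coeFn_add (𝓕 u : H n) (𝓕 v)] with ξ h1 h2 h3 h4
  rw [h3, Pi.add_apply, h1 h4, h2 h4, add_zero]

theorem Supp.sub {A : Set (E n)} {u v : H n} (hu : Supp A u) (hv : Supp A v) :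
    Supp A (u - v) := by
  have h0 : (𝓕 (u - v) : H n) = 𝓕 u - 𝓕 v := map_sub (Lp.fourierTransformₗᵢ (E n) ℂ) u v
  unfold Supp
  rw [h0]
  filter_upwards [hu, hv, Lp.coeFn_sub (𝓕 u : H n) (𝓕 v)] with ξ h1 h2 h3 h4
  rw [h3, Pi.sub_apply, h1 h4, h2 h4, sub_zero]

theorem Supp.smul {A : Set (E n)} {u : H n} (c : ℂ) (hu : Supp A u) : Supp A (c • u) := by
  have h0 : (𝓕 (c • u) : H n) = c • 𝓕 u := map_smul (Lp.fourierTransformₗᵢ (E n) ℂ) c u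
  unfold Supp
  rw [h0]
  filter_upwards [hu, Lp.coeFn_smul c (𝓕 u : H n)] with ξ h1 h3 h4
  rw [h3, Pi.smul_apply, h1 h4, smul_zero]

theorem Supp.inter {A B : Set (E n)} {u : H n} (hA : Supp A u) (hB : Supp B u) :
    Supp (A ∩ B) u := by
  filter_upwards [hA, hB] with ξ h1 h2 h3
  by_cases h : ξ ∈ A
  · exact h2 fun hb => h3 ⟨h, hb⟩
  · exact h1 h

theorem Supp.T {A : Set (E n)} {u : H n} (hu : Supp A u) {m : E n → ℂ} (hm : BM m) :
    Supp A (T m u) := by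
  unfold Supp
  rw [fourier_T]
  filter_upwards [hu, M_apply hm (𝓕 u : H n)] with ξ h1 h2 h3
  rw [h2, h1 h3, mul_zero]

theorem Supp.Tr {A : Set (E n)} {u : H n} (hu : Supp A u) {m : E n → ℝ} (hm : BMr m) :
    Supp A (Tr m u) := by
  exact Supp.T hu hm.bm

theorem supp_of_symbol {A : Set (E n)} {m : E n → ℝ} (hm : BMr m) (h : ∀ ξ, ξ ∉ A → m ξ = 0)
    (u : H n) : Supp A (RT.Tr m u) := by
  unfold Supp RT.Tr
  rw [fourier_T]
  filter_upwards [M_apply hm.bm (𝓕 u : H n)] with ξ h2 h3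
  rw [h2, h ξ h3, Complex.ofReal_zero, zero_mul]

theorem Tr_congr {A : Set (E n)} {u : H n} (hu : Supp A u) {m m' : E n → ℝ} (hm : BMr m)
    (hm' : BMr m') (h : ∀ ξ ∈ A, m ξ = m' ξ) : RT.Tr m u = RT.Tr m' u := by
  apply (Lp.fourierTransformₗᵢ (E n) ℂ).injective
  have h1 : (𝓕 (RT.Tr m u) : H n) = M (fun ξ => (m ξ : ℂ)) (𝓕 u) := fourier_T _ u
  have h2 : (𝓕 (RT.Tr m' u) : H n) = M (fun ξ => (m' ξ : ℂ)) (𝓕 u) := fourier_T _ u
  change (𝓕 (RT.Tr m u) : H n) = 𝓕 (RT.Tr m' u)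
  rw [h1, h2]
  apply Lp.ext
  filter_upwards [hu, M_apply hm.bm (𝓕 u : H n), M_apply hm'.bm (𝓕 u : H n)] with ξ h3 h4 h5
  rw [h4, h5]
  by_cases hA : ξ ∈ A
  · rw [h ξ hA]
  · rw [h3 hA, mul_zero, mul_zero]

theorem Tr_norm_le_of_supp {A : Set (E n)} {u : H n} (hu : Supp A u) {m : E n → ℝ} (hm : BMr m)
    {C : ℝ} (h0 : 0 ≤ C) (h : ∀ ξ ∈ A, |m ξ| ≤ C) : ‖RT.Tr m u‖ ≤ C * ‖u‖ := by
  have h1 : (𝓕 (RT.Tr m u) : H n) = M (fun ξ => (m ξ : ℂ)) (𝓕 u) := fourier_T _ u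
  have h2 : ‖RT.Tr m u‖ = ‖(𝓕 (RT.Tr m u) : H n)‖ :=
    ((Lp.fourierTransformₗᵢ (E n) ℂ).norm_map _).symm
  have h3 : ‖u‖ = ‖(𝓕 u : H n)‖ := ((Lp.fourierTransformₗᵢ (E n) ℂ).norm_map _).symm
  rw [h2, h3, h1]
  apply Lp.norm_le_mul_norm_of_ae_le_mul
  filter_upwards [hu, M_apply hm.bm (𝓕 u : H n)] with ξ h4 h5
  rw [h5, norm_mul, Complex.norm_real, Real.norm_eq_abs]
  by_cases hA : ξ ∈ A
  · exact mul_le_mul_of_nonneg_right (h ξ hA) (norm_nonneg _)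
  · rw [h4 hA, norm_zero, mul_zero, mul_zero]

theorem inner_eq_zero_of_supp {A B : Set (E n)} (hAB : Disjoint A B) {u v : H n}
    (hu : Supp A u) (hv : Supp B v) : ⟪u, v⟫_ℂ = 0 := by
  have h1 : ⟪u, v⟫_ℂ = ⟪(𝓕 u : H n), (𝓕 v : H n)⟫_ℂ :=
    (LinearIsometryEquiv.inner_map_map (Lp.fourierTransformₗᵢ (E n) ℂ) u v).symm
  rw [h1, L2.inner_def]
  apply integral_eq_zero_of_ae
  filter_upwards [hu, hv] with ξ h2 h3
  by_cases hA : ξ ∈ A
  · rw [h3 fun hB => Set.disjoint_left.mp hAB hA hB, inner_zero_right]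
    rfl
  · rw [h2 hA, inner_zero_left]
    rfl

end Pool.Agent.helper12.RT
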