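import Mathlib

/-!
# RT-TowerA: averages over the circle, elementary inequalities

Notation: `c = cos (2 π θ)`, averages over `θ ∈ [0, 1]`.
PROOFS.  `av_pow_*`: `integral_cos`, `integral_cos_sq` and so on, or: `av_odd` for odd functions (substitute `θ ↦ θ + 1/2`, periodicity), and
`∫ c² = 1/2` from `cos_sq` (`c² = 1/2 + cos (4 π θ) / 2`).
`av_log_one_sub`: `- log (1 - t) ≤ t / (1 - t)` for `0 ≤ t < 1` (`Real.one_sub_inv_le_log_of_pos` or `Real.log_le_sub_one_of_pos` for
`1 / (1 - t)`), with `t = c² / 16 ≤ 1 / 16`: `- log (1 - c²/16) ≤ c² / 15`, average `1 / 30`.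
`av_mul_log`: `(1 + x) log (1 + x) ≥ x + x² / 2 - x³ / 6` for `x > -1` (the second derivative of the difference is
`1 / (1 + x) - 1 + x = x² / (1 + x) ≥ 0`, value and first derivative vanish at `0`; or use `log (1 + x) ≥ 2 x / (2 + x)` for `x ≥ 0` and a
direct proof for `x < 0`), with `x = t c`, `|t| ≤ 1/2`; the average of the right-hand side is `t² / 4` (`c³` is odd).
-/

set_option autoImplicit false

open MeasureTheory

namespace Pool.Agent.helper12.RT

/-- the average of `f (cos (2 π θ))` over `θ ∈ [0, 1]` -/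
noncomputable def av (f : ℝ → ℝ) : ℝ := ∫ θ in (0 : ℝ)..1, f (Real.cos (2 * Real.pi * θ))

theorem cos_mem_Icc' (x : ℝ) : Real.cos x ∈ Set.Icc (-1 : ℝ) 1 :=
  ⟨Real.neg_one_le_cos x, Real.cos_le_one x⟩

theorem av_integrable {f : ℝ → ℝ} (hf : ContinuousOn f (Set.Icc (-1) 1)) :
    IntervalIntegrable (fun θ : ℝ => f (Real.cos (2 * Real.pi * θ))) volume 0 1 := by
  apply Continuous.intervalIntegrable
  exact hf.comp_continuous (by fun_prop) (fun x => cos_mem_Icc' _)

theorem av_add {f g : ℝ → ℝ} (hf : ContinuousOn f (Set.Icc (-1) 1))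
    (hg : ContinuousOn g (Set.Icc (-1) 1)) : av (fun c => f c + g c) = av f + av g := by
  unfold av
  rw [← intervalIntegral.integral_add (av_integrable hf) (av_integrable hg)]

theorem av_sub {f g : ℝ → ℝ} (hf : ContinuousOn f (Set.Icc (-1) 1))
    (hg : ContinuousOn g (Set.Icc (-1) 1)) : av (fun c => f c - g c) = av f - av g := by
  unfold av
  rw [← intervalIntegral.integral_sub (av_integrable hf) (av_integrable hg)]

theorem av_mul (a : ℝ) (f : ℝ → ℝ) : av (fun c => a * f c) = a * av f := by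
  unfold av
  rw [← intervalIntegral.integral_const_mul]

theorem av_const (a : ℝ) : av (fun _ => a) = a := by
  unfold av
  simp

theorem av_mono {f g : ℝ → ℝ} (hf : ContinuousOn f (Set.Icc (-1) 1))
    (hg : ContinuousOn g (Set.Icc (-1) 1)) (h : ∀ c ∈ Set.Icc (-1 : ℝ) 1, f c ≤ g c) :
    av f ≤ av g := by
  unfold av
  apply intervalIntegral.integral_mono_on zero_le_one (av_integrable hf) (av_integrable hg)
  intro x _
  exact h _ (cos_mem_Icc' _)

/-- the average of an odd function is zero -/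
theorem av_odd {f : ℝ → ℝ} (h : ∀ c, f (-c) = - f c) : av f = 0 := by
  unfold av
  set F : ℝ → ℝ := fun θ => f (Real.cos (2 * Real.pi * θ)) with hF
  have hper : Function.Periodic F 1 := by
    intro x
    simp only [hF]
    congr 1
    rw [mul_add, mul_one, Real.cos_add_two_pi]
  have hhalf : ∀ x, F (x + 1 / 2) = - F x := by
    intro x
    simp only [hF]
    rw [show 2 * Real.pi * (x + 1 / 2) = 2 * Real.pi * x + Real.pi by ring, Real.cos_add_pi, h]
  have h1 : ∫ θ in (0 : ℝ)..1, F (θ + 1 / 2) = ∫ θ in (0 : ℝ)..1, F θ := by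
    rw [intervalIntegral.integral_comp_add_right]
    have := hper.intervalIntegral_add_eq (1 / 2) 0
    rw [show (0 : ℝ) + 1 / 2 = 1 / 2 by ring, show (1 : ℝ) + 1 / 2 = 1 / 2 + 1 by ring, this]
    simp
  have h2 : ∫ θ in (0 : ℝ)..1, F (θ + 1 / 2) = - ∫ θ in (0 : ℝ)..1, F θ := by
    simp only [hhalf]
    rw [intervalIntegral.integral_neg]
  have h3 : ∫ θ in (0 : ℝ)..1, F θ = - ∫ θ in (0 : ℝ)..1, F θ := by rw [← h2, h1]
  have h4 : ∫ θ in (0 : ℝ)..1, F θ = 0 := by linarith
  exact h4

theorem av_congr {f g : ℝ → ℝ} (h : ∀ c ∈ Set.Icc (-1 : ℝ) 1, f c = g c) : av f = av g := by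
  unfold av
  congr 1
  ext θ
  exact h _ (cos_mem_Icc' _)

theorem av_sq : av (fun c => c ^ 2) = 1 / 2 := by
  have h1 : av (fun c => c ^ 2) = av (fun c => 1 / 2 + 1 / 2 * (2 * c ^ 2 - 1)) := by
    apply av_congr
    intro c _
    ring
  have h2 : av (fun c => 2 * c ^ 2 - 1) = 0 := by
    unfold av
    have h3 : ∀ θ : ℝ, 2 * Real.cos (2 * Real.pi * θ) ^ 2 - 1 = Real.cos (4 * Real.pi * θ) := by
      intro θ
      rw [← Real.cos_two_mul]
      congr 1
      ring
    simp only [h3]
    rw [intervalIntegral.integral_comp_mul_left (fun x => Real.cos x) (by positivity)]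
    rw [integral_cos]
    have h5 : Real.sin (4 * Real.pi * 1) = 0 := by
      rw [mul_one, show 4 * Real.pi = ((4 : ℕ) : ℝ) * Real.pi by norm_num, Real.sin_nat_mul_pi]
    rw [h5]
    simp
  rw [h1, av_add (by fun_prop) (by fun_prop), av_mul, av_const, h2]
  norm_num

theorem av_log_one_sub : -(1 / 30) ≤ av (fun c => Real.log (1 - c ^ 2 / 16)) := by
  have hpos : ∀ c ∈ Set.Icc (-1 : ℝ) 1, 0 < 1 - c ^ 2 / 16 := by
    intro c hc
    have : c ^ 2 ≤ 1 := by nlinarith [hc.1, hc.2]
    linarith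
  have h1 : av (fun c => -(1 / 15) * c ^ 2) ≤ av (fun c => Real.log (1 - c ^ 2 / 16)) := by
    apply av_mono (by fun_prop)
    · intro c hc
      exact ContinuousAt.continuousWithinAt
        (ContinuousAt.log (by fun_prop) (hpos c hc).ne')
    · intro c hc
      have hp := hpos c hc
      have h2 := Real.one_sub_inv_le_log_of_pos hp
      have h3 : c ^ 2 ≤ 1 := by nlinarith [hc.1, hc.2]
      refine le_trans ?_ h2
      have h4 : 1 - (1 - c ^ 2 / 16)⁻¹ = -(c ^ 2 / 16) / (1 - c ^ 2 / 16) := by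
        have hp' := hp.ne'
        rw [eq_div_iff hp', sub_mul, inv_mul_cancel₀ hp']
        ring
      rw [h4, le_div_iff₀ hp]
      nlinarith [sq_nonneg c]
  rw [av_mul, av_sq] at h1
  linarith

theorem log_taylor_mono : MonotoneOn (fun u : ℝ => Real.log u - (u - 1) + (u - 1) ^ 2 / 2) (Set.Ioi 0) := by
  apply monotoneOn_of_deriv_nonneg (convex_Ioi 0)
  · intro u hu
    have hu' : (0 : ℝ) < u := hu
    exact ContinuousAt.continuousWithinAt
      (by have := Real.continuousAt_log hu'.ne'; fun_prop)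
  · intro u hu
    rw [interior_Ioi] at hu
    have hu' : (0 : ℝ) < u := hu
    have := (Real.hasDerivAt_log hu'.ne').differentiableAt
    exact DifferentiableAt.differentiableWithinAt (by fun_prop)
  · intro u hu
    rw [interior_Ioi] at hu
    have hu' : (0 : ℝ) < u := hu
    have h1 : HasDerivAt (fun u : ℝ => Real.log u - (u - 1) + (u - 1) ^ 2 / 2)
        (u⁻¹ - 1 + (u - 1)) u := by
      have a1 := Real.hasDerivAt_log hu'.ne'
      have a2 : HasDerivAt (fun u : ℝ => u - 1) 1 u := (hasDerivAt_id u).sub_const 1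
      have a3 : HasDerivAt (fun u : ℝ => (u - 1) ^ 2 / 2) (u - 1) u := by
        have := (a2.fun_pow 2).div_const 2
        exact this.congr_deriv (by norm_num)
      exact (a1.fun_sub a2).fun_add a3
    rw [h1.deriv]
    have h2 : u⁻¹ - 1 + (u - 1) = (u - 1) ^ 2 / u := by field_simp; ring
    rw [h2]
    positivity

theorem mul_log_lower' {u : ℝ} (hu : 0 < u) :
    0 ≤ u * Real.log u - (u - 1) - (u - 1) ^ 2 / 2 + (u - 1) ^ 3 / 6 := by
  have hK1 : ∀ v : ℝ, 1 ≤ v → 0 ≤ Real.log v - (v - 1) + (v - 1) ^ 2 / 2 := by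
    intro v hv
    have := log_taylor_mono (show (1 : ℝ) ∈ Set.Ioi 0 by simp) (show v ∈ Set.Ioi (0 : ℝ) from by
      simp; linarith) hv
    simpa using this
  have hK2 : ∀ v : ℝ, 0 < v → v ≤ 1 → Real.log v - (v - 1) + (v - 1) ^ 2 / 2 ≤ 0 := by
    intro v hv0 hv
    have := log_taylor_mono (show v ∈ Set.Ioi (0 : ℝ) from hv0) (show (1 : ℝ) ∈ Set.Ioi 0 by simp) hv
    simpa using this
  have hder : ∀ v : ℝ, 0 < v → HasDerivAt
      (fun u : ℝ => u * Real.log u - (u - 1) - (u - 1) ^ 2 / 2 + (u - 1) ^ 3 / 6)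
      (Real.log v - (v - 1) + (v - 1) ^ 2 / 2) v := by
    intro v hv
    have a1 := Real.hasDerivAt_mul_log hv.ne'
    have a2 : HasDerivAt (fun u : ℝ => u - 1) 1 v := (hasDerivAt_id v).sub_const 1
    have a3 : HasDerivAt (fun u : ℝ => (u - 1) ^ 2 / 2) (v - 1) v := by
      have := (a2.fun_pow 2).div_const 2
      exact this.congr_deriv (by norm_num)
    have a4 : HasDerivAt (fun u : ℝ => (u - 1) ^ 3 / 6) ((v - 1) ^ 2 / 2) v := by
      have := (a2.fun_pow 3).div_const 6
      exact this.congr_deriv (by norm_num; ring)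
    have := ((a1.fun_sub a2).fun_sub a3).fun_add a4
    exact this.congr_deriv (by ring)
  rcases le_total 1 u with h | h
  · have hm : MonotoneOn
        (fun u : ℝ => u * Real.log u - (u - 1) - (u - 1) ^ 2 / 2 + (u - 1) ^ 3 / 6) (Set.Ici 1) := by
      apply monotoneOn_of_deriv_nonneg (convex_Ici 1)
      · intro v hv
        have hv' : (1 : ℝ) ≤ v := hv
        exact (hder v (by linarith)).continuousAt.continuousWithinAt
      · intro v hv
        rw [interior_Ici] at hv
        have hv' : (1 : ℝ) < v := hv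
        exact (hder v (by linarith)).differentiableAt.differentiableWithinAt
      · intro v hv
        rw [interior_Ici] at hv
        have hv' : (1 : ℝ) < v := hv
        rw [(hder v (by linarith)).deriv]
        exact hK1 v hv'.le
    have := hm (show (1 : ℝ) ∈ Set.Ici 1 by simp) (show u ∈ Set.Ici (1 : ℝ) from h) h
    simpa using this
  · have hm : AntitoneOn
        (fun u : ℝ => u * Real.log u - (u - 1) - (u - 1) ^ 2 / 2 + (u - 1) ^ 3 / 6)
        (Set.Ioc 0 1) := by
      apply antitoneOn_of_deriv_nonpos (convex_Ioc 0 1)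
      · intro v hv
        exact (hder v hv.1).continuousAt.continuousWithinAt
      · intro v hv
        rw [interior_Ioc] at hv
        exact (hder v hv.1).differentiableAt.differentiableWithinAt
      · intro v hv
        rw [interior_Ioc] at hv
        rw [(hder v hv.1).deriv]
        exact hK2 v hv.1 hv.2.le
    have := hm (show u ∈ Set.Ioc (0 : ℝ) 1 from ⟨hu, h⟩) (show (1 : ℝ) ∈ Set.Ioc 0 1 by simp) h
    simpa using this

theorem mul_log_lower {x : ℝ} (hx : -1 < x) :
    x + x ^ 2 / 2 - x ^ 3 / 6 ≤ (1 + x) * Real.log (1 + x) := by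
  have := mul_log_lower' (u := 1 + x) (by linarith)
  have h : (1 + x) - 1 = x := by ring
  rw [h] at this
  linarith

theorem av_mul_log {t : ℝ} (ht : |t| ≤ 1 / 2) :
    t ^ 2 / 4 ≤ av (fun c => (1 + t * c) * Real.log (1 + t * c)) := by
  have habs := abs_le.mp ht
  have hpos : ∀ c ∈ Set.Icc (-1 : ℝ) 1, 1 / 2 ≤ 1 + t * c := by
    intro c hc
    have h1 : |t * c| ≤ 1 / 2 := by
      rw [abs_mul]
      have h2 : |c| ≤ 1 := abs_le.mpr hc
      nlinarith [abs_nonneg t, abs_nonneg c]
    linarith [(abs_le.mp h1).1]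
  have h1 : av (fun c => (t * c + (-(t ^ 3 / 6)) * c ^ 3) + t ^ 2 / 2 * c ^ 2) ≤
      av (fun c => (1 + t * c) * Real.log (1 + t * c)) := by
    apply av_mono (by fun_prop)
    · intro c hc
      apply ContinuousAt.continuousWithinAt
      apply ContinuousAt.mul (by fun_prop)
      exact ContinuousAt.log (by fun_prop) (by linarith [hpos c hc] : (0 : ℝ) < 1 + t * c).ne'
    · intro c hc
      have hp := hpos c hc
      have := mul_log_lower (x := t * c) (by linarith)
      nlinarith [this]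
  have h2 : av (fun c => (t * c + (-(t ^ 3 / 6)) * c ^ 3) + t ^ 2 / 2 * c ^ 2) = t ^ 2 / 4 := by
    rw [av_add (by fun_prop) (by fun_prop), av_mul, av_sq, av_odd (f := fun c => t * c + (-(t ^ 3 / 6)) * c ^ 3)]
    · ring
    · intro c
      ring
  linarith

end Pool.Agent.helper12.RT
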