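import Pool.Agent.helper12.RT.Build

/-!
# RT-Unb: the rotated operator is unbounded

PROOF of `unbounded`.  Given `N ≥ 0` and `ε ∈ (0, 1]` (the slack for `D, B`).  Let `κ ≠ 0`, `|κ| ≤ 2`.  Choose `J` with
`|κ| √(J / 100 - 1) > √(2 N) + 4`, then `r > 0` with `2 ^ J L r ≤ 1 / 2`, `φ` from `exists_slow d₁`, and `ε' ≤ ε` with `2 ^ J ε' ≤ 1 / 2`.  `build` gives `s, w, y`.
Suppose `Bd mr s w N`.  Let `v = Tr mr (Mr s φ)`, `X = mr d₁ • Mr s φ + κ • Mr y φ`, `‖v - X‖ ≤ L r + ε'`.  `√(Q w ·)` is a seminorm (`Q_add_le`), so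
`|κ| √(Q w (Mr y φ)) ≤ √(Q w v) + √(Q w (X - v)) + |mr d₁| √(Q w (Mr s φ))`.  Here `Q w (Mr y φ) = ∫ w y² ‖φ‖² ≥ J / 100 - 1`;
`Q w v ≤ N Q s φ ≤ 2 N`; `√(Q w (X - v)) ≤ √(4 ^ J) ‖X - v‖ ≤ 1`; `Q w (Mr s φ) = ∫ w s² ‖φ‖² ≤ ∫ s ‖φ‖² ≤ 2`.  Contradiction.
-/

set_option autoImplicit false

open MeasureTheory FourierTransform
open scoped ENNReal InnerProductSpace ComplexConjugate

namespace Pool.Agent.helper12.RT

variable {n : ℕ}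

theorem unbounded {L : ℝ} (hL : 0 ≤ L) {m mr : E n → ℝ} (hm : Sym L m) (hmr : Sym L mr)
    {d₁ d₂ : E n} (hd₁ : ‖d₁‖ = 1) (hd₂ : ‖d₂‖ = 1) (hm₁ : m d₁ = 0) (hm₂ : m d₂ = 0)
    (hne : mr d₁ ≠ mr d₂) (N : ℝ) :
    ∃ s w : E n → ℝ, (∃ K : ℝ, TPr K s ∧ TPr K w) ∧ (∃ c : ℝ, 0 < c ∧ ∀ x, c ≤ s x ∧ c ≤ w x) ∧
      (∀ x, s x * w x ≤ 1) ∧ DoublingLe (dens s) (2 ^ (n + 4)) ∧
      DoublingLe (dens w) (2 ^ (n + 4)) ∧ Bd m s w 6 ∧ ¬ Bd mr s w N := by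
  classical
  set κ : ℝ := mr d₂ - mr d₁ with hκdef
  have hκ : κ ≠ 0 := fun h => hne (by linarith [sub_eq_zero.1 h])
  have hκ0 : 0 < |κ| := abs_pos.2 hκ
  set N' : ℝ := max N 0 with hN'
  have hN0 : 0 ≤ N' := le_max_right _ _
  set R : ℝ := (√(2 * N') + 4) / |κ| with hR
  have hR0 : 0 < R := by positivity
  have hκR : |κ| * R = √(2 * N') + 4 := by
    rw [hR]
    field_simp
  obtain ⟨J, hJ⟩ := exists_nat_gt (100 * (1 + R ^ 2))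
  have hJ1 : R ^ 2 < (J : ℝ) / 100 - 1 := by linarith
  have h2J : (0 : ℝ) < 2 ^ J := by positivity
  have h2J1 : (1 : ℝ) ≤ 2 ^ J := one_le_pow₀ (by norm_num)
  have hL1 : 0 < L + 1 := by linarith
  set r : ℝ := 1 / (2 * 2 ^ J * (L + 1)) with hr
  have hr0 : 0 < r := by positivity
  have hLr : 2 ^ J * (L * r) ≤ 1 / 2 := by
    have h1 : 2 ^ J * ((L + 1) * r) = 1 / 2 := by
      rw [hr]
      field_simp
    have h2 : L * r ≤ (L + 1) * r := mul_le_mul_of_nonneg_right (by linarith) hr0.le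
    have h3 := mul_le_mul_of_nonneg_left h2 h2J.le
    linarith
  set ε : ℝ := 1 / (2 * 2 ^ J) with hε
  have hε0 : 0 < ε := by positivity
  have hεJ : 2 ^ J * ε = 1 / 2 := by
    rw [hε]
    field_simp
  have hε1 : ε ≤ 1 / 2 := by
    have h1 : 1 * ε ≤ 2 ^ J * ε := mul_le_mul_of_nonneg_right h2J1 hε0.le
    linarith
  obtain ⟨φ, hφ1, hφ⟩ := exists_slow d₁ hr0
  obtain ⟨s, w, y, hst, hw4, hI, hIs⟩ :=
    build hL hm hmr hφ1 hd₁ hd₂ hm₁ hm₂ hr0.le hφ J hε0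
  obtain ⟨K, hsK, hwK, hyK⟩ := hst.tp
  obtain ⟨c, hc0, hc⟩ := hst.pos
  have hs0 : ∀ x, 0 ≤ s x := fun x => hc0.le.trans (hc x).1
  have hw0 : ∀ x, 0 ≤ w x := fun x => hc0.le.trans (hc x).2
  have hpow : (2 : ℝ) ^ (n + 3) + ε ≤ 2 ^ (n + 4) := by
    have h1 : (2 : ℝ) ^ (n + 4) = 2 ^ (n + 3) + 2 ^ (n + 3) := by ring
    have h2 : (1 : ℝ) ≤ 2 ^ (n + 3) := one_le_pow₀ (by norm_num)
    linarith
  have hmono : ∀ {σ : Measure (E n)}, DoublingLe σ (2 ^ (n + 3) + ε) →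
      DoublingLe σ (2 ^ (n + 4)) := by
    intro σ h x t ht
    refine (h x t ht).trans ?_
    gcongr
  refine ⟨s, w, ⟨K, hsK, hwK⟩, ⟨c, hc0, hc⟩, hst.sw, hmono hst.ds, hmono hst.dw, ?_, ?_⟩
  · intro u
    refine (hst.bd u).trans ?_
    exact mul_le_mul_of_nonneg_right (by linarith) (Q_nonneg hs0 u)
  intro hB
  set v : H n := Tr mr (Mr s φ) with hv
  set X : H n := (mr d₁ : ℂ) • Mr s φ + (κ : ℂ) • Mr y φ with hX
  have hvX : ‖X - v‖ ≤ L * r + ε := by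
    rw [norm_sub_rev]
    exact hst.lo
  have hQs : Q s φ ≤ 2 := by
    have : Q s φ ≤ 1 + ε := hIs
    linarith
  have hQs0 : 0 ≤ Q s φ := Q_nonneg hs0 φ
  have hQv : Q w v ≤ 2 * N' := by
    calc Q w v ≤ N * Q s φ := hB φ
      _ ≤ N' * Q s φ := mul_le_mul_of_nonneg_right (le_max_left _ _) hQs0
      _ ≤ N' * 2 := mul_le_mul_of_nonneg_left hQs hN0
      _ = 2 * N' := by ring
  have hQX : √(Q w (X - v)) ≤ 1 := by
    have h1 : Q w (X - v) ≤ 4 ^ J * ‖X - v‖ ^ 2 := Q_le hwK.bmr hw4 _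
    have h2 : (4 : ℝ) ^ J * ‖X - v‖ ^ 2 = (2 ^ J * ‖X - v‖) ^ 2 := by
      rw [mul_pow, ← pow_mul, mul_comm J 2, pow_mul]
      norm_num
    have h3 : 2 ^ J * ‖X - v‖ ≤ 1 := by
      have h4 := mul_le_mul_of_nonneg_left hvX h2J.le
      rw [mul_add, hεJ] at h4
      linarith
    have h5 : 0 ≤ 2 ^ J * ‖X - v‖ := by positivity
    rw [Real.sqrt_le_left (by norm_num)]
    rw [h2] at h1
    nlinarith
  have hQMs : Q w (Mr s φ) ≤ 2 := by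
    refine le_trans ?_ hQs
    rw [Q_Mr hsK.bmr]
    refine Q_mono ?_ hsK.bmr ?_ φ
    · have : (fun x => w x * s x ^ 2) = fun x => w x * (s x * s x) := by
        funext x
        ring
      rw [this]
      exact hwK.bmr.mul (hsK.bmr.mul hsK.bmr)
    · intro x
      have h2 : (s x * w x) * s x ≤ 1 * s x := mul_le_mul_of_nonneg_right (hst.sw x) (hs0 x)
      nlinarith
  have hsq2 : √(Q w (((-mr d₁ : ℝ) : ℂ) • Mr s φ)) ≤ 2 := by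
    rw [Q_smul, Real.sqrt_le_left (by norm_num)]
    have h1 : ‖((-mr d₁ : ℝ) : ℂ)‖ ≤ 1 := by
      rw [Complex.norm_real, Real.norm_eq_abs, abs_neg]
      exact hmr.bdd d₁
    have h2 : ‖((-mr d₁ : ℝ) : ℂ)‖ ^ 2 ≤ 1 := by
      exact pow_le_one₀ (norm_nonneg _) h1
    have h3 : 0 ≤ Q w (Mr s φ) := Q_nonneg hw0 _
    nlinarith
  have hκy : √(Q w ((κ : ℂ) • Mr y φ)) = |κ| * √(Q w (Mr y φ)) := by
    rw [Q_smul, Complex.norm_real, Real.norm_eq_abs, Real.sqrt_mul (by positivity),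
      Real.sqrt_sq (abs_nonneg _)]
  have hdec : (κ : ℂ) • Mr y φ = v + ((X - v) + ((-mr d₁ : ℝ) : ℂ) • Mr s φ) := by
    rw [hX]
    push_cast
    rw [neg_smul]
    abel
  have htri : |κ| * √(Q w (Mr y φ)) ≤ √(2 * N') + (1 + 2) := by
    rw [← hκy, hdec]
    refine (Q_add_le hwK.bmr hw0 _ _).trans ?_
    refine add_le_add (Real.sqrt_le_sqrt hQv) ?_
    refine (Q_add_le hwK.bmr hw0 _ _).trans ?_
    exact add_le_add hQX hsq2
  have hQy : (J : ℝ) / 100 - 1 ≤ Q w (Mr y φ) := by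
    rw [Q_Mr hyK.bmr]
    have : (J : ℝ) / 100 - ε ≤ Q (fun x => w x * y x ^ 2) φ := hI
    linarith
  have hRy : R ≤ √(Q w (Mr y φ)) := by
    apply Real.le_sqrt_of_sq_le
    linarith
  have hfin : |κ| * R ≤ |κ| * √(Q w (Mr y φ)) := mul_le_mul_of_nonneg_left hRy hκ0.le
  rw [hκR] at hfin
  linarith

end Pool.Agent.helper12.RT
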