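import Pool.Agent.helper12.RT.OpsT

/-!
# RT-Weyl: characters and Fourier multipliers (author of the proofs: helper59)

PROOFS.
* `e_*`: elementary (`e ν x = exp (2 π i ⟨ν, x⟩)`).
* `fourier_e`: `𝓕 (e_ν u) = (𝓕 u)(· - ν)`.  Let `τ : H n ≃ₗᵢ H n` be the translation `u ↦ u(· - ν)`
  (`Lp.compMeasurePreservingₗᵢ` with `measurePreserving_sub_right`).  Both sides of `𝓕 (M (e ν) u) = τ (𝓕 u)` are continuous in `u`, and the
  Schwartz functions are dense (`SchwartzMap.denseRange_toLpCLM`, as in the proof of `Lp.fourier_toTemperedDistribution_eq` in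
  `Mathlib/Analysis/Fourier/LpSpace.lean`), so let `u = f.toLp 2`.  `e ν x * f x` is a Schwartz function `f'` (`e ν` has
  temperate growth: `SchwartzMap.bilinLeftCLM` or `SchwartzMap.smulLeftCLM`), `M (e ν) (f.toLp 2) = f'.toLp 2` (a.e.),
  `SchwartzMap.toLp_fourier_eq`, and `𝓕 f' ξ = 𝓕 f (ξ - ν)` pointwise (definition of the Fourier integral,
  `Real.fourier_eq'` or `Real.fourierIntegral_eq'`: the integrand of `𝓕 f' ξ` is `exp (-2 π i ⟨x, ξ⟩) exp (2 π i ⟨ν, x⟩) f x`).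
* `weyl`: `𝓕` of both sides: `m(ξ) (𝓕 u)(ξ - ν)` and `(m(· + ν) 𝓕 u)(ξ - ν)`.
-/

set_option autoImplicit false

open MeasureTheory FourierTransform
open scoped ENNReal InnerProductSpace ComplexConjugate

namespace Pool.Agent.helper12.RT

variable {n : ℕ}

private theorem Weyl_ofReal (ν x : E n) :
    e ν x = Complex.exp (((2 * Real.pi * ⟪ν, x⟫_ℝ : ℝ) : ℂ) * Complex.I) := by
  unfold e
  push_cast
  rfl

private theorem Weyl_deriv (m : ℕ) :
    iteratedDeriv m (fun t : ℝ => Complex.exp (((2 * Real.pi * t : ℝ) : ℂ) * Complex.I)) =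
      fun t : ℝ => (2 * Real.pi * Complex.I) ^ m *
        Complex.exp (((2 * Real.pi * t : ℝ) : ℂ) * Complex.I) := by
  induction m with
  | zero =>
    rw [iteratedDeriv_zero]
    funext t
    rw [pow_zero, one_mul]
  | succ m ih =>
    rw [iteratedDeriv_succ, ih]
    funext t
    have h1 : HasDerivAt (fun t : ℝ => ((2 * Real.pi * t : ℝ) : ℂ) * Complex.I)
        (2 * Real.pi * Complex.I) t := by
      have h2 : HasDerivAt (fun t : ℝ => 2 * Real.pi * t) (2 * Real.pi) t := by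
        simpa using (hasDerivAt_id t).const_mul (2 * Real.pi)
      have h3 := h2.ofReal_comp.mul_const Complex.I
      push_cast at h3 ⊢
      exact h3
    have h4 := (h1.cexp).const_mul ((2 * Real.pi * Complex.I) ^ m : ℂ)
    rw [h4.deriv]
    ring

private theorem Weyl_temp1 :
    Function.HasTemperateGrowth
      (fun t : ℝ => Complex.exp (((2 * Real.pi * t : ℝ) : ℂ) * Complex.I)) := by
  constructor
  · have h1 : ContDiff ℝ (⊤ : ℕ∞) (fun t : ℝ => (((2 * Real.pi * t : ℝ) : ℂ) * Complex.I)) := by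
      have h2 : ContDiff ℝ (⊤ : ℕ∞) (fun t : ℝ => 2 * Real.pi * t) := contDiff_const.mul contDiff_id
      exact (Complex.ofRealCLM.contDiff.comp h2).mul contDiff_const
    exact h1.cexp
  · intro m
    refine ⟨0, (2 * Real.pi) ^ m, fun t => ?_⟩
    rw [norm_iteratedFDeriv_eq_norm_iteratedDeriv, Weyl_deriv, norm_mul,
      Complex.norm_exp_ofReal_mul_I, norm_pow, pow_zero]
    have h3 : ‖(2 * Real.pi * Complex.I : ℂ)‖ = 2 * Real.pi := by
      rw [norm_mul, norm_mul, Complex.norm_I, Complex.norm_real, Real.norm_eq_abs,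
        abs_of_pos Real.pi_pos]
      simp
    rw [h3]

private theorem Weyl_temp (ν : E n) : Function.HasTemperateGrowth (e ν) := by
  have h1 : e ν = (fun t : ℝ => Complex.exp (((2 * Real.pi * t : ℝ) : ℂ) * Complex.I)) ∘
      fun x : E n => ⟪ν, x⟫_ℝ := by
    funext x
    exact Weyl_ofReal ν x
  rw [h1]
  exact Weyl_temp1.comp (Function.hasTemperateGrowth_inner_right ν)

private theorem Weyl_mp (ν : E n) :
    MeasurePreserving (fun ξ : E n => ξ - ν) volume volume :=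
  measurePreserving_sub_right volume ν

private theorem Weyl_schwartz (ν : E n) (f : SchwartzMap (E n) ℂ) (ξ : E n) :
    (𝓕 (SchwartzMap.smulLeftCLM ℂ (e ν) f) : SchwartzMap (E n) ℂ) ξ =
      (𝓕 f : SchwartzMap (E n) ℂ) (ξ - ν) := by
  have h1 : (𝓕 (SchwartzMap.smulLeftCLM ℂ (e ν) f) : SchwartzMap (E n) ℂ) ξ =
      𝓕 (SchwartzMap.smulLeftCLM ℂ (e ν) f : E n → ℂ) ξ := rfl
  have h2 : (𝓕 f : SchwartzMap (E n) ℂ) (ξ - ν) = 𝓕 (f : E n → ℂ) (ξ - ν) := rfl
  rw [h1, h2, Real.fourier_eq', Real.fourier_eq']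
  congr 1
  funext v
  rw [SchwartzMap.smulLeftCLM_apply_apply (Weyl_temp ν), smul_eq_mul, smul_eq_mul, smul_eq_mul,
    ← mul_assoc, Weyl_ofReal, ← Complex.exp_add]
  congr 2
  rw [inner_sub_right, real_inner_comm v ν]
  push_cast
  ring

theorem e_norm (ν x : E n) : ‖e ν x‖ = 1 := by
  rw [Weyl_ofReal, Complex.norm_exp_ofReal_mul_I]

theorem e_mul (ν μ x : E n) : e ν x * e μ x = e (ν + μ) x := by
  rw [Weyl_ofReal, Weyl_ofReal, Weyl_ofReal, ← Complex.exp_add, inner_add_left]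
  congr 1
  push_cast
  ring

theorem e_zero (x : E n) : e 0 x = 1 := by
  rw [Weyl_ofReal, inner_zero_left]
  simp

theorem e_conj (ν x : E n) : conj (e ν x) = e (-ν) x := by
  rw [Weyl_ofReal, Weyl_ofReal, ← Complex.exp_conj, map_mul, Complex.conj_I, Complex.conj_ofReal,
    inner_neg_left]
  congr 1
  push_cast
  ring

theorem e_contDiff (ν : E n) : ContDiff ℝ ⊤ (e ν) := by
  have h1 : e ν = fun x : E n =>
      Complex.exp (((2 * Real.pi * ⟪ν, x⟫_ℝ : ℝ) : ℂ) * Complex.I) := by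
    funext x
    exact Weyl_ofReal ν x
  rw [h1]
  have h2 : ContDiff ℝ ⊤ (fun x : E n => 2 * Real.pi * ⟪ν, x⟫_ℝ) :=
    contDiff_const.mul (contDiff_const.inner ℝ contDiff_id)
  exact ((Complex.ofRealCLM.contDiff.comp h2).mul contDiff_const).cexp

theorem e_bm (ν : E n) : BM (e ν) := by
  exact ⟨(e_contDiff ν).continuous.measurable, 1, fun x => (e_norm ν x).le⟩

theorem fourier_e (ν : E n) (u : H n) :
    ((𝓕 (M (e ν) u) : H n) : E n → ℂ) =ᵐ[volume] fun ξ => (𝓕 u : H n) (ξ - ν) := by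
  have hkey : (𝓕 (M (e ν) u) : H n) =
      Lp.compMeasurePreservingₗᵢ ℂ (fun ξ : E n => ξ - ν) (Weyl_mp ν) (𝓕 u : H n) := by
    refine DenseRange.induction_on (p := fun u : H n => (𝓕 (M (e ν) u) : H n) =
      Lp.compMeasurePreservingₗᵢ ℂ (fun ξ : E n => ξ - ν) (Weyl_mp ν) (𝓕 u : H n))
      (SchwartzMap.denseRange_toLpCLM (p := 2) ENNReal.ofNat_ne_top) u ?_ ?_
    · apply isClosed_eq
      · exact (Lp.fourierTransformₗᵢ (E n) ℂ).continuous.comp (M (e ν)).continuous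
      · exact (LinearIsometry.continuous _).comp (Lp.fourierTransformₗᵢ (E n) ℂ).continuous
    · intro f
      rw [SchwartzMap.toLpCLM_apply]
      have h1 : M (e ν) (f.toLp 2) = (SchwartzMap.smulLeftCLM ℂ (e ν) f).toLp 2 := by
        apply Lp.ext
        filter_upwards [M_apply (e_bm ν) (f.toLp 2), f.coeFn_toLp 2 volume,
          (SchwartzMap.smulLeftCLM ℂ (e ν) f).coeFn_toLp 2 volume] with x h1 h2 h3
        rw [h1, h2, h3, SchwartzMap.smulLeftCLM_apply_apply (Weyl_temp ν), smul_eq_mul]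
      rw [h1, SchwartzMap.toLp_fourier_eq, SchwartzMap.toLp_fourier_eq]
      apply Lp.ext
      have h4 := Lp.coeFn_compMeasurePreserving (p := 2)
        ((𝓕 f : SchwartzMap (E n) ℂ).toLp 2 volume) (Weyl_mp ν)
      have h5 := (Weyl_mp ν).quasiMeasurePreserving.ae_eq_comp
        ((𝓕 f : SchwartzMap (E n) ℂ).coeFn_toLp 2 volume)
      filter_upwards [h4, h5, (𝓕 (SchwartzMap.smulLeftCLM ℂ (e ν) f) :
        SchwartzMap (E n) ℂ).coeFn_toLp 2 volume] with ξ h6 h7 h8
      rw [h8, Weyl_schwartz]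
      refine Eq.trans ?_ h6.symm
      exact h7.symm
  rw [hkey]
  exact Lp.coeFn_compMeasurePreserving (p := 2) (𝓕 u : H n) (Weyl_mp ν)

theorem weyl {m : E n → ℂ} (hm : BM m) (ν : E n) (u : H n) :
    T m (M (e ν) u) = M (e ν) (T (fun ξ => m (ξ + ν)) u) := by
  have hm' : BM (fun ξ => m (ξ + ν)) := by
    obtain ⟨h1, C, hC⟩ := hm
    exact ⟨h1.comp (measurable_id.add_const ν), C, fun ξ => hC _⟩
  apply (Lp.fourierTransformₗᵢ (E n) ℂ).injective
  change (𝓕 (T m (M (e ν) u)) : H n) = 𝓕 (M (e ν) (T (fun ξ => m (ξ + ν)) u))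
  rw [fourier_T]
  apply Lp.ext
  have h1 := M_apply hm (𝓕 (M (e ν) u) : H n)
  have h2 := fourier_e ν u
  have h3 := fourier_e ν (T (fun ξ => m (ξ + ν)) u)
  rw [fourier_T] at h3
  have h4 := (Weyl_mp ν).quasiMeasurePreserving.ae_eq_comp (M_apply hm' (𝓕 u : H n))
  filter_upwards [h1, h2, h3, h4] with ξ h5 h6 h7 h8
  rw [h5, h6, h7]
  refine Eq.trans ?_ h8.symm
  change _ = m (ξ - ν + ν) * _
  rw [sub_add_cancel]

end Pool.Agent.helper12.RT
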